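import Pool.Agent.Lib.MP_8a4e59_co.B.StmA

set_option autoImplicit false

/-!
MP_8a4e59_co, part B: Parseval on `ℤ/K` and the number of large Fourier coefficients.
-/

namespace Pool.Agent.APP.B

open Finset

/-- orthogonality of characters of `ℤ/K` -/
private theorem par_orth (K : ℕ) (hK : 1 ≤ K) (x y : ℤ) (h : (K : ℤ) ∣ x - y → x = y) :
    ∑ k ∈ range K, ee ((k : ℝ) * (((x : ℝ) - y) / K)) = if x = y then (K : ℂ) else 0 := by
  have hK0 : (K : ℝ) ≠ 0 := by exact_mod_cast (by omega : K ≠ 0)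
  split_ifs with hxy
  · subst hxy
    simp [ee_zero]
  · set z := ee (((x : ℝ) - y) / K) with hz
    have hz1 : z ≠ 1 := by
      intro he
      have h1 := four_nn_le (((x : ℝ) - y) / K)
      rw [← hz, he, sub_self, norm_zero] at h1
      have h2 := nn_nonneg (((x : ℝ) - y) / K)
      have h3 : nn (((x : ℝ) - y) / K) = 0 := by linarith
      obtain ⟨m, hm⟩ := (nn_eq_zero_iff _).1 h3
      rw [div_eq_iff hK0] at hm
      apply hxy
      apply h
      refine ⟨m, ?_⟩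
      have : ((x - y : ℤ) : ℝ) = ((K * m : ℤ) : ℝ) := by
        push_cast
        rw [hm, mul_comm]
      exact_mod_cast this
    have hzK : z ^ K = 1 := by
      rw [hz, ← ee_nat_mul, mul_div_cancel₀ _ hK0]
      have := ee_int (x - y)
      push_cast at this
      exact this
    have e : ∑ k ∈ range K, ee ((k : ℝ) * (((x : ℝ) - y) / K)) = ∑ k ∈ range K, z ^ k :=
      sum_congr rfl fun k _ => ee_nat_mul k _
    rw [e, geom_sum_eq hz1, hzK, sub_self, zero_div]

theorem p_par : SB_par := by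
  intro K S F hK hS
  have key : ((∑ k ∈ range K, ‖∑ x ∈ S, F x * ee ((k : ℝ) * x / K)‖ ^ 2 : ℝ) : ℂ) =
      ((K * ∑ x ∈ S, ‖F x‖ ^ 2 : ℝ) : ℂ) := by
    push_cast
    have e1 : ∀ z : ℂ, ((‖z‖ : ℂ)) ^ 2 = z * (starRingEnd ℂ) z := by
      intro z
      rw [Complex.mul_conj, Complex.normSq_eq_norm_sq]
      push_cast
      rfl
    have e2 : ∀ k ∈ range K, ((‖∑ x ∈ S, F x * ee ((k : ℝ) * x / K)‖ : ℂ)) ^ 2 =
        ∑ x ∈ S, ∑ y ∈ S, F x * (starRingEnd ℂ) (F y) * ee ((k : ℝ) * (((x : ℝ) - y) / K)) := by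
      intro k _
      rw [e1, map_sum, sum_mul_sum]
      refine sum_congr rfl fun x _ => sum_congr rfl fun y _ => ?_
      have e3 : (k : ℝ) * (((x : ℝ) - y) / K) = (k : ℝ) * x / K - (k : ℝ) * y / K := by ring
      rw [e3, ee_sub, map_mul]
      ring
    rw [sum_congr rfl e2, sum_comm, mul_sum]
    refine sum_congr rfl fun x hx => ?_
    rw [sum_comm]
    have e4 : ∀ y ∈ S, ∑ k ∈ range K,
        F x * (starRingEnd ℂ) (F y) * ee ((k : ℝ) * (((x : ℝ) - y) / K)) =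
        if x = y then F x * (starRingEnd ℂ) (F y) * K else 0 := by
      intro y hy
      rw [← mul_sum, par_orth K hK x y (hS x hx y hy)]
      split_ifs <;> simp
    rw [sum_congr rfl e4, sum_ite_eq, if_pos hx, e1]
    ring
  exact_mod_cast key

theorem p_T2 : SB_T2 := by
  intro N F d hN hd hF
  have hN0 : (0 : ℝ) < N := by exact_mod_cast hN
  set B := (range (4 * N)).filter (fun k : ℕ => d * N ≤
    ‖∑ x ∈ Finset.Icc (1 : ℤ) N, F x * ee ((k : ℝ) / (4 * N) * x)‖) with hB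
  have h1 := p_par (4 * N) (Finset.Icc (1 : ℤ) N) F (by omega) (by
    intro x hx y hy hdvd
    rw [Finset.mem_Icc] at hx hy
    obtain ⟨m, hm⟩ := hdvd
    push_cast at hm
    have hm0 : m = 0 := by
      by_contra hne
      rcases lt_or_gt_of_ne hne with h | h
      · have : m ≤ -1 := by omega
        nlinarith
      · have : 1 ≤ m := by omega
        nlinarith
    rw [hm0] at hm
    omega)
  have h2 : ∑ x ∈ Finset.Icc (1 : ℤ) N, ‖F x‖ ^ 2 ≤ N := by
    have : ∑ x ∈ Finset.Icc (1 : ℤ) N, ‖F x‖ ^ 2 ≤ ∑ x ∈ Finset.Icc (1 : ℤ) N, (1 : ℝ) :=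
      sum_le_sum fun x _ => pow_le_one₀ (norm_nonneg _) (hF x)
    simpa using this
  have h3 : (B.card : ℝ) * (d * N) ^ 2 ≤
      ∑ k ∈ range (4 * N), ‖∑ x ∈ Finset.Icc (1 : ℤ) N, F x * ee ((k : ℝ) * x / ((4 * N : ℕ) : ℝ))‖ ^ 2 := by
    have h4 : ∑ k ∈ B, (d * N) ^ 2 ≤ ∑ k ∈ B,
        ‖∑ x ∈ Finset.Icc (1 : ℤ) N, F x * ee ((k : ℝ) * x / ((4 * N : ℕ) : ℝ))‖ ^ 2 := by
      refine sum_le_sum fun k hk => ?_
      have h5 := (mem_filter.1 hk).2
      have e : ∀ x : ℤ, (k : ℝ) * x / ((4 * N : ℕ) : ℝ) = (k : ℝ) / (4 * N) * x := by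
        intro x
        push_cast
        ring
      simp only [e]
      exact pow_le_pow_left₀ (by positivity) h5 2
    rw [sum_const, nsmul_eq_mul] at h4
    exact h4.trans (sum_le_sum_of_subset_of_nonneg (filter_subset _ _)
      (fun _ _ _ => by positivity))
  rw [h1] at h3
  have h6 : (B.card : ℝ) * (d * N) ^ 2 ≤ 4 * N * N := by
    refine h3.trans ?_
    push_cast
    nlinarith
  rw [le_div_iff₀ (by positivity)]
  have h7 : (B.card : ℝ) * d ^ 2 * (N : ℝ) ^ 2 ≤ 4 * (N : ℝ) ^ 2 := by nlinarith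
  exact le_of_mul_le_mul_right h7 (by positivity)

end Pool.Agent.APP.B
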