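import Pool.Agent.Lib.MP_8a4e59_co.B.StmS

set_option autoImplicit false

/-!
MP_8a4e59_co, part B: assembly of step 7.
-/

namespace Pool.Agent.APP.B

open Finset

private lemma floor_half7 {x : ℝ} (hx : 1 ≤ x) : x / 2 ≤ (⌊x⌋₊ : ℝ) := by
  have h1 := Nat.lt_floor_add_one x
  have h2 : 1 ≤ ⌊x⌋₊ := (Nat.one_le_floor_iff x).mpr hx
  have h3 : (1 : ℝ) ≤ (⌊x⌋₊ : ℝ) := by exact_mod_cast h2
  linarith

private lemma one_le_mul_pow7 {δ B : ℝ} (h0 : 0 < δ) (hB : 1 / δ ≤ B) (k : ℕ) :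
    1 ≤ δ ^ k * B ^ k := by
  rw [← mul_pow]
  apply one_le_pow₀
  have : δ * (1 / δ) ≤ δ * B := mul_le_mul_of_nonneg_left hB h0.le
  rw [mul_one_div, div_self h0.ne'] at this
  exact this

private lemma card_H0 {N : ℕ} {H₀ : Finset ℤ} (hN : 1 ≤ N) (h : ∀ h ∈ H₀, |h| ≤ (N : ℤ)) :
    (H₀.card : ℝ) ≤ 3 * N := by
  have h1 : H₀ ⊆ Finset.Icc (-(N : ℤ)) N := by
    intro x hx
    rw [mem_Icc]
    exact abs_le.mp (h x hx)
  have h2 := card_le_card h1
  rw [Int.card_Icc] at h2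
  have h3 : H₀.card ≤ 3 * N := by omega
  exact_mod_cast h3

theorem as_7 (hgeo : S_geo) (hprc : S_prc) (hsp : S_split) (h7a : S_7a) (h7b : S_7b) (hU2 : S_U2) :
    S_7 := by
  obtain ⟨KU, hU⟩ := hU2
  refine ⟨8 * KU + 100, ?_⟩
  generalize hK : 8 * KU + 100 = K
  intro d δ N q₀ m X₁ g H₀ φ w c h0 hdδ h1 hq₀ hm hmX hg hB0 hTI hKN
  have hδ0 : 0 < δ := by linarith
  have hδ1 : δ ≤ 1 := by linarith
  have hd2 : d ≤ 1 / 2 := by linarith
  have hd1 : d ≤ 1 := by linarith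
  have hq₀' : (1 : ℝ) ≤ q₀ := by exact_mod_cast hq₀
  have hm' : (1 : ℝ) ≤ m := by exact_mod_cast hm
  have hX₁ : 1 ≤ X₁ := hm'.trans hmX
  have hqX1 : 1 ≤ q₀ * X₁ := by nlinarith
  set B : ℝ := q₀ * X₁ / d with hB
  have hdB : 1 / d ≤ B := by
    rw [hB]
    exact div_le_div_of_nonneg_right hqX1 h0.le
  have hB2 : 2 ≤ B := by
    have : 2 ≤ 1 / d := by
      rw [le_div_iff₀ h0]; linarith
    linarith
  have hB1 : 1 ≤ B := by linarith
  have hBN : ∀ k : ℕ, k ≤ K → B ^ k ≤ N := fun k hk => (pow_le_pow_right₀ hB1 hk).trans hKN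
  have hqXB : q₀ * X₁ ≤ B := by
    rw [hB, le_div_iff₀ h0]
    nlinarith
  have hN1 : (1 : ℝ) ≤ N := le_trans (one_le_pow₀ hB1) (hBN 0 (Nat.zero_le _))
  have hN0 : (0 : ℝ) < N := by linarith
  have hNn : 1 ≤ N := by exact_mod_cast hN1
  set q : ℕ := m * q₀ with hq
  have hqX : (q : ℝ) ≤ q₀ * X₁ := by
    rw [hq]
    push_cast
    rw [mul_comm]
    exact mul_le_mul_of_nonneg_left hmX (by positivity)
  have hqB : (q : ℝ) ≤ B := hqX.trans hqXB
  have hq1 : 1 ≤ q := Nat.mul_pos hm hq₀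
  have hqR : (1 : ℝ) ≤ q := by exact_mod_cast hq1
  have hq0 : (0 : ℝ) < q := by linarith
  -- first length
  set X : ℝ := d * δ * N / 32 with hX
  have hXd : d ^ 7 * N ≤ X := by
    have e1 : d ^ 7 = d * d * d ^ 5 := by ring
    have e2 : d ^ 5 ≤ 1 / 32 := by
      calc d ^ 5 ≤ (1 / 2) ^ 5 := pow_le_pow_left₀ h0.le hd2 5
        _ = 1 / 32 := by norm_num
    rw [e1, hX]
    calc d * d * d ^ 5 * N ≤ d * δ * (1 / 32) * N := by gcongr
      _ = d * δ * N / 32 := by ring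
  have hX1' : B ^ 1 ≤ X := by
    refine le_trans ?_ hXd
    calc B ^ 1 = 1 * B ^ 1 := (one_mul _).symm
      _ ≤ d ^ 7 * B ^ 7 * B ^ 1 :=
          mul_le_mul_of_nonneg_right (one_le_mul_pow7 h0 hdB 7) (by positivity)
      _ = d ^ 7 * B ^ 8 := by ring
      _ ≤ d ^ 7 * N := mul_le_mul_of_nonneg_left (hBN 8 (by omega)) (by positivity)
  rw [pow_one] at hX1'
  have hX1 : 1 ≤ X := hB1.trans hX1'
  obtain ⟨H, hHdef⟩ : ∃ H : ℕ, H = ⌊X⌋₊ := ⟨_, rfl⟩
  have hHX : (H : ℝ) ≤ X := by rw [hHdef]; exact Nat.floor_le (by linarith)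
  have hHX' : X / 2 ≤ H := by rw [hHdef]; exact floor_half7 hX1
  have hqH : q ≤ H := by
    rw [hHdef]
    exact Nat.le_floor (hqB.trans hX1')
  have hqH' : (q : ℝ) ≤ H := by exact_mod_cast hqH
  have hH0 : (0 : ℝ) < H := by linarith
  have h32 : 32 * (H : ℝ) ≤ d * δ * N := by rw [hX] at hHX; linarith
  have hHN' : (H : ℝ) ≤ N := by
    have e1 : d * δ * N ≤ 1 * N :=
      mul_le_mul_of_nonneg_right (mul_le_one₀ hd1 hδ0.le hδ1) hN0.le
    linarith
  have hHN : H ≤ N := by exact_mod_cast hHN'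
  have hmN : m ≤ N := by
    have e1 : m ≤ q := Nat.le_mul_of_pos_right m hq₀
    exact e1.trans (hqH.trans hHN)
  obtain ⟨hw, hc, hsum⟩ := hTI
  set θ : ℤ → ℝ := fun h => (φ h : ℝ) / (4 * N) with hθ
  set F : ℤ → ℂ := fun n => ∑ h ∈ H₀, c h * ((starRingEnd ℂ) (g (n + h)) * ee (θ h * n)) with hF
  have hFb : ∀ n, ‖F n‖ ≤ 3 * N := by
    intro n
    refine (norm_sum_le _ _).trans ?_
    refine le_trans ?_ (card_H0 hNn hB0.1)
    calc ∑ h ∈ H₀, ‖c h * ((starRingEnd ℂ) (g (n + h)) * ee (θ h * n))‖ ≤ ∑ h ∈ H₀, (1 : ℝ) := by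
          apply sum_le_sum
          intro h _
          rw [norm_mul, norm_mul, norm_ee, mul_one, RCLike.norm_conj]
          exact mul_le_one₀ (hc h) (norm_nonneg _) (hg.1 _)
      _ = H₀.card := by simp
  have hsum' : d * ((N : ℝ) ^ 2 / m) ≤ ‖∑ n ∈ Finset.Icc (1 : ℤ) N, w n * F n‖ := by
    refine hsum.trans (le_of_eq ?_)
    congr 1
    simp only [hF, mul_sum]
    rw [sum_comm]
    apply sum_congr rfl
    intro n _
    apply sum_congr rfl
    intro h _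
    simp only [hθ]
    ring
  obtain ⟨b, u, v, huv, hvu, h7⟩ := h7a hprc hsp d δ N q₀ m H w F h0 hd1 hδ0 hδ1 hNn hq₀ hm hmN hqH h32
    hw hFb hsum'
  obtain ⟨h, hh, hcard⟩ := h7b hgeo hprc d N q H b u v g c H₀ θ h0 hd1 hNn hq1 hqH hg hc hB0.1 huv hvu
    h7
  set AA : Finset ℤ := H₀.filter (fun h' => (q : ℤ) ∣ h' - h ∧ |h' - h| ≤ H ∧
      nn (q * (θ h' - θ h)) ≤ 36 * q / (d ^ 2 * H)) with hAA
  -- second length
  set X' : ℝ := d ^ 20 * H with hX'
  have hX'd : d ^ 28 * N ≤ X' := by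
    have e1 : d ^ 28 = d ^ 20 * (d ^ 7 * d) := by ring
    rw [e1, hX', mul_assoc]
    apply mul_le_mul_of_nonneg_left _ (by positivity)
    calc d ^ 7 * d * N = d * (d ^ 7 * N) := by ring
      _ ≤ 1 / 2 * (d ^ 7 * N) := mul_le_mul_of_nonneg_right hd2 (by positivity)
      _ ≤ 1 / 2 * X := mul_le_mul_of_nonneg_left hXd (by norm_num)
      _ ≤ H := by linarith
  have hdN : ∀ i j : ℕ, i + j ≤ K → B ^ i ≤ d ^ j * N := by
    intro i j hij
    calc B ^ i = 1 * B ^ i := (one_mul _).symm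
      _ ≤ d ^ j * B ^ j * B ^ i :=
          mul_le_mul_of_nonneg_right (one_le_mul_pow7 h0 hdB j) (by positivity)
      _ = d ^ j * B ^ (i + j) := by rw [pow_add]; ring
      _ ≤ d ^ j * N := mul_le_mul_of_nonneg_left (hBN _ hij) (by positivity)
  have hX'1 : 1 ≤ X' := by
    have := (hdN 0 28 (by omega)).trans hX'd
    simpa using this
  obtain ⟨H', hH'def⟩ : ∃ H' : ℕ, H' = ⌊X'⌋₊ := ⟨_, rfl⟩
  have hH'X : (H' : ℝ) ≤ X' := by rw [hH'def]; exact Nat.floor_le (by linarith)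
  have hH'X' : X' / 2 ≤ H' := by rw [hH'def]; exact floor_half7 hX'1
  have hH'0 : (0 : ℝ) < H' := by linarith
  have hH'd : d ^ 29 * N ≤ H' := by
    have e1 : d ^ 29 * N = d * (d ^ 28 * N) := by ring
    rw [e1]
    calc d * (d ^ 28 * N) ≤ 1 / 2 * (d ^ 28 * N) :=
          mul_le_mul_of_nonneg_right hd2 (by positivity)
      _ ≤ 1 / 2 * X' := mul_le_mul_of_nonneg_left hX'd (by norm_num)
      _ ≤ H' := by linarith
  have hH'H : H' ≤ H := by
    have : (H' : ℝ) ≤ H := by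
      refine hH'X.trans ?_
      rw [hX']
      exact mul_le_of_le_one_left hH0.le (pow_le_one₀ h0.le hd1)
    exact_mod_cast this
  have hd8 : d ^ 8 ≤ 1 / 2 := by
    calc d ^ 8 ≤ (1 / 2) ^ 8 := pow_le_pow_left₀ h0.le hd2 8
      _ ≤ 1 / 2 := by norm_num
  have hcond : (1 / d ^ 8) ^ KU * q ≤ (H' : ℝ) := by
    refine le_trans ?_ hH'd
    refine le_trans ?_ (hdN (8 * KU + 1) 29 (by omega))
    have e1 : (1 / d ^ 8) ^ KU = (1 / d) ^ (8 * KU) := by
      rw [← one_div_pow, ← pow_mul]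
    rw [e1, pow_succ]
    exact mul_le_mul (pow_le_pow_left₀ (by positivity) hdB _) hqB hq0.le (by positivity)
  have hAAcard : d ^ 8 * ((H : ℝ) / q) ≤ AA.card := by
    refine le_trans ?_ hcard
    apply mul_le_mul_of_nonneg_right _ (by positivity)
    have e1 : d ^ 8 = d ^ 2 * d ^ 6 := by ring
    have e2 : d ^ 6 ≤ 1 / 64 := by
      calc d ^ 6 ≤ (1 / 2) ^ 6 := pow_le_pow_left₀ h0.le hd2 6
        _ = 1 / 64 := by norm_num
    rw [e1, div_eq_mul_one_div]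
    apply mul_le_mul_of_nonneg_left _ (by positivity)
    linarith
  have hphase : 36 * (q : ℝ) / (d ^ 2 * H) ≤ d ^ 8 * q / (20 * H') := by
    rw [div_le_div_iff₀ (by positivity) (by positivity)]
    have e1 : 720 * (H' : ℝ) ≤ d ^ 10 * H := by
      have e2 : d ^ 10 ≤ 1 / 1024 := by
        calc d ^ 10 ≤ (1 / 2) ^ 10 := pow_le_pow_left₀ h0.le hd2 10
          _ = 1 / 1024 := by norm_num
      have e3 : X' = d ^ 10 * (d ^ 10 * H) := by rw [hX']; ring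
      have e4 : d ^ 10 * (d ^ 10 * H) ≤ 1 / 1024 * (d ^ 10 * H) :=
        mul_le_mul_of_nonneg_right e2 (by positivity)
      have e5 : (0 : ℝ) ≤ d ^ 10 * H := by positivity
      linarith
    calc 36 * (q : ℝ) * (20 * H') = q * (720 * H') := by ring
      _ ≤ q * (d ^ 10 * H) := mul_le_mul_of_nonneg_left e1 hq0.le
      _ = d ^ 8 * q * (d ^ 2 * H) := by ring
  obtain ⟨Ξ, hΞ⟩ := hU (d ^ 8) N q H' H q g h (θ h) AA θ (by positivity) hd8 hg hq1 dvd_rfl hq1 hH'H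
    hHN hcond
    (by
      intro a ha
      rw [hAA, mem_filter] at ha
      exact ⟨ha.2.1, ha.2.2.1⟩)
    hAAcard
    (by
      intro a ha
      rw [hAA, mem_filter] at ha
      refine ⟨?_, ha.2.2.2.trans hphase⟩
      refine le_trans ?_ (hB0.2.2 a ha.1)
      apply mul_le_mul_of_nonneg_right _ hN0.le
      calc d ^ 8 ≤ d ^ 1 := pow_le_pow_of_le_one h0.le hd1 (by norm_num)
        _ = d := pow_one d)
  refine ⟨q, H', Ξ, hq1, ?_, ?_, hH'H.trans hHN, ?_⟩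
  · refine hqX.trans (le_mul_of_one_le_left (by linarith) ?_)
    exact one_le_pow₀ (by rw [le_div_iff₀ h0]; linarith)
  · refine le_trans ?_ hH'd
    apply mul_le_mul_of_nonneg_right _ hN0.le
    exact pow_le_pow_of_le_one h0.le hd1 (by omega)
  · refine le_trans ?_ hΞ
    apply mul_le_mul_of_nonneg_right _ (by positivity)
    rw [← pow_mul]
    exact pow_le_pow_of_le_one h0.le hd1 (by omega)

end Pool.Agent.APP.B
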