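import Pool.Agent.Lib.MP_8a4e59_co.B.StmS

set_option autoImplicit false

/-!
MP_8a4e59_co, part B: assembly of step 8.
-/

namespace Pool.Agent.APP.B

open Finset

lemma one_le_inv_pow {δ : ℝ} (h0 : 0 < δ) (h1 : δ ≤ 1) (k : ℕ) : 1 ≤ (1 / δ) ^ k :=
  one_le_pow₀ (by rw [le_div_iff₀ h0]; linarith)

theorem as_8 (hprc : S_prc) (h8a : S_8a) : S_8 := by
  intro K₁
  refine ⟨4 * K₁ + 10, ?_⟩
  intro δ N q₀ X₁ Y g h0 h1 hq₀ hX₁ hg hB hZ hY hYN
  obtain ⟨q, H, ξ, hq, hqX, hHδ, hHN, hsum⟩ := hB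
  set K : ℕ := 4 * K₁ + 10 with hK
  have hδ1 : δ ≤ 1 := by linarith
  have hq₀' : (1 : ℝ) ≤ q₀ := by exact_mod_cast hq₀
  have hqX1 : 1 ≤ q₀ * X₁ := by nlinarith
  set B : ℝ := q₀ * X₁ / δ with hB
  have hBδ : 1 / δ ≤ B := by
    rw [hB]
    exact div_le_div_of_nonneg_right hqX1 h0.le
  have hB2 : 2 ≤ B := by
    have : 2 ≤ 1 / δ := by
      rw [le_div_iff₀ h0]; linarith
    linarith
  have hB1 : 1 ≤ B := by linarith
  have hqB : (q : ℝ) ≤ B ^ (K₁ + 1) := by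
    calc (q : ℝ) ≤ (1 / δ) ^ K₁ * (q₀ * X₁) := hqX
      _ ≤ B ^ K₁ * B := by
          apply mul_le_mul (pow_le_pow_left₀ (by positivity) hBδ _) _ (by linarith) (by positivity)
          rw [hB, le_div_iff₀ h0]
          nlinarith
      _ = B ^ (K₁ + 1) := by ring
  have hqY : (q : ℝ) ≤ Y := hqB.trans ((pow_le_pow_right₀ hB1 (by omega)).trans hY)
  have hN1 : (1 : ℝ) ≤ N := le_trans (one_le_pow₀ hB1) (hY.trans hYN)
  have hN0 : (0 : ℝ) < N := by linarith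
  have hNnat : 1 ≤ N := by exact_mod_cast hN1
  have hBN : B ^ K ≤ N := hY.trans hYN
  have hδB : ∀ k : ℕ, 1 ≤ δ ^ k * B ^ k := by
    intro k
    rw [← mul_pow]
    apply one_le_pow₀
    have : δ * (1 / δ) ≤ δ * B := mul_le_mul_of_nonneg_left hBδ h0.le
    rw [mul_one_div, div_self h0.ne'] at this
    exact this
  have hY1 : 1 ≤ Y := le_trans (one_le_pow₀ hB1) hY
  -- `q` is small against `δ^(2K₁+2) N`
  have hqsmall : (q : ℝ) ≤ δ ^ (2 * K₁ + 2) * N := by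
    have e1 : (q : ℝ) ≤ δ ^ (2 * K₁ + 2) * B ^ (2 * K₁ + 2) * B ^ (K₁ + 1) := by
      calc (q : ℝ) ≤ 1 * B ^ (K₁ + 1) := by rw [one_mul]; exact hqB
        _ ≤ _ := mul_le_mul_of_nonneg_right (hδB _) (by positivity)
    have e2 : B ^ (2 * K₁ + 2) * B ^ (K₁ + 1) ≤ N := by
      rw [← pow_add]
      exact (pow_le_pow_right₀ hB1 (by omega)).trans hBN
    calc (q : ℝ) ≤ δ ^ (2 * K₁ + 2) * B ^ (2 * K₁ + 2) * B ^ (K₁ + 1) := e1
      _ = δ ^ (2 * K₁ + 2) * (B ^ (2 * K₁ + 2) * B ^ (K₁ + 1)) := by ring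
      _ ≤ _ := mul_le_mul_of_nonneg_left e2 (by positivity)
  have hδpow : ∀ {i j : ℕ}, i ≤ j → δ ^ j ≤ δ ^ i := fun h => pow_le_pow_of_le_one h0.le hδ1 h
  have hqH : (q : ℝ) ≤ δ ^ (K₁ + 2) * H := by
    calc (q : ℝ) ≤ δ ^ (2 * K₁ + 2) * N := hqsmall
      _ = δ ^ (K₁ + 2) * (δ ^ K₁ * N) := by rw [← mul_assoc, ← pow_add]; congr 2; omega
      _ ≤ _ := mul_le_mul_of_nonneg_left hHδ (by positivity)
  have hqR : (1 : ℝ) ≤ q := by exact_mod_cast hq
  have hq0 : (0 : ℝ) < q := by linarith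
  have hH0 : (0 : ℝ) ≤ H := Nat.cast_nonneg _
  have hqH' : q ≤ H := by
    have : (q : ℝ) ≤ H := hqH.trans (mul_le_of_le_one_left hH0 (pow_le_one₀ h0.le hδ1))
    exact_mod_cast this
  have hHpos : (0 : ℝ) < H := by
    have : (q : ℝ) ≤ H := by exact_mod_cast hqH'
    linarith
  -- mass of the non coprime classes
  have hZ1 := hZ 1 q N 0 0 le_rfl (by exact_mod_cast hY1) hq hqY (div_le_self hN0.le hY1)
    (by simp)
  have hZ2 : ∑ x ∈ (Finset.Ioc (0 : ℤ) N).filter (fun x => 1 < Int.gcd x q), ‖g x‖ ≤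
      δ ^ K₁ / 4 * N := by
    refine le_trans (le_of_eq ?_) (hZ1.trans ?_)
    · rw [zero_add]
      apply sum_congr _ (fun _ _ => rfl)
      ext x
      simp
    · rw [Nat.cast_one, div_one]
      apply mul_le_mul_of_nonneg_right _ hN0.le
      have e1 : δ ^ K ≤ δ ^ (K₁ + 2) := hδpow (by omega)
      have e2 : δ ^ (K₁ + 2) = δ ^ K₁ * δ ^ 2 := pow_add _ _ _
      have e3 : δ ^ 2 ≤ 1 / 4 := by nlinarith
      have e4 : δ ^ K₁ * δ ^ 2 ≤ δ ^ K₁ * (1 / 4) := mul_le_mul_of_nonneg_left e3 (by positivity)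
      linarith
  obtain ⟨j, a, hj, hga, hbig⟩ := h8a hprc (δ ^ K₁) N q H ξ g (by positivity) hg hq hqH' hHN hZ2 hsum
  -- the size of the sum
  have hΓ : δ ^ (K₁ + 1) * (H / q) ≤ gam q H ξ g j a := by
    apply (pow_le_pow_iff_left₀ (by positivity) (norm_nonneg _) two_ne_zero).mp
    refine le_trans ?_ hbig
    rw [mul_pow]
    apply mul_le_mul_of_nonneg_right _ (by positivity)
    have e1 : (δ ^ (K₁ + 1)) ^ 2 = δ ^ K₁ * (δ ^ K₁ * δ ^ 2) := by ring
    have e3 : δ ^ 2 ≤ 1 / 4 := by nlinarith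
    have e4 : δ ^ K₁ ≤ 1 := pow_le_one₀ h0.le hδ1
    have e5 : δ ^ K₁ * δ ^ 2 ≤ 1 / 4 := by
      calc δ ^ K₁ * δ ^ 2 ≤ 1 * (1 / 4) := mul_le_mul e4 e3 (by positivity) (by norm_num)
        _ = 1 / 4 := by ring
    rw [e1]
    calc δ ^ K₁ * (δ ^ K₁ * δ ^ 2) ≤ δ ^ K₁ * (1 / 4) :=
          mul_le_mul_of_nonneg_left e5 (by positivity)
      _ = δ ^ K₁ / 4 := by ring
  have hjH : j * H ≤ N := le_trans (Nat.mul_le_mul_right _ hj) (Nat.div_mul_le_self _ _)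
  set H' : ℕ := min H (N - j * H) with hH'
  have hH'le : H' ≤ H := min_le_left _ _
  -- cutting at `N`
  have hcut : ∑ x ∈ pr q a ((j * H : ℕ) : ℤ) (((j + 1) * H : ℕ) : ℤ), g x * ee (ξ j a * x) =
      ∑ x ∈ pr q a ((j * H : ℕ) : ℤ) (((j * H : ℕ) : ℤ) + H'), g x * ee (ξ j a * x) := by
    symm
    apply sum_subset
    · intro x hx
      unfold pr at hx ⊢
      rw [mem_filter, mem_Ioc] at hx ⊢
      refine ⟨⟨hx.1.1, hx.1.2.trans ?_⟩, hx.2⟩
      have : (H' : ℤ) ≤ H := by exact_mod_cast hH'le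
      push_cast
      nlinarith
    · intro x hx hx'
      unfold pr at hx hx'
      rw [mem_filter, mem_Ioc] at hx hx'
      have hgt : ((j * H : ℕ) : ℤ) + H' < x := by
        by_contra hcon
        exact hx' ⟨⟨hx.1.1, not_lt.mp hcon⟩, hx.2⟩
      have hxN : (N : ℤ) < x := by
        rcases min_choice H (N - j * H) with h | h
        · exfalso
          rw [hH', h] at hgt
          have := hx.1.2
          push_cast at this hgt
          nlinarith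
        · rw [hH', h] at hgt
          have : ((N - j * H : ℕ) : ℤ) = N - (j * H : ℕ) := by
            push_cast [hjH]
            rfl
          rw [this] at hgt
          linarith
      have hgx : g x = 0 := by
        by_contra hne
        have := (hg.2 x hne).2
        omega
      rw [hgx, zero_mul]
  have hΓ' : δ ^ (K₁ + 1) * (H / q) ≤
      ‖∑ x ∈ pr q a ((j * H : ℕ) : ℤ) (((j * H : ℕ) : ℤ) + H'), g x * ee (ξ j a * x)‖ := by
    rw [← hcut]
    exact hΓ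
  have hcard : ‖∑ x ∈ pr q a ((j * H : ℕ) : ℤ) (((j * H : ℕ) : ℤ) + H'), g x * ee (ξ j a * x)‖ ≤
      (H' : ℝ) / q + 1 := by
    have e1 := (hprc.1 q a ((j * H : ℕ) : ℤ) (((j * H : ℕ) : ℤ) + H') hq
      (by have : (0 : ℤ) ≤ H' := Int.natCast_nonneg _; linarith)).1
    have e2 : ‖∑ x ∈ pr q a ((j * H : ℕ) : ℤ) (((j * H : ℕ) : ℤ) + H'), g x * ee (ξ j a * x)‖ ≤
        ((pr q a ((j * H : ℕ) : ℤ) (((j * H : ℕ) : ℤ) + H')).card : ℝ) := by
      refine (norm_sum_le _ _).trans ?_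
      calc ∑ x ∈ pr q a ((j * H : ℕ) : ℤ) (((j * H : ℕ) : ℤ) + H'), ‖g x * ee (ξ j a * x)‖
          ≤ ∑ x ∈ pr q a ((j * H : ℕ) : ℤ) (((j * H : ℕ) : ℤ) + H'), (1 : ℝ) := by
            apply sum_le_sum
            intro x _
            rw [norm_mul, norm_ee, mul_one]
            exact hg.1 x
        _ = _ := by simp
    refine e2.trans (e1.trans (le_of_eq ?_))
    push_cast
    ring
  have hH'big : δ ^ (K₁ + 2) * H ≤ H' := by
    have e1 : δ ^ (K₁ + 1) * (H / q) ≤ (H' : ℝ) / q + 1 := hΓ'.trans hcard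
    have e2 : δ ^ (K₁ + 1) * H ≤ H' + q := by
      have := mul_le_mul_of_nonneg_right e1 hq0.le
      rw [add_mul, div_mul_cancel₀ _ hq0.ne', mul_assoc, div_mul_cancel₀ _ hq0.ne', one_mul] at this
      exact this
    have e3 : δ ^ (K₁ + 2) * H = δ * (δ ^ (K₁ + 1) * H) := by ring
    have e4 : δ * (δ ^ (K₁ + 1) * H) ≤ 1 / 2 * (δ ^ (K₁ + 1) * H) :=
      mul_le_mul_of_nonneg_right h1 (by positivity)
    rw [e3] at hqH ⊢
    linarith
  refine ⟨q, H', a, ((j * H : ℕ) : ℤ), ξ j a, hq, ?_, ?_, Int.natCast_nonneg _, ?_, hga, ?_⟩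
  · refine hqX.trans (mul_le_mul_of_nonneg_right ?_ (by linarith))
    exact pow_le_pow_right₀ (by rw [le_div_iff₀ h0]; linarith) (by omega)
  · calc δ ^ K * N ≤ δ ^ (2 * K₁ + 2) * N :=
          mul_le_mul_of_nonneg_right (hδpow (by omega)) hN0.le
      _ = δ ^ (K₁ + 2) * (δ ^ K₁ * N) := by rw [← mul_assoc, ← pow_add]; congr 2; omega
      _ ≤ δ ^ (K₁ + 2) * H := mul_le_mul_of_nonneg_left hHδ (by positivity)
      _ ≤ H' := hH'big
  · have e1 : H' ≤ N - j * H := min_le_right _ _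
    have e2 : ((j * H : ℕ) : ℤ) + H' ≤ N := by
      have : j * H + H' ≤ N := by omega
      exact_mod_cast this
    exact e2
  · refine le_trans ?_ hΓ'
    have e1 : (H' : ℝ) ≤ H := by exact_mod_cast hH'le
    apply mul_le_mul (hδpow (by omega)) (div_le_div_of_nonneg_right e1 hq0.le) (by positivity)
      (by positivity)

end Pool.Agent.APP.B
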