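import Pool.Agent.Lib.MP_8a4e59_co.B.StmS

set_option autoImplicit false

/-!
MP_8a4e59_co, part B: assembly of step 9.
-/

namespace Pool.Agent.APP.B

open Finset

private lemma floor_half {x : ℝ} (hx : 1 ≤ x) : x / 2 ≤ (⌊x⌋₊ : ℝ) := by
  have h1 := Nat.lt_floor_add_one x
  have h2 : 1 ≤ ⌊x⌋₊ := (Nat.one_le_floor_iff x).mpr hx
  have h3 : (1 : ℝ) ≤ (⌊x⌋₊ : ℝ) := by exact_mod_cast h2
  linarith

private lemma one_le_mul_pow {δ B : ℝ} (h0 : 0 < δ) (hB : 1 / δ ≤ B) (k : ℕ) :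
    1 ≤ δ ^ k * B ^ k := by
  rw [← mul_pow]
  apply one_le_pow₀
  have : δ * (1 / δ) ≤ δ * B := mul_le_mul_of_nonneg_left hB h0.le
  rw [mul_one_div, div_self h0.ne'] at this
  exact this

/-- type I alternative -/
private lemma as9_I (hgeo : S_geo) (hprc : S_prc) (hsp : S_split) (h9I : S_9I) {K₁ N q₀ q H m : ℕ}
    {δ ξ B : ℝ} {a u : ℤ} {w : ℤ → ℂ} (h0 : 0 < δ) (h1 : δ ≤ 1 / 2) (hB2 : 2 ≤ B) (hδB : 1 / δ ≤ B)
    (hN : B ^ (3 * K₁ + 11) ≤ N) (hq₀ : 1 ≤ q₀) (hq₀B : (q₀ : ℝ) ≤ B) (hm : 1 ≤ m)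
    (hmB : (m : ℝ) ≤ B) (hq : 1 ≤ q) (hqB : (q : ℝ) ≤ B ^ (K₁ + 1)) (hH : δ ^ K₁ * N ≤ H)
    (hga : Int.gcd a q = 1) (hw : TypeI δ N q₀ m w)
    (hbig : δ * (δ ^ K₁ * (H / q)) / 4 / m ≤ ‖∑ x ∈ pr q a u (u + H), w x * ee (ξ * x)‖) :
    ∃ q₃ : ℕ, 1 ≤ q₃ ∧ q ∣ q₃ ∧ (q₃ : ℝ) ≤ B ^ (4 * K₁ + 18) ∧
      nn (q₃ * ξ) ≤ q₃ * ((1 / δ) ^ (8 * K₁ + 46) / N) := by
  have hδ1 : δ ≤ 1 := by linarith
  have hB1 : 1 ≤ B := by linarith
  have hB0 : 0 < B := by linarith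
  have hN1 : (1 : ℝ) ≤ N := le_trans (one_le_pow₀ hB1) hN
  have hN0 : (0 : ℝ) < N := by linarith
  have hNn : 1 ≤ N := by exact_mod_cast hN1
  have hb1 : 1 ≤ 1 / δ := by rw [le_div_iff₀ h0]; linarith
  have hqR : (1 : ℝ) ≤ q := by exact_mod_cast hq
  have hmR : (1 : ℝ) ≤ m := by exact_mod_cast hm
  set d : ℝ := δ ^ (K₁ + 3) with hd
  have hd0 : 0 < d := by positivity
  have hd1 : d ≤ 1 := pow_le_one₀ h0.le hδ1
  set X : ℝ := δ ^ (2 * K₁ + 4) * N / 16 with hX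
  have hqm : ((q * m * q₀ : ℕ) : ℝ) ≤ B ^ (K₁ + 3) := by
    push_cast
    calc (q : ℝ) * m * q₀ ≤ B ^ (K₁ + 1) * B * B := by gcongr
      _ = B ^ (K₁ + 3) := by ring
  have hXbig : B ^ (K₁ + 3) ≤ X := by
    have e1 : (1 : ℝ) ≤ δ ^ (2 * K₁ + 8) * B ^ (2 * K₁ + 8) := one_le_mul_pow h0 hδB _
    have e2 : δ ^ (2 * K₁ + 8) ≤ δ ^ (2 * K₁ + 4) / 16 := by
      have : δ ^ (2 * K₁ + 8) = δ ^ (2 * K₁ + 4) * δ ^ 4 := by ring
      rw [this, div_eq_mul_one_div]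
      apply mul_le_mul_of_nonneg_left _ (by positivity)
      calc δ ^ 4 ≤ (1 / 2) ^ 4 := pow_le_pow_left₀ h0.le h1 4
        _ = 1 / 16 := by norm_num
    calc B ^ (K₁ + 3) = 1 * B ^ (K₁ + 3) := (one_mul _).symm
      _ ≤ δ ^ (2 * K₁ + 8) * B ^ (2 * K₁ + 8) * B ^ (K₁ + 3) :=
          mul_le_mul_of_nonneg_right e1 (by positivity)
      _ = δ ^ (2 * K₁ + 8) * B ^ (3 * K₁ + 11) := by
          rw [mul_assoc, ← pow_add]; congr 2; omega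
      _ ≤ δ ^ (2 * K₁ + 4) / 16 * N := mul_le_mul e2 hN (by positivity) (by positivity)
      _ = X := by rw [hX]; ring
  have hX1 : 1 ≤ X := le_trans (one_le_pow₀ hB1) hXbig
  set H₂ : ℕ := ⌊X⌋₊ with hH₂
  have hH₂X : (H₂ : ℝ) ≤ X := Nat.floor_le (by linarith)
  have hH₂X' : X / 2 ≤ H₂ := floor_half hX1
  have hqH₂ : q * m * q₀ ≤ H₂ := Nat.le_floor (hqm.trans hXbig)
  have hH0 : (0 : ℝ) ≤ H := Nat.cast_nonneg _
  have hlow : d * (H / (q * m)) ≤ ‖∑ x ∈ pr q a u (u + H), w x * ee (ξ * x)‖ := by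
    refine le_trans ?_ hbig
    have e1 : d ≤ δ * δ ^ K₁ / 4 := by
      have : d = δ * δ ^ K₁ * δ ^ 2 := by rw [hd]; ring
      rw [this, div_eq_mul_one_div]
      apply mul_le_mul_of_nonneg_left _ (by positivity)
      calc δ ^ 2 ≤ (1 / 2) ^ 2 := pow_le_pow_left₀ h0.le h1 2
        _ = 1 / 4 := by norm_num
    calc d * (H / (q * m)) ≤ δ * δ ^ K₁ / 4 * (H / (q * m)) :=
          mul_le_mul_of_nonneg_right e1 (by positivity)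
      _ = δ * (δ ^ K₁ * (H / q)) / 4 / m := by
          field_simp
  have h16a : 16 * (H₂ : ℝ) ≤ d * δ * N := by
    calc 16 * (H₂ : ℝ) ≤ 16 * X := by linarith
      _ = d * δ * N * δ ^ K₁ := by rw [hX, hd]; ring
      _ ≤ d * δ * N * 1 := mul_le_mul_of_nonneg_left (pow_le_one₀ h0.le hδ1) (by positivity)
      _ = d * δ * N := mul_one _
  have h16b : 16 * (H₂ : ℝ) ≤ d * H := by
    calc 16 * (H₂ : ℝ) ≤ 16 * X := by linarith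
      _ = d * (δ ^ K₁ * N) * δ := by rw [hX, hd]; ring
      _ ≤ d * (δ ^ K₁ * N) * 1 := mul_le_mul_of_nonneg_left hδ1 (by positivity)
      _ ≤ d * H := by rw [mul_one]; exact mul_le_mul_of_nonneg_left hH hd0.le
  have hres := h9I hgeo hprc hsp δ d ξ N q₀ m q H H₂ a u w h0 hδ1 hd0 hd1 hNn hq₀ hm hq hga hw hlow
    hqH₂ h16a h16b
  refine ⟨q * m * q₀, Nat.mul_pos (Nat.mul_pos hq hm) hq₀, ⟨m * q₀, by ring⟩,
    hqm.trans (pow_le_pow_right₀ hB1 (by omega)), hres.trans ?_⟩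
  have hq30 : (0 : ℝ) ≤ ((q * m * q₀ : ℕ) : ℝ) := Nat.cast_nonneg _
  have hH₂0 : (0 : ℝ) < H₂ := by linarith
  rw [div_eq_mul_inv]
  apply mul_le_mul_of_nonneg_left _ hq30
  rw [inv_eq_one_div, div_le_div_iff₀ (by positivity) hN0, one_mul]
  -- N ≤ (1/δ)^(8K₁+46) * (d * H₂)
  have e1 : δ ^ (3 * K₁ + 12) * N ≤ d * H₂ := by
    have e2 : d * (X / 2) ≤ d * H₂ := mul_le_mul_of_nonneg_left hH₂X' hd0.le
    refine le_trans ?_ e2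
    have e3 : d * (X / 2) = δ ^ (3 * K₁ + 7) * N * (1 / 32) := by rw [hX, hd]; ring
    have e4 : δ ^ (3 * K₁ + 12) * N = δ ^ (3 * K₁ + 7) * N * δ ^ 5 := by ring
    rw [e3, e4]
    apply mul_le_mul_of_nonneg_left _ (by positivity)
    calc δ ^ 5 ≤ (1 / 2) ^ 5 := pow_le_pow_left₀ h0.le h1 5
      _ = 1 / 32 := by norm_num
  have e5 : (1 / δ) ^ (8 * K₁ + 46) * δ ^ (3 * K₁ + 12) = (1 / δ) ^ (5 * K₁ + 34) := by
    have : 8 * K₁ + 46 = (5 * K₁ + 34) + (3 * K₁ + 12) := by omega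
    rw [this, pow_add, mul_assoc, ← mul_pow, one_div, inv_mul_cancel₀ h0.ne', one_pow, mul_one]
  calc (N : ℝ) = 1 * N := (one_mul _).symm
    _ ≤ (1 / δ) ^ (5 * K₁ + 34) * N := mul_le_mul_of_nonneg_right (one_le_pow₀ hb1) hN0.le
    _ = (1 / δ) ^ (8 * K₁ + 46) * (δ ^ (3 * K₁ + 12) * N) := by rw [← e5]; ring
    _ ≤ (1 / δ) ^ (8 * K₁ + 46) * (d * H₂) := mul_le_mul_of_nonneg_left e1 (by positivity)

/-- type II alternative -/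
private lemma as9_II (hgeo : S_geo) (hprc : S_prc) (ha1 : S_9a1) (ha2 : S_9a2) (ha3 : S_9a3)
    (ha : S_9a) (hb : S_9b) (hT : S_T3v) {K₁ N q H M : ℕ} {δ ξ B B₁ : ℝ} {a u : ℤ} {α β : ℕ → ℂ}
    (h0 : 0 < δ) (h1 : δ ≤ 1 / 2) (hB₁ : 2 ≤ B₁) (hδB₁ : 1 / δ ≤ B₁) (hB₁B : B₁ ≤ B)
    (hN : B ^ (12 * K₁ + 72) ≤ N) (hq : 1 ≤ q) (hqB : (q : ℝ) ≤ B₁ ^ (K₁ + 1))
    (hH : δ ^ K₁ * N ≤ H) (hu : 0 ≤ u) (huH : u + H ≤ N) (hga : Int.gcd a q = 1)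
    (hM : B₁ ^ (6 * K₁ + 33) ≤ M) (hMN : M ^ 2 ≤ 4 * N) (hα : ∀ k, ‖α k‖ ≤ 1 / δ)
    (hβ : ∀ k, ‖β k‖ ≤ 1 / δ)
    (hbig : δ * (δ ^ K₁ * (H / q)) / 4 ≤ ‖∑ x ∈ pr q a u (u + H),
      (if δ * N ≤ (x : ℝ) then typeII M α β x else 0) * ee (ξ * x)‖) :
    ∃ q₃ : ℕ, 1 ≤ q₃ ∧ q ∣ q₃ ∧ (q₃ : ℝ) ≤ B ^ (4 * K₁ + 18) ∧
      nn (q₃ * ξ) ≤ q₃ * ((1 / δ) ^ (8 * K₁ + 46) / N) := by
  have hδ1 : δ ≤ 1 := by linarith
  have hB₁1 : 1 ≤ B₁ := by linarith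
  have hB1 : 1 ≤ B := by linarith
  have hB0 : 0 < B := by linarith
  have hδB : 1 / δ ≤ B := hδB₁.trans hB₁B
  have hN1 : (1 : ℝ) ≤ N := le_trans (one_le_pow₀ hB1) hN
  have hN0 : (0 : ℝ) < N := by linarith
  have hNn : 1 ≤ N := by exact_mod_cast hN1
  have hb1 : 1 ≤ 1 / δ := by rw [le_div_iff₀ h0]; linarith
  have hqR : (1 : ℝ) ≤ q := by exact_mod_cast hq
  have hq0 : (0 : ℝ) < q := by linarith
  have hMR : (1 : ℝ) ≤ M := le_trans (one_le_pow₀ hB₁1) hM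
  have hM0 : (0 : ℝ) < M := by linarith
  have hMn : 1 ≤ M := by exact_mod_cast hMR
  have hH0 : (0 : ℝ) ≤ H := Nat.cast_nonneg _
  have hHpos : (0 : ℝ) < H := lt_of_lt_of_le (by positivity) hH
  set d : ℝ := δ ^ (K₁ + 3) with hd
  have hd0 : 0 < d := by positivity
  have hd1 : d ≤ 1 := pow_le_one₀ h0.le hδ1
  have hqB' : (q : ℝ) ≤ B ^ (K₁ + 1) := hqB.trans (pow_le_pow_left₀ (by linarith) hB₁B _)
  -- lower bound of the sum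
  have hlow : d * (H / q) ≤ ‖∑ x ∈ pr q a u (u + H),
      (if δ * N ≤ (x : ℝ) then typeII M α β x else 0) * ee (ξ * x)‖ := by
    refine le_trans ?_ hbig
    have e1 : d ≤ δ * δ ^ K₁ / 4 := by
      have : d = δ * δ ^ K₁ * δ ^ 2 := by rw [hd]; ring
      rw [this, div_eq_mul_one_div]
      apply mul_le_mul_of_nonneg_left _ (by positivity)
      calc δ ^ 2 ≤ (1 / 2) ^ 2 := pow_le_pow_left₀ h0.le h1 2
        _ = 1 / 4 := by norm_num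
    calc d * (H / q) ≤ δ * δ ^ K₁ / 4 * (H / q) :=
          mul_le_mul_of_nonneg_right e1 (by positivity)
      _ = δ * (δ ^ K₁ * (H / q)) / 4 := by ring
  -- `M` is large: `B₁^(k) ≤ δ^(..) M`
  have hMbig : ∀ i j : ℕ, i + j ≤ 6 * K₁ + 33 → B₁ ^ i ≤ δ ^ j * M := by
    intro i j hij
    have e1 : (1 : ℝ) ≤ δ ^ j * B₁ ^ j := one_le_mul_pow h0 hδB₁ _
    calc B₁ ^ i = 1 * B₁ ^ i := (one_mul _).symm
      _ ≤ δ ^ j * B₁ ^ j * B₁ ^ i := mul_le_mul_of_nonneg_right e1 (by positivity)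
      _ = δ ^ j * B₁ ^ (i + j) := by rw [pow_add]; ring
      _ ≤ δ ^ j * M := mul_le_mul_of_nonneg_left
          ((pow_le_pow_right₀ hB₁1 hij).trans hM) (by positivity)
  have hcond0 : δ * q * N ≤ 2 * H * M := by
    have e1 : (q : ℝ) ≤ δ ^ K₁ * M := hqB.trans (hMbig (K₁ + 1) K₁ (by omega))
    have e2 : (q : ℝ) * N ≤ H * M := by
      calc (q : ℝ) * N ≤ δ ^ K₁ * M * N := mul_le_mul_of_nonneg_right e1 hN0.le
        _ = δ ^ K₁ * N * M := by ring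
        _ ≤ H * M := mul_le_mul_of_nonneg_right hH hM0.le
    have e3 : δ * q * N ≤ 1 * (q * N) := by
      rw [mul_assoc]
      exact mul_le_mul_of_nonneg_right hδ1 (by positivity)
    have e4 : (0 : ℝ) ≤ H * M := by positivity
    linarith
  obtain ⟨G, hG1, hG2⟩ := ha hgeo hprc ha1 ha2 ha3 δ d ξ N q H M a u α β h0 hδ1 hd0 hq hMn hNn hu huH
    hga hα hβ hcond0 hlow
  -- conditions of S_9b
  have hd4 : d ^ 4 * δ ^ 10 = δ ^ (4 * K₁ + 22) := by rw [hd]; ring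
  have hcond1 : (q * M : ℝ) * (4096 / (d ^ 4 * δ ^ 10)) ≤ H := by
    rw [hd4]
    refine le_trans ?_ hH
    rw [mul_div_assoc', div_le_iff₀ (by positivity)]
    have e0 : δ ^ K₁ * N * δ ^ (4 * K₁ + 22) = δ ^ (5 * K₁ + 22) * N := by
      rw [show 5 * K₁ + 22 = K₁ + (4 * K₁ + 22) by omega, pow_add]; ring
    rw [e0]
    -- Z := 4096 q, Z M ≤ δ^(5K₁+22) N
    have e1 : (4096 : ℝ) * q ≤ B ^ (K₁ + 13) := by
      calc (4096 : ℝ) * q ≤ B ^ 12 * B ^ (K₁ + 1) := by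
            apply mul_le_mul _ hqB' hq0.le (by positivity)
            calc (4096 : ℝ) = 2 ^ 12 := by norm_num
              _ ≤ B ^ 12 := pow_le_pow_left₀ (by norm_num) (by linarith) 12
        _ = B ^ (K₁ + 13) := by ring
    have e2 : ((q * M : ℝ) * 4096) ^ 2 ≤ (δ ^ (5 * K₁ + 22) * N) ^ 2 := by
      have e3 : ((M : ℝ)) ^ 2 ≤ 4 * N := by exact_mod_cast hMN
      have e4 : (4 : ℝ) ≤ B ^ 2 := by nlinarith
      calc ((q * M : ℝ) * 4096) ^ 2 = (4096 * q) ^ 2 * M ^ 2 := by ring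
        _ ≤ (B ^ (K₁ + 13)) ^ 2 * (4 * N) := by
            apply mul_le_mul (pow_le_pow_left₀ (by positivity) e1 2) e3 (by positivity)
              (by positivity)
        _ ≤ (B ^ (K₁ + 13)) ^ 2 * (B ^ 2 * N) := by
            apply mul_le_mul_of_nonneg_left _ (by positivity)
            exact mul_le_mul_of_nonneg_right e4 hN0.le
        _ = B ^ (2 * K₁ + 28) * N := by ring
        _ = 1 * (B ^ (2 * K₁ + 28) * N) := (one_mul _).symm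
        _ ≤ δ ^ (10 * K₁ + 44) * B ^ (10 * K₁ + 44) * (B ^ (2 * K₁ + 28) * N) :=
            mul_le_mul_of_nonneg_right (one_le_mul_pow h0 hδB _) (by positivity)
        _ = δ ^ (10 * K₁ + 44) * B ^ (12 * K₁ + 72) * N := by
            rw [show 12 * K₁ + 72 = (10 * K₁ + 44) + (2 * K₁ + 28) by omega, pow_add]; ring
        _ ≤ δ ^ (10 * K₁ + 44) * N * N := by
            apply mul_le_mul_of_nonneg_right _ hN0.le
            exact mul_le_mul_of_nonneg_left hN (by positivity)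
        _ = (δ ^ (5 * K₁ + 22) * N) ^ 2 := by
            rw [mul_pow, ← pow_mul]
            rw [show (5 * K₁ + 22) * 2 = 10 * K₁ + 44 by ring]
            ring
    exact (pow_le_pow_iff_left₀ (by positivity) (by positivity) two_ne_zero).mp e2
  have hd9 : d ^ 4 * δ ^ 9 = δ ^ (4 * K₁ + 21) := by rw [hd]; ring
  have hcond2 : 1536 * q * N / (d ^ 4 * δ ^ 9) ≤ (H : ℝ) * M := by
    rw [hd9, div_le_iff₀ (by positivity)]
    have e1 : (1536 : ℝ) * q ≤ B₁ ^ (K₁ + 12) := by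
      calc (1536 : ℝ) * q ≤ B₁ ^ 11 * B₁ ^ (K₁ + 1) := by
            apply mul_le_mul _ hqB hq0.le (by positivity)
            calc (1536 : ℝ) ≤ 2 ^ 11 := by norm_num
              _ ≤ B₁ ^ 11 := pow_le_pow_left₀ (by norm_num) hB₁ 11
        _ = B₁ ^ (K₁ + 12) := by ring
    have e2 : B₁ ^ (K₁ + 12) ≤ δ ^ (5 * K₁ + 21) * M := hMbig _ _ (by omega)
    calc 1536 * q * N ≤ δ ^ (5 * K₁ + 21) * M * N :=
          mul_le_mul_of_nonneg_right (e1.trans e2) hN0.le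
      _ = δ ^ K₁ * N * M * δ ^ (4 * K₁ + 21) := by
          rw [show 5 * K₁ + 21 = K₁ + (4 * K₁ + 21) by omega, pow_add]; ring
      _ ≤ (H : ℝ) * M * δ ^ (4 * K₁ + 21) := by
          apply mul_le_mul_of_nonneg_right _ (by positivity)
          exact mul_le_mul_of_nonneg_right hH hM0.le
  obtain ⟨q₁, hq₁, hq₁b, hnn⟩ := hb hT δ d ξ N q H M G h0 hδ1 hd0 hd1 hq hMn hNn hcond1 hcond2 hG1 hG2
  have hq₁R : (1 : ℝ) ≤ q₁ := by exact_mod_cast hq₁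
  have hbpow : ∀ i : ℕ, (1 / δ) ^ i * δ ^ i = 1 := by
    intro i
    rw [← mul_pow, one_div, inv_mul_cancel₀ h0.ne', one_pow]
  refine ⟨q₁ * q ^ 2, Nat.mul_pos hq₁ (pow_pos hq 2), ⟨q₁ * q, by ring⟩, ?_, hnn.trans ?_⟩
  · -- size of q₃
    have e1 : (q₁ : ℝ) ≤ B ^ (2 * K₁ + 16) := by
      have e2 : d ^ 2 * δ ^ 5 = δ ^ (2 * K₁ + 11) := by rw [hd]; ring
      rw [e2] at hq₁b
      refine hq₁b.trans ?_
      rw [div_le_iff₀ (by positivity)]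
      have e3 : (1 : ℝ) ≤ δ ^ (2 * K₁ + 11) * B ^ (2 * K₁ + 11) := one_le_mul_pow h0 hδB _
      have e4 : (32 : ℝ) ≤ B ^ 5 := by
        calc (32 : ℝ) = 2 ^ 5 := by norm_num
          _ ≤ B ^ 5 := pow_le_pow_left₀ (by norm_num) (by linarith) 5
      calc (32 : ℝ) ≤ B ^ 5 * 1 := by linarith
        _ ≤ B ^ 5 * (δ ^ (2 * K₁ + 11) * B ^ (2 * K₁ + 11)) :=
            mul_le_mul_of_nonneg_left e3 (by positivity)
        _ = B ^ (2 * K₁ + 16) * δ ^ (2 * K₁ + 11) := by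
            rw [show 2 * K₁ + 16 = 5 + (2 * K₁ + 11) by omega, pow_add]; ring
    push_cast
    calc (q₁ : ℝ) * q ^ 2 ≤ B ^ (2 * K₁ + 16) * (B ^ (K₁ + 1)) ^ 2 := by
          apply mul_le_mul e1 (pow_le_pow_left₀ hq0.le hqB' 2) (by positivity) (by positivity)
      _ = B ^ (4 * K₁ + 18) := by ring
  · -- the phase
    have e1 : d ^ 6 * δ ^ 14 = δ ^ (6 * K₁ + 32) := by rw [hd]; ring
    rw [e1]
    have hden : 0 < δ ^ (6 * K₁ + 32) * (H : ℝ) ^ 2 := by positivity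
    rw [div_le_iff₀ hden]
    have e2 : (δ ^ K₁ * N) ^ 2 ≤ (H : ℝ) ^ 2 := pow_le_pow_left₀ (by positivity) hH 2
    have e3 : (q : ℝ) ^ 2 ≤ ((q₁ * q ^ 2 : ℕ) : ℝ) := by
      push_cast
      exact le_mul_of_one_le_left (by positivity) hq₁R
    have e4 : (12288 : ℝ) ≤ (1 / δ) ^ 14 := by
      calc (12288 : ℝ) ≤ 2 ^ 14 := by norm_num
        _ ≤ (1 / δ) ^ 14 := pow_le_pow_left₀ (by norm_num) (by rw [le_div_iff₀ h0]; linarith) 14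
    have e5 : (1 / δ) ^ (8 * K₁ + 46) * (δ ^ (6 * K₁ + 32) * δ ^ (2 * K₁)) = (1 / δ) ^ 14 := by
      rw [← pow_add, show 8 * K₁ + 46 = 14 + (6 * K₁ + 32 + 2 * K₁) by omega, pow_add, mul_assoc,
        hbpow, mul_one]
    calc 12288 * N * (q : ℝ) ^ 2 ≤ (1 / δ) ^ 14 * N * ((q₁ * q ^ 2 : ℕ) : ℝ) := by
          apply mul_le_mul (mul_le_mul_of_nonneg_right e4 hN0.le) e3 (by positivity) (by positivity)
      _ = ((q₁ * q ^ 2 : ℕ) : ℝ) * ((1 / δ) ^ (8 * K₁ + 46) / N) *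
            (δ ^ (6 * K₁ + 32) * (δ ^ K₁ * N) ^ 2) := by
          have e6 : δ ^ (2 * K₁) = (δ ^ K₁) ^ 2 := by rw [mul_comm, pow_mul]
          rw [← e5, e6]
          field_simp
      _ ≤ ((q₁ * q ^ 2 : ℕ) : ℝ) * ((1 / δ) ^ (8 * K₁ + 46) / N) *
            (δ ^ (6 * K₁ + 32) * (H : ℝ) ^ 2) := by
          apply mul_le_mul_of_nonneg_left _ (by positivity)
          exact mul_le_mul_of_nonneg_left e2 (by positivity)

theorem as_9 (hgeo : S_geo) (hprc : S_prc) (hsp : S_split) (hpick : S_pick) (h9I : S_9I)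
    (ha1 : S_9a1) (ha2 : S_9a2) (ha3 : S_9a3) (ha : S_9a) (hb : S_9b) (hT : S_T3v) (hc : S_9c) :
    S_9 := by
  intro K₁
  refine ⟨20 * K₁ + 200, ?_⟩
  generalize hK : 20 * K₁ + 200 = K
  intro δ N q₀ X₁ X₂ V₂ Y g h0 h1 hq₀ hX₁ hX₂ hg hOne hDec hZ hV hY hYN
  obtain ⟨q, H, a, u, ξ, hq, hqX, hH, hu, huH, hga, hbig⟩ := hOne
  have hδ1 : δ ≤ 1 := by linarith
  have hq₀' : (1 : ℝ) ≤ q₀ := by exact_mod_cast hq₀
  have hqX1 : 1 ≤ q₀ * X₁ := by nlinarith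
  set B₁ : ℝ := q₀ * X₁ / δ with hB₁
  have hδB₁ : 1 / δ ≤ B₁ := by
    rw [hB₁]
    exact div_le_div_of_nonneg_right hqX1 h0.le
  have hB₁2 : 2 ≤ B₁ := by
    have : 2 ≤ 1 / δ := by
      rw [le_div_iff₀ h0]; linarith
    linarith
  have hB₁1 : 1 ≤ B₁ := by linarith
  have hV1 : 1 ≤ V₂ := le_trans (one_le_pow₀ hB₁1) hV
  set B : ℝ := q₀ * X₁ * X₂ * V₂ / δ with hB
  have hBB : B = B₁ * (X₂ * V₂) := by rw [hB, hB₁]; ring
  have hXV : 1 ≤ X₂ * V₂ := by nlinarith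
  have hB₁B : B₁ ≤ B := by
    rw [hBB]
    exact le_mul_of_one_le_right (by linarith) hXV
  have hδB : 1 / δ ≤ B := hδB₁.trans hB₁B
  have hB2 : 2 ≤ B := hB₁2.trans hB₁B
  have hB1 : 1 ≤ B := by linarith
  have hqXB₁ : q₀ * X₁ ≤ B₁ := by
    rw [hB₁, le_div_iff₀ h0]
    nlinarith
  have hq₀B : (q₀ : ℝ) ≤ B := by
    refine le_trans ?_ (hqXB₁.trans hB₁B)
    exact le_mul_of_one_le_right (by linarith) hX₁
  have hX₂B : X₂ ≤ B := by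
    rw [hBB]
    calc X₂ ≤ X₂ * V₂ := le_mul_of_one_le_right (by linarith) hV1
      _ ≤ B₁ * (X₂ * V₂) := le_mul_of_one_le_left (by positivity) hB₁1
  have hY1 : 1 ≤ Y := le_trans (one_le_pow₀ hB1) hY
  have hBN : ∀ k : ℕ, k ≤ K * K → B ^ k ≤ N := by
    intro k hk
    calc B ^ k ≤ B ^ (K * K) := pow_le_pow_right₀ hB1 hk
      _ = (B ^ K) ^ K := by rw [pow_mul]
      _ ≤ Y ^ K := pow_le_pow_left₀ (by positivity) hY K
      _ ≤ N := hYN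
  have hKK : 200 * K ≤ K * K := Nat.mul_le_mul_right _ (by omega)
  have hN1 : (1 : ℝ) ≤ N := le_trans (one_le_pow₀ hB1) (hBN 0 (Nat.zero_le _))
  have hN0 : (0 : ℝ) < N := by linarith
  have hNn : 1 ≤ N := by exact_mod_cast hN1
  have hqR : (1 : ℝ) ≤ q := by exact_mod_cast hq
  have hq0 : (0 : ℝ) < q := by linarith
  have hqB₁ : (q : ℝ) ≤ B₁ ^ (K₁ + 1) := by
    calc (q : ℝ) ≤ (1 / δ) ^ K₁ * (q₀ * X₁) := hqX
      _ ≤ B₁ ^ K₁ * B₁ :=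
          mul_le_mul (pow_le_pow_left₀ (by positivity) hδB₁ _) hqXB₁ (by linarith) (by positivity)
      _ = B₁ ^ (K₁ + 1) := by ring
  have hqB : (q : ℝ) ≤ B ^ (K₁ + 1) := hqB₁.trans (pow_le_pow_left₀ (by linarith) hB₁B _)
  have hHpos : (0 : ℝ) < H := lt_of_lt_of_le (by positivity) hH
  have hδpow : ∀ {i j : ℕ}, i ≤ j → δ ^ j ≤ δ ^ i := fun h => pow_le_pow_of_le_one h0.le hδ1 h
  have hD0 : 0 < δ ^ K₁ * ((H : ℝ) / q) := by positivity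
  -- the error of the decomposition
  have hεN : (δ / (q₀ * X₁)) ^ K * N ≤ δ ^ K₁ * ((H : ℝ) / q) / 4 := by
    have e1 : δ / (q₀ * X₁) = B₁⁻¹ := by rw [hB₁, inv_div]
    have hBi : 0 < B₁⁻¹ := by positivity
    have hBi1 : B₁⁻¹ ≤ 1 := inv_le_one_of_one_le₀ hB₁1
    have hBiδ : B₁⁻¹ ≤ δ := by
      rw [← e1]
      exact div_le_self h0.le hqX1
    rw [e1]
    have e2 : (B₁⁻¹) ^ K ≤ (B₁⁻¹) ^ (3 * K₁ + 3) := pow_le_pow_of_le_one hBi.le hBi1 (by omega)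
    have e3 : (B₁⁻¹) ^ (K₁ + 1) ≤ 1 / q := by
      rw [inv_pow, inv_eq_one_div]
      exact one_div_le_one_div_of_le hq0 hqB₁
    have e4 : (B₁⁻¹) ^ 2 ≤ 1 / 4 := by
      have : B₁⁻¹ ≤ 1 / 2 := hBiδ.trans h1
      nlinarith
    have e5 : (B₁⁻¹) ^ K₁ ≤ δ ^ K₁ := pow_le_pow_left₀ hBi.le hBiδ _
    calc (B₁⁻¹) ^ K * N ≤ (B₁⁻¹) ^ (3 * K₁ + 3) * N := mul_le_mul_of_nonneg_right e2 hN0.le
      _ = (B₁⁻¹) ^ K₁ * ((B₁⁻¹) ^ K₁ * N * (B₁⁻¹) ^ (K₁ + 1)) * (B₁⁻¹) ^ 2 := by ring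
      _ ≤ δ ^ K₁ * (δ ^ K₁ * N * (1 / q)) * (1 / 4) := by gcongr
      _ ≤ δ ^ K₁ * (H * (1 / q)) * (1 / 4) := by
          apply mul_le_mul_of_nonneg_right _ (by norm_num)
          apply mul_le_mul_of_nonneg_left _ (by positivity)
          exact mul_le_mul_of_nonneg_right hH (by positivity)
      _ = δ ^ K₁ * ((H : ℝ) / q) / 4 := by ring
  -- the rational approximation
  obtain ⟨q₃, hq₃, hqq₃, hq₃B, hnn⟩ : ∃ q₃ : ℕ, 1 ≤ q₃ ∧ q ∣ q₃ ∧ (q₃ : ℝ) ≤ B ^ (4 * K₁ + 18) ∧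
      nn (q₃ * ξ) ≤ q₃ * ((1 / δ) ^ (8 * K₁ + 46) / N) := by
    rcases hpick δ _ (δ ^ K₁ * ((H : ℝ) / q)) N q₀ q H X₂ V₂ ξ a u g h0 hD0 hu huH hDec hεN hbig with
      ⟨m, w, hm, hmX, hw, hwb⟩ | ⟨M, α, β, hMV, hMN, hα, hβ, hII⟩
    · exact as9_I hgeo hprc hsp h9I h0 h1 hB2 hδB (hBN _ (by omega)) hq₀ hq₀B hm (hmX.trans hX₂B)
        hq hqB hH hga hw hwb
    · refine as9_II hgeo hprc ha1 ha2 ha3 ha hb hT h0 h1 hB₁2 hδB₁ hB₁B (hBN _ (by omega)) hq hqB₁ hH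
        hu huH hga ?_ hMN hα hβ hII
      exact (pow_le_pow_right₀ hB₁1 (by omega)).trans (hV.trans hMV)
  -- removing the phase
  have hq₃R : (1 : ℝ) ≤ q₃ := by exact_mod_cast hq₃
  have hq₃0 : (0 : ℝ) < q₃ := by linarith
  set X : ℝ := δ ^ (9 * K₁ + 52) * N with hX
  have hXbig : B ^ (4 * K₁ + 18) ≤ X := by
    calc B ^ (4 * K₁ + 18) = 1 * B ^ (4 * K₁ + 18) := (one_mul _).symm
      _ ≤ δ ^ (9 * K₁ + 52) * B ^ (9 * K₁ + 52) * B ^ (4 * K₁ + 18) :=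
          mul_le_mul_of_nonneg_right (one_le_mul_pow h0 hδB _) (by positivity)
      _ = δ ^ (9 * K₁ + 52) * B ^ (13 * K₁ + 70) := by
          rw [mul_assoc, ← pow_add]; congr 2; omega
      _ ≤ X := mul_le_mul_of_nonneg_left (hBN _ (by omega)) (by positivity)
  have hX1 : 1 ≤ X := le_trans (one_le_pow₀ hB1) hXbig
  set H₃ : ℕ := ⌊X⌋₊ with hH₃
  have hH₃X : (H₃ : ℝ) ≤ X := Nat.floor_le (by linarith)
  have hH₃X' : X / 2 ≤ H₃ := floor_half hX1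
  have hqH₃ : q₃ ≤ H₃ := Nat.le_floor (hq₃B.trans hXbig)
  have h16 : 16 * (H₃ : ℝ) ≤ δ ^ K₁ * H := by
    have e1 : 16 * δ ^ (7 * K₁ + 52) ≤ 1 := by
      have e2 : δ ^ (7 * K₁ + 52) ≤ δ ^ 4 := hδpow (by omega)
      have e3 : δ ^ 4 ≤ (1 / 2) ^ 4 := pow_le_pow_left₀ h0.le h1 4
      norm_num at e3
      linarith
    calc 16 * (H₃ : ℝ) ≤ 16 * X := by linarith
      _ = (16 * δ ^ (7 * K₁ + 52)) * (δ ^ K₁ * (δ ^ K₁ * N)) := by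
          rw [hX, show 9 * K₁ + 52 = (7 * K₁ + 52) + (K₁ + K₁) by omega, pow_add _ (7 * K₁ + 52),
            pow_add _ K₁]
          ring
      _ ≤ 1 * (δ ^ K₁ * (δ ^ K₁ * N)) := mul_le_mul_of_nonneg_right e1 (by positivity)
      _ ≤ δ ^ K₁ * H := by
          rw [one_mul]
          exact mul_le_mul_of_nonneg_left hH (by positivity)
  have hphase : 2 * Real.pi * ((H₃ : ℝ) / q₃ * nn (q₃ * ξ)) ≤ δ ^ K₁ / 8 := by
    have hbpow : (1 / δ) ^ (8 * K₁ + 46) * δ ^ (8 * K₁ + 46) = 1 := by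
      rw [← mul_pow, one_div, inv_mul_cancel₀ h0.ne', one_pow]
    have e1 : (H₃ : ℝ) / q₃ * nn (q₃ * ξ) ≤ δ ^ (K₁ + 6) := by
      calc (H₃ : ℝ) / q₃ * nn (q₃ * ξ) ≤
            X / q₃ * (q₃ * ((1 / δ) ^ (8 * K₁ + 46) / N)) := by
            apply mul_le_mul (div_le_div_of_nonneg_right hH₃X hq₃0.le) hnn (nn_nonneg _)
              (by positivity)
        _ = δ ^ (9 * K₁ + 52) * (1 / δ) ^ (8 * K₁ + 46) := by
            rw [hX]; field_simp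
        _ = δ ^ (K₁ + 6) * ((1 / δ) ^ (8 * K₁ + 46) * δ ^ (8 * K₁ + 46)) := by
            rw [show 9 * K₁ + 52 = (K₁ + 6) + (8 * K₁ + 46) by omega, pow_add]; ring
        _ = δ ^ (K₁ + 6) := by rw [hbpow, mul_one]
    have e2 : δ ^ (K₁ + 6) = δ ^ K₁ * δ ^ 6 := pow_add _ _ _
    have e3 : δ ^ 6 ≤ 1 / 64 := by
      calc δ ^ 6 ≤ (1 / 2) ^ 6 := pow_le_pow_left₀ h0.le h1 6
        _ = 1 / 64 := by norm_num
    have hpi := Real.pi_lt_d2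
    have hpi0 := Real.pi_pos
    have e4 : 2 * Real.pi * δ ^ 6 ≤ 1 / 8 := by nlinarith
    calc 2 * Real.pi * ((H₃ : ℝ) / q₃ * nn (q₃ * ξ)) ≤ 2 * Real.pi * δ ^ (K₁ + 6) :=
          mul_le_mul_of_nonneg_left e1 (by positivity)
      _ = δ ^ K₁ * (2 * Real.pi * δ ^ 6) := by rw [e2]; ring
      _ ≤ δ ^ K₁ * (1 / 8) := mul_le_mul_of_nonneg_left e4 (by positivity)
      _ = δ ^ K₁ / 8 := by ring
  have hBY : ∀ k : ℕ, k ≤ K → B ^ k ≤ Y := fun k hk => (pow_le_pow_right₀ hB1 hk).trans hY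
  have hqY : (q : ℝ) ≤ Y := hqB.trans (hBY _ (by omega))
  have hq₃Y : (q₃ : ℝ) ≤ Y := hq₃B.trans (hBY _ (by omega))
  -- `N / Y ≤ δ^k N` for `k ≤ K`
  have hNY : ∀ k : ℕ, k ≤ K → (N : ℝ) / Y ≤ δ ^ k * N := by
    intro k hk
    rw [div_le_iff₀ (by linarith)]
    have e1 : (1 : ℝ) ≤ δ ^ k * Y :=
      (one_le_mul_pow h0 hδB k).trans (mul_le_mul_of_nonneg_left (hBY k hk) (by positivity))
    calc (N : ℝ) = N * 1 := (mul_one _).symm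
      _ ≤ N * (δ ^ k * Y) := mul_le_mul_of_nonneg_left e1 hN0.le
      _ = δ ^ k * N * Y := by ring
  have hmass : ∑ x ∈ (pr q a u (u + H)).filter (fun x => 1 < Int.gcd x q₃), ‖g x‖ ≤
      δ ^ K₁ / 8 * (H / q) := by
    have e1 := hZ q q₃ H a u hq hqY hq₃ hq₃Y ((hNY K₁ (by omega)).trans hH) hga
    refine le_trans (le_of_eq ?_) (e1.trans ?_)
    · apply sum_congr _ (fun _ _ => rfl)
      unfold pr
      rw [filter_filter]
    · apply mul_le_mul_of_nonneg_right _ (by positivity)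
      have e2 : δ ^ K ≤ δ ^ (K₁ + 3) := hδpow (by omega)
      have e3 : δ ^ (K₁ + 3) = δ ^ K₁ * δ ^ 3 := pow_add _ _ _
      have e4 : δ ^ 3 ≤ 1 / 8 := by
        calc δ ^ 3 ≤ (1 / 2) ^ 3 := pow_le_pow_left₀ h0.le h1 3
          _ = 1 / 8 := by norm_num
      have e5 : δ ^ K₁ * δ ^ 3 ≤ δ ^ K₁ * (1 / 8) := mul_le_mul_of_nonneg_left e4 (by positivity)
      linarith
  obtain ⟨b, u₃, hgb, huu, hu3, hfin⟩ := hc hprc hsp (δ ^ K₁) ξ q q₃ H H₃ a u g (by positivity)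
    (pow_le_one₀ h0.le hδ1) hg.1 hq hq₃ hqq₃ hqH₃ h16 hphase hmass hbig
  refine ⟨q₃, H₃, b, u₃, hq₃, hq₃Y, ?_, by linarith, by linarith, hgb, ?_⟩
  · refine le_trans (hNY (9 * K₁ + 53) (by omega)) (le_trans ?_ hH₃X')
    have e1 : δ ^ (9 * K₁ + 53) * (N : ℝ) = δ * X := by rw [hX]; ring
    rw [e1]
    nlinarith
  · unfold pr at hfin
    refine le_trans ?_ hfin
    apply mul_le_mul_of_nonneg_right _ (by positivity)
    have e2 : δ ^ K ≤ δ ^ (K₁ + 1) := hδpow (by omega)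
    have e3 : δ ^ (K₁ + 1) = δ ^ K₁ * δ := pow_succ _ _
    have e5 : δ ^ K₁ * δ ≤ δ ^ K₁ * (1 / 2) := mul_le_mul_of_nonneg_left h1 (by positivity)
    linarith

end Pool.Agent.APP.B
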