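import Pool.Agent.Lib.MP_8a4e59_co.B.Defs

set_option autoImplicit false

/-!
MP_8a4e59_co, part B, steps 7, 8, 9 (helper24): statements. Every docstring contains a complete
proof. Useful: `Pool.Agent.Lib.MP_8a4e59_co.Basic` (nn, ee, geometric sums). `pr q a u v` is the set
of `x ∈ (u, v]` with `q ∣ x - a`.
-/

namespace Pool.Agent.APP.B

open Finset

/-- [8a S1] number of points of a progression. PROOF. (1), (2): `Int.Ioc_filter_modEq_card` or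
directly. (3) any finite set `S` of pairwise congruent integers (mod `q`) with diameter `≤ L`:
`x ↦ (x - min S) / q` is injective with values in `[0, L/q]`. -/
def S_prc : Prop := (∀ (q : ℕ) (a u v : ℤ), 1 ≤ q → u ≤ v →
    ((pr q a u v).card : ℝ) ≤ ((v : ℝ) - u) / q + 1 ∧ ((v : ℝ) - u) / q - 1 ≤ (pr q a u v).card) ∧
    (∀ (q : ℕ) (S : Finset ℤ) (L : ℝ), 1 ≤ q → 0 ≤ L →
      (∀ x ∈ S, ∀ y ∈ S, (q : ℤ) ∣ x - y ∧ |(x : ℝ) - y| ≤ L) → (S.card : ℝ) ≤ L / q + 1)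

/-- [8a S2] geometric sum over a progression. PROOF. `pr q a u v` is the image of an interval of
integers `k` under `k ↦ a + q k` (or empty), `ee (ξ (a + q k)) = ee (ξ a) ee (k (q ξ))`;
`norm_geom_Ico_mul_le`. -/
def S_geo : Prop := ∀ (q : ℕ) (a u v : ℤ) (ξ : ℝ), 1 ≤ q →
    ‖∑ x ∈ pr q a u v, ee (ξ * x)‖ * (2 * nn (q * ξ)) ≤ 1

/-- [8a S3] splitting a progression. PROOF. `(u, u+H]` is the disjoint union of the intervals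
`(u + jH', u + (j+1)H']`, `j < H/H'`, and the rest `(u + (H/H')H', u+H]` (induction on the number of
intervals); each `x` with `q ∣ x - a` has exactly one residue `b = x mod q'`, and `q ∣ b - a`. The
numbers `b < q'` with `q ∣ b - a` are `a mod q + k q`, `k < q'/q`. -/
def S_split : Prop := ∀ (q q' H H' : ℕ) (a u : ℤ), 1 ≤ q → 1 ≤ q' → q ∣ q' → 1 ≤ H' →
    ((range q').filter (fun b : ℕ => (q : ℤ) ∣ (b : ℤ) - a)).card * q = q' ∧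
    ∀ (R : Type) [AddCommMonoid R] (F : ℤ → R),
      ∑ x ∈ pr q a u (u + H), F x =
        ∑ j ∈ range (H / H'), ∑ b ∈ (range q').filter (fun b : ℕ => (q : ℤ) ∣ (b : ℤ) - a),
          ∑ x ∈ pr q' b (u + (j * H' : ℕ)) (u + ((j + 1) * H' : ℕ)), F x +
        ∑ x ∈ pr q a (u + (H / H' * H' : ℕ)) (u + H), F x

/-- [8a S4] pigeonhole on the pieces of a decomposition. PROOF. Insert the decomposition (the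
points of `pr q a u (u+H)` are in `[1, N]`): `D ≤ ∑ λ_i ‖∑ w_i ee‖ + ∑ μ_j ‖∑ typeII_j ee‖ + ε N`.
So one of the first two sums is `≥ (3/8) D > D/4`. If all `‖∑ w_i ee‖ < δ D/4 / m_i` then the first sum
is `≤ ∑ λ_i (δ D/4)/m_i ≤ D/4`; if all `‖∑ typeII_j ee‖ < δ D/4` the second one is `≤ D/4`. -/
def S_pick : Prop := ∀ (δ ε D : ℝ) (N q₀ q H : ℕ) (X V ξ : ℝ) (a u : ℤ) (g : ℤ → ℂ), 0 < δ → 0 < D →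
    0 ≤ u → u + H ≤ N → Dec δ N q₀ X V ε g → ε * N ≤ D / 4 →
    D ≤ ‖∑ x ∈ pr q a u (u + H), g x * ee (ξ * x)‖ →
    (∃ (m : ℕ) (w : ℤ → ℂ), 1 ≤ m ∧ (m : ℝ) ≤ X ∧ TypeI δ N q₀ m w ∧
      δ * D / 4 / m ≤ ‖∑ x ∈ pr q a u (u + H), w x * ee (ξ * x)‖) ∨
    (∃ (M : ℕ) (α β : ℕ → ℂ), V ≤ M ∧ M ^ 2 ≤ 4 * N ∧ (∀ k, ‖α k‖ ≤ 1 / δ) ∧ (∀ k, ‖β k‖ ≤ 1 / δ) ∧
      δ * D / 4 ≤ ‖∑ x ∈ pr q a u (u + H),
        (if δ * N ≤ (x : ℝ) then typeII M α β x else 0) * ee (ξ * x)‖)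

/-- [8a S5] type I piece: the phase is close to a rational. PROOF. `H₂ ≥ 1`, `H > 0`, so the sum is
not `0` and there is `x₀ ∈ pr q a u (u+H)` with `w x₀ ≠ 0`, so `m ∣ x₀`. `gcd(m, q)` divides `x₀` and `q`,
hence `a`: it is `1`. The terms with `m ∤ x` vanish, the others form `pr (q m) x₀ u (u+H)`. Apply
`S_split` with `q := q m`, `q' := q₂ := q m q₀`, `H' := H₂`. The rest has at most
`H₂/(qm) + 1 ≤ 2H₂/(qm) ≤ (d/8) H/(qm)` points. There are at most `(H/H₂) q₀` sub-progressions, so one of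
them, `P₂`, satisfies `‖∑_{P₂} w ee‖ ≥ (7/8) d H₂/q₂`. `w` vanishes outside of `[δN, N]`; the points
of `P₂` in `[δN, N]` form a progression `P' = pr q₂ b u' v'`, `v' - u' ≤ H₂`, not empty; let `x₁ ∈ P'`.
For `x ∈ P'`: `m ∣ x`, `m q₀ ∣ x - x₁`, so `‖w x - w x₁‖ ≤ H₂/(δN) ≤ d/16`; `#P' ≤ H₂/q₂ + 1 ≤ 2H₂/q₂`. Hence
`‖∑_{P'} ee‖ ≥ (7/8 - 1/8) d H₂/q₂`, and `S_geo` gives `nn (q₂ ξ) ≤ (2/3) q₂/(d H₂)`. -/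
def S_9I : Prop := S_geo → S_prc → S_split → ∀ (δ d ξ : ℝ) (N q₀ m q H H₂ : ℕ) (a u : ℤ)
    (w : ℤ → ℂ), 0 < δ → δ ≤ 1 → 0 < d → d ≤ 1 → 1 ≤ N → 1 ≤ q₀ → 1 ≤ m → 1 ≤ q → Int.gcd a q = 1 →
    TypeI δ N q₀ m w →
    d * (H / (q * m)) ≤ ‖∑ x ∈ pr q a u (u + H), w x * ee (ξ * x)‖ → q * m * q₀ ≤ H₂ →
    16 * (H₂ : ℝ) ≤ d * δ * N → 16 * (H₂ : ℝ) ≤ d * H →
    nn ((q * m * q₀ : ℕ) * ξ) ≤ (q * m * q₀ : ℕ) / (d * H₂)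

/-- the points `x ≥ δ N` of a progression -/
noncomputable def prc (δ : ℝ) (N q : ℕ) (a u v : ℤ) : Finset ℤ :=
  (pr q a u v).filter (fun x => δ * N ≤ (x : ℝ))

/-- the exponential sum over `m` for fixed `n` and `s` -/
noncomputable def inn (δ ξ : ℝ) (N q H M : ℕ) (a u n s : ℤ) : ℝ :=
  ‖∑ m ∈ (Finset.Ico (M : ℤ) (2 * M)).filter (fun m => m * n ∈ prc δ N q a u (u + H) ∧
     m * (n + q * s) ∈ prc δ N q a u (u + H)), ee (ξ * (m * (q * s)))‖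

/-- [8a S6] type II, Cauchy-Schwarz over `m`. PROOF. Unfold `typeII`, interchange the sums:
`∑_{m ∈ [M, 2M)} α m ∑_{x ∈ P', m ∣ x} β (x/m) ee(ξ x)`, `P' = prc δ N q a u (u+H)`. In the inner sum
`x = m n` with `n = x/m ∈ [1, N/M]` (`0 < δN ≤ x ≤ N`, `m ≥ M`; `Int.toNat`). Cauchy-Schwarz with
`∑ ‖α m‖² ≤ M/δ²`. -/
def S_9a1 : Prop := ∀ (δ d ξ : ℝ) (N q H M : ℕ) (a u : ℤ) (α β : ℕ → ℂ), 0 < δ → 0 < d → 1 ≤ q →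
    1 ≤ M → 1 ≤ N → 0 ≤ u → u + H ≤ N → (∀ k, ‖α k‖ ≤ 1 / δ) →
    d * (H / q) ≤ ‖∑ x ∈ pr q a u (u + H),
      (if δ * N ≤ (x : ℝ) then typeII M α β x else 0) * ee (ξ * x)‖ →
    d ^ 2 * δ ^ 2 * ((H : ℝ) / q) ^ 2 / M ≤ ∑ m ∈ Finset.Ico (M : ℤ) (2 * M),
      ‖∑ n ∈ Finset.Icc (1 : ℤ) ((N / M : ℕ) : ℤ),
        if m * n ∈ prc δ N q a u (u + H) then β n.toNat * ee (ξ * (m * n)) else 0‖ ^ 2

/-- [8a S7] type II, expanding the square. PROOF. `‖∑_n f_m(n)‖² = ∑_{n,n'} f_m(n) conj f_m(n')`; sum over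
`m` first: the left side is at most `(1/δ)² ∑_{n,n'} ‖∑_{m : m n, m n' ∈ P'} ee(ξ m (n - n'))‖`. If the set
of these `m` is not empty then (one `m` in it) `m n ≡ m n' ≡ a mod q`, `gcd(a,q) = 1`, so `gcd(m,q) = 1` and
`q ∣ n' - n`; and `|n' - n| M ≤ |m n' - m n| ≤ H`, so `n' = n + q s` with `|s| ≤ H/(qM)` (natural
division). For fixed `n` the map `s ↦ n + q s` is injective; the norm for `n' = n + q s` is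
`inn .. n s` (complex conjugation: the phase is `ξ m (n - n') = - ξ m q s`). -/
def S_9a2 : Prop := ∀ (δ ξ : ℝ) (N q H M : ℕ) (a u : ℤ) (β : ℕ → ℂ), 0 < δ → 1 ≤ q → 1 ≤ M →
    Int.gcd a q = 1 → (∀ k, ‖β k‖ ≤ 1 / δ) →
    ∑ m ∈ Finset.Ico (M : ℤ) (2 * M), ‖∑ n ∈ Finset.Icc (1 : ℤ) ((N / M : ℕ) : ℤ),
      if m * n ∈ prc δ N q a u (u + H) then β n.toNat * ee (ξ * (m * n)) else 0‖ ^ 2 ≤
    (1 / δ) ^ 2 * ∑ n ∈ Finset.Icc (1 : ℤ) ((N / M : ℕ) : ℤ),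
      ∑ s ∈ Finset.Icc (-((H / (q * M) : ℕ) : ℤ)) ((H / (q * M) : ℕ) : ℤ), inn δ ξ N q H M a u n s

/-- [8a S8] type II, the inner sums. PROOF. Let `S` be the set of `m` in `inn`. If it is empty, the
norm is `0`. Otherwise for `m ∈ S`: `m n ≥ δN > 0`, `n > δN/(2M)`, and `gcd(n,q) = 1` as `m n ≡ a mod q`.
For `m, m' ∈ S`: `q ∣ (m - m') n` so `q ∣ m - m'`, and `|m - m'| n ≤ H`; so (`S_prc`)
`#S ≤ H/(n q) + 1 ≤ 2HM/(δNq) + 1 ≤ 4HM/(δNq)`. For the second claim: `m (n + q s) ≥ δN > 0` so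
`n + q s > 0`; if `m₁ < m < m₂`, `m₁, m₂ ∈ S`, `q ∣ m - m₁` then `m ∈ S` (all conditions are intervals
or congruences). So `S = pr q m₁ (min S - 1) (max S)` and `S_geo` with the phase `ξ q s` applies:
`nn (q (ξ q s)) = nn (q² s ξ)`. -/
def S_9a3 : Prop := S_geo → S_prc → ∀ (δ ξ : ℝ) (N q H M : ℕ) (a u n s : ℤ), 0 < δ → 1 ≤ q → 1 ≤ M →
    1 ≤ N → Int.gcd a q = 1 → δ * q * N ≤ 2 * H * M → 1 ≤ n →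
    inn δ ξ N q H M a u n s ≤ 4 * H * M / (δ * N * q) ∧
    inn δ ξ N q H M a u n s * (2 * nn ((q : ℝ) ^ 2 * s * ξ)) ≤ 1

/-- [8a S9] type II, summary. PROOF. `G s = (∑_{n ∈ [1, N/M]} inn n s) / (N/M)` (real quotient `N/M`;
the number of `n` is at most `N/M`; if `N < M` the sum is empty), so the bounds of `S_9a3` carry
over, and by `S_9a1`, `S_9a2`: `d² δ² (H/q)²/M ≤ (1/δ)² (N/M) ∑_s G s`. -/
def S_9a : Prop := S_geo → S_prc → S_9a1 → S_9a2 → S_9a3 → ∀ (δ d ξ : ℝ) (N q H M : ℕ) (a u : ℤ)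
    (α β : ℕ → ℂ), 0 < δ → δ ≤ 1 → 0 < d → 1 ≤ q → 1 ≤ M → 1 ≤ N → 0 ≤ u → u + H ≤ N →
    Int.gcd a q = 1 → (∀ k, ‖α k‖ ≤ 1 / δ) → (∀ k, ‖β k‖ ≤ 1 / δ) → δ * q * N ≤ 2 * H * M →
    d * (H / q) ≤ ‖∑ x ∈ pr q a u (u + H),
      (if δ * N ≤ (x : ℝ) then typeII M α β x else 0) * ee (ξ * x)‖ →
    ∃ G : ℤ → ℝ, (∀ s, 0 ≤ G s ∧ G s ≤ 4 * H * M / (δ * N * q) ∧
        G s * (2 * nn ((q : ℝ) ^ 2 * s * ξ)) ≤ 1) ∧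
      d ^ 2 * δ ^ 4 * H ^ 2 / (q ^ 2 * N) ≤
        ∑ s ∈ Finset.Icc (-((H / (q * M) : ℕ) : ℤ)) ((H / (q * M) : ℕ) : ℤ), G s

/-- Vinogradov's lemma (T3, proved in the part of helper29). -/
def S_T3v : Prop := ∀ (θ : ℝ) (L : ℕ) (d₀ d₁ : ℝ), 1 ≤ L → 0 < d₀ → d₀ ≤ 1 → 0 ≤ d₁ → d₁ ≤ d₀ / 64 →
    32 / d₀ ^ 2 ≤ L →
    d₀ * L ≤ (((Finset.Icc (-(L : ℤ)) (L : ℤ)).filter (fun r : ℤ => nn ((r : ℝ) * θ) ≤ d₁)).card : ℝ) →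
    ∃ q : ℕ, 1 ≤ q ∧ (q : ℝ) ≤ 4 / d₀ ∧ nn (q * θ) ≤ 32 * d₁ / (d₀ ^ 2 * L)

/-- [8a S10] type II: the phase is close to a rational. PROOF. `ρ = H/(qM)` (real) `≥ 4096`,
`S = ⌊ρ⌋`, `ρ/2 ≤ S`, `2S + 1 ≤ 3ρ`. `κ = 3qN/(d²δ⁴HM)`. The `s` with `nn (q² s ξ) > κ` contribute at most
`3ρ/(2κ) = d²δ⁴H²/(2q²N)`, so `∑_{nn ≤ κ} G s ≥ d²δ⁴H²/(2q²N)` and the number of these `s` is at least
`(d²δ⁴H²/(2q²N)) (δNq/(4HM)) = (d²δ⁵/8) ρ ≥ (d²δ⁵/8) S`. Apply `S_T3v` with `θ = q² ξ`, `L = S`,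
`d₀ = d²δ⁵/8`, `d₁ = κ` (`κ ≤ d₀/64` and `32/d₀² = 2048/(d⁴δ^10) ≤ S` by the hypotheses). The result is
`32κ/(d₀²S) ≤ 32 (3qN/(d²δ⁴HM)) (64/(d⁴δ^10)) (2qM/H) = 12288 q²N/(d⁶δ^14 H²)`. -/
def S_9b : Prop := S_T3v → ∀ (δ d ξ : ℝ) (N q H M : ℕ) (G : ℤ → ℝ), 0 < δ → δ ≤ 1 → 0 < d → d ≤ 1 →
    1 ≤ q → 1 ≤ M → 1 ≤ N → (q * M : ℝ) * (4096 / (d ^ 4 * δ ^ 10)) ≤ H →
    1536 * q * N / (d ^ 4 * δ ^ 9) ≤ (H : ℝ) * M →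
    (∀ s, 0 ≤ G s ∧ G s ≤ 4 * H * M / (δ * N * q) ∧ G s * (2 * nn ((q : ℝ) ^ 2 * s * ξ)) ≤ 1) →
    d ^ 2 * δ ^ 4 * H ^ 2 / (q ^ 2 * N) ≤
      ∑ s ∈ Finset.Icc (-((H / (q * M) : ℕ) : ℤ)) ((H / (q * M) : ℕ) : ℤ), G s →
    ∃ q₁ : ℕ, 1 ≤ q₁ ∧ (q₁ : ℝ) ≤ 32 / (d ^ 2 * δ ^ 5) ∧
      nn ((q₁ * q ^ 2 : ℕ) * ξ) ≤ 12288 * N * q ^ 2 / (d ^ 6 * δ ^ 14 * H ^ 2)

/-- [8a S11] removing the phase. PROOF. `S_split` with `q' = q₃`, `H' = H₃` (`q ≤ q₃ ≤ H₃ ≤ H`). The rest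
has at most `H₃/q + 1 ≤ 2H₃/q ≤ (d/8) H/q` points. On each sub-progression `P` (if it is not empty,
`x₁ ∈ P`; for `x ∈ P`: `x - x₁ = q₃ k`, `|k| ≤ H₃/q₃`, so `‖ee (ξ (x - x₁)) - 1‖ ≤ 2π |k| nn (q₃ ξ) ≤ d/8`)
`‖∑_P g ee‖ ≤ ‖∑_P g‖ + (d/8) #P`, and `∑ #P ≤ #pr q a u (u+H) ≤ 2H/q`. The `P` with `gcd(b, q₃) > 1`
contribute at most `∑_{x, gcd(x,q₃) > 1} ‖g x‖ ≤ (d/8) H/q` (`S_split` for this real function;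
`gcd(x,q₃) = gcd(b,q₃)` on `P`). So `∑_{j, b coprime} ‖∑_P g‖ ≥ (1 - 1/8 - 1/4 - 1/8) d H/q`, the number of
`(j,b)` is at most `(H/H₃)(q₃/q)`: one of them has `‖∑_P g‖ ≥ (d/2) H₃/q₃`. -/
def S_9c : Prop := S_prc → S_split → ∀ (d ξ : ℝ) (q q₃ H H₃ : ℕ) (a u : ℤ) (g : ℤ → ℂ), 0 < d →
    d ≤ 1 → (∀ n, ‖g n‖ ≤ 1) → 1 ≤ q → 1 ≤ q₃ → q ∣ q₃ → q₃ ≤ H₃ → 16 * (H₃ : ℝ) ≤ d * H →
    2 * Real.pi * (H₃ / q₃ * nn (q₃ * ξ)) ≤ d / 8 →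
    ∑ x ∈ (pr q a u (u + H)).filter (fun x => 1 < Int.gcd x q₃), ‖g x‖ ≤ d / 8 * (H / q) →
    d * (H / q) ≤ ‖∑ x ∈ pr q a u (u + H), g x * ee (ξ * x)‖ →
    ∃ (b u₃ : ℤ), Int.gcd b q₃ = 1 ∧ u ≤ u₃ ∧ u₃ + H₃ ≤ u + H ∧
      d / 2 * (H₃ / q₃) ≤ ‖∑ x ∈ pr q₃ b u₃ (u₃ + H₃), g x‖

/-- [8a S12] step 8: the non coprime classes are negligible. PROOF. `Γ = gam q H ξ g j a` satisfies
`Γ ≤ ∑_P ‖g‖ ≤ H/q + 1 ≤ 2H/q` (`S_prc`), so `Γ² ≤ (2H/q) ∑_P ‖g‖`; sum over `j` and the `a` with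
`gcd(a,q) > 1`: the `P` are disjoint, `g` vanishes outside of `(0,N]`, `gcd(x,q) = gcd(a,q)` on `P`, so
the sum of these `Γ²` is at most `(2H/q)(c/4) N`. The others have sum `≥ (c/2) N H/q`, their number is at
most `(N/H + 1) q ≤ 2 N q/H`. -/
def S_8a : Prop := S_prc → ∀ (c : ℝ) (N q H : ℕ) (ξ : ℕ → ℕ → ℝ) (g : ℤ → ℂ), 0 < c → Bd N g →
    1 ≤ q → q ≤ H → H ≤ N →
    ∑ x ∈ (Finset.Ioc (0 : ℤ) N).filter (fun x => 1 < Int.gcd x q), ‖g x‖ ≤ c / 4 * N →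
    c * (N * H / q) ≤ ∑ j ∈ range (N / H + 1), ∑ a ∈ range q, gam q H ξ g j a ^ 2 →
    ∃ j a : ℕ, j ≤ N / H ∧ Int.gcd (a : ℤ) q = 1 ∧ c / 4 * (H / q) ^ 2 ≤ gam q H ξ g j a ^ 2

/-- [8a S13] step 7, first part. PROOF. `Icc 1 N = Ioc 0 N`, the terms with `m ∤ n` vanish, the
others form `pr m 0 0 N`. `S_split` with `q := m`, `q' := m q₀`, `H := N`, `H' := H`. The rest has at most
`H/m + 1 ≤ 2H/m` points: contribution `≤ 6NH/m ≤ (6/32) d N²/m`. For each part `P` the points in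
`[δN, N]` form a progression `P' = pr (m q₀) b u v`, `v - u ≤ H`; if it is not empty, `x₁ ∈ P'`:
`‖w x - w x₁‖ ≤ H/(δN) ≤ d/32` on `P'`, so `‖∑_P w F‖ ≤ ‖∑_{P'} F‖ + (d/32) 3N #P'`, and the sum of the `#P'`
is at most `N/m + 1 ≤ 2N/m` (`m ≤ N`): in total `(6/32) d N²/m`. So `∑ ‖∑_{P'} F‖ ≥ (5/8) d N²/m`; there are at
most `(N/H) q₀` parts. -/
def S_7a : Prop := S_prc → S_split → ∀ (d δ : ℝ) (N q₀ m H : ℕ) (w F : ℤ → ℂ), 0 < d → d ≤ 1 →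
    0 < δ → δ ≤ 1 → 1 ≤ N → 1 ≤ q₀ → 1 ≤ m → m ≤ N → m * q₀ ≤ H → 32 * (H : ℝ) ≤ d * δ * N →
    TypeI δ N q₀ m w → (∀ n, ‖F n‖ ≤ 3 * N) →
    d * (N ^ 2 / m) ≤ ‖∑ n ∈ Finset.Icc (1 : ℤ) N, w n * F n‖ →
    ∃ b u v : ℤ, u ≤ v ∧ v - u ≤ H ∧
      d / 2 * (N * H / (m * q₀ : ℕ)) ≤ ‖∑ x ∈ pr (m * q₀) b u v, F x‖

/-- [8a S14] step 7, second part. PROOF. Put `z = x + h`: the sum is
`∑_{z ∈ [1,N]} conj g(z) W_z`, `W_z = ∑_{h ∈ H₀, z - h ∈ P} c_h ee (θ_h (z - h))`, `P = pr q b u v` (`g` vanishes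
outside of `[1,N]`). Cauchy-Schwarz: `∑_z ‖W_z‖² ≥ (d²/4) N (H/q)²`, the sum over all `z` in a large
finite interval. Expand: `∑_z ‖W_z‖² ≤ ∑_{h,h' ∈ H₀} G(h,h')`,
`G(h,h') = ‖∑_{z : z-h, z-h' ∈ P} ee ((θ_h - θ_h') z)‖` (up to a unimodular constant); the set of `z` is empty
unless `q ∣ h' - h` and `|h' - h| ≤ H`, and it is then `pr q (b+h) (u + max h h') (v + min h h')`: so
`G ≤ H/q + 1 ≤ 2H/q` and `G * (2 nn (q (θ_h' - θ_h))) ≤ 1` (`S_geo`). `#H₀ ≤ 2N+1 ≤ 3N`: for one `h`,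
`∑_{h'} G(h,h') ≥ (d²/12)(H/q)²`, the sum over the at most `2H/q + 1 ≤ 3H/q` admissible `h'`. Those with
`nn > κ = 36 q/(d²H)` contribute at most `(3H/q)/(2κ) = (d²/24)(H/q)²`; so the number of the
others is at least `(d²/24)(H/q)² / (2H/q)`. -/
def S_7b : Prop := S_geo → S_prc → ∀ (d : ℝ) (N q H : ℕ) (b u v : ℤ) (g c : ℤ → ℂ) (H₀ : Finset ℤ)
    (θ : ℤ → ℝ), 0 < d → d ≤ 1 → 1 ≤ N → 1 ≤ q → q ≤ H → Bd N g → (∀ h, ‖c h‖ ≤ 1) →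
    (∀ h ∈ H₀, |h| ≤ N) → u ≤ v → v - u ≤ H →
    d / 2 * (N * H / q) ≤ ‖∑ x ∈ pr q b u v,
      ∑ h ∈ H₀, c h * ((starRingEnd ℂ) (g (x + h)) * ee (θ h * x))‖ →
    ∃ h ∈ H₀, d ^ 2 / 48 * (H / q) ≤ ((H₀.filter (fun h' => (q : ℤ) ∣ h' - h ∧ |h' - h| ≤ H ∧
      nn (q * (θ h' - θ h)) ≤ 36 * q / (d ^ 2 * H))).card : ℝ)

end Pool.Agent.APP.B
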