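import Pool.Agent.Lib.MP_8a4e59_co.B.StmA
import Pool.Agent.Lib.MP_8a4e59_co.B.StmS

set_option autoImplicit false

/-!
MP_8a4e59_co, part B: the assembly of Theorem B from the steps.
-/

namespace Pool.Agent.APP.B

open Finset

/-- monotonicity of `B0p` -/
theorem B0p.mono {d d' : ℝ} {N : ℕ} {g : ℤ → ℂ} {H : Finset ℤ} {φ : ℤ → ℕ} (hd : d' ≤ d)
    (h : B0p d N g H φ) : B0p d' N g H φ := by
  have hN : (0 : ℝ) ≤ N := Nat.cast_nonneg N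
  refine ⟨h.1, le_trans (mul_le_mul_of_nonneg_right hd hN) h.2.1, fun x hx => ?_⟩
  exact le_trans (mul_le_mul_of_nonneg_right hd hN) (h.2.2 x hx)

/-- monotonicity of `TI` -/
theorem TI.mono {d d' δ : ℝ} {N q₀ m : ℕ} {g : ℤ → ℂ} {H : Finset ℤ} {φ : ℤ → ℕ} {w c : ℤ → ℂ}
    (hd : d' ≤ d) (h : TI d δ N q₀ m g H φ w c) : TI d' δ N q₀ m g H φ w c := by
  refine ⟨h.1, h.2.1, le_trans (mul_le_mul_of_nonneg_right hd ?_) h.2.2⟩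
  positivity

/-- monotonicity of `TII` -/
theorem TII.mono {d d' δ : ℝ} {N M : ℕ} {g : ℤ → ℂ} {H : Finset ℤ} {φ : ℤ → ℕ} {a b : ℕ → ℂ}
    {c : ℤ → ℂ} (hd : d' ≤ d) (h : TII d δ N M g H φ a b c) : TII d' δ N M g H φ a b c := by
  refine ⟨h.1, le_trans (mul_le_mul_of_nonneg_right hd ?_) h.2⟩
  positivity

/-- powers of `δ` in `B12` -/
theorem B12.pow {K k : ℕ} {δ : ℝ} {N q₀ : ℕ} {X₁ : ℝ} {g : ℤ → ℂ} (h : B12 K (δ ^ k) N q₀ X₁ g) :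
    B12 (k * K) δ N q₀ X₁ g := by
  obtain ⟨q, H, ξ, h1, h2, h3, h4, h5⟩ := h
  have e1 : (1 / δ) ^ (k * K) = (1 / δ ^ k) ^ K := by
    rw [pow_mul, one_div_pow]
  refine ⟨q, H, ξ, h1, ?_, ?_, h4, ?_⟩
  · rw [e1]; exact h2
  · rw [pow_mul]; exact h3
  · rw [pow_mul]; exact h5

/-- monotonicity of `B12` in the exponent -/
theorem B12.mono {K K' : ℕ} {δ : ℝ} {N q₀ : ℕ} {X₁ : ℝ} {g : ℤ → ℂ} (hK : K ≤ K') (hδ : 0 < δ)
    (hδ1 : δ ≤ 1) (hX : 0 ≤ X₁) (h : B12 K δ N q₀ X₁ g) : B12 K' δ N q₀ X₁ g := by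
  obtain ⟨q, H, ξ, h1, h2, h3, h4, h5⟩ := h
  have hp : δ ^ K' ≤ δ ^ K := pow_le_pow_of_le_one hδ.le hδ1 hK
  have hi : (1 / δ) ^ K ≤ (1 / δ) ^ K' := pow_le_pow_right₀ (by rw [le_div_iff₀ hδ]; linarith) hK
  refine ⟨q, H, ξ, h1, le_trans h2 (mul_le_mul_of_nonneg_right hi (by positivity)),
    le_trans (mul_le_mul_of_nonneg_right hp (by positivity)) h3, h4,
    le_trans (mul_le_mul_of_nonneg_right hp (by positivity)) h5⟩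

/-- monotonicity of `ZZ` -/
theorem ZZ.mono' {d d' Y : ℝ} {N : ℕ} {g : ℤ → ℂ} (hd : d ≤ d') (h : ZZ d Y N g) :
    ZZ d' Y N g := by
  intro q q₂ H a u h1 h2 h3 h4 h5 h6
  exact le_trans (h q q₂ H a u h1 h2 h3 h4 h5 h6) (mul_le_mul_of_nonneg_right hd (by positivity))

/-- monotonicity of `Dec` in the error -/
theorem Dec.mono' {δ : ℝ} {N q₀ : ℕ} {X V e e' : ℝ} {g : ℤ → ℂ} (he : e ≤ e')
    (h : Dec δ N q₀ X V e g) : Dec δ N q₀ X V e' g := by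
  obtain ⟨n₁, n₂, m, lam, w, M, mu, a, b, err, h1, h2, h3, h4, h5, h6, h7⟩ := h
  exact ⟨n₁, n₂, m, lam, w, M, mu, a, b, err, h1, h2, h3, h4, h5,
    le_trans h6 (mul_le_mul_of_nonneg_right he (Nat.cast_nonneg N)), h7⟩

/-- monotonicity of the conclusion -/
theorem Concl.mono {K K' : ℕ} {δ : ℝ} {N : ℕ} {Y : ℝ} {g : ℤ → ℂ} (hK : K ≤ K') (hδ : 0 < δ)
    (hδ1 : δ ≤ 1) (h : Concl K δ N Y g) : Concl K' δ N Y g := by
  obtain ⟨q, H, a, u, h1, h2, h3, h4, h5, h6, h7⟩ := h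
  have hp : δ ^ K' ≤ δ ^ K := pow_le_pow_of_le_one hδ.le hδ1 hK
  exact ⟨q, H, a, u, h1, h2, h3, h4, h5, h6,
    le_trans (mul_le_mul_of_nonneg_right hp (by positivity)) h7⟩

/-- Theorem B from the steps. -/
theorem as_B (h0 : SB_0) (h1 : SB_1) (hII : SB_II) (h7 : S_7) (h8 : S_8) (h9 : S_9) : S_thmB := by
  obtain ⟨K7, h7⟩ := h7
  obtain ⟨KI, hII⟩ := hII
  obtain ⟨K8, h8⟩ := h8 (11 * (K7 + KI))
  obtain ⟨K9, h9⟩ := h9 K8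
  obtain ⟨K, hK⟩ : ∃ K : ℕ, K = 11 * (K7 + KI) + K8 + K9 + 11 := ⟨_, rfl⟩
  refine ⟨K, ?_⟩
  intro δ N q₀ X₁ V₁ X₂ V₂ Y g f₀ f₁ f₂ hδ hδ2 hq hX1 hX2 hlog hg1 hg2 hD1 hD2 hZ hV1 hV2 hY hYN
    hf0 hf1 hf2 hs0 hs1 hs2 hbig
  have hδ1 : δ ≤ 1 := by linarith
  have hq1 : (1 : ℝ) ≤ q₀ := by exact_mod_cast hq
  have hq0 : (0 : ℝ) < q₀ := by linarith
  have hqX1 : 1 ≤ q₀ * X₁ := one_le_mul_of_one_le_of_one_le hq1 hX1
  have hA : 1 ≤ q₀ * X₁ / δ := by rw [le_div_iff₀ hδ]; linarith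
  have hAl : ∀ k l : ℕ, k ≤ l → (q₀ * X₁ / δ) ^ k ≤ (q₀ * X₁ / δ) ^ l := fun k l h =>
    pow_le_pow_right₀ hA h
  have hV2' : 1 ≤ V₂ := le_trans (one_le_pow₀ hA) hV2
  have hAB : q₀ * X₁ / δ ≤ q₀ * X₁ * X₂ * V₂ / δ := by
    apply div_le_div_of_nonneg_right _ hδ.le
    calc q₀ * X₁ = q₀ * X₁ * 1 := (mul_one _).symm
      _ ≤ q₀ * X₁ * (X₂ * V₂) := by
          apply mul_le_mul_of_nonneg_left _ (by linarith)
          exact one_le_mul_of_one_le_of_one_le hX2 hV2'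
      _ = q₀ * X₁ * X₂ * V₂ := by ring
  have hB : 1 ≤ q₀ * X₁ * X₂ * V₂ / δ := le_trans hA hAB
  have hY1 : 1 ≤ Y := le_trans (one_le_pow₀ hB) hY
  have hAY : ∀ k : ℕ, k ≤ K → (q₀ * X₁ / δ) ^ k ≤ Y := fun k h =>
    le_trans (pow_le_pow_left₀ (by linarith) hAB k) (le_trans (pow_le_pow_right₀ hB h) hY)
  have hYN' : ∀ k : ℕ, k ≤ K → Y ^ k ≤ N := fun k h => le_trans (pow_le_pow_right₀ hY1 h) hYN
  have hYN1 : Y ≤ N := by simpa using hYN' 1 (by omega)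
  have hN1R : (1 : ℝ) ≤ N := le_trans hY1 hYN1
  have hN1 : 1 ≤ N := by exact_mod_cast hN1R
  have hBd : Bd N g := ⟨hg1, hg2⟩
  obtain ⟨H0, φ, hB0⟩ := h0 δ N f₀ f₁ f₂ g hδ hN1 ⟨hf0, hs0⟩ ⟨hf1, hs1⟩ ⟨hf2, hs2⟩ hBd hbig
  -- the parameter `d`
  have hd0 : (0 : ℝ) < δ ^ 11 := pow_pos hδ 11
  have hdδ : δ ^ 11 ≤ δ := by
    simpa using pow_le_pow_of_le_one hδ.le hδ1 (show 1 ≤ 11 by norm_num)
  have h2p : ∀ k : ℕ, δ ^ k ≤ (1 / 2) ^ k := fun k => pow_le_pow_left₀ hδ.le hδ2 k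
  have hd2 : δ ^ 11 ≤ δ ^ 2 / 4 := by
    have e : δ ^ 11 = δ ^ 2 * δ ^ 9 := by ring
    rw [e]
    have h3 : δ ^ 9 ≤ 1 / 4 := le_trans (h2p 9) (by norm_num)
    nlinarith [pow_pos hδ 2]
  have hdT : δ ^ 11 ≤ δ * (δ ^ 2 / 4) ^ 2 / 4 := by
    have e : δ ^ 11 = δ ^ 5 * δ ^ 6 := by ring
    have e2 : δ * (δ ^ 2 / 4) ^ 2 / 4 = δ ^ 5 * (1 / 64) := by ring
    rw [e, e2]
    exact mul_le_mul_of_nonneg_left (le_trans (h2p 6) (by norm_num)) (by positivity)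
  have hε : δ ^ K ≤ (δ ^ 2 / 4) ^ 2 / 8 := by
    have e : δ ^ 11 = δ ^ 4 * δ ^ 7 := by ring
    have e2 : (δ ^ 2 / 4) ^ 2 / 8 = δ ^ 4 * (1 / 128) := by ring
    refine le_trans (pow_le_pow_of_le_one hδ.le hδ1 (show 11 ≤ K by omega)) ?_
    rw [e, e2]
    exact mul_le_mul_of_nonneg_left (le_trans (h2p 7) (by norm_num)) (by positivity)
  have h1d : 1 / δ ≤ 1 / δ ^ 11 := one_div_le_one_div_of_le hd0 hdδ
  -- `B12`
  have hB12 : B12 (11 * (K7 + KI)) δ N q₀ X₁ g := by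
    rcases h1 δ (δ ^ 2 / 4) (δ ^ K) X₁ V₁ N q₀ g H0 φ hδ (by positivity) hN1 hBd hB0 hD1 hε with
      ⟨m, w, c, hm1, hmX, hTI⟩ | ⟨M, a, b, c, hVM, hMN, ha, hb, hTII⟩
    · have hN7 : (q₀ * X₁ / δ ^ 11) ^ K7 ≤ N := by
        have e : q₀ * X₁ / δ ^ 11 ≤ (q₀ * X₁ / δ) ^ 11 := by
          rw [div_pow]
          apply div_le_div_of_nonneg_right _ hd0.le
          simpa using pow_le_pow_right₀ hqX1 (show 1 ≤ 11 by norm_num)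
        calc (q₀ * X₁ / δ ^ 11) ^ K7 ≤ ((q₀ * X₁ / δ) ^ 11) ^ K7 :=
              pow_le_pow_left₀ (by positivity) e K7
          _ = (q₀ * X₁ / δ) ^ (11 * K7) := (pow_mul _ _ _).symm
          _ ≤ Y := hAY _ (by omega)
          _ ≤ N := hYN1
      have := h7 (δ ^ 11) δ N q₀ m X₁ g H0 φ w c hd0 hdδ hδ2 hq hm1 hmX hBd (hB0.mono hd2)
        (hTI.mono hdT) hN7
      exact (this.pow).mono (by omega) hδ hδ1 (by linarith)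
    · have hM : (1 / δ ^ 11) ^ KI ≤ (M : ℝ) := by
        calc (1 / δ ^ 11) ^ KI = (1 / δ) ^ (11 * KI) := by rw [pow_mul, one_div_pow δ 11]
          _ ≤ (1 / δ) ^ K := pow_le_pow_right₀ (by rw [le_div_iff₀ hδ]; linarith) (by omega)
          _ ≤ V₁ := hV1
          _ ≤ M := hVM
      have := hII (δ ^ 11) δ N q₀ M X₁ g H0 φ a b c hd0 (by linarith) hq hX1 hN1 hBd
        (by linarith) (hB0.mono hd2) (fun k => le_trans (ha k) h1d) (fun k => le_trans (hb k) h1d)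
        (hTII.mono hdT) hM hMN
      exact (this.pow).mono (by omega) hδ hδ1 (by linarith)
  have hOne : One K8 δ N q₀ X₁ g := h8 δ N q₀ X₁ Y g hδ hδ2 hq hX1 hBd hB12
    (ZZ.mono' (pow_le_pow_of_le_one hδ.le hδ1 (by omega)) hZ) (hAY K8 (by omega)) hYN1
  have hC : Concl K9 δ N Y g := by
    refine h9 δ N q₀ X₁ X₂ V₂ Y g hδ hδ2 hq hX1 hX2 hBd hOne (Dec.mono' ?_ hD2)
      (ZZ.mono' (pow_le_pow_of_le_one hδ.le hδ1 (by omega)) hZ)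
      (le_trans (hAl K9 K (by omega)) hV2) (le_trans (pow_le_pow_right₀ hB (by omega)) hY)
      (hYN' K9 (by omega))
    apply pow_le_pow_of_le_one (by positivity) _ (by omega)
    rw [div_le_iff₀ (by positivity)]
    linarith
  exact hC.mono (by omega) hδ hδ1

end Pool.Agent.APP.B
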