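import Pool.Agent.Lib.MP_8a4e59_co.B.StmS

/-!
MP_8a4e59_co, part B, piece S13 (step 7, first part).
-/

set_option autoImplicit false

namespace Pool.Agent.APP.B

open Finset

/-- one piece of the decomposition -/
private lemma p7a_piece (d δ : ℝ) (N q₀ m H : ℕ) (w F : ℤ → ℂ)
    (hδ0 : 0 < δ) (hN : 1 ≤ N) (h32 : 32 * (H : ℝ) ≤ d * δ * N)
    (hw : TypeI δ N q₀ m w) (hF : ∀ n, ‖F n‖ ≤ 3 * N) (b u : ℤ) (hb : (m : ℤ) ∣ b) :
    ∃ u' v' : ℤ, u' ≤ v' ∧ v' - u' ≤ H ∧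
      ‖∑ x ∈ pr (m * q₀) b u (u + H), w x * F x‖ ≤ ‖∑ x ∈ pr (m * q₀) b u' v', F x‖ +
        d / 32 * (3 * N) * ((pr (m * q₀) b u (u + H)).card : ℝ) := by
  obtain ⟨hw1, hw2, hw3⟩ := hw
  have hNpos : (0 : ℝ) < N := by exact_mod_cast hN
  have hδN : 0 < δ * N := mul_pos hδ0 hNpos
  have hd : 0 ≤ d := by
    by_contra hneg
    push Not at hneg
    have h1 : (0 : ℝ) ≤ H := Nat.cast_nonneg _
    nlinarith
  set u' : ℤ := max u (⌈δ * N⌉ - 1) with hu'
  set v' : ℤ := max u' (min (u + H) N) with hv'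
  have hle : u' ≤ v' := le_max_left _ _
  have hu1 : u ≤ u' := le_max_left _ _
  have hu2 : ⌈δ * N⌉ - 1 ≤ u' := le_max_right _ _
  refine ⟨u', v', hle, ?_, ?_⟩
  · have h2 : min (u + (H : ℤ)) (N : ℤ) ≤ u + H := min_le_left _ _
    rcases le_total u' (min (u + (H : ℤ)) (N : ℤ)) with h | h
    · rw [hv', max_eq_right h]
      omega
    · rw [hv', max_eq_left h]
      have : (0 : ℤ) ≤ H := by positivity
      omega
  have hmem : ∀ x, x ∈ pr (m * q₀) b u' v' ↔ x ∈ pr (m * q₀) b u (u + H) ∧ δ * N ≤ x ∧ x ≤ N := by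
    intro x
    unfold pr
    simp only [Finset.mem_filter, Finset.mem_Ioc]
    have hc : δ * N ≤ (x : ℝ) ↔ ⌈δ * N⌉ - 1 < x := by
      rw [← Int.ceil_le]; omega
    rw [hc]
    constructor
    · rintro ⟨⟨h1, h2⟩, h3⟩
      have h4 : x ≤ min (u + (H : ℤ)) (N : ℤ) := by
        rcases le_total u' (min (u + (H : ℤ)) (N : ℤ)) with h | h
        · rw [hv', max_eq_right h] at h2
          exact h2
        · rw [hv', max_eq_left h] at h2
          omega
      exact ⟨⟨⟨by omega, h4.trans (min_le_left _ _)⟩, h3⟩, by omega, h4.trans (min_le_right _ _)⟩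
    · rintro ⟨⟨⟨h1, h2⟩, h3⟩, h4, h5⟩
      refine ⟨⟨max_lt h1 h4, ?_⟩, h3⟩
      exact (le_min h2 h5).trans (le_max_right _ _)
  have hsub : pr (m * q₀) b u' v' ⊆ pr (m * q₀) b u (u + H) := fun x hx => ((hmem x).mp hx).1
  have hsum : ∑ x ∈ pr (m * q₀) b u (u + H), w x * F x = ∑ x ∈ pr (m * q₀) b u' v', w x * F x := by
    symm
    apply Finset.sum_subset hsub
    intro x hx hx'
    have : w x = 0 := by
      by_contra hne
      obtain ⟨h1, h2, _⟩ := hw2 x hne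
      exact hx' ((hmem x).mpr ⟨hx, h1, h2⟩)
    rw [this, zero_mul]
  have hcard : ((pr (m * q₀) b u' v').card : ℝ) ≤ (pr (m * q₀) b u (u + H)).card := by
    exact_mod_cast Finset.card_le_card hsub
  rw [hsum]
  rcases (pr (m * q₀) b u' v').eq_empty_or_nonempty with he | ⟨x₁, hx₁⟩
  · rw [he]
    simp only [Finset.sum_empty, norm_zero, zero_add]
    positivity
  · have hdiff : ∀ x ∈ pr (m * q₀) b u' v', ‖(w x - w x₁) * F x‖ ≤ d / 32 * (3 * N) := by
      intro x hx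
      obtain ⟨hxP, hx1, hx2⟩ := (hmem x).mp hx
      obtain ⟨hyP, hy1, hy2⟩ := (hmem x₁).mp hx₁
      unfold pr at hxP hyP
      simp only [Finset.mem_filter, Finset.mem_Ioc] at hxP hyP
      obtain ⟨⟨hx3, hx4⟩, hx5⟩ := hxP
      obtain ⟨⟨hy3, hy4⟩, hy5⟩ := hyP
      have hmx : (m : ℤ) ∣ x := by
        have h1 : (m : ℤ) ∣ x - b :=
          dvd_trans ⟨(q₀ : ℤ), by push_cast; ring⟩ hx5
        have h2 := dvd_add h1 hb
        simpa using h2
      have hxy : ((m * q₀ : ℕ) : ℤ) ∣ x - x₁ := by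
        have := dvd_sub hx5 hy5
        simpa using this
      have h3 := hw3 x x₁ hx1 hx2 hy1 hy2 hmx hxy
      have habs : |(x : ℝ) - x₁| ≤ H := by
        have h4 : |x - x₁| ≤ (H : ℤ) := by rw [abs_le]; omega
        exact_mod_cast h4
      have h5 : |(x : ℝ) - x₁| / (δ * N) ≤ d / 32 := by
        rw [div_le_iff₀ hδN]
        have : d / 32 * (δ * N) = d * δ * N / 32 := by ring
        rw [this]
        linarith
      rw [norm_mul]
      exact mul_le_mul (h3.trans h5) (hF x) (norm_nonneg _) (by positivity)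
    have hdec : ∑ x ∈ pr (m * q₀) b u' v', w x * F x =
        w x₁ * ∑ x ∈ pr (m * q₀) b u' v', F x +
          ∑ x ∈ pr (m * q₀) b u' v', (w x - w x₁) * F x := by
      rw [Finset.mul_sum, ← Finset.sum_add_distrib]
      refine Finset.sum_congr rfl fun x _ => ?_
      ring
    rw [hdec]
    refine (norm_add_le _ _).trans (add_le_add ?_ ?_)
    · rw [norm_mul]
      calc ‖w x₁‖ * ‖∑ x ∈ pr (m * q₀) b u' v', F x‖
          ≤ 1 * ‖∑ x ∈ pr (m * q₀) b u' v', F x‖ :=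
            mul_le_mul_of_nonneg_right (hw1 x₁) (norm_nonneg _)
        _ = _ := one_mul _
    · refine (norm_sum_le_of_le _ hdiff).trans ?_
      rw [Finset.sum_const, nsmul_eq_mul, mul_comm]
      exact mul_le_mul_of_nonneg_left hcard (by positivity)

private lemma p7a_cast (N K : ℕ) :
    (((0 : ℤ) + (N : ℤ) : ℤ) : ℝ) - (((0 : ℤ) + (K : ℤ) : ℤ) : ℝ) = (N : ℝ) - K := by
  push_cast
  ring

theorem p_7a : S_7a := by
  intro hprc hsplit d δ N q₀ m H w F hd0 hd1 hδ0 hδ1 hN hq₀ hm hmN hQH h32 hw hF hbig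
  have hw' := hw
  obtain ⟨hw1, hw2, hw3⟩ := hw
  have hQ1 : 1 ≤ m * q₀ := Nat.mul_pos hm hq₀
  have hH1 : 1 ≤ H := hQ1.trans hQH
  have hmH : m ≤ H := (Nat.le_mul_of_pos_right m hq₀).trans hQH
  have hNpos : (0 : ℝ) < N := by exact_mod_cast hN
  have hmpos : (0 : ℝ) < m := by exact_mod_cast hm
  have hqpos : (0 : ℝ) < q₀ := by exact_mod_cast hq₀
  have hHpos : (0 : ℝ) < H := by exact_mod_cast hH1
  have hmHr : (m : ℝ) ≤ H := by exact_mod_cast hmH
  have hmNr : (m : ℝ) ≤ N := by exact_mod_cast hmN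
  obtain ⟨hB, hS⟩ := hsplit m (m * q₀) N H 0 0 hm hQ1 (dvd_mul_right _ _) hH1
  set B := (range (m * q₀)).filter (fun b : ℕ => (m : ℤ) ∣ (b : ℤ) - 0) with hBdef
  have hBcard : B.card = q₀ := by
    have : B.card * m = q₀ * m := by rw [hB]; ring
    exact Nat.eq_of_mul_eq_mul_right hm this
  by_contra hcon
  push Not at hcon
  -- the sum over multiples of `m`
  have hA : ∑ n ∈ Finset.Icc (1 : ℤ) N, w n * F n = ∑ x ∈ pr m 0 0 (0 + N), w x * F x := by
    symm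
    apply Finset.sum_subset
    · intro x hx
      unfold pr at hx
      simp only [Finset.mem_filter, Finset.mem_Ioc] at hx
      rw [Finset.mem_Icc]
      omega
    · intro x hx hx'
      have : w x = 0 := by
        by_contra hne
        obtain ⟨_, _, h3⟩ := hw2 x hne
        apply hx'
        unfold pr
        rw [Finset.mem_Icc] at hx
        simp only [Finset.mem_filter, Finset.mem_Ioc, sub_zero]
        exact ⟨⟨by omega, by omega⟩, h3⟩
      rw [this, zero_mul]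
  have hsplitC := hS ℂ (fun x => w x * F x)
  have hsplitR := hS ℝ (fun _ => (1 : ℝ))
  simp only [Finset.sum_const, nsmul_eq_mul, mul_one] at hsplitR
  -- the rest
  have hmod : N / H * H ≤ N := Nat.div_mul_le_self N H
  have hmod2 : N < N / H * H + H := Nat.lt_div_mul_add hH1
  have hrest : ‖∑ x ∈ pr m 0 (0 + (N / H * H : ℕ)) (0 + N), w x * F x‖ ≤
      3 * N * (2 * H / m) := by
    have hc := (hprc.1 m 0 (0 + (N / H * H : ℕ)) (0 + N) hm (by
      have : ((N / H * H : ℕ) : ℤ) ≤ N := by exact_mod_cast hmod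
      omega)).1
    have hc2 : ((pr m 0 (0 + (N / H * H : ℕ)) (0 + N)).card : ℝ) ≤ 2 * H / m := by
      refine hc.trans ?_
      have h1 : (((0 : ℤ) + (N : ℤ) : ℤ) : ℝ) - (((0 : ℤ) + ((N / H * H : ℕ) : ℤ) : ℤ) : ℝ) ≤ H := by
        have h2 : (N : ℝ) ≤ ((N / H * H : ℕ) : ℝ) + H := by
          have := hmod2.le
          exact_mod_cast this
        rw [p7a_cast]
        linarith
      have h3 : (1 : ℝ) ≤ H / m := by rw [le_div_iff₀ hmpos]; linarith
      calc _ ≤ (H : ℝ) / m + 1 := by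
            gcongr
        _ ≤ H / m + H / m := by linarith
        _ = 2 * H / m := by ring
    have hterm : ∀ x ∈ pr m 0 (0 + (N / H * H : ℕ)) (0 + N), ‖w x * F x‖ ≤ 3 * (N : ℝ) := by
      intro x _
      rw [norm_mul]
      calc ‖w x‖ * ‖F x‖ ≤ 1 * (3 * N) :=
            mul_le_mul (hw1 x) (hF x) (norm_nonneg _) zero_le_one
        _ = _ := one_mul _
    refine (norm_sum_le_of_le _ hterm).trans ?_
    rw [Finset.sum_const, nsmul_eq_mul, mul_comm]
    exact mul_le_mul_of_nonneg_left hc2 (by positivity)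
  -- the pieces
  set bd : ℝ := d / 2 * (N * H / (m * q₀ : ℕ)) with hbd
  have hpiece : ∀ j ∈ range (N / H), ∀ b ∈ B,
      ‖∑ x ∈ pr (m * q₀) b (0 + (j * H : ℕ)) (0 + ((j + 1) * H : ℕ)), w x * F x‖ ≤
        bd + d / 32 * (3 * N) *
          ((pr (m * q₀) b (0 + (j * H : ℕ)) (0 + ((j + 1) * H : ℕ))).card : ℝ) := by
    intro j _ b hb
    rw [hBdef, Finset.mem_filter, sub_zero] at hb
    have he : (0 : ℤ) + ((j + 1) * H : ℕ) = (0 + (j * H : ℕ)) + H := by push_cast; ring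
    rw [he]
    obtain ⟨u', v', h1, h2, h3⟩ := p7a_piece d δ N q₀ m H w F hδ0 hN h32 hw' hF b
      (0 + (j * H : ℕ)) hb.2
    have h4 := hcon b u' v' h1 h2
    linarith
  have hmain : ‖∑ j ∈ range (N / H), ∑ b ∈ B,
      ∑ x ∈ pr (m * q₀) b (0 + (j * H : ℕ)) (0 + ((j + 1) * H : ℕ)), w x * F x‖ ≤
      (N / H : ℕ) * q₀ * bd + d / 32 * (3 * N) * ∑ j ∈ range (N / H), ∑ b ∈ B,
        ((pr (m * q₀) b (0 + (j * H : ℕ)) (0 + ((j + 1) * H : ℕ))).card : ℝ) := by
    refine (norm_sum_le_of_le _ (fun j hj => norm_sum_le_of_le _ (fun b hb =>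
      hpiece j hj b hb))).trans ?_
    rw [Finset.mul_sum]
    simp only [Finset.mul_sum, Finset.sum_add_distrib, Finset.sum_const, Finset.card_range,
      nsmul_eq_mul, hBcard]
    linarith
  have hcount : ∑ j ∈ range (N / H), ∑ b ∈ B,
      ((pr (m * q₀) b (0 + (j * H : ℕ)) (0 + ((j + 1) * H : ℕ))).card : ℝ) ≤ 2 * N / m := by
    have hc := (hprc.1 m 0 0 (0 + N) hm (by positivity)).1
    have h0 : (0 : ℝ) ≤ ((pr m 0 (0 + (N / H * H : ℕ)) (0 + N)).card : ℝ) := Nat.cast_nonneg _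
    have h1 : (1 : ℝ) ≤ N / m := by rw [le_div_iff₀ hmpos]; linarith
    have h2 : (((0 : ℤ) + (N : ℤ) : ℤ) : ℝ) - ((0 : ℤ) : ℝ) = N := by push_cast; ring
    rw [h2] at hc
    have h3 : (2 * N / m : ℝ) = N / m + N / m := by ring
    rw [h3]
    linarith
  have hNH : ((N / H : ℕ) : ℝ) ≤ N / H := Nat.cast_div_le
  have hbd0 : 0 ≤ bd := by rw [hbd]; positivity
  have e1 : (N / H : ℕ) * q₀ * bd ≤ d / 2 * (N ^ 2 / m) := by
    calc ((N / H : ℕ) : ℝ) * q₀ * bd ≤ (N / H) * q₀ * bd := by gcongr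
      _ = d / 2 * (N ^ 2 / m) := by
        rw [hbd]
        push_cast
        field_simp
  have e2 : 3 * (N : ℝ) * (2 * H / m) ≤ 6 / 32 * (d * (N ^ 2 / m)) := by
    have h1 : 32 * (H : ℝ) ≤ d * N := by
      refine h32.trans ?_
      have : d * δ * N ≤ d * 1 * N := by gcongr
      linarith
    have h2 : 3 * (N : ℝ) * (2 * H / m) = 6 / 32 * (N * (32 * H) / m) := by ring
    have h3 : 6 / 32 * (d * ((N : ℝ) ^ 2 / m)) = 6 / 32 * (N * (d * N) / m) := by ring
    rw [h2, h3]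
    gcongr
  have e3 : d / 32 * (3 * N) * (2 * N / m) = 6 / 32 * (d * ((N : ℝ) ^ 2 / m)) := by ring
  have e4 : d / 32 * (3 * N) * (∑ j ∈ range (N / H), ∑ b ∈ B,
      ((pr (m * q₀) b (0 + (j * H : ℕ)) (0 + ((j + 1) * H : ℕ))).card : ℝ)) ≤
      d / 32 * (3 * N) * (2 * N / m) :=
    mul_le_mul_of_nonneg_left hcount (by positivity)
  have htot : ‖∑ n ∈ Finset.Icc (1 : ℤ) N, w n * F n‖ ≤
      ((N / H : ℕ) * q₀ * bd + d / 32 * (3 * N) * ∑ j ∈ range (N / H), ∑ b ∈ B,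
        ((pr (m * q₀) b (0 + (j * H : ℕ)) (0 + ((j + 1) * H : ℕ))).card : ℝ)) +
        3 * N * (2 * H / m) := by
    rw [hA, hsplitC]
    exact (norm_add_le _ _).trans (add_le_add hmain hrest)
  have hpos : 0 < d * ((N : ℝ) ^ 2 / m) := by positivity
  have e5 : d / 2 * ((N : ℝ) ^ 2 / m) = 1 / 2 * (d * ((N : ℝ) ^ 2 / m)) := by ring
  linarith

end Pool.Agent.APP.B
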