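import Pool.Agent.Lib.MP_8a4e59_co.B.StmS

set_option autoImplicit false

/-! [8a B/S_7b] step 7, second part. (helper21) -/

namespace Pool.Agent.APP.B

open Finset

private lemma b7_expand (I H₀ : Finset ℤ) (f : ℤ → ℤ → ℂ) :
    ∑ z ∈ I, ‖∑ h ∈ H₀, f h z‖ ^ 2 ≤
      ∑ h ∈ H₀, ∑ h' ∈ H₀, ‖∑ z ∈ I, f h z * (starRingEnd ℂ) (f h' z)‖ := by
  have key : ((∑ z ∈ I, ‖∑ h ∈ H₀, f h z‖ ^ 2 : ℝ) : ℂ) =
      ∑ h ∈ H₀, ∑ h' ∈ H₀, ∑ z ∈ I, f h z * (starRingEnd ℂ) (f h' z) := by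
    push_cast
    have h1 : ∀ z ∈ I, ((‖∑ h ∈ H₀, f h z‖ : ℂ)) ^ 2 =
        ∑ h ∈ H₀, ∑ h' ∈ H₀, f h z * (starRingEnd ℂ) (f h' z) := by
      intro z _
      rw [← Complex.mul_conj', map_sum, Finset.sum_mul_sum]
    rw [Finset.sum_congr rfl h1, Finset.sum_comm]
    refine Finset.sum_congr rfl fun h _ => ?_
    rw [Finset.sum_comm]
  calc _ ≤ |∑ z ∈ I, ‖∑ h ∈ H₀, f h z‖ ^ 2| := le_abs_self _
    _ = ‖((∑ z ∈ I, ‖∑ h ∈ H₀, f h z‖ ^ 2 : ℝ) : ℂ)‖ := by
      rw [Complex.norm_real, Real.norm_eq_abs]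
    _ = ‖∑ h ∈ H₀, ∑ h' ∈ H₀, ∑ z ∈ I, f h z * (starRingEnd ℂ) (f h' z)‖ := by rw [key]
    _ ≤ _ := (norm_sum_le _ _).trans (Finset.sum_le_sum fun h _ => norm_sum_le _ _)

private lemma b7_mem (q : ℕ) (a u v x : ℤ) : x ∈ pr q a u v ↔ (u < x ∧ x ≤ v) ∧ (q : ℤ) ∣ x - a := by
  unfold pr
  rw [Finset.mem_filter, Finset.mem_Ioc]

/-- change of variables for one `h` -/
private lemma b7_shift (P : Finset ℤ) (N : ℕ) (h : ℤ) (F : ℤ → ℂ)
    (hF : ∀ x, ¬ (1 ≤ x + h ∧ x + h ≤ (N : ℤ)) → F x = 0) :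
    ∑ x ∈ P, F x = ∑ z ∈ Finset.Icc (1 : ℤ) N, if z - h ∈ P then F (z - h) else 0 := by
  classical
  have h1 : ∑ x ∈ P, F x = ∑ x ∈ P.filter (fun x => 1 ≤ x + h ∧ x + h ≤ (N : ℤ)), F x := by
    rw [Finset.sum_filter_of_ne]
    intro x _ hx
    by_contra hc
    exact hx (hF x hc)
  rw [h1, ← Finset.sum_filter]
  refine Finset.sum_nbij' (fun x => x + h) (fun z => z - h) ?_ ?_ ?_ ?_ ?_
  · intro x hx
    rw [Finset.mem_filter] at hx
    rw [Finset.mem_filter, Finset.mem_Icc, add_sub_cancel_right]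
    exact ⟨hx.2, hx.1⟩
  · intro z hz
    rw [Finset.mem_filter, Finset.mem_Icc] at hz
    rw [Finset.mem_filter, sub_add_cancel]
    exact ⟨hz.2, hz.1⟩
  · intro x _; ring
  · intro z _; ring
  · intro x _; rw [add_sub_cancel_right]

theorem p_7b : S_7b := by
  classical
  intro hgeo hprc d N q H b u v g c H₀ θ hd hd1 hN hq hqH hBd hc hH₀ huv hvu hbig
  obtain ⟨hprc1, hprc3⟩ := hprc
  obtain ⟨hg1, hgs⟩ := hBd
  have hq0 : (0 : ℝ) < q := by exact_mod_cast hq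
  have hH0 : (0 : ℝ) < H := by exact_mod_cast (lt_of_lt_of_le hq hqH)
  have hN0 : (0 : ℝ) < N := by exact_mod_cast hN
  have hHq : (1 : ℝ) ≤ H / q := by
    rw [le_div_iff₀ hq0, one_mul]; exact_mod_cast hqH
  set P := pr q b u v with hP
  set I := Finset.Icc (1 : ℤ) N with hI
  have hIcard : (I.card : ℝ) = N := by
    rw [hI, Int.card_Icc]
    have : ((N : ℤ) + 1 - 1).toNat = N := by simp
    rw [this]
  set f : ℤ → ℤ → ℂ := fun h z => if z - h ∈ P then c h * ee (θ h * ((z - h : ℤ) : ℝ)) else 0 with hf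
  -- rewriting the sum
  have hsum : ∑ x ∈ P, ∑ h ∈ H₀, c h * ((starRingEnd ℂ) (g (x + h)) * ee (θ h * x)) =
      ∑ z ∈ I, (starRingEnd ℂ) (g z) * ∑ h ∈ H₀, f h z := by
    rw [Finset.sum_comm]
    have h1 : ∀ h ∈ H₀, ∑ x ∈ P, c h * ((starRingEnd ℂ) (g (x + h)) * ee (θ h * x)) =
        ∑ z ∈ I, (starRingEnd ℂ) (g z) * f h z := by
      intro h _
      rw [b7_shift P N h (fun x => c h * ((starRingEnd ℂ) (g (x + h)) * ee (θ h * x)))]
      · refine Finset.sum_congr rfl fun z _ => ?_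
        simp only [hf]
        split_ifs
        · rw [sub_add_cancel]; ring
        · rw [mul_zero]
      · intro x hx
        have : g (x + h) = 0 := by
          by_contra hne
          exact hx (hgs _ hne)
        simp [this]
    rw [Finset.sum_congr rfl h1, Finset.sum_comm]
    refine Finset.sum_congr rfl fun z _ => ?_
    rw [Finset.mul_sum]
  rw [hsum] at hbig
  -- Cauchy-Schwarz
  set T := ∑ z ∈ I, ‖∑ h ∈ H₀, f h z‖ ^ 2 with hT
  have hCS : (d / 2 * (N * H / q)) ^ 2 ≤ N * T := by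
    have h1 : d / 2 * (N * H / q) ≤ ∑ z ∈ I, ‖∑ h ∈ H₀, f h z‖ := by
      refine hbig.trans ((norm_sum_le _ _).trans (Finset.sum_le_sum fun z _ => ?_))
      rw [norm_mul, Complex.norm_conj]
      calc ‖g z‖ * ‖∑ h ∈ H₀, f h z‖ ≤ 1 * ‖∑ h ∈ H₀, f h z‖ := by
            gcongr
            exact hg1 z
        _ = _ := one_mul _
    calc (d / 2 * (N * H / q)) ^ 2 ≤ (∑ z ∈ I, ‖∑ h ∈ H₀, f h z‖) ^ 2 := by
          gcongr
      _ ≤ (I.card : ℝ) * T := sq_sum_le_card_mul_sum_sq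
      _ = N * T := by rw [hIcard]
  have hTlow : d ^ 2 / 4 * (N * (H / q) ^ 2) ≤ T := by
    have h1 : N * (d ^ 2 / 4 * (N * ((H : ℝ) / q) ^ 2)) = (d / 2 * (N * H / q)) ^ 2 := by
      field_simp
      ring
    rw [← h1] at hCS
    exact le_of_mul_le_mul_left hCS hN0
  set G : ℤ → ℤ → ℝ := fun h h' => ‖∑ z ∈ I, f h z * (starRingEnd ℂ) (f h' z)‖ with hG
  have hTG : T ≤ ∑ h ∈ H₀, ∑ h' ∈ H₀, G h h' := b7_expand I H₀ f
  -- the inner sums
  have hG0 : ∀ h h', 0 ≤ G h h' := fun h h' => norm_nonneg _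
  have hGle : ∀ h h', G h h' ≤
      ‖∑ z ∈ I.filter (fun z => z - h ∈ P ∧ z - h' ∈ P), ee ((θ h - θ h') * z)‖ := by
    intro h h'
    have h1 : ∑ z ∈ I, f h z * (starRingEnd ℂ) (f h' z) =
        (c h * (starRingEnd ℂ) (c h') * ee (-(θ h * h) + θ h' * h')) *
          ∑ z ∈ I.filter (fun z => z - h ∈ P ∧ z - h' ∈ P), ee ((θ h - θ h') * z) := by
      rw [Finset.mul_sum, Finset.sum_filter]
      refine Finset.sum_congr rfl fun z _ => ?_
      simp only [hf]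
      by_cases h2 : z - h ∈ P
      · by_cases h3 : z - h' ∈ P
        · rw [if_pos h2, if_pos h3, if_pos ⟨h2, h3⟩, map_mul, ← ee_neg]
          have e1 : ee (θ h * ((z - h : ℤ) : ℝ)) * ee (-(θ h' * ((z - h' : ℤ) : ℝ))) =
              ee (-(θ h * h) + θ h' * h') * ee ((θ h - θ h') * z) := by
            rw [← ee_add, ← ee_add]
            congr 1
            push_cast
            ring
          calc c h * ee (θ h * ((z - h : ℤ) : ℝ)) *
              ((starRingEnd ℂ) (c h') * ee (-(θ h' * ((z - h' : ℤ) : ℝ)))) =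
              c h * (starRingEnd ℂ) (c h') *
                (ee (θ h * ((z - h : ℤ) : ℝ)) * ee (-(θ h' * ((z - h' : ℤ) : ℝ)))) := by ring
            _ = _ := by rw [e1]; ring
        · have h4 : ¬ (z - h ∈ P ∧ z - h' ∈ P) := fun h5 => h3 h5.2
          rw [if_neg h3, if_neg h4, map_zero, mul_zero]
      · have h4 : ¬ (z - h ∈ P ∧ z - h' ∈ P) := fun h5 => h2 h5.1
        rw [if_neg h2, if_neg h4, zero_mul]
    show ‖∑ z ∈ I, f h z * (starRingEnd ℂ) (f h' z)‖ ≤ _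
    rw [h1, norm_mul, norm_mul, norm_mul, Complex.norm_conj, norm_ee, mul_one]
    have h2 : ‖c h‖ * ‖c h'‖ ≤ 1 := mul_le_one₀ (hc h) (norm_nonneg _) (hc h')
    calc ‖c h‖ * ‖c h'‖ * ‖∑ z ∈ I.filter (fun z => z - h ∈ P ∧ z - h' ∈ P), ee ((θ h - θ h') * z)‖
        ≤ 1 * _ := by gcongr
      _ = _ := one_mul _
  have hPc : ((P.card : ℕ) : ℝ) ≤ 2 * (H / q) := by
    have h1 := (hprc1 q b u v hq huv).1
    have h2 : ((v : ℝ) - u) / q ≤ H / q := by
      gcongr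
      exact_mod_cast hvu
    linarith
  have hGa : ∀ h h', G h h' ≤ 2 * (H / q) := by
    intro h h'
    refine (hGle h h').trans ((norm_sum_le _ _).trans ?_)
    have h1 : ∑ z ∈ I.filter (fun z => z - h ∈ P ∧ z - h' ∈ P), ‖ee ((θ h - θ h') * z)‖ =
        ((I.filter (fun z => z - h ∈ P ∧ z - h' ∈ P)).card : ℝ) := by
      rw [Finset.sum_congr rfl (fun z _ => norm_ee _)]
      simp
    rw [h1]
    refine le_trans ?_ hPc
    have h2 : (I.filter (fun z => z - h ∈ P ∧ z - h' ∈ P)).card ≤ P.card := by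
      refine Finset.card_le_card_of_injOn (fun z => z - h) ?_ ?_
      · intro z hz
        rw [Finset.mem_coe, Finset.mem_filter] at hz
        exact Finset.mem_coe.2 hz.2.1
      · intro a _ b _ hab
        simpa using hab
    exact_mod_cast h2
  have hGc : ∀ h h', ¬ ((q : ℤ) ∣ h' - h ∧ |h' - h| ≤ H) → G h h' = 0 := by
    intro h h' hn
    apply le_antisymm _ (hG0 h h')
    refine (hGle h h').trans ?_
    have h1 : I.filter (fun z => z - h ∈ P ∧ z - h' ∈ P) = ∅ := by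
      rw [Finset.filter_eq_empty_iff]
      rintro z _ ⟨h2, h3⟩
      rw [hP, b7_mem] at h2 h3
      apply hn
      refine ⟨?_, ?_⟩
      · have : h' - h = (z - h - b) - (z - h' - b) := by ring
        rw [this]; exact dvd_sub h2.2 h3.2
      · rw [abs_le]
        obtain ⟨⟨a1, a2⟩, _⟩ := h2
        obtain ⟨⟨a3, a4⟩, _⟩ := h3
        constructor <;> omega
    rw [h1]; simp
  have hGb : ∀ h h', G h h' * (2 * nn (q * (θ h' - θ h))) ≤ 1 := by
    intro h h'
    by_cases hdv : (q : ℤ) ∣ h' - h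
    · have h1 : I.filter (fun z => z - h ∈ P ∧ z - h' ∈ P) =
          pr q (b + h) (max (max (u + h) (u + h')) 0) (min (min (v + h) (v + h')) N) := by
        ext z
        rw [Finset.mem_filter, b7_mem, hP, b7_mem, b7_mem, hI, Finset.mem_Icc]
        constructor
        · rintro ⟨⟨a1, a2⟩, ⟨⟨a3, a4⟩, a5⟩, ⟨a6, a7⟩, a8⟩
          refine ⟨⟨?_, ?_⟩, ?_⟩
          · rw [max_lt_iff, max_lt_iff]; omega
          · rw [le_min_iff, le_min_iff]; omega
          · have : z - (b + h) = z - h - b := by ring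
            rw [this]; exact a5
        · rintro ⟨⟨a1, a2⟩, a3⟩
          rw [max_lt_iff, max_lt_iff] at a1
          rw [le_min_iff, le_min_iff] at a2
          obtain ⟨⟨b1, b2⟩, b3⟩ := a1
          obtain ⟨⟨b4, b5⟩, b6⟩ := a2
          have e1 : z - h - b = z - (b + h) := by ring
          have e2 : z - h' - b = (z - (b + h)) - (h' - h) := by ring
          refine ⟨⟨by omega, b6⟩, ⟨⟨by omega, by omega⟩, ?_⟩, ⟨by omega, by omega⟩, ?_⟩
          · rw [e1]; exact a3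
          · rw [e2]; exact dvd_sub a3 hdv
      have h2 := hgeo q (b + h) (max (max (u + h) (u + h')) 0) (min (min (v + h) (v + h')) N)
        (θ h - θ h') hq
      rw [← h1] at h2
      have h3 : nn (q * (θ h' - θ h)) = nn (q * (θ h - θ h')) := by
        rw [← nn_neg]; congr 1; ring
      rw [h3]
      refine le_trans ?_ h2
      have := nn_nonneg (q * (θ h - θ h'))
      exact mul_le_mul_of_nonneg_right (hGle h h') (by positivity)
    · rw [hGc h h' (fun h4 => hdv h4.1), zero_mul]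
      norm_num
  -- the number of `h`
  have hH₀c : ((H₀.card : ℕ) : ℝ) ≤ 3 * N := by
    have h1 : H₀ ⊆ Finset.Icc (-(N : ℤ)) N := by
      intro h hh
      rw [Finset.mem_Icc]
      exact abs_le.1 (hH₀ h hh)
    have h2 := Finset.card_le_card h1
    rw [Int.card_Icc] at h2
    have h3 : ((N : ℤ) + 1 - -(N : ℤ)).toNat = 2 * N + 1 := by omega
    rw [h3] at h2
    have h4 : H₀.card ≤ 3 * N := by omega
    exact_mod_cast h4
  obtain ⟨h, hh, hbigG⟩ : ∃ h ∈ H₀, d ^ 2 / 12 * ((H : ℝ) / q) ^ 2 ≤ ∑ h' ∈ H₀, G h h' := by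
    by_contra hcon
    push Not at hcon
    have hne : H₀.Nonempty := by
      rw [Finset.nonempty_iff_ne_empty]
      rintro rfl
      simp only [Finset.sum_empty] at hTG
      have : 0 < d ^ 2 / 4 * (N * ((H : ℝ) / q) ^ 2) := by positivity
      linarith
    have h1 : ∑ h ∈ H₀, ∑ h' ∈ H₀, G h h' < ∑ h ∈ H₀, d ^ 2 / 12 * ((H : ℝ) / q) ^ 2 :=
      Finset.sum_lt_sum_of_nonempty hne hcon
    rw [Finset.sum_const, nsmul_eq_mul] at h1
    have h2 : (H₀.card : ℝ) * (d ^ 2 / 12 * ((H : ℝ) / q) ^ 2) ≤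
        3 * N * (d ^ 2 / 12 * ((H : ℝ) / q) ^ 2) := by
      gcongr
    have h3 : 3 * N * (d ^ 2 / 12 * ((H : ℝ) / q) ^ 2) = d ^ 2 / 4 * (N * ((H : ℝ) / q) ^ 2) := by
      ring
    linarith
  refine ⟨h, hh, ?_⟩
  set κ : ℝ := 36 * q / (d ^ 2 * H) with hκ
  have hκ0 : 0 < κ := by positivity
  set A := H₀.filter (fun h' => (q : ℤ) ∣ h' - h ∧ |h' - h| ≤ H) with hA
  set B := H₀.filter (fun h' => (q : ℤ) ∣ h' - h ∧ |h' - h| ≤ H ∧ nn (q * (θ h' - θ h)) ≤ κ) with hB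
  have hAc : ((A.card : ℕ) : ℝ) ≤ 3 * (H / q) := by
    have h1 := hprc3 q A (2 * H) hq (by positivity) (by
      intro x hx y hy
      rw [hA, Finset.mem_filter] at hx hy
      obtain ⟨_, hx1, hx2⟩ := hx
      obtain ⟨_, hy1, hy2⟩ := hy
      refine ⟨?_, ?_⟩
      · have : x - y = (x - h) - (y - h) := by ring
        rw [this]; exact dvd_sub hx1 hy1
      · have h3 : |x - y| ≤ 2 * H := by
          rw [abs_le] at hx2 hy2 ⊢
          constructor <;> omega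
        exact_mod_cast h3)
    have h2 : 2 * (H : ℝ) / q = 2 * (H / q) := by ring
    rw [h2] at h1
    linarith
  have hBA : B ⊆ A := by
    intro x hx
    rw [hB, Finset.mem_filter] at hx
    rw [hA, Finset.mem_filter]
    exact ⟨hx.1, hx.2.1, hx.2.2.1⟩
  have hsumA : ∑ h' ∈ H₀, G h h' = ∑ h' ∈ A, G h h' := by
    rw [hA, Finset.sum_filter_of_ne]
    intro x _ hx
    by_contra hcon
    exact hx (hGc h x hcon)
  have hsplit : ∑ h' ∈ A, G h h' = ∑ h' ∈ A \ B, G h h' + ∑ h' ∈ B, G h h' :=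
    (Finset.sum_sdiff hBA).symm
  have hbad : ∑ h' ∈ A \ B, G h h' ≤ d ^ 2 / 24 * ((H : ℝ) / q) ^ 2 := by
    have h1 : ∀ h' ∈ A \ B, G h h' ≤ d ^ 2 / 72 * (H / q) := by
      intro h' hh'
      rw [Finset.mem_sdiff, hA, Finset.mem_filter, hB, Finset.mem_filter] at hh'
      obtain ⟨⟨m1, m2, m3⟩, m4⟩ := hh'
      have h2 : κ < nn (q * (θ h' - θ h)) := by
        by_contra hcon
        exact m4 ⟨m1, m2, m3, not_lt.1 hcon⟩
      have h3 := hGb h h'
      have h4 : G h h' * (2 * κ) ≤ 1 := by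
        refine le_trans ?_ h3
        have := hG0 h h'
        gcongr
      have h5 : G h h' ≤ 1 / (2 * κ) := by
        rw [le_div_iff₀ (by positivity)]; exact h4
      refine h5.trans (le_of_eq ?_)
      rw [hκ]
      field_simp
      ring
    have h2 : ((A \ B).card : ℝ) ≤ 3 * (H / q) := by
      refine le_trans ?_ hAc
      exact_mod_cast Finset.card_le_card Finset.sdiff_subset
    calc ∑ h' ∈ A \ B, G h h' ≤ ∑ h' ∈ A \ B, d ^ 2 / 72 * ((H : ℝ) / q) := Finset.sum_le_sum h1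
      _ = ((A \ B).card : ℝ) * (d ^ 2 / 72 * ((H : ℝ) / q)) := by
        rw [Finset.sum_const, nsmul_eq_mul]
      _ ≤ 3 * (H / q) * (d ^ 2 / 72 * ((H : ℝ) / q)) := by gcongr
      _ = _ := by ring
  have hgood : ∑ h' ∈ B, G h h' ≤ (B.card : ℝ) * (2 * (H / q)) := by
    calc ∑ h' ∈ B, G h h' ≤ ∑ h' ∈ B, 2 * ((H : ℝ) / q) := Finset.sum_le_sum fun h' _ => hGa h h'
      _ = _ := by rw [Finset.sum_const, nsmul_eq_mul]
  have hfin : d ^ 2 / 24 * ((H : ℝ) / q) ^ 2 ≤ (B.card : ℝ) * (2 * (H / q)) := by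
    rw [hsumA, hsplit] at hbigG
    have : d ^ 2 / 12 * ((H : ℝ) / q) ^ 2 = d ^ 2 / 24 * ((H : ℝ) / q) ^ 2 +
        d ^ 2 / 24 * ((H : ℝ) / q) ^ 2 := by ring
    linarith
  have h1 : d ^ 2 / 24 * ((H : ℝ) / q) ^ 2 = (d ^ 2 / 48 * (H / q)) * (2 * (H / q)) := by ring
  rw [h1] at hfin
  exact le_of_mul_le_mul_right hfin (by positivity)

end Pool.Agent.APP.B
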