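import Pool.Agent.Lib.MP_8a4e59_co.B.StmS

set_option autoImplicit false

/-!
MP_8a4e59_co, part B, piece S_8a: the non coprime classes are negligible (helper42).
-/

namespace Pool.Agent.APP.B

open Finset

theorem p_8a : S_8a := by
  intro hprc c N q H ξ g hc hg hq hqH hHN hmass hsum
  classical
  have hq0 : (0 : ℝ) < q := by exact_mod_cast hq
  have hH1 : 1 ≤ H := le_trans hq hqH
  have hH0 : (0 : ℝ) < H := by exact_mod_cast hH1
  have hN1 : 1 ≤ N := le_trans hH1 hHN
  have hN0 : (0 : ℝ) < N := by exact_mod_cast hN1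
  have hHq : (1 : ℝ) ≤ H / q := by
    rw [le_div_iff₀ hq0, one_mul]
    exact_mod_cast hqH
  let P : ℕ × ℕ → Finset ℤ := fun i => pr q i.2 ((i.1 * H : ℕ) : ℤ) (((i.1 + 1) * H : ℕ) : ℤ)
  have hPm : ∀ i x, x ∈ P i ↔ (((i.1 * H : ℕ) : ℤ) < x ∧ x ≤ (((i.1 + 1) * H : ℕ) : ℤ)) ∧
      (q : ℤ) ∣ x - i.2 := by
    intro i x
    simp only [P, pr, Finset.mem_filter, Finset.mem_Ioc]
  -- size of the pieces
  have hcard : ∀ i, ((P i).card : ℝ) ≤ 2 * (H / q) := by
    intro i
    have h1 := (hprc.1 q i.2 ((i.1 * H : ℕ) : ℤ) (((i.1 + 1) * H : ℕ) : ℤ) hq (by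
      have : i.1 * H ≤ (i.1 + 1) * H := Nat.mul_le_mul_right H (by omega)
      exact_mod_cast this)).1
    have h2 : (((((i.1 + 1) * H : ℕ) : ℤ) : ℝ) - (((i.1 * H : ℕ) : ℤ) : ℝ)) = H := by
      push_cast
      ring
    rw [h2] at h1
    refine h1.trans ?_
    linarith
  have hgam : ∀ i : ℕ × ℕ, gam q H ξ g i.1 i.2 ≤ ∑ x ∈ P i, ‖g x‖ := by
    intro i
    unfold gam
    refine (norm_sum_le _ _).trans (le_of_eq ?_)
    refine Finset.sum_congr rfl fun x _ => ?_
    rw [norm_mul, norm_ee, mul_one]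
  have hgam0 : ∀ i : ℕ × ℕ, 0 ≤ gam q H ξ g i.1 i.2 := fun i => norm_nonneg _
  have hgam2 : ∀ i : ℕ × ℕ, gam q H ξ g i.1 i.2 ^ 2 ≤ 2 * (H / q) * ∑ x ∈ P i, ‖g x‖ := by
    intro i
    have h3 : ∑ x ∈ P i, ‖g x‖ ≤ 2 * (H / q) := by
      refine le_trans ?_ (hcard i)
      calc ∑ x ∈ P i, ‖g x‖ ≤ ∑ _x ∈ P i, (1 : ℝ) := Finset.sum_le_sum fun x _ => hg.1 x
        _ = (P i).card := by rw [Finset.sum_const, nsmul_eq_mul, mul_one]
    have h4 : 0 ≤ ∑ x ∈ P i, ‖g x‖ := Finset.sum_nonneg fun x _ => norm_nonneg _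
    have h5 := hgam i
    have h6 := hgam0 i
    rw [sq]
    exact mul_le_mul (h5.trans h3) h5 h6 (by positivity)
  -- disjointness
  have hdisj : ∀ i j : ℕ × ℕ, i.2 < q → j.2 < q → i ≠ j → Disjoint (P i) (P j) := by
    intro i j hi hj hij
    rw [Finset.disjoint_left]
    intro x hxi hxj
    apply hij
    rw [hPm] at hxi hxj
    obtain ⟨⟨hi1, hi2⟩, hi3⟩ := hxi
    obtain ⟨⟨hj1, hj2⟩, hj3⟩ := hxj
    have h7 : i.1 = j.1 := by
      have a1 : i.1 * H < (j.1 + 1) * H := by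
        have := lt_of_lt_of_le hi1 hj2
        exact_mod_cast this
      have a2 : j.1 * H < (i.1 + 1) * H := by
        have := lt_of_lt_of_le hj1 hi2
        exact_mod_cast this
      have a3 := Nat.lt_of_mul_lt_mul_right a1
      have a4 := Nat.lt_of_mul_lt_mul_right a2
      omega
    have h8 : i.2 = j.2 := by
      have h9 := dvd_sub hj3 hi3
      have h10 : (x - (j.2 : ℤ)) - (x - (i.2 : ℤ)) = i.2 - j.2 := by ring
      rw [h10] at h9
      obtain ⟨k, hk⟩ := h9
      have hk0 : k = 0 := by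
        by_contra hne
        rcases lt_or_gt_of_ne hne with h | h
        · have : (q : ℤ) * k ≤ (q : ℤ) * (-1) := mul_le_mul_of_nonneg_left (by omega) (by omega)
          omega
        · have : (q : ℤ) * 1 ≤ (q : ℤ) * k := mul_le_mul_of_nonneg_left (by omega) (by omega)
          omega
      rw [hk0, mul_zero] at hk
      omega
    exact Prod.ext h7 h8
  let J : Finset ℕ := range (N / H + 1)
  let A₁ : Finset ℕ := (range q).filter (fun a : ℕ => Int.gcd (a : ℤ) q = 1)
  let A₂ : Finset ℕ := (range q).filter (fun a : ℕ => ¬ Int.gcd (a : ℤ) q = 1)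
  have hbad : ∑ i ∈ J ×ˢ A₂, gam q H ξ g i.1 i.2 ^ 2 ≤ c / 2 * (N * H / q) := by
    calc ∑ i ∈ J ×ˢ A₂, gam q H ξ g i.1 i.2 ^ 2
        ≤ ∑ i ∈ J ×ˢ A₂, 2 * (H / q) * ∑ x ∈ P i, ‖g x‖ := Finset.sum_le_sum fun i _ => hgam2 i
      _ = 2 * (H / q) * ∑ x ∈ (J ×ˢ A₂).biUnion P, ‖g x‖ := by
          rw [← Finset.mul_sum, Finset.sum_biUnion]
          intro i hi j hj hij
          have hi' := (Finset.mem_product.1 (Finset.mem_coe.1 hi)).2
          have hj' := (Finset.mem_product.1 (Finset.mem_coe.1 hj)).2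
          exact hdisj i j (Finset.mem_range.1 (Finset.mem_filter.1 hi').1)
            (Finset.mem_range.1 (Finset.mem_filter.1 hj').1) hij
      _ ≤ 2 * (H / q) * ∑ x ∈ (Finset.Ioc (0 : ℤ) N).filter (fun x => 1 < Int.gcd x q), ‖g x‖ := by
          refine mul_le_mul_of_nonneg_left ?_ (by positivity)
          rw [← Finset.sum_filter_ne_zero ((J ×ˢ A₂).biUnion P)]
          refine Finset.sum_le_sum_of_subset_of_nonneg ?_ fun _ _ _ => norm_nonneg _
          intro x hx
          rw [Finset.mem_filter, Finset.mem_biUnion] at hx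
          obtain ⟨⟨i, hi, hxi⟩, hne⟩ := hx
          have hgx : g x ≠ 0 := norm_ne_zero_iff.1 hne
          have hxN := hg.2 x hgx
          rw [Finset.mem_filter, Finset.mem_Ioc]
          refine ⟨⟨by omega, hxN.2⟩, ?_⟩
          have hi2 := (Finset.mem_filter.1 (Finset.mem_product.1 hi).2).2
          rw [hPm] at hxi
          obtain ⟨k, hk⟩ := hxi.2
          have hxe : x = (i.2 : ℤ) + k * q := by linarith [mul_comm (q : ℤ) k]
          have h11 : Int.gcd x q = Int.gcd (i.2 : ℤ) q := by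
            rw [hxe, Int.gcd_add_mul_right_left]
          rw [h11]
          have h12 : 0 < Int.gcd (i.2 : ℤ) q := Int.gcd_pos_of_ne_zero_right _ (by omega)
          omega
      _ ≤ 2 * (H / q) * (c / 4 * N) := mul_le_mul_of_nonneg_left hmass (by positivity)
      _ = c / 2 * (N * H / q) := by ring
  have htot : ∑ j ∈ range (N / H + 1), ∑ a ∈ range q, gam q H ξ g j a ^ 2 =
      ∑ i ∈ J ×ˢ A₁, gam q H ξ g i.1 i.2 ^ 2 + ∑ i ∈ J ×ˢ A₂, gam q H ξ g i.1 i.2 ^ 2 := by
    rw [Finset.sum_product, Finset.sum_product, ← Finset.sum_add_distrib]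
    refine Finset.sum_congr rfl fun j _ => ?_
    exact (Finset.sum_filter_add_sum_filter_not _ _ _).symm
  have hgood : c / 2 * (N * H / q) ≤ ∑ i ∈ J ×ˢ A₁, gam q H ξ g i.1 i.2 ^ 2 := by
    rw [htot] at hsum
    linarith
  have hcardJ : ((J ×ˢ A₁).card : ℝ) ≤ 2 * (N / H) * q := by
    have h13 : ((N / H : ℕ) : ℝ) ≤ (N : ℝ) / H := Nat.cast_div_le
    have h14 : (1 : ℝ) ≤ (N : ℝ) / H := by
      rw [le_div_iff₀ hH0, one_mul]
      exact_mod_cast hHN
    rw [Finset.card_product]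
    push_cast
    have h15 : (J.card : ℝ) ≤ 2 * (N / H) := by
      rw [Finset.card_range]
      push_cast
      linarith
    have h16 : (A₁.card : ℝ) ≤ q := by
      have := Finset.card_filter_le (range q) (fun a : ℕ => Int.gcd (a : ℤ) q = 1)
      rw [Finset.card_range] at this
      exact_mod_cast this
    exact mul_le_mul h15 h16 (Nat.cast_nonneg _) (by positivity)
  have hne : (J ×ˢ A₁).Nonempty := by
    by_contra hemp
    rw [Finset.not_nonempty_iff_eq_empty] at hemp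
    rw [hemp, Finset.sum_empty] at hgood
    have : 0 < c / 2 * (N * H / q) := by positivity
    linarith
  have hex := Finset.exists_le_of_sum_le (s := J ×ˢ A₁) (f := fun _ => c / 4 * ((H : ℝ) / q) ^ 2)
    (g := fun i => gam q H ξ g i.1 i.2 ^ 2) hne (by
      refine le_trans ?_ hgood
      rw [Finset.sum_const, nsmul_eq_mul]
      calc ((J ×ˢ A₁).card : ℝ) * (c / 4 * ((H : ℝ) / q) ^ 2)
          ≤ (2 * (N / H) * q) * (c / 4 * ((H : ℝ) / q) ^ 2) :=
            mul_le_mul_of_nonneg_right hcardJ (by positivity)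
        _ = c / 2 * (N * H / q) := by
            field_simp
            ring)
  obtain ⟨i, hi, hle⟩ := hex
  rw [Finset.mem_product] at hi
  refine ⟨i.1, i.2, ?_, (Finset.mem_filter.1 hi.2).2, hle⟩
  have := Finset.mem_range.1 hi.1
  omega

end Pool.Agent.APP.B
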