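import Pool.Agent.Lib.MP_8a4e59_co.B.StmS

set_option autoImplicit false

/-! MP_8a4e59_co, part B, step 9, type I pieces. -/

namespace Pool.Agent.APP.B

open Finset

private lemma p9I_mem {q : ℕ} {a u v x : ℤ} : x ∈ pr q a u v ↔ (u < x ∧ x ≤ v) ∧ (q : ℤ) ∣ x - a := by
  simp [pr]

/-- the restricted progression is a progression -/
private lemma p9I_restrict (q N : ℕ) (b u v : ℤ) (D : ℝ) :
    (pr q b u v).filter (fun x : ℤ => D ≤ (x : ℝ) ∧ x ≤ (N : ℤ)) =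
      pr q b (max u (⌈D⌉ - 1)) (min v N) := by
  ext x
  rw [mem_filter, p9I_mem, p9I_mem, max_lt_iff, le_min_iff]
  have h1 : D ≤ (x : ℝ) ↔ ⌈D⌉ - 1 < x := by
    rw [← Int.ceil_le]; omega
  rw [h1]
  tauto

/-- last part: one short progression -/
private lemma p9I_last (hgeo : S_geo) (hprc : S_prc) (δ d ξ : ℝ) (N q₀ m q H₂ : ℕ) (b u₁ x₀ : ℤ)
    (w : ℤ → ℂ) (hδ : 0 < δ) (hd : 0 < d) (hN : 1 ≤ N) (hq₀ : 1 ≤ q₀)
    (hm : 1 ≤ m) (hq : 1 ≤ q) (hT : TypeI δ N q₀ m w) (hq2 : q * m * q₀ ≤ H₂)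
    (h16 : 16 * (H₂ : ℝ) ≤ d * δ * N) (hmx : (m : ℤ) ∣ x₀) (hb : ((q * m : ℕ) : ℤ) ∣ b - x₀)
    (hS : 7 / 8 * d * (H₂ / (q * m * q₀ : ℕ)) ≤
      ‖∑ x ∈ pr (q * m * q₀) b u₁ (u₁ + H₂), w x * ee (ξ * x)‖) :
    nn ((q * m * q₀ : ℕ) * ξ) ≤ (q * m * q₀ : ℕ) / (d * H₂) := by
  set q₂ : ℕ := q * m * q₀ with hq₂
  have hq₂1 : 1 ≤ q₂ := by
    rw [hq₂]; exact Nat.mul_pos (Nat.mul_pos hq hm) hq₀
  have hH₂ : (0 : ℝ) < H₂ := by exact_mod_cast lt_of_lt_of_le hq₂1 hq2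
  have hq₂0 : (0 : ℝ) < q₂ := by exact_mod_cast hq₂1
  have hN0 : (0 : ℝ) < N := by exact_mod_cast hN
  obtain ⟨hw1, hw2, hw3⟩ := hT
  set P : Finset ℤ := (pr q₂ b u₁ (u₁ + H₂)).filter (fun x : ℤ => δ * N ≤ (x : ℝ) ∧ x ≤ (N : ℤ)) with hP
  have hsum : ∑ x ∈ pr q₂ b u₁ (u₁ + H₂), w x * ee (ξ * x) = ∑ x ∈ P, w x * ee (ξ * x) := by
    rw [hP, sum_filter]
    refine sum_congr rfl fun x _ => ?_
    by_cases h : δ * N ≤ (x : ℝ) ∧ x ≤ (N : ℤ)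
    · rw [if_pos h]
    · rw [if_neg h]
      have : w x = 0 := by
        by_contra h0
        have h1 := hw2 x h0
        exact h ⟨h1.1, h1.2.1⟩
      rw [this, zero_mul]
  rw [hsum] at hS
  have hpos : 0 < 7 / 8 * d * ((H₂ : ℝ) / q₂) := by positivity
  have hPne : P.Nonempty := by
    rw [nonempty_iff_ne_empty]
    intro h
    rw [h, sum_empty, norm_zero] at hS
    linarith
  obtain ⟨x₁, hx₁⟩ := hPne
  have hcardP : (P.card : ℝ) ≤ 2 * (H₂ / q₂) := by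
    have h1 := (hprc.1 q₂ b u₁ (u₁ + H₂) hq₂1 (by omega)).1
    have h2 : (P.card : ℝ) ≤ (pr q₂ b u₁ (u₁ + H₂)).card := by
      exact_mod_cast card_le_card (filter_subset _ _)
    have h3 : ((u₁ + H₂ : ℤ) : ℝ) - u₁ = H₂ := by push_cast; ring
    rw [h3] at h1
    have h4 : (1 : ℝ) ≤ H₂ / q₂ := by
      rw [le_div_iff₀ hq₂0, one_mul]; exact_mod_cast hq2
    linarith
  have hdiff : ∀ x ∈ P, ‖w x - w x₁‖ ≤ d / 16 := by
    intro x hx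
    rw [hP, mem_filter, p9I_mem] at hx hx₁
    obtain ⟨⟨⟨a1, a2⟩, a3⟩, a4, a5⟩ := hx
    obtain ⟨⟨⟨b1, b2⟩, b3⟩, b4, b5⟩ := hx₁
    have hdvd : (q₂ : ℤ) ∣ x - x₁ := by
      have := dvd_sub a3 b3
      rwa [show x - b - (x₁ - b) = x - x₁ by ring] at this
    have hmq : ((m * q₀ : ℕ) : ℤ) ∣ x - x₁ := by
      refine dvd_trans ?_ hdvd
      rw [hq₂]
      exact Int.natCast_dvd_natCast.2 ⟨q, by ring⟩
    have hmx' : (m : ℤ) ∣ x := by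
      have e1 : (m : ℤ) ∣ x - b := dvd_trans (Int.natCast_dvd_natCast.2 ⟨q * q₀, by rw [hq₂]; ring⟩) a3
      have e2 : (m : ℤ) ∣ b - x₀ := dvd_trans (Int.natCast_dvd_natCast.2 ⟨q, by ring⟩) hb
      have e3 := dvd_add (dvd_add e1 e2) hmx
      rwa [show x - b + (b - x₀) + x₀ = x by ring] at e3
    have h1 := hw3 x x₁ a4 a5 b4 b5 hmx' hmq
    refine h1.trans ?_
    rw [div_le_iff₀ (by positivity)]
    have h2 : |(x : ℝ) - x₁| ≤ H₂ := by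
      have h3 : |x - x₁| ≤ (H₂ : ℤ) := by
        rw [abs_le]; constructor <;> omega
      have : ((|x - x₁| : ℤ) : ℝ) ≤ ((H₂ : ℤ) : ℝ) := by exact_mod_cast h3
      rw [Int.cast_abs] at this
      push_cast at this
      exact this
    nlinarith
  have hsplit2 : ∑ x ∈ P, w x * ee (ξ * x) =
      w x₁ * ∑ x ∈ P, ee (ξ * x) + ∑ x ∈ P, (w x - w x₁) * ee (ξ * x) := by
    rw [mul_sum, ← sum_add_distrib]
    refine sum_congr rfl fun x _ => ?_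
    ring
  have herr : ‖∑ x ∈ P, (w x - w x₁) * ee (ξ * x)‖ ≤ 1 / 8 * d * (H₂ / q₂) := by
    refine (norm_sum_le _ _).trans ?_
    calc ∑ x ∈ P, ‖(w x - w x₁) * ee (ξ * x)‖ ≤ ∑ _x ∈ P, d / 16 := by
          refine sum_le_sum fun x hx => ?_
          rw [norm_mul, norm_ee, mul_one]
          exact hdiff x hx
      _ = P.card * (d / 16) := by rw [sum_const, nsmul_eq_mul]
      _ ≤ (2 * (H₂ / q₂)) * (d / 16) := mul_le_mul_of_nonneg_right hcardP (by positivity)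
      _ = 1 / 8 * d * (H₂ / q₂) := by ring
  have hmain : 3 / 4 * d * ((H₂ : ℝ) / q₂) ≤ ‖∑ x ∈ P, ee (ξ * x)‖ := by
    rw [hsplit2] at hS
    have h1 := norm_add_le (w x₁ * ∑ x ∈ P, ee (ξ * x)) (∑ x ∈ P, (w x - w x₁) * ee (ξ * x))
    rw [norm_mul] at h1
    have h2 : ‖w x₁‖ * ‖∑ x ∈ P, ee (ξ * x)‖ ≤ 1 * ‖∑ x ∈ P, ee (ξ * x)‖ :=
      mul_le_mul_of_nonneg_right (hw1 x₁) (norm_nonneg _)
    linarith
  have hg : ‖∑ x ∈ P, ee (ξ * x)‖ * (2 * nn (q₂ * ξ)) ≤ 1 := by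
    rw [hP, p9I_restrict]
    exact hgeo q₂ b _ _ ξ hq₂1
  have hnn := nn_nonneg (q₂ * ξ)
  have h5 : 3 / 4 * d * ((H₂ : ℝ) / q₂) * (2 * nn (q₂ * ξ)) ≤ 1 :=
    (mul_le_mul_of_nonneg_right hmain (by positivity)).trans hg
  rw [le_div_iff₀ (by positivity)]
  have h6 : 3 / 4 * d * ((H₂ : ℝ) / q₂) * (2 * nn (q₂ * ξ)) * q₂ =
      3 / 2 * (nn (q₂ * ξ) * (d * H₂)) := by
    field_simp; ring
  have h7 : 3 / 4 * d * ((H₂ : ℝ) / q₂) * (2 * nn (q₂ * ξ)) * q₂ ≤ 1 * q₂ :=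
    mul_le_mul_of_nonneg_right h5 hq₂0.le
  have h8 : 0 ≤ nn (q₂ * ξ) * (d * H₂) := by positivity
  linarith

theorem p_9I : S_9I := by
  intro hgeo hprc hsplit δ d ξ N q₀ m q H H₂ a u w hδ hδ1 hd hd1 hN hq₀ hm hq hgcd hT hD hq2 h16 h16'
  have hq₂1 : 1 ≤ q * m * q₀ := Nat.mul_pos (Nat.mul_pos hq hm) hq₀
  have hqm1 : 1 ≤ q * m := Nat.mul_pos hq hm
  have hH₂n : 1 ≤ H₂ := hq₂1.trans hq2
  have hH₂ : (1 : ℝ) ≤ H₂ := by exact_mod_cast hH₂n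
  have hH : (0 : ℝ) < H := by
    by_contra h
    have : (H : ℝ) = 0 := le_antisymm (not_lt.1 h) (Nat.cast_nonneg _)
    rw [this] at h16'
    linarith
  have hHH : H₂ ≤ H := by
    have : (H₂ : ℝ) ≤ H := by nlinarith
    exact_mod_cast this
  have hq0 : (0 : ℝ) < q := by exact_mod_cast hq
  have hm0 : (0 : ℝ) < m := by exact_mod_cast hm
  have hq₀0 : (0 : ℝ) < q₀ := by exact_mod_cast hq₀
  obtain ⟨hw1, hw2, hw3⟩ := id hT
  -- a point of the support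
  obtain ⟨x₀, hx₀, hwx₀⟩ : ∃ x₀ ∈ pr q a u (u + H), w x₀ ≠ 0 := by
    by_contra h
    push Not at h
    rw [sum_eq_zero (fun x hx => by rw [h x hx, zero_mul]), norm_zero] at hD
    have : 0 < d * ((H : ℝ) / (q * m)) := by positivity
    linarith
  rw [p9I_mem] at hx₀
  have hmx₀ : (m : ℤ) ∣ x₀ := (hw2 x₀ hwx₀).2.2
  have hcop : IsCoprime (q : ℤ) (m : ℤ) := by
    rw [Int.isCoprime_iff_gcd_eq_one]
    have h1 : ((Int.gcd (q : ℤ) m : ℕ) : ℤ) ∣ (q : ℤ) := Int.gcd_dvd_left ..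
    have h2 : ((Int.gcd (q : ℤ) m : ℕ) : ℤ) ∣ (m : ℤ) := Int.gcd_dvd_right ..
    have h3 : ((Int.gcd (q : ℤ) m : ℕ) : ℤ) ∣ a := by
      have h4 := dvd_sub (h2.trans hmx₀) (h1.trans hx₀.2)
      rwa [show x₀ - (x₀ - a) = a by ring] at h4
    have h5 : ((Int.gcd (q : ℤ) m : ℕ) : ℤ) ∣ ((Int.gcd a q : ℕ) : ℤ) := Int.dvd_coe_gcd h3 h1
    rw [hgcd] at h5
    have h6 : Int.gcd (q : ℤ) m ∣ 1 := by exact_mod_cast h5
    exact Nat.dvd_one.1 h6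
  have hstep : ∑ x ∈ pr q a u (u + H), w x * ee (ξ * x) =
      ∑ x ∈ pr (q * m) x₀ u (u + H), w x * ee (ξ * x) := by
    have e1 : pr (q * m) x₀ u (u + H) = (pr q a u (u + H)).filter (fun x => (m : ℤ) ∣ x) := by
      ext x
      rw [mem_filter, p9I_mem, p9I_mem, and_assoc (c := (m : ℤ) ∣ x)]
      refine and_congr_right fun _ => ?_
      constructor
      · intro h
        have h1 : (q : ℤ) ∣ x - x₀ := dvd_trans (by rw [Nat.cast_mul]; exact dvd_mul_right _ _) h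
        have h2 : (m : ℤ) ∣ x - x₀ := dvd_trans (by rw [Nat.cast_mul]; exact dvd_mul_left _ _) h
        refine ⟨?_, ?_⟩
        · have := dvd_add h1 hx₀.2
          rwa [show x - x₀ + (x₀ - a) = x - a by ring] at this
        · have := dvd_add h2 hmx₀
          rwa [show x - x₀ + x₀ = x by ring] at this
      · rintro ⟨h1, h2⟩
        have h3 : (q : ℤ) ∣ x - x₀ := by
          have := dvd_sub h1 hx₀.2
          rwa [show x - a - (x₀ - a) = x - x₀ by ring] at this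
        have h4 : (m : ℤ) ∣ x - x₀ := dvd_sub h2 hmx₀
        rw [Nat.cast_mul]
        exact hcop.mul_dvd h3 h4
    rw [e1, sum_filter]
    refine sum_congr rfl fun x _ => ?_
    by_cases h : (m : ℤ) ∣ x
    · rw [if_pos h]
    · rw [if_neg h]
      have : w x = 0 := by
        by_contra h0
        exact h (hw2 x h0).2.2
      rw [this, zero_mul]
  rw [hstep] at hD
  obtain ⟨hs1, hs2⟩ := hsplit (q * m) (q * m * q₀) H H₂ x₀ u hqm1 hq₂1 (dvd_mul_right _ _) hH₂n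
  have hcard : ((range (q * m * q₀)).filter
      (fun b : ℕ => ((q * m : ℕ) : ℤ) ∣ (b : ℤ) - x₀)).card = q₀ := by
    have h1 : ((range (q * m * q₀)).filter
      (fun b : ℕ => ((q * m : ℕ) : ℤ) ∣ (b : ℤ) - x₀)).card * (q * m) = q₀ * (q * m) := by
      rw [hs1]; ring
    exact Nat.eq_of_mul_eq_mul_right hqm1 h1
  set BB := (range (q * m * q₀)).filter (fun b : ℕ => ((q * m : ℕ) : ℤ) ∣ (b : ℤ) - x₀) with hBB
  rw [hs2 ℂ (fun x => w x * ee (ξ * x))] at hD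
  -- the rest
  have hrest : ‖∑ x ∈ pr (q * m) x₀ (u + (H / H₂ * H₂ : ℕ)) (u + H), w x * ee (ξ * x)‖ ≤
      1 / 8 * d * (H / (q * m)) := by
    refine (norm_sum_le _ _).trans ?_
    have hle : H / H₂ * H₂ ≤ H := Nat.div_mul_le_self _ _
    have hlt : H < H / H₂ * H₂ + H₂ := by
      have := Nat.lt_div_mul_add (a := H) (b := H₂) (by omega)
      exact this
    have h1 := (hprc.1 (q * m) x₀ (u + (H / H₂ * H₂ : ℕ)) (u + H) hqm1 (by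
      have : ((H / H₂ * H₂ : ℕ) : ℤ) ≤ (H : ℤ) := by exact_mod_cast hle
      linarith)).1
    have h2 : ((u + (H : ℤ) : ℤ) : ℝ) - ((u + ((H / H₂ * H₂ : ℕ) : ℤ) : ℤ) : ℝ) ≤ H₂ := by
      generalize H / H₂ * H₂ = r at hlt
      have : (H : ℝ) ≤ (r : ℝ) + H₂ := by exact_mod_cast hlt.le
      push_cast at this ⊢
      linarith
    have hqmR : (0 : ℝ) < ((q * m : ℕ) : ℝ) := by exact_mod_cast hqm1
    have h3 : ((pr (q * m) x₀ (u + (H / H₂ * H₂ : ℕ)) (u + H)).card : ℝ) ≤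
        H₂ / ((q * m : ℕ) : ℝ) + 1 :=
      h1.trans (by gcongr)
    have h4 : (1 : ℝ) ≤ H₂ / ((q * m : ℕ) : ℝ) := by
      rw [le_div_iff₀ hqmR, one_mul]
      have : q * m ≤ H₂ := le_trans (Nat.le_mul_of_pos_right _ hq₀) hq2
      exact_mod_cast this
    have h5 : (H₂ : ℝ) / ((q * m : ℕ) : ℝ) ≤ d * H / 16 / ((q * m : ℕ) : ℝ) := by
      gcongr
      linarith
    calc ∑ x ∈ pr (q * m) x₀ (u + (H / H₂ * H₂ : ℕ)) (u + H), ‖w x * ee (ξ * x)‖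
        ≤ ∑ _x ∈ pr (q * m) x₀ (u + (H / H₂ * H₂ : ℕ)) (u + H), (1 : ℝ) := by
          refine sum_le_sum fun x _ => ?_
          rw [norm_mul, norm_ee, mul_one]
          exact hw1 x
      _ = ((pr (q * m) x₀ (u + (H / H₂ * H₂ : ℕ)) (u + H)).card : ℝ) := by
          rw [sum_const, nsmul_eq_mul, mul_one]
      _ ≤ 2 * (d * H / 16 / ((q * m : ℕ) : ℝ)) := by linarith
      _ = 1 / 8 * d * (H / (q * m)) := by push_cast; ring
  have hbig : 7 / 8 * d * ((H : ℝ) / (q * m)) ≤ ∑ c ∈ range (H / H₂) ×ˢ BB,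
      ‖∑ x ∈ pr (q * m * q₀) c.2 (u + (c.1 * H₂ : ℕ)) (u + ((c.1 + 1) * H₂ : ℕ)), w x * ee (ξ * x)‖ := by
    have h1 := norm_add_le (∑ j ∈ range (H / H₂), ∑ b ∈ BB,
      ∑ x ∈ pr (q * m * q₀) b (u + (j * H₂ : ℕ)) (u + ((j + 1) * H₂ : ℕ)), w x * ee (ξ * x))
      (∑ x ∈ pr (q * m) x₀ (u + (H / H₂ * H₂ : ℕ)) (u + H), w x * ee (ξ * x))
    have h2 : ‖∑ j ∈ range (H / H₂), ∑ b ∈ BB,
      ∑ x ∈ pr (q * m * q₀) b (u + (j * H₂ : ℕ)) (u + ((j + 1) * H₂ : ℕ)), w x * ee (ξ * x)‖ ≤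
      ∑ c ∈ range (H / H₂) ×ˢ BB,
      ‖∑ x ∈ pr (q * m * q₀) c.2 (u + (c.1 * H₂ : ℕ)) (u + ((c.1 + 1) * H₂ : ℕ)),
        w x * ee (ξ * x)‖ := by
      rw [← sum_product' (f := fun (j b : ℕ) =>
        ∑ x ∈ pr (q * m * q₀) b (u + (j * H₂ : ℕ)) (u + ((j + 1) * H₂ : ℕ)), w x * ee (ξ * x))]
      exact norm_sum_le _ _
    have h3 : d * ((H : ℝ) / (q * m)) - 1 / 8 * d * (H / (q * m)) = 7 / 8 * d * (H / (q * m)) := by
      ring
    linarith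
  have hne : (range (H / H₂) ×ˢ BB).Nonempty := by
    refine Nonempty.product ?_ ?_
    · rw [nonempty_range_iff]
      have : 1 ≤ H / H₂ := (Nat.one_le_div_iff (by omega)).2 hHH
      omega
    · rw [← card_pos, hcard]; exact hq₀
  obtain ⟨c, hc, hc2⟩ := exists_le_of_sum_le (s := range (H / H₂) ×ˢ BB)
    (f := fun _ => 7 / 8 * d * ((H₂ : ℝ) / (q * m * q₀ : ℕ)))
    (g := fun c => ‖∑ x ∈ pr (q * m * q₀) c.2 (u + (c.1 * H₂ : ℕ)) (u + ((c.1 + 1) * H₂ : ℕ)),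
      w x * ee (ξ * x)‖) hne (by
      refine le_trans ?_ hbig
      rw [sum_const, card_product, card_range, hcard, nsmul_eq_mul]
      have h1 : ((H / H₂ : ℕ) : ℝ) * H₂ ≤ H := by exact_mod_cast Nat.div_mul_le_self H H₂
      have h2 : (((H / H₂) * q₀ : ℕ) : ℝ) * (7 / 8 * d * ((H₂ : ℝ) / (q * m * q₀ : ℕ))) =
          7 / 8 * d * ((((H / H₂ : ℕ) : ℝ) * H₂) / (q * m)) := by
        push_cast
        field_simp
      rw [h2]
      gcongr)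
  rw [mem_product] at hc
  have hc3 : ((q * m : ℕ) : ℤ) ∣ (c.2 : ℤ) - x₀ := by
    have := hc.2
    rw [hBB, mem_filter] at this
    exact this.2
  have e2 : u + (((c.1 + 1) * H₂ : ℕ) : ℤ) = (u + ((c.1 * H₂ : ℕ) : ℤ)) + (H₂ : ℤ) := by
    push_cast; ring
  simp only [e2] at hc2
  exact p9I_last hgeo hprc δ d ξ N q₀ m q H₂ c.2 _ x₀ w hδ hd hN hq₀ hm hq hT hq2 h16 hmx₀ hc3 hc2

end Pool.Agent.APP.B
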