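import Pool.Agent.Lib.MP_8a4e59_co.B.StmS

set_option autoImplicit false

/-!
MP_8a4e59_co, part B, piece S9 (helper30): type II, summary.
-/

namespace Pool.Agent.APP.B

open Finset

private theorem p9a_inn_nonneg (δ ξ : ℝ) (N q H M : ℕ) (a u n s : ℤ) :
    0 ≤ inn δ ξ N q H M a u n s := norm_nonneg _

theorem p_9a : S_9a := by
  intro hgeo hprc h1 h2 h3 δ d ξ N q H M a u α β hδ hδ1 hd hq hM hN hu huH hgcd hα hβ hbig hsum
  have hM0 : (0 : ℝ) < M := by exact_mod_cast hM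
  have hN0 : (0 : ℝ) < N := by exact_mod_cast hN
  have hq0 : (0 : ℝ) < q := by exact_mod_cast hq
  have hR : (0 : ℝ) < (N : ℝ) / M := by positivity
  have hcard : (((Finset.Icc (1 : ℤ) ((N / M : ℕ) : ℤ)).card : ℕ) : ℝ) ≤ (N : ℝ) / M := by
    rw [Int.card_Icc]
    have e : ((((N / M : ℕ) : ℤ) + 1 - 1).toNat) = N / M := by
      rw [add_sub_cancel_right, Int.toNat_natCast]
    rw [e]
    exact Nat.cast_div_le
  have h3' := h3 hgeo hprc
  set I := Finset.Icc (1 : ℤ) ((N / M : ℕ) : ℤ) with hI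
  refine ⟨fun s => (∑ n ∈ I, inn δ ξ N q H M a u n s) / ((N : ℝ) / M), fun s => ⟨?_, ?_, ?_⟩, ?_⟩
  · exact div_nonneg (Finset.sum_nonneg fun n _ => p9a_inn_nonneg _ _ _ _ _ _ _ _ _ _) hR.le
  · rw [div_le_iff₀ hR]
    have hB : 0 ≤ 4 * (H : ℝ) * M / (δ * N * q) := by positivity
    calc ∑ n ∈ I, inn δ ξ N q H M a u n s ≤ ∑ _n ∈ I, 4 * (H : ℝ) * M / (δ * N * q) := by
          refine Finset.sum_le_sum fun n hn => ?_
          exact (h3' δ ξ N q H M a u n s hδ hq hM hN hgcd hbig (Finset.mem_Icc.1 hn).1).1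
      _ = (I.card : ℝ) * (4 * (H : ℝ) * M / (δ * N * q)) := by
          rw [Finset.sum_const, nsmul_eq_mul]
      _ ≤ (N : ℝ) / M * (4 * (H : ℝ) * M / (δ * N * q)) := mul_le_mul_of_nonneg_right hcard hB
      _ = _ := mul_comm _ _
  · change (∑ n ∈ I, inn δ ξ N q H M a u n s) / ((N : ℝ) / M) * (2 * nn ((q : ℝ) ^ 2 * s * ξ)) ≤ 1
    rw [div_mul_eq_mul_div, div_le_iff₀ hR, one_mul, Finset.sum_mul]
    calc ∑ n ∈ I, inn δ ξ N q H M a u n s * (2 * nn ((q : ℝ) ^ 2 * s * ξ)) ≤ ∑ _n ∈ I, (1 : ℝ) := by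
          refine Finset.sum_le_sum fun n hn => ?_
          exact (h3' δ ξ N q H M a u n s hδ hq hM hN hgcd hbig (Finset.mem_Icc.1 hn).1).2
      _ = (I.card : ℝ) := by rw [Finset.sum_const, nsmul_eq_mul, mul_one]
      _ ≤ _ := hcard
  · have h4 := h1 δ d ξ N q H M a u α β hδ hd hq hM hN hu huH hα hsum
    have h5 := h2 δ ξ N q H M a u β hδ hq hM hgcd hβ
    have h6 := h4.trans h5
    rw [← Finset.sum_div, Finset.sum_comm]
    set T := ∑ n ∈ I, ∑ s ∈ Finset.Icc (-((H / (q * M) : ℕ) : ℤ)) ((H / (q * M) : ℕ) : ℤ),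
      inn δ ξ N q H M a u n s with hT
    rw [le_div_iff₀ hR]
    have h7 : d ^ 2 * δ ^ 2 * ((H : ℝ) / q) ^ 2 / M * δ ^ 2 ≤ (1 / δ) ^ 2 * T * δ ^ 2 :=
      mul_le_mul_of_nonneg_right h6 (by positivity)
    have e1 : (1 / δ) ^ 2 * T * δ ^ 2 = T := by
      field_simp
    have e2 : d ^ 2 * δ ^ 2 * ((H : ℝ) / q) ^ 2 / M * δ ^ 2 =
        d ^ 2 * δ ^ 4 * (H : ℝ) ^ 2 / ((q : ℝ) ^ 2 * N) * ((N : ℝ) / M) := by
      field_simp
    rw [e1, e2] at h7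
    exact h7

end Pool.Agent.APP.B
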