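import Pool.Agent.Lib.MP_8a4e59_co.B.StmS

set_option autoImplicit false

/-! [8a S6] type II, Cauchy-Schwarz over `m` (helper96). -/

namespace Pool.Agent.APP.B

open Finset

private lemma sum_cast (M : ℕ) (f : ℤ → ℝ) :
    ∑ m ∈ Finset.Ico (M : ℤ) (2 * M), f m = ∑ m ∈ Finset.Ico M (2 * M), f (m : ℤ) := by
  have h : Finset.Ico (M : ℤ) (2 * M) = (Finset.Ico M (2 * M)).image (fun m : ℕ => (m : ℤ)) := by
    ext x
    rw [Finset.mem_image, Finset.mem_Ico]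
    constructor
    · rintro ⟨h1, h2⟩
      exact ⟨x.toNat, Finset.mem_Ico.2 ⟨by omega, by omega⟩, by omega⟩
    · rintro ⟨m, hm, rfl⟩
      rw [Finset.mem_Ico] at hm
      omega
  rw [h, sum_image]
  intro x _ y _ hxy
  have hxy' : (x : ℤ) = (y : ℤ) := hxy
  exact_mod_cast hxy'

private lemma inner (δ ξ : ℝ) (N q H M : ℕ) (a u : ℤ) (β : ℕ → ℂ) (hδ : 0 < δ) (hM : 1 ≤ M)
    (hN : 1 ≤ N) (huH : u + H ≤ N) (m : ℕ) (hm : m ∈ Finset.Ico M (2 * M)) :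
    ∑ x ∈ prc δ N q a u (u + H), (if (m : ℤ) ∣ x then β (x / m).toNat * ee (ξ * x) else 0) =
      ∑ n ∈ Finset.Icc (1 : ℤ) ((N / M : ℕ) : ℤ),
        if (m : ℤ) * n ∈ prc δ N q a u (u + H) then
          β n.toNat * ee (ξ * (((m : ℤ) : ℝ) * n)) else 0 := by
  rw [← sum_filter, ← sum_filter]
  have hm1 : M ≤ m := (Finset.mem_Ico.1 hm).1
  have hmpos : (0 : ℤ) < m := by omega
  refine sum_nbij' (fun x => x / m) (fun n => (m : ℤ) * n) ?_ ?_ ?_ ?_ ?_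
  · intro x hx
    obtain ⟨hx1, n, rfl⟩ := Finset.mem_filter.1 hx
    have e : (m : ℤ) * n / m = n := Int.mul_ediv_cancel_left n hmpos.ne'
    simp only [e, Finset.mem_filter, Finset.mem_Icc]
    have hx2 := hx1
    unfold prc pr at hx2
    simp only [Finset.mem_filter, Finset.mem_Ioc] at hx2
    obtain ⟨⟨⟨_, h2⟩, _⟩, h4⟩ := hx2
    have hNpos : (0 : ℝ) < N := by exact_mod_cast hN
    have h5 : (0 : ℝ) < ((m : ℤ) * n : ℤ) := lt_of_lt_of_le (mul_pos hδ hNpos) h4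
    have h6 : 0 < (m : ℤ) * n := by exact_mod_cast h5
    have h7 : 0 < n := by
      by_contra hcon
      have := mul_nonpos_of_nonneg_of_nonpos hmpos.le (not_lt.1 hcon)
      omega
    refine ⟨⟨by omega, ?_⟩, hx1⟩
    have h8 : (M : ℤ) * n ≤ N := by
      have : (M : ℤ) * n ≤ (m : ℤ) * n := mul_le_mul_of_nonneg_right (by exact_mod_cast hm1) h7.le
      omega
    have h9 : n ≤ (N : ℤ) / M := by
      rw [Int.le_ediv_iff_mul_le (by omega)]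
      linarith
    push_cast
    exact h9
  · intro n hn
    obtain ⟨_, hn2⟩ := Finset.mem_filter.1 hn
    exact Finset.mem_filter.2 ⟨hn2, dvd_mul_right _ _⟩
  · intro x hx
    obtain ⟨_, n, rfl⟩ := Finset.mem_filter.1 hx
    rw [Int.mul_ediv_cancel_left n hmpos.ne']
  · intro n _
    exact Int.mul_ediv_cancel_left n hmpos.ne'
  · intro x hx
    obtain ⟨_, n, rfl⟩ := Finset.mem_filter.1 hx
    rw [Int.mul_ediv_cancel_left n hmpos.ne']
    push_cast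
    rfl

theorem p_9a1 : S_9a1 := by
  intro δ d ξ N q H M a u α β hδ hd hq hM hN hu huH hα h
  set I : ℤ → ℂ := fun m => ∑ n ∈ Finset.Icc (1 : ℤ) ((N / M : ℕ) : ℤ),
    if m * n ∈ prc δ N q a u (u + H) then β n.toNat * ee (ξ * ((m : ℝ) * n)) else 0 with hI
  have key : ∑ x ∈ pr q a u (u + H),
      (if δ * N ≤ (x : ℝ) then typeII M α β x else 0) * ee (ξ * x) =
      ∑ m ∈ Finset.Ico M (2 * M), α m * I (m : ℤ) := by
    have e1 : ∑ x ∈ pr q a u (u + H),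
        (if δ * N ≤ (x : ℝ) then typeII M α β x else 0) * ee (ξ * x) =
        ∑ x ∈ prc δ N q a u (u + H), typeII M α β x * ee (ξ * x) := by
      unfold prc
      rw [sum_filter]
      refine sum_congr rfl fun x _ => ?_
      split_ifs
      · rfl
      · rw [zero_mul]
    rw [e1]
    simp only [typeII, sum_mul]
    rw [sum_comm]
    refine sum_congr rfl fun m hm => ?_
    have e2 := inner δ ξ N q H M a u β hδ hM hN huH m hm
    rw [hI]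
    simp only
    rw [← e2, mul_sum]
    refine sum_congr rfl fun x _ => ?_
    split_ifs
    · ring
    · simp
  rw [key] at h
  rw [sum_cast M (fun m => ‖I m‖ ^ 2)]
  have hMpos : (0 : ℝ) < M := by exact_mod_cast hM
  have hcs : ‖∑ m ∈ Finset.Ico M (2 * M), α m * I (m : ℤ)‖ ^ 2 ≤
      (∑ m ∈ Finset.Ico M (2 * M), ‖α m‖ ^ 2) * ∑ m ∈ Finset.Ico M (2 * M), ‖I (m : ℤ)‖ ^ 2 := by
    have h1 : ‖∑ m ∈ Finset.Ico M (2 * M), α m * I (m : ℤ)‖ ≤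
        ∑ m ∈ Finset.Ico M (2 * M), ‖α m‖ * ‖I (m : ℤ)‖ := by
      refine (norm_sum_le _ _).trans (le_of_eq ?_)
      exact sum_congr rfl fun m _ => norm_mul _ _
    calc ‖∑ m ∈ Finset.Ico M (2 * M), α m * I (m : ℤ)‖ ^ 2
        ≤ (∑ m ∈ Finset.Ico M (2 * M), ‖α m‖ * ‖I (m : ℤ)‖) ^ 2 :=
          pow_le_pow_left₀ (norm_nonneg _) h1 2
      _ ≤ _ := sum_mul_sq_le_sq_mul_sq _ _ _
  have hα2 : ∑ m ∈ Finset.Ico M (2 * M), ‖α m‖ ^ 2 ≤ M / δ ^ 2 := by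
    have h1 : ∀ m ∈ Finset.Ico M (2 * M), ‖α m‖ ^ 2 ≤ 1 / δ ^ 2 := by
      intro m _
      have := pow_le_pow_left₀ (norm_nonneg _) (hα m) 2
      rwa [div_pow, one_pow] at this
    have h2 := sum_le_card_nsmul _ _ _ h1
    rw [Nat.card_Ico] at h2
    have h3 : 2 * M - M = M := by omega
    rw [h3, nsmul_eq_mul] at h2
    calc _ ≤ (M : ℝ) * (1 / δ ^ 2) := h2
      _ = M / δ ^ 2 := by ring
  have hS0 : 0 ≤ ∑ m ∈ Finset.Ico M (2 * M), ‖I (m : ℤ)‖ ^ 2 := sum_nonneg fun m _ => sq_nonneg _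
  have hlow : (d * (H / q)) ^ 2 ≤ ‖∑ m ∈ Finset.Ico M (2 * M), α m * I (m : ℤ)‖ ^ 2 :=
    pow_le_pow_left₀ (by positivity) h 2
  have hall : (d * (H / q)) ^ 2 ≤ M / δ ^ 2 * ∑ m ∈ Finset.Ico M (2 * M), ‖I (m : ℤ)‖ ^ 2 :=
    hlow.trans (hcs.trans (mul_le_mul_of_nonneg_right hα2 hS0))
  rw [div_le_iff₀ hMpos]
  have h1 := mul_le_mul_of_nonneg_left hall (sq_nonneg δ)
  calc d ^ 2 * δ ^ 2 * ((H : ℝ) / q) ^ 2 = δ ^ 2 * (d * (H / q)) ^ 2 := by ring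
    _ ≤ δ ^ 2 * (M / δ ^ 2 * ∑ m ∈ Finset.Ico M (2 * M), ‖I (m : ℤ)‖ ^ 2) := h1
    _ = (∑ m ∈ Finset.Ico M (2 * M), ‖I (m : ℤ)‖ ^ 2) * M := by
        field_simp

end Pool.Agent.APP.B
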