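import Pool.Agent.Lib.MP_8a4e59_co.B.StmS

set_option autoImplicit false

/-!
MP_8a4e59_co, part B: proof of `S_9a3`.
-/

namespace Pool.Agent.APP.B

open Finset

private lemma mem_prc9 {δ : ℝ} {N q : ℕ} {a u v x : ℤ} :
    x ∈ prc δ N q a u v ↔ (u < x ∧ x ≤ v) ∧ (q : ℤ) ∣ x - a ∧ δ * N ≤ (x : ℝ) := by
  unfold prc pr
  rw [Finset.mem_filter, Finset.mem_filter, Finset.mem_Ioc]
  tauto

private lemma cop9 {q : ℕ} {a m n : ℤ} (ha : Int.gcd a q = 1) (h : (q : ℤ) ∣ m * n - a) :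
    IsCoprime (q : ℤ) n := by
  have h1 : IsCoprime a (q : ℤ) := Int.isCoprime_iff_gcd_eq_one.2 ha
  obtain ⟨k, hk⟩ := h
  have h2 : IsCoprime (m * n) (q : ℤ) := by
    have : m * n = a + q * k := by linarith
    rw [this]
    exact IsCoprime.add_mul_left_left h1 k
  exact (IsCoprime.of_mul_left_right h2).symm

theorem p_9a3 : S_9a3 := by
  intro hgeo hprc δ ξ N q H M a u n s hδ hq hM hN hag hHM hn
  have hNr : (0 : ℝ) < N := by exact_mod_cast hN
  have hqr : (0 : ℝ) < q := by exact_mod_cast hq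
  have hMr : (0 : ℝ) < M := by exact_mod_cast hM
  have hδN : 0 < δ * N := mul_pos hδ hNr
  have hnr : (1 : ℝ) ≤ n := by exact_mod_cast hn
  set S := (Finset.Ico (M : ℤ) (2 * M)).filter (fun m => m * n ∈ prc δ N q a u (u + H) ∧
     m * (n + q * s) ∈ prc δ N q a u (u + H)) with hS
  have hinn : inn δ ξ N q H M a u n s = ‖∑ m ∈ S, ee (ξ * (m * (q * s)))‖ := rfl
  have hmem : ∀ m : ℤ, m ∈ S ↔ ((M : ℤ) ≤ m ∧ m < 2 * M) ∧
      ((u < m * n ∧ m * n ≤ u + H) ∧ (q : ℤ) ∣ m * n - a ∧ δ * N ≤ ((m * n : ℤ) : ℝ)) ∧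
      ((u < m * (n + q * s) ∧ m * (n + q * s) ≤ u + H) ∧ (q : ℤ) ∣ m * (n + q * s) - a ∧
        δ * N ≤ ((m * (n + q * s) : ℤ) : ℝ)) := by
    intro m
    rw [hS, Finset.mem_filter, Finset.mem_Ico, mem_prc9, mem_prc9]
  rw [hinn]
  clear hinn
  clear_value S
  rcases S.eq_empty_or_nonempty with he | hne
  · rw [he]
    simp only [Finset.sum_empty, norm_zero, zero_mul]
    exact ⟨by positivity, zero_le_one⟩
  -- congruence of the elements of `S`
  have hcong : ∀ x ∈ S, ∀ y ∈ S, (q : ℤ) ∣ x - y := by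
    intro x hx y hy
    have h1 := ((hmem x).1 hx).2.1.2.1
    have h2 := ((hmem y).1 hy).2.1.2.1
    have h3 : (q : ℤ) ∣ (x - y) * n := by
      have h4 := dvd_sub h1 h2
      have h5 : x * n - a - (y * n - a) = (x - y) * n := by ring
      rwa [h5] at h4
    exact (cop9 hag h1).dvd_of_dvd_mul_right h3
  constructor
  · -- first claim
    obtain ⟨m₀, hm₀⟩ := hne
    have h0 := (hmem m₀).1 hm₀
    have hn2 : δ * N ≤ 2 * M * n := by
      have h1 : ((m₀ * n : ℤ) : ℝ) ≤ 2 * M * n := by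
        have h2 : m₀ * n ≤ 2 * M * n := by
          have := h0.1.2
          nlinarith
        exact_mod_cast h2
      linarith [h0.2.1.2.2]
    have hcard : (S.card : ℝ) ≤ (2 * H * M / (δ * N)) / q + 1 := by
      apply hprc.2 q S _ hq (by positivity)
      intro x hx y hy
      refine ⟨hcong x hx y hy, ?_⟩
      have hx1 := ((hmem x).1 hx).2.1.1
      have hy1 := ((hmem y).1 hy).2.1.1
      have h1 : |(x : ℝ) - y| * n ≤ H := by
        have h2 : |(x - y) * n| ≤ (H : ℤ) := by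
          rw [abs_le]
          constructor <;> nlinarith [hx1.1, hx1.2, hy1.1, hy1.2]
        have h3 : |((x : ℝ) - y) * n| ≤ H := by exact_mod_cast h2
        rwa [abs_mul, abs_of_nonneg (by linarith : (0 : ℝ) ≤ (n : ℝ))] at h3
      rw [le_div_iff₀ hδN]
      have h4 := abs_nonneg ((x : ℝ) - y)
      calc |(x : ℝ) - y| * (δ * N) ≤ |(x : ℝ) - y| * (2 * M * n) :=
            mul_le_mul_of_nonneg_left hn2 h4
        _ = 2 * M * (|(x : ℝ) - y| * n) := by ring
        _ ≤ 2 * M * H := mul_le_mul_of_nonneg_left h1 (by positivity)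
        _ = 2 * H * M := by ring
    have hone : (1 : ℝ) ≤ (2 * H * M / (δ * N)) / q := by
      rw [div_div, le_div_iff₀ (by positivity)]
      nlinarith [hHM]
    calc ‖∑ m ∈ S, ee (ξ * (m * (q * s)))‖ ≤ ∑ m ∈ S, ‖ee (ξ * (m * (q * s)))‖ := norm_sum_le _ _
      _ = (S.card : ℝ) := by simp [norm_ee]
      _ ≤ (2 * H * M / (δ * N)) / q + 1 := hcard
      _ ≤ (2 * H * M / (δ * N)) / q + (2 * H * M / (δ * N)) / q := by linarith
      _ = 4 * H * M / (δ * N * q) := by
        rw [div_div]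
        ring
  · -- second claim
    have hm1 : S.min' hne ∈ S := S.min'_mem hne
    have hm2 : S.max' hne ∈ S := S.max'_mem hne
    set m₁ := S.min' hne with hm₁
    set m₂ := S.max' hne with hm₂
    have h1 := (hmem m₁).1 hm1
    have h2 := (hmem m₂).1 hm2
    have hM1 : (1 : ℤ) ≤ M := by exact_mod_cast hM
    have hpos : 0 < n + q * s := by
      have h3 : (0 : ℝ) < ((m₁ * (n + q * s) : ℤ) : ℝ) := lt_of_lt_of_le hδN h1.2.2.2.2
      have h4 : 0 < m₁ * (n + q * s) := by exact_mod_cast h3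
      have h5 : 0 < m₁ := by linarith [h1.1.1]
      exact (mul_pos_iff_of_pos_left h5).1 h4
    have hSeq : S = pr q m₁ (m₁ - 1) m₂ := by
      ext x
      unfold pr
      rw [Finset.mem_filter, Finset.mem_Ioc]
      constructor
      · intro hx
        refine ⟨⟨?_, S.le_max' x hx⟩, hcong x hx m₁ hm1⟩
        have := S.min'_le x hx
        linarith
      · rintro ⟨⟨hx1, hx2⟩, hxq⟩
        have hx1' : m₁ ≤ x := by linarith
        rw [hmem]
        have e1 : m₁ * n ≤ x * n := mul_le_mul_of_nonneg_right hx1' (by linarith)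
        have e2 : x * n ≤ m₂ * n := mul_le_mul_of_nonneg_right hx2 (by linarith)
        have e3 : m₁ * (n + q * s) ≤ x * (n + q * s) := mul_le_mul_of_nonneg_right hx1' hpos.le
        have e4 : x * (n + q * s) ≤ m₂ * (n + q * s) := mul_le_mul_of_nonneg_right hx2 hpos.le
        refine ⟨⟨by linarith [h1.1.1], by linarith [h2.1.2]⟩,
          ⟨⟨by linarith [h1.2.1.1.1], by linarith [h2.2.1.1.2]⟩, ?_, ?_⟩,
          ⟨⟨by linarith [h1.2.2.1.1], by linarith [h2.2.2.1.2]⟩, ?_, ?_⟩⟩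
        · have h5 : x * n - a = (x - m₁) * n + (m₁ * n - a) := by ring
          rw [h5]
          exact dvd_add (Dvd.dvd.mul_right hxq n) h1.2.1.2.1
        · exact h1.2.1.2.2.trans (by exact_mod_cast e1)
        · have h5 : x * (n + q * s) - a = (x - m₁) * (n + q * s) + (m₁ * (n + q * s) - a) := by ring
          rw [h5]
          exact dvd_add (Dvd.dvd.mul_right hxq _) h1.2.2.2.1
        · exact h1.2.2.2.2.trans (by exact_mod_cast e3)
    have h3 := hgeo q m₁ (m₁ - 1) m₂ (ξ * (q * s)) hq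
    rw [← hSeq] at h3
    have e1 : ∀ m : ℤ, ee (ξ * (m * (q * s))) = ee (ξ * (q * s) * m) := by
      intro m; congr 1; ring
    have e2 : (q : ℝ) ^ 2 * s * ξ = q * (ξ * (q * s)) := by ring
    rw [e2, Finset.sum_congr rfl (fun m _ => e1 m)]
    exact h3

end Pool.Agent.APP.B
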