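import Pool.Agent.Lib.MP_8a4e59_co.B.StmS

/-!
Proof of `S_9b` (MP_8a4e59_co): type II, the phase is close to a rational.
-/

set_option autoImplicit false

namespace Pool.Agent.APP.B

open Finset Pool.Agent.APP

private lemma p9b_split (S : ℕ) (G : ℤ → ℝ) (f : ℤ → ℝ) (κ A : ℝ) (hκ : 0 < κ)
    (h0 : ∀ s, 0 ≤ G s) (hA : ∀ s, G s ≤ A) (h1 : ∀ s, G s * (2 * f s) ≤ 1) :
    ∑ s ∈ Finset.Icc (-(S : ℤ)) (S : ℤ), G s ≤
      (((Finset.Icc (-(S : ℤ)) (S : ℤ)).filter (fun r : ℤ => f r ≤ κ)).card : ℝ) * A +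
        (2 * S + 1) * (1 / (2 * κ)) := by
  classical
  have hcard : ((Finset.Icc (-(S : ℤ)) (S : ℤ)).card : ℝ) = 2 * S + 1 := by
    rw [Int.card_Icc]
    have : ((S : ℤ) + 1 - -(S : ℤ)).toNat = 2 * S + 1 := by omega
    rw [this]; push_cast; ring
  rw [← Finset.sum_filter_add_sum_filter_not (Finset.Icc (-(S : ℤ)) (S : ℤ)) (fun r : ℤ => f r ≤ κ)]
  have e1 : ∑ s ∈ (Finset.Icc (-(S : ℤ)) (S : ℤ)).filter (fun r : ℤ => f r ≤ κ), G s ≤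
      (((Finset.Icc (-(S : ℤ)) (S : ℤ)).filter (fun r : ℤ => f r ≤ κ)).card : ℝ) * A := by
    have := Finset.sum_le_card_nsmul
      ((Finset.Icc (-(S : ℤ)) (S : ℤ)).filter (fun r : ℤ => f r ≤ κ)) G A (fun s _ => hA s)
    rwa [nsmul_eq_mul] at this
  have e2 : ∑ s ∈ (Finset.Icc (-(S : ℤ)) (S : ℤ)).filter (fun r : ℤ => ¬ f r ≤ κ), G s ≤
      (2 * S + 1) * (1 / (2 * κ)) := by
    have h2 : ∀ s ∈ (Finset.Icc (-(S : ℤ)) (S : ℤ)).filter (fun r : ℤ => ¬ f r ≤ κ),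
        G s ≤ 1 / (2 * κ) := by
      intro s hs
      rw [Finset.mem_filter] at hs
      have hf : κ < f s := not_le.mp hs.2
      rw [le_div_iff₀ (by positivity)]
      have := h1 s
      nlinarith [h0 s]
    have h3 := Finset.sum_le_card_nsmul _ G _ h2
    rw [nsmul_eq_mul] at h3
    refine h3.trans ?_
    apply mul_le_mul_of_nonneg_right _ (by positivity)
    rw [← hcard]
    exact_mod_cast Finset.card_filter_le _ _
  linarith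

theorem p_9b : S_9b := by
  intro hT3 δ d ξ N q H M G hδ0 hδ1 hd0 hd1 hq hM hN hH hHM hG hsum
  have hq0 : (0 : ℝ) < q := by exact_mod_cast hq
  have hM0 : (0 : ℝ) < M := by exact_mod_cast hM
  have hN0 : (0 : ℝ) < N := by exact_mod_cast hN
  have hP : 0 < d ^ 4 * δ ^ 10 := by positivity
  have hP1 : d ^ 4 * δ ^ 10 ≤ 1 := by
    have h1 : d ^ 4 ≤ 1 := pow_le_one₀ hd0.le hd1
    have h2 : δ ^ 10 ≤ 1 := pow_le_one₀ hδ0.le hδ1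
    calc d ^ 4 * δ ^ 10 ≤ 1 * 1 := mul_le_mul h1 h2 (by positivity) (by norm_num)
      _ = 1 := by norm_num
  have hH0 : (0 : ℝ) < H := lt_of_lt_of_le (by positivity) hH
  -- rho
  obtain ⟨ρ, hρ⟩ : ∃ ρ : ℝ, ρ = (H : ℝ) / (q * M) := ⟨_, rfl⟩
  have hρH : (H : ℝ) = ρ * (q * M) := by rw [hρ]; field_simp
  have hρlow : 4096 / (d ^ 4 * δ ^ 10) ≤ ρ := by
    rw [hρ, le_div_iff₀ (by positivity)]
    linarith
  have h4096 : (4096 : ℝ) ≤ 4096 / (d ^ 4 * δ ^ 10) := by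
    rw [le_div_iff₀ hP]; linarith
  have hρ4 : (4096 : ℝ) ≤ ρ := h4096.trans hρlow
  obtain ⟨S, hS⟩ : ∃ S : ℕ, S = H / (q * M) := ⟨_, rfl⟩
  have hSfl : S = ⌊ρ⌋₊ := by
    rw [hS, hρ, ← Nat.floor_div_eq_div (K := ℝ)]
    push_cast
    rfl
  have hS1 : (S : ℝ) ≤ ρ := by
    rw [hSfl]; exact Nat.floor_le (by linarith)
  have hS2 : ρ < S + 1 := by
    rw [hSfl]; exact Nat.lt_floor_add_one ρ
  rw [← hS] at hsum
  obtain ⟨κ, hκ⟩ : ∃ κ : ℝ, κ = 3 * q * N / (d ^ 2 * δ ^ 4 * H * M) := ⟨_, rfl⟩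
  have hκ0 : 0 < κ := by rw [hκ]; positivity
  have hspl := p9b_split S G (fun s => nn ((q : ℝ) ^ 2 * s * ξ)) κ (4 * H * M / (δ * N * q)) hκ0
    (fun s => (hG s).1) (fun s => (hG s).2.1) (fun s => (hG s).2.2)
  -- the tail
  have htail : (2 * (S : ℝ) + 1) * (1 / (2 * κ)) ≤ d ^ 2 * δ ^ 4 * H ^ 2 / (2 * (q ^ 2 * N)) := by
    have h1 : (2 * (S : ℝ) + 1) * (1 / (2 * κ)) ≤ (3 * ρ) * (1 / (2 * κ)) := by
      apply mul_le_mul_of_nonneg_right _ (by positivity)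
      linarith
    refine h1.trans (le_of_eq ?_)
    rw [hκ, hρ]
    field_simp
  have hfcard : d ^ 2 * δ ^ 4 * H ^ 2 / (2 * (q ^ 2 * N)) ≤
      (((Finset.Icc (-(S : ℤ)) (S : ℤ)).filter
        (fun r : ℤ => nn ((q : ℝ) ^ 2 * r * ξ) ≤ κ)).card : ℝ) * (4 * H * M / (δ * N * q)) := by
    have h2 : d ^ 2 * δ ^ 4 * H ^ 2 / (q ^ 2 * N) =
        d ^ 2 * δ ^ 4 * H ^ 2 / (2 * (q ^ 2 * N)) + d ^ 2 * δ ^ 4 * H ^ 2 / (2 * (q ^ 2 * N)) := by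
      field_simp; norm_num
    linarith
  have hfcard2 : d ^ 2 * δ ^ 5 / 8 * ρ ≤
      (((Finset.Icc (-(S : ℤ)) (S : ℤ)).filter
        (fun r : ℤ => nn ((q : ℝ) ^ 2 * r * ξ) ≤ κ)).card : ℝ) := by
    rw [← div_le_iff₀ (by positivity)] at hfcard
    refine le_trans (le_of_eq ?_) hfcard
    rw [hρ]
    field_simp
    norm_num
  obtain ⟨d₀, hd₀⟩ : ∃ d₀ : ℝ, d₀ = d ^ 2 * δ ^ 5 / 8 := ⟨_, rfl⟩
  have hd₀0 : 0 < d₀ := by rw [hd₀]; positivity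
  have hd₀1 : d₀ ≤ 1 := by
    have h1 : d ^ 2 ≤ 1 := pow_le_one₀ hd0.le hd1
    have h2 : δ ^ 5 ≤ 1 := pow_le_one₀ hδ0.le hδ1
    have : d ^ 2 * δ ^ 5 ≤ 1 * 1 := mul_le_mul h1 h2 (by positivity) (by norm_num)
    rw [hd₀]; linarith
  have hSpos : 1 ≤ S := by
    have : (0 : ℝ) < S := by linarith
    exact_mod_cast this
  have hκd : κ ≤ d₀ / 64 := by
    rw [hκ, hd₀, div_le_iff₀ (by positivity)]
    rw [div_le_iff₀ (by positivity)] at hHM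
    have : d ^ 2 * δ ^ 5 / 8 / 64 * (d ^ 2 * δ ^ 4 * H * M) = (H : ℝ) * M * (d ^ 4 * δ ^ 9) / 512 := by
      ring
    rw [this]; linarith
  have h32 : 32 / d₀ ^ 2 ≤ (S : ℝ) := by
    have h1 : 32 / d₀ ^ 2 = 4096 / (d ^ 4 * δ ^ 10) / 2 := by
      rw [hd₀]; field_simp; norm_num
    rw [h1]; linarith
  have hcnt : d₀ * (S : ℝ) ≤ (((Finset.Icc (-(S : ℤ)) (S : ℤ)).filter
      (fun r : ℤ => nn ((r : ℝ) * ((q : ℝ) ^ 2 * ξ)) ≤ κ)).card : ℝ) := by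
    have h1 : (Finset.Icc (-(S : ℤ)) (S : ℤ)).filter
        (fun r : ℤ => nn ((r : ℝ) * ((q : ℝ) ^ 2 * ξ)) ≤ κ) = (Finset.Icc (-(S : ℤ)) (S : ℤ)).filter
        (fun r : ℤ => nn ((q : ℝ) ^ 2 * r * ξ) ≤ κ) := by
      apply Finset.filter_congr
      intro r _
      have : (r : ℝ) * ((q : ℝ) ^ 2 * ξ) = (q : ℝ) ^ 2 * r * ξ := by ring
      rw [this]
    rw [h1]
    refine le_trans ?_ hfcard2
    rw [← hd₀]
    exact mul_le_mul_of_nonneg_left hS1 hd₀0.le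
  obtain ⟨q₁, hq₁, hq₁', hnn⟩ := hT3 ((q : ℝ) ^ 2 * ξ) S d₀ κ hSpos hd₀0 hd₀1 hκ0.le hκd h32 hcnt
  refine ⟨q₁, hq₁, ?_, ?_⟩
  · refine hq₁'.trans (le_of_eq ?_)
    rw [hd₀]; field_simp; norm_num
  · have h1 : ((q₁ * q ^ 2 : ℕ) : ℝ) * ξ = (q₁ : ℝ) * ((q : ℝ) ^ 2 * ξ) := by push_cast; ring
    rw [h1]
    refine hnn.trans ?_
    have hS3 : ρ / 2 ≤ (S : ℝ) := by linarith
    have h2 : 32 * κ / (d₀ ^ 2 * S) ≤ 32 * κ / (d₀ ^ 2 * (ρ / 2)) := by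
      apply div_le_div_of_nonneg_left (by positivity) (by positivity)
      exact mul_le_mul_of_nonneg_left hS3 (by positivity)
    refine h2.trans (le_of_eq ?_)
    rw [hκ, hd₀, hρ]
    field_simp
    norm_num

end Pool.Agent.APP.B
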