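import Pool.Agent.Lib.MP_8a4e59_co.B.StmS

set_option autoImplicit false

/-!
MP_8a4e59_co, part B, piece S_9c: removing the phase (helper42).
-/

namespace Pool.Agent.APP.B

open Finset

/-- on a short progression the phase is constant -/
private lemma p9c_phase (d ξ : ℝ) (q₃ H₃ : ℕ) (b u₁ u₂ : ℤ) (g : ℤ → ℂ) (hq : 1 ≤ q₃)
    (hu : u₂ = u₁ + H₃) (hg : ∀ n, ‖g n‖ ≤ 1)
    (hξ : 2 * Real.pi * (H₃ / q₃ * nn (q₃ * ξ)) ≤ d / 8) :
    ‖∑ x ∈ pr q₃ b u₁ u₂, g x * ee (ξ * x)‖ ≤ ‖∑ x ∈ pr q₃ b u₁ u₂, g x‖ +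
      d / 8 * (pr q₃ b u₁ u₂).card := by
  have hq0 : (0 : ℝ) < q₃ := by exact_mod_cast hq
  rcases (pr q₃ b u₁ u₂).eq_empty_or_nonempty with h0 | ⟨x₁, hx₁⟩
  · rw [h0]; simp
  · have h1 : ∑ x ∈ pr q₃ b u₁ u₂, g x * ee (ξ * x) = ee (ξ * x₁) *
        (∑ x ∈ pr q₃ b u₁ u₂, g x + ∑ x ∈ pr q₃ b u₁ u₂, g x * (ee (ξ * (x - x₁)) - 1)) := by
      rw [← Finset.sum_add_distrib, Finset.mul_sum]
      refine Finset.sum_congr rfl fun x _ => ?_
      have e : ee (ξ * x) = ee (ξ * x₁) * ee (ξ * (x - x₁)) := by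
        rw [← ee_add]
        congr 1
        ring
      rw [e]
      ring
    rw [h1, norm_mul, norm_ee, one_mul]
    refine (norm_add_le _ _).trans (add_le_add le_rfl ?_)
    refine (norm_sum_le _ _).trans ?_
    rw [mul_comm, ← nsmul_eq_mul]
    refine Finset.sum_le_card_nsmul _ _ _ fun x hx => ?_
    unfold pr at hx hx₁
    rw [Finset.mem_filter, Finset.mem_Ioc] at hx hx₁
    obtain ⟨k, hk⟩ : (q₃ : ℤ) ∣ x - x₁ := by
      have := dvd_sub hx.2 hx₁.2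
      rwa [sub_sub_sub_cancel_right] at this
    have hkx : ((x : ℝ) - x₁) = q₃ * k := by exact_mod_cast hk
    have habs : |(x : ℝ) - x₁| ≤ H₃ := by
      rw [abs_le]
      have h2 : x - x₁ ≤ H₃ := by omega
      have h3 : -(H₃ : ℤ) ≤ x - x₁ := by omega
      constructor
      · exact_mod_cast h3
      · exact_mod_cast h2
    have hkabs : |(k : ℝ)| ≤ H₃ / q₃ := by
      rw [le_div_iff₀ hq0]
      rw [hkx, abs_mul, abs_of_pos hq0] at habs
      linarith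
    rw [norm_mul]
    have h4 : ‖ee (ξ * (x - x₁)) - 1‖ ≤ d / 8 := by
      refine (norm_ee_sub_one_le _).trans ?_
      refine le_trans ?_ hξ
      refine mul_le_mul_of_nonneg_left ?_ (by positivity)
      have e : ξ * ((x : ℝ) - x₁) = k * (q₃ * ξ) := by rw [hkx]; ring
      rw [e]
      exact (nn_int_mul_le k _).trans (mul_le_mul_of_nonneg_right hkabs (nn_nonneg _))
    calc ‖g x‖ * ‖ee (ξ * (x - x₁)) - 1‖ ≤ 1 * (d / 8) :=
          mul_le_mul (hg x) h4 (norm_nonneg _) zero_le_one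
      _ = d / 8 := one_mul _

theorem p_9c : S_9c := by
  intro hprc hsplit d ξ q q₃ H H₃ a u g hd hd1 hg hq hq₃ hqq hqH hHH hξ hmass hbig
  classical
  have hq0 : (0 : ℝ) < q := by exact_mod_cast hq
  have hq30 : (0 : ℝ) < q₃ := by exact_mod_cast hq₃
  have hH31 : 1 ≤ H₃ := le_trans hq₃ hqH
  have hH30 : (0 : ℝ) < H₃ := by exact_mod_cast hH31
  have hqle : q ≤ q₃ := Nat.le_of_dvd (by omega) hqq
  have hqH3 : (q : ℝ) ≤ H₃ := by exact_mod_cast le_trans hqle hqH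
  have hH0' : (0 : ℝ) ≤ H := Nat.cast_nonneg H
  have hH16 : 16 * (H₃ : ℝ) ≤ H := by nlinarith
  have hH0 : (0 : ℝ) < H := by linarith
  obtain ⟨hs1, hs2⟩ := hsplit q q₃ H H₃ a u hq hq₃ hqq hH31
  let Bf : Finset ℕ := (range q₃).filter (fun b : ℕ => (q : ℤ) ∣ (b : ℤ) - a)
  let P : ℕ × ℕ → Finset ℤ := fun i =>
    pr q₃ i.2 (u + ((i.1 * H₃ : ℕ) : ℤ)) (u + (((i.1 + 1) * H₃ : ℕ) : ℤ))
  let Rs : Finset ℤ := pr q a (u + ((H / H₃ * H₃ : ℕ) : ℤ)) (u + H)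
  let W : Finset (ℕ × ℕ) := range (H / H₃) ×ˢ Bf
  have hsp : ∀ (R : Type) [AddCommMonoid R] (F : ℤ → R),
      ∑ x ∈ pr q a u (u + H), F x = ∑ i ∈ W, ∑ x ∈ P i, F x + ∑ x ∈ Rs, F x := by
    intro R _ F
    rw [hs2 R F, Finset.sum_product]
  -- the rest
  have hrest : (Rs.card : ℝ) ≤ d / 8 * (H / q) := by
    have hle : H / H₃ * H₃ ≤ H := Nat.div_mul_le_self H H₃
    have h1 := (hprc.1 q a (u + ((H / H₃ * H₃ : ℕ) : ℤ)) (u + H) hq (by
      have : ((H / H₃ * H₃ : ℕ) : ℤ) ≤ H := by exact_mod_cast hle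
      linarith)).1
    have h2 : ((u + H : ℤ) : ℝ) - ((u + ((H / H₃ * H₃ : ℕ) : ℤ) : ℤ) : ℝ) ≤ H₃ := by
      have h3 : H < H / H₃ * H₃ + H₃ := Nat.lt_div_mul_add (by omega)
      have h4 : ((H : ℕ) : ℝ) ≤ ((H / H₃ * H₃ + H₃ : ℕ) : ℝ) := by exact_mod_cast h3.le
      rw [Nat.cast_add] at h4
      have e1 : ((u + H : ℤ) : ℝ) = u + H := by push_cast; ring
      have e2 : ((u + ((H / H₃ * H₃ : ℕ) : ℤ) : ℤ) : ℝ) = u + ((H / H₃ * H₃ : ℕ) : ℝ) := by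
        rw [Int.cast_add, Int.cast_natCast]
      rw [e1, e2]
      linarith
    have h5 : (Rs.card : ℝ) ≤ H₃ / q + 1 :=
      h1.trans (add_le_add (div_le_div_of_nonneg_right h2 hq0.le) le_rfl)
    have h6 : (1 : ℝ) ≤ H₃ / q := by
      rw [le_div_iff₀ hq0, one_mul]
      exact hqH3
    have h7 : 2 * ((H₃ : ℝ) / q) ≤ d / 8 * (H / q) := by
      rw [← mul_div_assoc, ← mul_div_assoc]
      apply div_le_div_of_nonneg_right _ hq0.le
      linarith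
    linarith
  have hnorm : ∀ S : Finset ℤ, ‖∑ x ∈ S, g x * ee (ξ * x)‖ ≤ ∑ x ∈ S, ‖g x‖ := by
    intro S
    refine (norm_sum_le _ _).trans (le_of_eq ?_)
    refine Finset.sum_congr rfl fun x _ => ?_
    rw [norm_mul, norm_ee, mul_one]
  have hnc : ∀ S : Finset ℤ, ∑ x ∈ S, ‖g x‖ ≤ S.card := by
    intro S
    calc ∑ x ∈ S, ‖g x‖ ≤ ∑ _x ∈ S, (1 : ℝ) := Finset.sum_le_sum fun x _ => hg x
      _ = S.card := by rw [Finset.sum_const, nsmul_eq_mul, mul_one]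
  -- total number of points
  have htot : ∑ i ∈ W, ((P i).card : ℝ) ≤ 2 * (H / q) := by
    have h1 := hsp ℝ (fun _ => (1 : ℝ))
    have hc : ∀ S : Finset ℤ, ∑ _x ∈ S, (1 : ℝ) = S.card := by
      intro S
      rw [Finset.sum_const, nsmul_eq_mul, mul_one]
    simp only [hc] at h1
    have h2 := (hprc.1 q a u (u + H) hq (by linarith [Int.natCast_nonneg H])).1
    have e1 : ((u + H : ℤ) : ℝ) - u = H := by push_cast; ring
    rw [e1] at h2
    have h3 : (1 : ℝ) ≤ H / q := by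
      rw [le_div_iff₀ hq0, one_mul]
      linarith
    have h4 : (0 : ℝ) ≤ Rs.card := Nat.cast_nonneg _
    linarith
  -- the two kinds of pieces
  let Wc := W.filter (fun i => Int.gcd (i.2 : ℤ) q₃ = 1)
  let Wn := W.filter (fun i => ¬ Int.gcd (i.2 : ℤ) q₃ = 1)
  have hWn : ∑ i ∈ Wn, ‖∑ x ∈ P i, g x * ee (ξ * x)‖ ≤ d / 8 * (H / q) := by
    refine le_trans ?_ hmass
    have hmf : ∑ x ∈ (pr q a u (u + H)).filter (fun x => 1 < Int.gcd x q₃), ‖g x‖ =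
        ∑ x ∈ pr q a u (u + H), (if 1 < Int.gcd x q₃ then ‖g x‖ else 0) := Finset.sum_filter _ _
    rw [hmf, hsp ℝ (fun x => if 1 < Int.gcd x q₃ then ‖g x‖ else 0)]
    have h1 : (0 : ℝ) ≤ ∑ x ∈ Rs, (if 1 < Int.gcd x q₃ then ‖g x‖ else 0) :=
      Finset.sum_nonneg fun x _ => by split_ifs <;> simp
    have h2 : ∑ i ∈ Wn, ‖∑ x ∈ P i, g x * ee (ξ * x)‖ ≤
        ∑ i ∈ W, ∑ x ∈ P i, (if 1 < Int.gcd x q₃ then ‖g x‖ else 0) := by
      calc ∑ i ∈ Wn, ‖∑ x ∈ P i, g x * ee (ξ * x)‖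
          ≤ ∑ i ∈ Wn, ∑ x ∈ P i, (if 1 < Int.gcd x q₃ then ‖g x‖ else 0) := by
            refine Finset.sum_le_sum fun i hi => ?_
            refine (hnorm _).trans (le_of_eq ?_)
            refine Finset.sum_congr rfl fun x hx => ?_
            have hi2 := (Finset.mem_filter.1 hi).2
            have hx' : (q₃ : ℤ) ∣ x - i.2 := (Finset.mem_filter.1 hx).2
            obtain ⟨k, hk⟩ := hx'
            have hxe : x = (i.2 : ℤ) + k * q₃ := by linarith [mul_comm (q₃ : ℤ) k]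
            have h11 : Int.gcd x q₃ = Int.gcd (i.2 : ℤ) q₃ := by
              rw [hxe, Int.gcd_add_mul_right_left]
            have h12 : 0 < Int.gcd (i.2 : ℤ) q₃ := Int.gcd_pos_of_ne_zero_right _ (by omega)
            rw [if_pos (by rw [h11]; omega)]
        _ ≤ _ := Finset.sum_le_sum_of_subset_of_nonneg (Finset.filter_subset _ _) fun i _ _ =>
            Finset.sum_nonneg fun x _ => by split_ifs <;> simp
    linarith
  have hWc : ∑ i ∈ Wc, ‖∑ x ∈ P i, g x * ee (ξ * x)‖ ≤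
      ∑ i ∈ Wc, ‖∑ x ∈ P i, g x‖ + d / 4 * (H / q) := by
    have h1 : ∑ i ∈ Wc, ‖∑ x ∈ P i, g x * ee (ξ * x)‖ ≤
        ∑ i ∈ Wc, (‖∑ x ∈ P i, g x‖ + d / 8 * (P i).card) := by
      refine Finset.sum_le_sum fun i _ => ?_
      refine p9c_phase d ξ q₃ H₃ i.2 _ _ g hq₃ ?_ hg hξ
      push_cast
      ring
    rw [Finset.sum_add_distrib, ← Finset.mul_sum] at h1
    have h2 : ∑ i ∈ Wc, ((P i).card : ℝ) ≤ 2 * (H / q) := by
      refine le_trans ?_ htot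
      exact Finset.sum_le_sum_of_subset_of_nonneg (Finset.filter_subset _ _)
        fun i _ _ => Nat.cast_nonneg _
    have h3 := mul_le_mul_of_nonneg_left h2 (show 0 ≤ d / 8 by positivity)
    linarith
  have hmain : d / 2 * (H / q) ≤ ∑ i ∈ Wc, ‖∑ x ∈ P i, g x‖ := by
    have h1 := hsp ℂ (fun x => g x * ee (ξ * x))
    rw [h1] at hbig
    have h2 : ‖∑ i ∈ W, ∑ x ∈ P i, g x * ee (ξ * x) + ∑ x ∈ Rs, g x * ee (ξ * x)‖ ≤
        ∑ i ∈ W, ‖∑ x ∈ P i, g x * ee (ξ * x)‖ + d / 8 * (H / q) := by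
      refine (norm_add_le _ _).trans (add_le_add (norm_sum_le _ _) ?_)
      exact (hnorm _).trans ((hnc _).trans hrest)
    have h3 : ∑ i ∈ W, ‖∑ x ∈ P i, g x * ee (ξ * x)‖ =
        ∑ i ∈ Wc, ‖∑ x ∈ P i, g x * ee (ξ * x)‖ + ∑ i ∈ Wn, ‖∑ x ∈ P i, g x * ee (ξ * x)‖ :=
      (Finset.sum_filter_add_sum_filter_not W _ _).symm
    linarith
  have hcardW : (Wc.card : ℝ) ≤ H / H₃ * (q₃ / q) := by
    have h1 : (Wc.card : ℝ) ≤ (W.card : ℝ) := by exact_mod_cast Finset.card_filter_le _ _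
    refine h1.trans ?_
    rw [Finset.card_product, Finset.card_range]
    push_cast
    have h2 : ((H / H₃ : ℕ) : ℝ) ≤ (H : ℝ) / H₃ := Nat.cast_div_le
    have h3 : (Bf.card : ℝ) = q₃ / q := by
      rw [eq_div_iff hq0.ne']
      exact_mod_cast hs1
    rw [h3]
    exact mul_le_mul_of_nonneg_right h2 (by positivity)
  have hne : Wc.Nonempty := by
    by_contra hemp
    rw [Finset.not_nonempty_iff_eq_empty] at hemp
    rw [hemp, Finset.sum_empty] at hmain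
    have : 0 < d / 2 * (H / q) := by positivity
    linarith
  obtain ⟨i, hi, hle⟩ := Finset.exists_le_of_sum_le (s := Wc)
    (f := fun _ => d / 2 * ((H₃ : ℝ) / q₃)) (g := fun i => ‖∑ x ∈ P i, g x‖) hne (by
      refine le_trans ?_ hmain
      rw [Finset.sum_const, nsmul_eq_mul]
      calc (Wc.card : ℝ) * (d / 2 * ((H₃ : ℝ) / q₃))
          ≤ (H / H₃ * (q₃ / q)) * (d / 2 * ((H₃ : ℝ) / q₃)) :=
            mul_le_mul_of_nonneg_right hcardW (by positivity)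
        _ = d / 2 * (H / q) := by
            field_simp)
  have hi1 := Finset.mem_filter.1 hi
  have hi2 := Finset.mem_product.1 hi1.1
  have hj := Finset.mem_range.1 hi2.1
  refine ⟨i.2, u + ((i.1 * H₃ : ℕ) : ℤ), hi1.2, by linarith [Int.natCast_nonneg (i.1 * H₃)], ?_, ?_⟩
  · have h1 : (i.1 + 1) * H₃ ≤ H :=
      (Nat.mul_le_mul_right H₃ hj).trans (Nat.div_mul_le_self H H₃)
    have h2 : (((i.1 + 1) * H₃ : ℕ) : ℤ) ≤ H := by exact_mod_cast h1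
    push_cast at h2 ⊢
    linarith
  · have e : u + ((i.1 * H₃ : ℕ) : ℤ) + H₃ = u + (((i.1 + 1) * H₃ : ℕ) : ℤ) := by
      push_cast
      ring
    rw [e]
    exact hle

end Pool.Agent.APP.B
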