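import Pool.Agent.Lib.MP_8a4e59_co.B.StmS

set_option autoImplicit false

/-!
MP_8a4e59_co, part B, piece [8a S2]: geometric sum over a progression (helper99).
-/

namespace Pool.Agent.APP.B

open Finset

private lemma pgeo_image (q : ℕ) (a u v : ℤ) (hq : 1 ≤ q) :
    pr q a u v = (Finset.Ico ((u - a) / q + 1) ((v - a) / q + 1)).image (fun k : ℤ => a + q * k) := by
  have hq0 : (0 : ℤ) < q := by exact_mod_cast hq
  ext x
  rw [pr, mem_filter, mem_Ioc, mem_image]
  constructor
  · rintro ⟨⟨h1, h2⟩, k, hk⟩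
    refine ⟨k, ?_, by omega⟩
    rw [mem_Ico]
    constructor
    · rw [Int.add_one_le_iff, Int.ediv_lt_iff_lt_mul hq0]
      nlinarith
    · rw [Int.lt_add_one_iff, Int.le_ediv_iff_mul_le hq0]
      nlinarith
  · rintro ⟨k, hk, rfl⟩
    rw [mem_Ico, Int.add_one_le_iff, Int.ediv_lt_iff_lt_mul hq0, Int.lt_add_one_iff,
      Int.le_ediv_iff_mul_le hq0] at hk
    obtain ⟨h1, h2⟩ := hk
    refine ⟨⟨by nlinarith, by nlinarith⟩, k, by ring⟩

/-- [8a S2] geometric sum over a progression. -/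
theorem p_geo : S_geo := by
  intro q a u v ξ hq
  have hq0 : (0 : ℤ) < q := by exact_mod_cast hq
  rw [pgeo_image q a u v hq, sum_image (by
    intro k _ l _ h
    have h' : a + q * k = a + q * l := h
    have h2 : (q : ℤ) * k = q * l := by linarith
    exact mul_left_cancel₀ hq0.ne' h2)]
  have h1 : ∑ k ∈ Finset.Ico ((u - a) / q + 1) ((v - a) / q + 1), ee (ξ * ((a + q * k : ℤ) : ℝ)) =
      ee (ξ * a) * ∑ k ∈ Finset.Ico ((u - a) / q + 1) ((v - a) / q + 1), ee (k * (q * ξ)) := by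
    rw [mul_sum]
    refine sum_congr rfl fun k _ => ?_
    rw [← ee_add]
    congr 1
    push_cast
    ring
  rw [h1, norm_mul, norm_ee, one_mul]
  exact norm_geom_Ico_mul_le _ _ _

end Pool.Agent.APP.B
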