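import Pool.Agent.Lib.MP_8a4e59_co.B.StmS

set_option autoImplicit false

namespace Pool.Agent.APP.B

open Finset

private lemma pick_norm_ee (x : ℝ) : ‖ee x‖ = 1 := by
  unfold ee
  exact Complex.norm_exp_ofReal_mul_I _

theorem p_pick : S_pick := by
  intro δ ε D N q₀ q H X V ξ a u g hδ hD hu huH hdec hε hS
  obtain ⟨n₁, n₂, m, lam, w, M, mu, α, β, err, h1, h2, h3, h4, h5, h6, h7⟩ := hdec
  by_contra hcon
  rw [not_or] at hcon
  obtain ⟨c1, c2⟩ := hcon
  set P := pr q a u (u + H) with hP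
  have hPmem : ∀ x ∈ P, x ∈ Finset.Icc (1 : ℤ) N := by
    intro x hx
    rw [hP, pr, Finset.mem_filter, Finset.mem_Ioc] at hx
    rw [Finset.mem_Icc]
    constructor
    · omega
    · omega
  have k1 : ∀ i, ‖∑ x ∈ P, w i x * ee (ξ * x)‖ ≤ δ * D / 4 / m i := by
    intro i
    by_contra hc
    rw [not_le] at hc
    exact c1 ⟨m i, w i, (h1 i).1, (h1 i).2.1, (h1 i).2.2.2, hc.le⟩
  have k2 : ∀ j, ‖∑ x ∈ P, (if δ * N ≤ (x : ℝ) then typeII (M j) (α j) (β j) x else 0) *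
      ee (ξ * x)‖ ≤ δ * D / 4 := by
    intro j
    by_contra hc
    rw [not_le] at hc
    exact c2 ⟨M j, α j, β j, (h5 j).1, (h5 j).2.1, (h5 j).2.2.1, (h5 j).2.2.2, hc.le⟩
  have e1 : ∑ x ∈ P, g x * ee (ξ * x) =
      ∑ i, (lam i : ℂ) * ∑ x ∈ P, w i x * ee (ξ * x) +
      ∑ j, (mu j : ℂ) * ∑ x ∈ P, (if δ * N ≤ (x : ℝ) then typeII (M j) (α j) (β j) x else 0) *
        ee (ξ * x) + ∑ x ∈ P, err x * ee (ξ * x) := by
    have e2 : ∀ x ∈ P, g x * ee (ξ * x) =
        ∑ i, (lam i : ℂ) * (w i x * ee (ξ * x)) +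
        ∑ j, (mu j : ℂ) * ((if δ * N ≤ (x : ℝ) then typeII (M j) (α j) (β j) x else 0) *
          ee (ξ * x)) + err x * ee (ξ * x) := by
      intro x hx
      rw [h7 x (hPmem x hx), add_mul, add_mul, Finset.sum_mul]
      congr 2
      · exact Finset.sum_congr rfl fun i _ => by ring
      · split_ifs with hc
        · rw [Finset.sum_mul]
          exact Finset.sum_congr rfl fun j _ => by ring
        · simp
    rw [Finset.sum_congr rfl e2, Finset.sum_add_distrib, Finset.sum_add_distrib,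
      Finset.sum_comm, Finset.sum_comm (s := P) (t := (Finset.univ : Finset (Fin n₂)))]
    simp only [Finset.mul_sum]
  have b1 : ‖∑ i, (lam i : ℂ) * ∑ x ∈ P, w i x * ee (ξ * x)‖ ≤ D / 4 := by
    refine (norm_sum_le _ _).trans ?_
    calc ∑ i, ‖(lam i : ℂ) * ∑ x ∈ P, w i x * ee (ξ * x)‖
        ≤ ∑ i, (δ * D / 4) * (lam i / m i) := by
          apply Finset.sum_le_sum
          intro i _
          rw [norm_mul, Complex.norm_real, Real.norm_eq_abs, abs_of_nonneg (h1 i).2.2.1]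
          calc lam i * ‖∑ x ∈ P, w i x * ee (ξ * x)‖ ≤ lam i * (δ * D / 4 / m i) :=
                mul_le_mul_of_nonneg_left (k1 i) (h1 i).2.2.1
            _ = (δ * D / 4) * (lam i / m i) := by ring
      _ = (δ * D / 4) * ∑ i, (lam i / m i) := by rw [Finset.mul_sum]
      _ ≤ (δ * D / 4) * (1 / δ) := mul_le_mul_of_nonneg_left h2 (by positivity)
      _ = D / 4 := by field_simp
  have b2 : ‖∑ j, (mu j : ℂ) * ∑ x ∈ P, (if δ * N ≤ (x : ℝ) then typeII (M j) (α j) (β j) x else 0) *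
        ee (ξ * x)‖ ≤ D / 4 := by
    refine (norm_sum_le _ _).trans ?_
    calc ∑ j, ‖(mu j : ℂ) * ∑ x ∈ P, (if δ * N ≤ (x : ℝ) then typeII (M j) (α j) (β j) x else 0) *
        ee (ξ * x)‖
        ≤ ∑ j, (δ * D / 4) * mu j := by
          apply Finset.sum_le_sum
          intro j _
          rw [norm_mul, Complex.norm_real, Real.norm_eq_abs, abs_of_nonneg (h3 j), mul_comm]
          exact mul_le_mul_of_nonneg_right (k2 j) (h3 j)
      _ = (δ * D / 4) * ∑ j, mu j := by rw [Finset.mul_sum]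
      _ ≤ (δ * D / 4) * (1 / δ) := mul_le_mul_of_nonneg_left h4 (by positivity)
      _ = D / 4 := by field_simp
  have b3 : ‖∑ x ∈ P, err x * ee (ξ * x)‖ ≤ D / 4 := by
    refine (norm_sum_le _ _).trans ?_
    calc ∑ x ∈ P, ‖err x * ee (ξ * x)‖ = ∑ x ∈ P, ‖err x‖ := by
          apply Finset.sum_congr rfl
          intro x _
          rw [norm_mul, pick_norm_ee, mul_one]
      _ ≤ ∑ x ∈ Finset.Icc (1 : ℤ) N, ‖err x‖ :=
          Finset.sum_le_sum_of_subset_of_nonneg hPmem (fun _ _ _ => norm_nonneg _)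
      _ ≤ ε * N := h6
      _ ≤ D / 4 := hε
  rw [e1] at hS
  have b4 := norm_add₃_le (a := ∑ i, (lam i : ℂ) * ∑ x ∈ P, w i x * ee (ξ * x))
    (b := ∑ j, (mu j : ℂ) * ∑ x ∈ P, (if δ * N ≤ (x : ℝ) then typeII (M j) (α j) (β j) x else 0) *
        ee (ξ * x)) (c := ∑ x ∈ P, err x * ee (ξ * x))
  linarith

end Pool.Agent.APP.B
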