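import Pool.Agent.Lib.MP_8a4e59_co.B.StmS

set_option autoImplicit false

/-!
MP_8a4e59_co, part B, piece S1: the number of points of a progression.
-/

namespace Pool.Agent.APP.B

open Finset

private theorem prc_card (q : ℕ) (a u v : ℤ) (hq : 1 ≤ q) :
    ((pr q a u v).card : ℤ) =
      max (⌊((v : ℚ) - a) / (q : ℤ)⌋ - ⌊((u : ℚ) - a) / (q : ℤ)⌋) 0 := by
  have h1 := Int.Ioc_filter_modEq_card u v (show (0 : ℤ) < (q : ℤ) by omega) a
  rw [← h1]
  unfold pr
  congr 2
  ext x
  simp only [Finset.mem_filter, and_congr_right_iff]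
  intro _
  rw [Int.modEq_comm, Int.modEq_iff_dvd]

theorem p_prc : S_prc := by
  classical
  refine ⟨?_, ?_⟩
  · intro q a u v hq huv
    have h1 := prc_card q a u v hq
    have hq0 : (0 : ℚ) < (q : ℤ) := by exact_mod_cast (by omega : (0 : ℤ) < (q : ℤ))
    have huvQ : (u : ℚ) ≤ v := by exact_mod_cast huv
    have f1 := Int.floor_le (((v : ℚ) - a) / (q : ℤ))
    have f2 := Int.lt_floor_add_one (((v : ℚ) - a) / (q : ℤ))
    have f3 := Int.floor_le (((u : ℚ) - a) / (q : ℤ))
    have f4 := Int.lt_floor_add_one (((u : ℚ) - a) / (q : ℤ))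
    have e : ((v : ℚ) - a) / (q : ℤ) - ((u : ℚ) - a) / (q : ℤ) = ((v : ℚ) - u) / (q : ℤ) := by
      rw [← sub_div]; congr 1; ring
    have hnn : (0 : ℚ) ≤ ((v : ℚ) - u) / (q : ℤ) := div_nonneg (by linarith) hq0.le
    have hc : ((pr q a u v).card : ℚ) =
        max ((⌊((v : ℚ) - a) / (q : ℤ)⌋ : ℚ) - (⌊((u : ℚ) - a) / (q : ℤ)⌋ : ℚ)) 0 := by
      exact_mod_cast h1
    have hA : ((pr q a u v).card : ℚ) ≤ ((v : ℚ) - u) / (q : ℤ) + 1 := by
      rw [hc]
      apply max_le
      · linarith
      · linarith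
    have hB : ((v : ℚ) - u) / (q : ℤ) - 1 ≤ ((pr q a u v).card : ℚ) := by
      rw [hc]
      refine le_trans ?_ (le_max_left _ _)
      linarith
    have hA' : (((pr q a u v).card : ℚ) : ℝ) ≤ (((v : ℚ) - u) / (q : ℤ) + 1 : ℚ) := by
      exact_mod_cast hA
    have hB' : ((((v : ℚ) - u) / (q : ℤ) - 1 : ℚ) : ℝ) ≤ (((pr q a u v).card : ℚ) : ℝ) := by
      exact_mod_cast hB
    push_cast at hA' hB'
    exact ⟨hA', hB'⟩
  · intro q S L hq hL h
    have hqR : (0 : ℝ) < q := by exact_mod_cast (by omega : 0 < q)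
    have hq0 : (q : ℤ) ≠ 0 := by exact_mod_cast (by omega : q ≠ 0)
    have hLq : 0 ≤ L / q := div_nonneg hL hqR.le
    rcases S.eq_empty_or_nonempty with hS | hS
    · rw [hS, Finset.card_empty, Nat.cast_zero]
      linarith
    · set m := S.min' hS with hm
      set M := S.max' hS with hM
      have hmS : m ∈ S := S.min'_mem hS
      have hMS : M ∈ S := S.max'_mem hS
      have hmM : m ≤ M := S.min'_le M hMS
      obtain ⟨⟨K, hK⟩, hd⟩ := h M hMS m hmS
      have hcard : S.card ≤ (Finset.Icc (0 : ℤ) K).card := by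
        apply Finset.card_le_card_of_injOn (fun x => (x - m) / q)
        · intro x hx
          obtain ⟨⟨t, ht⟩, _⟩ := h x hx m hmS
          have h1 : m ≤ x := S.min'_le x hx
          have h2 : x ≤ M := S.le_max' x hx
          simp only [Finset.coe_Icc, Set.mem_Icc]
          rw [ht, Int.mul_ediv_cancel_left _ hq0]
          have hqpos : (0 : ℤ) < q := by omega
          constructor
          · by_contra hneg
            push Not at hneg
            nlinarith
          · by_contra hneg
            push Not at hneg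
            nlinarith
        · intro x hx y hy hxy
          obtain ⟨⟨t, ht⟩, _⟩ := h x hx m hmS
          obtain ⟨⟨t', ht'⟩, _⟩ := h y hy m hmS
          simp only at hxy
          rw [ht, ht', Int.mul_ediv_cancel_left _ hq0, Int.mul_ediv_cancel_left _ hq0] at hxy
          rw [hxy] at ht
          omega
      rw [Int.card_Icc] at hcard
      have hK0 : 0 ≤ K := by
        have hqpos : (0 : ℤ) < q := by omega
        by_contra hneg
        push Not at hneg
        nlinarith
      have h3 : (S.card : ℤ) ≤ K + 1 := by omega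
      have h4 : (S.card : ℝ) ≤ (K : ℝ) + 1 := by exact_mod_cast h3
      have h5 : (K : ℝ) ≤ L / q := by
        rw [le_div_iff₀ hqR]
        have h6 : (M : ℝ) - m = q * K := by exact_mod_cast hK
        have h7 := le_abs_self ((M : ℝ) - m)
        linarith
      linarith

end Pool.Agent.APP.B
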