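import Pool.Agent.Lib.MP_8a4e59_co.B.StmS

set_option autoImplicit false

namespace Pool.Agent.APP.B

open Finset

private lemma split_mem {q : ℕ} {a u v x : ℤ} :
    x ∈ pr q a u v ↔ (u < x ∧ x ≤ v) ∧ (q : ℤ) ∣ x - a := by
  unfold pr
  rw [mem_filter, mem_Ioc]

private lemma split_two {R : Type} [AddCommMonoid R] (F : ℤ → R) (q : ℕ) (a : ℤ) {u v w : ℤ}
    (h1 : u ≤ v) (h2 : v ≤ w) :
    ∑ x ∈ pr q a u w, F x = ∑ x ∈ pr q a u v, F x + ∑ x ∈ pr q a v w, F x := by
  rw [← sum_union]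
  · refine sum_congr ?_ (fun _ _ => rfl)
    ext x
    rw [mem_union, split_mem, split_mem, split_mem]
    constructor
    · rintro ⟨⟨h3, h4⟩, h5⟩
      rcases le_or_gt x v with h | h
      · exact Or.inl ⟨⟨h3, h⟩, h5⟩
      · exact Or.inr ⟨⟨h, h4⟩, h5⟩
    · rintro (⟨⟨h3, h4⟩, h5⟩ | ⟨⟨h3, h4⟩, h5⟩)
      · exact ⟨⟨h3, h4.trans h2⟩, h5⟩
      · exact ⟨⟨lt_of_le_of_lt h1 h3, h4⟩, h5⟩
  · rw [disjoint_left]
    intro x hx hx'
    rw [split_mem] at hx hx'
    omega

private lemma split_empty {R : Type} [AddCommMonoid R] (F : ℤ → R) (q : ℕ) (a u : ℤ) :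
    ∑ x ∈ pr q a u u, F x = 0 := by
  have : pr q a u u = ∅ := by
    rw [eq_empty_iff_forall_notMem]
    intro x hx
    rw [split_mem] at hx
    omega
  rw [this, sum_empty]

private lemma split_many {R : Type} [AddCommMonoid R] (F : ℤ → R) (q H' : ℕ) (a u : ℤ) (m : ℕ) :
    ∑ x ∈ pr q a u (u + (m * H' : ℕ)), F x =
      ∑ j ∈ range m, ∑ x ∈ pr q a (u + (j * H' : ℕ)) (u + ((j + 1) * H' : ℕ)), F x := by
  induction m with
  | zero =>
    rw [sum_range_zero]
    have : u + ((0 * H' : ℕ) : ℤ) = u := by push_cast; ring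
    rw [this]
    exact split_empty F q a u
  | succ m ih =>
    rw [sum_range_succ, ← ih]
    refine split_two F q a (by have := Int.natCast_nonneg (m * H'); linarith) ?_
    have : (m * H' : ℕ) ≤ (m + 1) * H' := Nat.mul_le_mul_right _ (Nat.le_succ m)
    have h2 : ((m * H' : ℕ) : ℤ) ≤ (((m + 1) * H' : ℕ) : ℤ) := by exact_mod_cast this
    linarith

private lemma split_class {R : Type} [AddCommMonoid R] (F : ℤ → R) {q q' : ℕ} (hq' : 1 ≤ q')
    (hd : q ∣ q') (a u v : ℤ) :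
    ∑ x ∈ pr q a u v, F x =
      ∑ b ∈ (range q').filter (fun b : ℕ => (q : ℤ) ∣ (b : ℤ) - a), ∑ x ∈ pr q' b u v, F x := by
  have hq0 : (0 : ℤ) < (q' : ℤ) := by exact_mod_cast hq'
  have hdz : (q : ℤ) ∣ (q' : ℤ) := Int.natCast_dvd_natCast.2 hd
  have hcast : ∀ x : ℤ, (((x % (q' : ℤ)).toNat : ℕ) : ℤ) = x % (q' : ℤ) := fun x =>
    Int.toNat_of_nonneg (Int.emod_nonneg x hq0.ne')
  rw [← sum_fiberwise_of_maps_to (s := pr q a u v)
    (t := (range q').filter (fun b : ℕ => (q : ℤ) ∣ (b : ℤ) - a))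
    (g := fun x : ℤ => (x % (q' : ℤ)).toNat)]
  · refine sum_congr rfl (fun b hb => sum_congr ?_ (fun _ _ => rfl))
    rw [mem_filter, mem_range] at hb
    ext x
    rw [mem_filter, split_mem, split_mem]
    constructor
    · rintro ⟨⟨h1, _⟩, h3⟩
      refine ⟨h1, ?_⟩
      rw [← h3, hcast]
      exact Int.dvd_self_sub_emod
    · rintro ⟨h1, h2⟩
      refine ⟨⟨h1, ?_⟩, ?_⟩
      · have h3 := (hdz.trans h2).add hb.2
        have : x - b + (b - a) = x - a := by ring
        rwa [this] at h3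
      · have h3 : (((x % (q' : ℤ)).toNat : ℕ) : ℤ) = (b : ℤ) := by
          rw [hcast]
          have h4 : x % (q' : ℤ) = (b : ℤ) % (q' : ℤ) := (Int.modEq_iff_dvd.2 h2).symm
          rw [h4]
          exact Int.emod_eq_of_lt (by positivity) (by exact_mod_cast hb.1)
        exact_mod_cast h3
  · intro x hx
    rw [split_mem] at hx
    rw [mem_filter, mem_range]
    refine ⟨?_, ?_⟩
    · have h3 : (((x % (q' : ℤ)).toNat : ℕ) : ℤ) < (q' : ℤ) := by
        rw [hcast]
        exact Int.emod_lt_of_pos x hq0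
      exact_mod_cast h3
    · rw [hcast]
      have h3 : (q : ℤ) ∣ x - x % (q' : ℤ) := hdz.trans Int.dvd_self_sub_emod
      have h4 := hx.2.sub h3
      have : x - a - (x - x % (q' : ℤ)) = x % (q' : ℤ) - a := by ring
      rwa [this] at h4

private lemma split_card {q q' : ℕ} (hq : 1 ≤ q) (hd : q ∣ q') (a : ℤ) :
    ((range q').filter (fun b : ℕ => (q : ℤ) ∣ (b : ℤ) - a)).card * q = q' := by
  obtain ⟨t, rfl⟩ := hd
  have hq0 : (0 : ℤ) < (q : ℤ) := by exact_mod_cast hq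
  have hcast : (((a % (q : ℤ)).toNat : ℕ) : ℤ) = a % (q : ℤ) :=
    Int.toNat_of_nonneg (Int.emod_nonneg a hq0.ne')
  have h1 : (range (q * t)).filter (fun b : ℕ => (q : ℤ) ∣ (b : ℤ) - a) =
      (range (q * t)).filter (fun b : ℕ => b ≡ (a % (q : ℤ)).toNat [MOD q]) := by
    refine filter_congr (fun b _ => ?_)
    rw [← Int.natCast_modEq_iff, hcast]
    constructor
    · intro h
      exact (Int.modEq_iff_dvd.2 h).symm.trans (Int.mod_modEq a q).symm
    · intro h
      exact Int.modEq_iff_dvd.1 (h.trans (Int.mod_modEq a q)).symm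
  rw [h1, ← Nat.count_eq_card_filter_range, Nat.count_modEq_card _ (by omega)]
  rw [Nat.mul_mod_right, if_neg (Nat.not_lt_zero _), add_zero,
    Nat.mul_div_cancel_left t (by omega), Nat.mul_comm]

theorem p_split : S_split := by
  intro q q' H H' a u hq hq' hd hH'
  refine ⟨split_card hq hd a, fun R _ F => ?_⟩
  have h0 : H / H' * H' ≤ H := Nat.div_mul_le_self H H'
  have h1 : ((H / H' * H' : ℕ) : ℤ) ≤ (H : ℤ) := by exact_mod_cast h0
  rw [split_two F q a (u := u) (v := u + (H / H' * H' : ℕ)) (w := u + H) (by omega) (by omega),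
    split_many F q H' a u (H / H')]
  congr 1
  exact sum_congr rfl (fun j _ => split_class F hq' hd a _ _)

end Pool.Agent.APP.B
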