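import Pool.Agent.Lib.MP_8a4e59_co.B.AsB
import Pool.Agent.Lib.MP_8a4e59_co.B.As7
import Pool.Agent.Lib.MP_8a4e59_co.B.As8
import Pool.Agent.Lib.MP_8a4e59_co.B.As9
import Pool.Agent.Lib.MP_8a4e59_co.B.P_prc
import Pool.Agent.Lib.MP_8a4e59_co.B.P_geo
import Pool.Agent.Lib.MP_8a4e59_co.B.P_split
import Pool.Agent.Lib.MP_8a4e59_co.B.P_pick
import Pool.Agent.Lib.MP_8a4e59_co.B.P_9I
import Pool.Agent.Lib.MP_8a4e59_co.B.P_9a1
import Pool.Agent.Lib.MP_8a4e59_co.B.P_9a2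
import Pool.Agent.Lib.MP_8a4e59_co.B.P_9a3
import Pool.Agent.Lib.MP_8a4e59_co.B.P_9a
import Pool.Agent.Lib.MP_8a4e59_co.B.P_9b
import Pool.Agent.Lib.MP_8a4e59_co.B.P_9c
import Pool.Agent.Lib.MP_8a4e59_co.B.P_8a
import Pool.Agent.Lib.MP_8a4e59_co.B.P_7a
import Pool.Agent.Lib.MP_8a4e59_co.B.P_7b

set_option autoImplicit false

/-!
MP_8a4e59_co, part B: Theorem B from steps 0, 1, the type II steps, the `U²` lemma and Vinogradov's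
lemma. Steps 7, 8, 9 are proved.
-/

namespace Pool.Agent.APP.B

theorem s_8 : S_8 := as_8 p_prc p_8a

theorem s_7 (hU2 : S_U2) : S_7 := as_7 p_geo p_prc p_split p_7a p_7b hU2

theorem t3v (h : SB_T3) : S_T3v := fun θ L d₀ d₁ _ h1 h2 h3 h4 h5 h6 =>
  h θ L d₀ d₁ h1 h2 h3 h4 h5 h6

theorem s_9 (hT : SB_T3) : S_9 :=
  as_9 p_geo p_prc p_split p_pick p_9I p_9a1 p_9a2 p_9a3 p_9a p_9b (t3v hT) p_9c

/-- Theorem B from the pieces of helper29. -/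
theorem thmB_of (h0 : SB_0) (h1 : SB_1) (hII : SB_II) (hU2 : S_U2) (hT3 : SB_T3) : S_thmB :=
  as_B h0 h1 hII (s_7 hU2) s_8 (s_9 hT3)

end Pool.Agent.APP.B
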