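import Pool.Agent.Lib.MP_8a4e59_co.B.StmA

set_option autoImplicit false

/-!
Part B, step 6: Parseval inequality for correlations and the `U²` lemma. (helper34)
-/

namespace Pool.Agent.APP.B

open Finset

/-! ### Parseval inequality -/

private lemma P6_modulus (T : Finset ℤ) :
    ∃ K : ℕ, 1 ≤ K ∧ ∀ x ∈ T, ∀ y ∈ T, (K : ℤ) ∣ x - y → x = y := by
  refine ⟨1 + 2 * ∑ x ∈ T, x.natAbs, by omega, fun x hx y hy h => ?_⟩
  have h1 : x.natAbs ≤ ∑ x ∈ T, x.natAbs := single_le_sum (fun _ _ => Nat.zero_le _) hx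
  have h2 : y.natAbs ≤ ∑ x ∈ T, x.natAbs := single_le_sum (fun _ _ => Nat.zero_le _) hy
  have h3 := Int.eq_zero_of_abs_lt_dvd h (by
    push_cast
    have h4 : |x - y| ≤ |x| + |y| := abs_sub _ _
    have h5 : |x| = (x.natAbs : ℤ) := Int.abs_eq_natAbs x
    have h6 : |y| = (y.natAbs : ℤ) := Int.abs_eq_natAbs y
    have h7 : (x.natAbs : ℤ) ≤ ((∑ x ∈ T, x.natAbs : ℕ) : ℤ) := by exact_mod_cast h1
    have h8 : (y.natAbs : ℤ) ≤ ((∑ x ∈ T, x.natAbs : ℕ) : ℤ) := by exact_mod_cast h2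
    push_cast at h7 h8
    omega)
  omega

private lemma P6_orth (K : ℕ) (hK : 1 ≤ K) (n : ℤ) :
    ∑ k ∈ range K, ee ((k : ℝ) * n / K) = if (K : ℤ) ∣ n then (K : ℂ) else 0 := by
  have hK0 : (K : ℝ) ≠ 0 := by
    have : (0 : ℝ) < K := by exact_mod_cast hK
    exact this.ne'
  have h1 : ∀ k ∈ range K, ee ((k : ℝ) * n / K) = ee ((n : ℝ) / K) ^ k := by
    intro k _
    rw [← ee_nat_mul]
    congr 1
    ring
  rw [sum_congr rfl h1]
  split_ifs with h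
  · obtain ⟨m, rfl⟩ := h
    have h2 : ee (((K * m : ℤ) : ℝ) / K) = 1 := by
      have : (((K * m : ℤ) : ℝ) / K) = (m : ℝ) := by
        push_cast
        field_simp
      rw [this, ee_int]
    rw [h2]
    simp
  · have h2 : ee ((n : ℝ) / K) ≠ 1 := by
      intro h3
      apply h
      have h4 := four_nn_le ((n : ℝ) / K)
      rw [h3, sub_self, norm_zero] at h4
      have h5 : nn ((n : ℝ) / K) = 0 := le_antisymm (by linarith) (nn_nonneg _)
      obtain ⟨m, hm⟩ := (nn_eq_zero_iff _).1 h5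
      refine ⟨m, ?_⟩
      rw [div_eq_iff hK0] at hm
      have : (n : ℝ) = ((K * m : ℤ) : ℝ) := by
        rw [hm]
        push_cast
        ring
      exact_mod_cast this
    rw [geom_sum_eq h2, ← ee_nat_mul]
    have h3 : (K : ℝ) * ((n : ℝ) / K) = (n : ℝ) := by field_simp
    rw [h3, ee_int, sub_self, zero_div]

/-- Parseval over `range K`, with the roles of the variables exchanged -/
private lemma P6_par (hp : SB_par) (K : ℕ) (hK : 1 ≤ K) (b : ℕ → ℂ) :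
    ∑ m ∈ range K, ‖∑ k ∈ range K, b k * ee ((m : ℝ) * k / K)‖ ^ 2 =
      K * ∑ k ∈ range K, ‖b k‖ ^ 2 := by
  have h := hp K ((range K).map Nat.castEmbedding) (fun x => b x.toNat) hK (by
    intro x hx y hy hd
    rw [mem_map] at hx hy
    obtain ⟨x', hx', rfl⟩ := hx
    obtain ⟨y', hy', rfl⟩ := hy
    rw [mem_range] at hx' hy'
    simp only [Nat.castEmbedding_apply] at hd ⊢
    have := Int.eq_zero_of_abs_lt_dvd hd (by rw [abs_lt]; constructor <;> omega)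
    omega)
  simp only [sum_map, Nat.castEmbedding_apply, Int.toNat_natCast, Int.cast_natCast] at h
  exact h

theorem p_6P (hp : SB_par) : SB_6P := by
  intro P W A G F Γ hF hW hG
  obtain ⟨K, hK1, hKd⟩ := P6_modulus (W ∪ A)
  have hKr : (0 : ℝ) < K := by exact_mod_cast hK1
  have hKz : (0 : ℤ) < K := by exact_mod_cast hK1
  have hΓ : 0 ≤ Γ := (norm_nonneg _).trans (hG 0)
  obtain ⟨Gh, hGh⟩ : ∃ Gh : ℕ → ℂ, ∀ k, Gh k = ∑ x ∈ P, G x * ee (-((k : ℝ) / K) * x) :=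
    ⟨_, fun _ => rfl⟩
  obtain ⟨Fh, hFh⟩ : ∃ Fh : ℕ → ℂ, ∀ k, Fh k = ∑ z ∈ W, F z * ee ((k : ℝ) * z / K) :=
    ⟨_, fun _ => rfl⟩
  -- Fourier expansion of the correlation
  have hc : ∀ a ∈ A, (K : ℂ) * ∑ x ∈ P, G x * F (x + a) =
      ∑ k ∈ range K, (Gh k * Fh k) * ee (-((k : ℝ) * a / K)) := by
    intro a ha
    have h1 : ∀ k ∈ range K, (Gh k * Fh k) * ee (-((k : ℝ) * a / K)) =
        ∑ x ∈ P, ∑ z ∈ W, G x * F z * ee ((k : ℝ) * ((z - (x + a) : ℤ) : ℝ) / K) := by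
      intro k _
      rw [hGh, hFh, sum_mul_sum, sum_mul]
      refine sum_congr rfl fun x _ => ?_
      rw [sum_mul]
      refine sum_congr rfl fun z _ => ?_
      have h2 : (k : ℝ) * ((z - (x + a) : ℤ) : ℝ) / K =
          -((k : ℝ) / K) * x + (k : ℝ) * z / K + -((k : ℝ) * a / K) := by
        push_cast
        ring
      rw [h2, ee_add, ee_add]
      ring
    rw [sum_congr rfl h1, sum_comm]
    rw [mul_sum]
    refine sum_congr rfl fun x hx => ?_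
    rw [sum_comm]
    have h3 : ∀ z ∈ W, ∑ k ∈ range K, G x * F z * ee ((k : ℝ) * ((z - (x + a) : ℤ) : ℝ) / K) =
        if z = x + a then (K : ℂ) * (G x * F z) else 0 := by
      intro z hz
      rw [← mul_sum, P6_orth K hK1]
      have h4 : (K : ℤ) ∣ z - (x + a) ↔ z = x + a := by
        constructor
        · intro h
          exact hKd z (mem_union_left _ hz) (x + a) (mem_union_left _ (hW a ha x hx)) h
        · intro h
          rw [h, sub_self]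
          exact dvd_zero _
      by_cases h5 : z = x + a
      · rw [if_pos (h4.2 h5), if_pos h5]
        ring
      · rw [if_neg (fun h => h5 (h4.1 h)), if_neg h5, mul_zero]
    rw [sum_congr rfl h3, sum_ite_eq' W (x + a), if_pos (hW a ha x hx)]
  -- the residues of `-a`
  obtain ⟨m, hm⟩ : ∃ m : ℤ → ℕ, ∀ a, m a = ((-a) % (K : ℤ)).toNat := ⟨_, fun _ => rfl⟩
  have hmc : ∀ a, (m a : ℤ) = (-a) % (K : ℤ) := fun a => by
    rw [hm]
    exact Int.toNat_of_nonneg (Int.emod_nonneg _ hKz.ne')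
  have hmr : ∀ a, m a ∈ range K := fun a => by
    rw [mem_range]
    have := Int.emod_lt_of_pos (-a) hKz
    rw [← hmc] at this
    exact_mod_cast this
  have hme : ∀ (a : ℤ) (k : ℕ), ee (-((k : ℝ) * a / K)) = ee ((m a : ℝ) * k / K) := by
    intro a k
    have h1 : (-a : ℤ) = (K : ℤ) * ((-a) / (K : ℤ)) + (-a) % (K : ℤ) :=
      (Int.mul_ediv_add_emod (-a) (K : ℤ)).symm
    rw [← hmc] at h1
    have h2 : -(a : ℝ) = (K : ℝ) * (((-a) / (K : ℤ) : ℤ) : ℝ) + (m a : ℝ) := by exact_mod_cast h1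
    have h3 : -((k : ℝ) * a / K) = (m a : ℝ) * k / K + (((k : ℤ) * ((-a) / (K : ℤ)) : ℤ) : ℝ) := by
      have h4 : -((k : ℝ) * a / K) = (k : ℝ) * (-(a : ℝ)) / K := by ring
      rw [h4, h2]
      push_cast
      field_simp
      ring
    rw [h3, ee_add_int]
  have hinj : Set.InjOn m (A : Set ℤ) := by
    intro a ha a' ha' h
    refine hKd a (mem_union_right _ ha) a' (mem_union_right _ ha') ?_
    have h1 : (-a) % (K : ℤ) = (-a') % (K : ℤ) := by rw [← hmc, ← hmc, h]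
    have h2 := Int.emod_emod_of_dvd (-a) (dvd_refl (K : ℤ))
    have h3 : (K : ℤ) ∣ (-a') - (-a) := Int.ModEq.dvd h1
    have h4 : a - a' = (-a') - (-a) := by ring
    rw [h4]
    exact h3
  -- first Parseval
  have s1 : ∑ a ∈ A, ‖(K : ℂ) * ∑ x ∈ P, G x * F (x + a)‖ ^ 2 ≤
      K * ∑ k ∈ range K, ‖Gh k * Fh k‖ ^ 2 := by
    rw [← P6_par hp K hK1]
    calc ∑ a ∈ A, ‖(K : ℂ) * ∑ x ∈ P, G x * F (x + a)‖ ^ 2
        = ∑ a ∈ A, ‖∑ k ∈ range K, (Gh k * Fh k) * ee (((m a : ℕ) : ℝ) * k / K)‖ ^ 2 := by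
          refine sum_congr rfl fun a ha => ?_
          rw [hc a ha]
          congr 2
          exact sum_congr rfl fun k _ => by rw [hme]
      _ = ∑ n ∈ A.image m, ‖∑ k ∈ range K, (Gh k * Fh k) * ee (((n : ℕ) : ℝ) * k / K)‖ ^ 2 := by
          rw [sum_image hinj]
      _ ≤ _ := by
          refine sum_le_sum_of_subset_of_nonneg ?_ (fun _ _ _ => by positivity)
          intro n hn
          obtain ⟨a, _, rfl⟩ := mem_image.1 hn
          exact hmr a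
  -- second Parseval
  have s2 : ∑ k ∈ range K, ‖Gh k * Fh k‖ ^ 2 ≤ Γ ^ 2 * (K * W.card) := by
    have h1 : ∑ k ∈ range K, ‖Fh k‖ ^ 2 = K * ∑ z ∈ W, ‖F z‖ ^ 2 := by
      rw [← hp K W F hK1 (fun x hx y hy h => hKd x (mem_union_left _ hx) y (mem_union_left _ hy) h)]
      exact sum_congr rfl fun k _ => by rw [hFh]
    have h2 : ∑ z ∈ W, ‖F z‖ ^ 2 ≤ W.card := by
      calc ∑ z ∈ W, ‖F z‖ ^ 2 ≤ ∑ z ∈ W, (1 : ℝ) :=
            sum_le_sum fun z _ => pow_le_one₀ (norm_nonneg _) (hF z)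
        _ = W.card := by simp
    calc ∑ k ∈ range K, ‖Gh k * Fh k‖ ^ 2 ≤ ∑ k ∈ range K, Γ ^ 2 * ‖Fh k‖ ^ 2 := by
          refine sum_le_sum fun k _ => ?_
          rw [norm_mul, mul_pow]
          refine mul_le_mul_of_nonneg_right ?_ (by positivity)
          refine pow_le_pow_left₀ (norm_nonneg _) ?_ 2
          rw [hGh]
          exact hG _
      _ = Γ ^ 2 * (K * ∑ z ∈ W, ‖F z‖ ^ 2) := by rw [← mul_sum, h1]
      _ ≤ Γ ^ 2 * (K * W.card) := by
          refine mul_le_mul_of_nonneg_left ?_ (by positivity)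
          exact mul_le_mul_of_nonneg_left h2 hKr.le
  have s3 : ∑ a ∈ A, ‖(K : ℂ) * ∑ x ∈ P, G x * F (x + a)‖ ^ 2 =
      (K : ℝ) ^ 2 * ∑ a ∈ A, ‖∑ x ∈ P, G x * F (x + a)‖ ^ 2 := by
    rw [mul_sum]
    refine sum_congr rfl fun a _ => ?_
    rw [norm_mul, mul_pow, Complex.norm_natCast]
  rw [s3] at s1
  have s4 : (K : ℝ) * ∑ k ∈ range K, ‖Gh k * Fh k‖ ^ 2 ≤ K * (Γ ^ 2 * (K * W.card)) :=
    mul_le_mul_of_nonneg_left s2 hKr.le
  have s5 : (K : ℝ) ^ 2 * ∑ a ∈ A, ‖∑ x ∈ P, G x * F (x + a)‖ ^ 2 ≤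
      (K : ℝ) ^ 2 * (Γ ^ 2 * W.card) := by
    refine (s1.trans s4).trans (le_of_eq ?_)
    ring
  exact le_of_mul_le_mul_left s5 (by positivity)

/-! ### The `U²` lemma -/

private lemma U2_sup (f : ℝ → ℝ) (C : ℝ) (h0 : ∀ x, 0 ≤ f x) (hC : ∀ x, f x ≤ C) :
    ∃ x₀, ∀ x, f x ≤ 2 * f x₀ := by
  by_cases h : ∀ x, f x = 0
  · exact ⟨0, fun x => by rw [h x, h 0]; norm_num⟩
  · push Not at h
    obtain ⟨x₁, hx₁⟩ := h
    have hpos : 0 < f x₁ := lt_of_le_of_ne (h0 x₁) (Ne.symm hx₁)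
    have hbdd : BddAbove (Set.range f) := ⟨C, by rintro _ ⟨x, rfl⟩; exact hC x⟩
    have hle : ∀ x, f x ≤ sSup (Set.range f) := fun x => le_csSup hbdd ⟨x, rfl⟩
    have hs : sSup (Set.range f) / 2 < sSup (Set.range f) := by
      have := hle x₁
      linarith
    obtain ⟨_, ⟨x₀, rfl⟩, hx₀⟩ := exists_lt_of_lt_csSup (Set.range_nonempty f) hs
    exact ⟨x₀, fun x => by have := hle x; linarith⟩

private lemma U2_mem {q : ℕ} {a u v x : ℤ} :
    x ∈ pr q a u v ↔ (u < x ∧ x ≤ v) ∧ (q : ℤ) ∣ x - a := by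
  unfold pr
  rw [mem_filter, mem_Ioc]

private lemma U2_card (q : ℕ) (hq : 1 ≤ q) (a u v : ℤ) (huv : u ≤ v) :
    ((pr q a u v).card : ℝ) ≤ ((v : ℝ) - u) / q + 1 := by
  have hq0 : (0 : ℤ) < q := by exact_mod_cast hq
  have h1 : pr q a u v = {x ∈ Finset.Ioc u v | x ≡ a [ZMOD (q : ℤ)]} := by
    ext x
    rw [U2_mem, mem_filter, mem_Ioc, Int.modEq_comm, Int.modEq_iff_dvd]
  have h2 := Int.Ioc_filter_modEq_card u v hq0 a
  rw [← h1] at h2
  have h3 : (⌊((v : ℚ) - a) / ((q : ℤ) : ℚ)⌋ : ℚ) ≤ ((v : ℚ) - a) / ((q : ℤ) : ℚ) := Int.floor_le _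
  have h4 : ((u : ℚ) - a) / ((q : ℤ) : ℚ) < (⌊((u : ℚ) - a) / ((q : ℤ) : ℚ)⌋ : ℚ) + 1 :=
    Int.lt_floor_add_one _
  have hqq : (0 : ℚ) < ((q : ℤ) : ℚ) := by exact_mod_cast hq0
  have h5 : (((pr q a u v).card : ℤ) : ℚ) ≤ ((v : ℚ) - u) / ((q : ℤ) : ℚ) + 1 := by
    rw [h2]
    push_cast
    refine max_le ?_ ?_
    · have h6 : ((v : ℚ) - u) / ((q : ℤ) : ℚ) =
          ((v : ℚ) - a) / ((q : ℤ) : ℚ) - ((u : ℚ) - a) / ((q : ℤ) : ℚ) := by ring
      push_cast at h3 h4 h6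
      linarith
    · have h6 : (0 : ℚ) ≤ ((v : ℚ) - u) / ((q : ℤ) : ℚ) := by
        have : (u : ℚ) ≤ v := by exact_mod_cast huv
        exact div_nonneg (by linarith) hqq.le
      push_cast at h6
      linarith
  have h6 : ((((pr q a u v).card : ℤ) : ℚ) : ℝ) ≤ ((((v : ℚ) - u) / ((q : ℤ) : ℚ) + 1 : ℚ) : ℝ) := by
    exact_mod_cast h5
  push_cast at h6
  exact h6

/-- the progressions cover `[1, N]` -/
private lemma U2_cover {R : Type} [AddCommMonoid R] (N H q : ℕ) (hH : 1 ≤ H) (hq : 1 ≤ q)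
    (f : ℤ → R) (hf : ∀ x, ¬ (1 ≤ x ∧ x ≤ (N : ℤ)) → f x = 0) :
    ∑ x ∈ Finset.Icc (1 : ℤ) N, f x = ∑ p ∈ range (N / H + 1) ×ˢ range q,
      ∑ x ∈ pr q p.2 ((p.1 * H : ℕ) : ℤ) (((p.1 + 1) * H : ℕ) : ℤ), f x := by
  have hHz : (0 : ℤ) < H := by exact_mod_cast hH
  have hqz : (0 : ℤ) < q := by exact_mod_cast hq
  have c1 : ∀ x : ℤ, 1 ≤ x → (((x - 1) / (H : ℤ)).toNat : ℤ) = (x - 1) / (H : ℤ) := fun x hx =>
    Int.toNat_of_nonneg (Int.ediv_nonneg (by omega) hHz.le)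
  have c2 : ∀ x : ℤ, ((x % (q : ℤ)).toNat : ℤ) = x % (q : ℤ) := fun x =>
    Int.toNat_of_nonneg (Int.emod_nonneg x hqz.ne')
  rw [← sum_fiberwise_of_maps_to (t := range (N / H + 1) ×ˢ range q)
    (g := fun x : ℤ => (((x - 1) / (H : ℤ)).toNat, (x % (q : ℤ)).toNat))]
  · refine sum_congr rfl fun p hp => ?_
    obtain ⟨j, r⟩ := p
    rw [mem_product, mem_range, mem_range] at hp
    refine sum_subset ?_ ?_
    · intro x hx
      rw [mem_filter, mem_Icc] at hx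
      obtain ⟨⟨h1, h2⟩, h3⟩ := hx
      obtain ⟨h4, h5⟩ := Prod.mk.inj h3
      rw [U2_mem]
      have h6 : (x - 1) / (H : ℤ) = j := by rw [← c1 x h1, h4]
      have h7 : x % (q : ℤ) = r := by rw [← c2 x, h5]
      have h8 := Int.mul_ediv_add_emod (x - 1) (H : ℤ)
      have h9 := Int.emod_nonneg (x - 1) hHz.ne'
      have h10 := Int.emod_lt_of_pos (x - 1) hHz
      rw [h6] at h8
      refine ⟨⟨?_, ?_⟩, ?_⟩
      · push_cast
        nlinarith
      · push_cast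
        nlinarith
      · rw [← h7]
        exact Int.dvd_self_sub_emod
    · intro x hx hx'
      rw [U2_mem] at hx
      obtain ⟨⟨h1, h2⟩, h3⟩ := hx
      apply hf
      rintro ⟨h4, h5⟩
      apply hx'
      rw [mem_filter, mem_Icc]
      refine ⟨⟨h4, h5⟩, ?_⟩
      push_cast at h1 h2
      have h6 : (x - 1) / (H : ℤ) = j := by
        rw [Int.ediv_eq_iff_of_pos hHz]
        constructor <;> nlinarith
      have h7 : x % (q : ℤ) = r := by
        have h8 : (r : ℤ) % (q : ℤ) = r := Int.emod_eq_of_lt (by omega) (by exact_mod_cast hp.2)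
        rw [← h8]
        exact (Int.modEq_iff_dvd.2 h3).symm
      rw [h6, h7]
      simp
  · intro x hx
    rw [mem_Icc] at hx
    rw [mem_product, mem_range, mem_range]
    constructor
    · have h1 : (((x - 1) / (H : ℤ)).toNat : ℤ) ≤ ((N / H : ℕ) : ℤ) := by
        rw [c1 x hx.1]
        push_cast
        exact Int.ediv_le_ediv hHz (by omega)
      have : ((x - 1) / (H : ℤ)).toNat ≤ N / H := by exact_mod_cast h1
      omega
    · have h1 := Int.emod_lt_of_pos x hqz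
      rw [← c2 x] at h1
      exact_mod_cast h1

/-- removing a slowly varying phase -/
private lemma U2_phase (P : Finset ℤ) (f : ℤ → ℂ) (θ δ : ℝ) (hδ : 0 ≤ δ)
    (h : ∀ x ∈ P, ∀ y ∈ P, nn (θ * x - θ * y) ≤ δ / 20) :
    ‖∑ x ∈ P, f x * ee (θ * x)‖ ≤ ‖∑ x ∈ P, f x‖ + δ / 3 * ∑ x ∈ P, ‖f x‖ := by
  rcases P.eq_empty_or_nonempty with h0 | ⟨x₀, hx₀⟩
  · rw [h0]; simp
  · have e1 : ∑ x ∈ P, f x * ee (θ * x) = ee (θ * x₀) * ∑ x ∈ P, f x +
        ∑ x ∈ P, f x * (ee (θ * x) - ee (θ * x₀)) := by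
      rw [mul_sum, ← sum_add_distrib]
      exact sum_congr rfl fun x _ => by ring
    rw [e1]
    refine (norm_add_le _ _).trans ?_
    rw [norm_mul, norm_ee, one_mul]
    refine add_le_add le_rfl ?_
    refine (norm_sum_le _ _).trans ?_
    rw [mul_sum]
    refine sum_le_sum fun x hx => ?_
    rw [norm_mul, mul_comm]
    refine mul_le_mul_of_nonneg_right ?_ (norm_nonneg _)
    refine (norm_ee_sub_ee_le _ _).trans ?_
    have h1 := h x hx x₀ hx₀
    have h2 := Real.pi_lt_d2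
    have h3 := nn_nonneg (θ * x - θ * x₀)
    have h4 := Real.pi_pos
    nlinarith

/-- number of classes -/
private lemma U2_classes (q W₀ : ℕ) (hW : 1 ≤ W₀) (hq : 1 ≤ q) (hd : W₀ ∣ q) (h : ℤ) :
    (((range q).filter (fun s : ℕ => (W₀ : ℤ) ∣ (s : ℤ) - h)).card : ℝ) ≤ 2 * ((q : ℝ) / W₀) := by
  have h1 : ((range q).filter (fun s : ℕ => (W₀ : ℤ) ∣ (s : ℤ) - h)).card ≤
      (pr W₀ h (-1) ((q : ℤ) - 1)).card := by
    refine card_le_card_of_injOn (fun s : ℕ => (s : ℤ)) ?_ ?_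
    · intro s hs
      rw [mem_coe, mem_filter, mem_range] at hs
      rw [mem_coe, U2_mem]
      show ((-1 : ℤ) < (s : ℤ) ∧ (s : ℤ) ≤ (q : ℤ) - 1) ∧ (W₀ : ℤ) ∣ (s : ℤ) - h
      exact ⟨⟨by omega, by omega⟩, hs.2⟩
    · intro s _ s' _ hss
      have hss' : (s : ℤ) = (s' : ℤ) := hss
      exact_mod_cast hss'
  have h2 := U2_card W₀ hW h (-1) ((q : ℤ) - 1) (by omega)
  have h3 : (((range q).filter (fun s : ℕ => (W₀ : ℤ) ∣ (s : ℤ) - h)).card : ℝ) ≤
      ((pr W₀ h (-1) ((q : ℤ) - 1)).card : ℝ) := by exact_mod_cast h1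
  have hW0 : (0 : ℝ) < W₀ := by exact_mod_cast hW
  have h4 : (1 : ℝ) ≤ (q : ℝ) / W₀ := by
    rw [le_div_iff₀ hW0, one_mul]
    exact_mod_cast Nat.le_of_dvd (by omega) hd
  push_cast at h2
  have h5 : ((q : ℝ) - 1 - -1) / W₀ = (q : ℝ) / W₀ := by ring
  rw [h5] at h2
  linarith

/-- mean square of the correlations on one progression -/
private lemma U2_one (h6 : SB_6P) (q H Na W₀ : ℕ) (hq : 1 ≤ q) (hW : 1 ≤ W₀) (hWq : W₀ ∣ q)
    (hqH : q ≤ H) (hHN : H ≤ Na) (h : ℤ) (AA : Finset ℤ)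
    (hAA : ∀ a ∈ AA, (W₀ : ℤ) ∣ a - h ∧ |a - h| ≤ Na) (G F : ℤ → ℂ) (Γ : ℝ)
    (hF : ∀ x, ‖F x‖ ≤ 1) (j r : ℕ)
    (hG : ∀ ξ : ℝ, ‖∑ x ∈ pr q r ((j * H : ℕ) : ℤ) (((j + 1) * H : ℕ) : ℤ), G x * ee (ξ * x)‖ ≤ Γ) :
    ∑ a ∈ AA, ‖∑ x ∈ pr q r ((j * H : ℕ) : ℤ) (((j + 1) * H : ℕ) : ℤ), G x * F (x + a)‖ ^ 2 ≤
      8 * Γ ^ 2 * (Na / W₀) := by
  have hqz : (0 : ℤ) < q := by exact_mod_cast hq
  have hqr : (0 : ℝ) < q := by exact_mod_cast hq
  have hWr : (0 : ℝ) < W₀ := by exact_mod_cast hW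
  have c2 : ∀ x : ℤ, ((x % (q : ℤ)).toNat : ℤ) = x % (q : ℤ) := fun x =>
    Int.toNat_of_nonneg (Int.emod_nonneg x hqz.ne')
  have hWqz : (W₀ : ℤ) ∣ (q : ℤ) := Int.natCast_dvd_natCast.2 hWq
  rw [← sum_fiberwise_of_maps_to (t := (range q).filter (fun s : ℕ => (W₀ : ℤ) ∣ (s : ℤ) - h))
    (g := fun a : ℤ => (a % (q : ℤ)).toNat)]
  · have hcl : ∀ s ∈ (range q).filter (fun s : ℕ => (W₀ : ℤ) ∣ (s : ℤ) - h),
        ∑ a ∈ AA.filter (fun a => (a % (q : ℤ)).toNat = s),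
          ‖∑ x ∈ pr q r ((j * H : ℕ) : ℤ) (((j + 1) * H : ℕ) : ℤ), G x * F (x + a)‖ ^ 2 ≤
        Γ ^ 2 * (4 * Na / q) := by
      intro s _
      refine (h6 _ (pr q ((r : ℤ) + s) (((j * H : ℕ) : ℤ) + (h - Na))
        ((((j + 1) * H : ℕ) : ℤ) + (h + Na))) _ G F Γ hF ?_ hG).trans ?_
      · intro a ha x hx
        rw [mem_filter] at ha
        obtain ⟨ha1, ha2⟩ := ha
        obtain ⟨_, ha3⟩ := hAA a ha1
        rw [abs_le] at ha3
        rw [U2_mem] at hx ⊢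
        obtain ⟨⟨hx1, hx2⟩, hx3⟩ := hx
        refine ⟨⟨by omega, by omega⟩, ?_⟩
        have ha4 : (q : ℤ) ∣ a - s := by
          have : (s : ℤ) = a % (q : ℤ) := by rw [← c2 a, ha2]
          rw [this]
          exact Int.dvd_self_sub_emod
        have e : x + a - ((r : ℤ) + s) = (x - r) + (a - s) := by ring
        rw [e]
        exact dvd_add hx3 ha4
      · refine mul_le_mul_of_nonneg_left ?_ (by positivity)
        refine (U2_card q hq _ _ _ (by push_cast; nlinarith)).trans ?_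
        have h1 : (1 : ℝ) ≤ (Na : ℝ) / q := by
          rw [le_div_iff₀ hqr, one_mul]
          exact_mod_cast hqH.trans hHN
        have h2 : ((((((j + 1) * H : ℕ) : ℤ) + (h + Na) : ℤ) : ℝ) -
            ((((j * H : ℕ) : ℤ) + (h - Na) : ℤ) : ℝ)) / q = (2 * Na + H) / q := by
          push_cast
          ring
        rw [h2]
        have h3 : (2 * (Na : ℝ) + H) / q ≤ 3 * Na / q := by
          refine div_le_div_of_nonneg_right ?_ hqr.le
          have : (H : ℝ) ≤ Na := by exact_mod_cast hHN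
          linarith
        have h4 : 4 * (Na : ℝ) / q = 3 * Na / q + Na / q := by ring
        linarith
    refine (sum_le_sum hcl).trans ?_
    rw [sum_const, nsmul_eq_mul]
    have h1 := U2_classes q W₀ hW hq hWq h
    have h2 : (0 : ℝ) ≤ Γ ^ 2 * (4 * Na / q) := by positivity
    refine (mul_le_mul_of_nonneg_right h1 h2).trans (le_of_eq ?_)
    field_simp
    ring
  · intro a ha
    obtain ⟨ha1, _⟩ := hAA a ha
    rw [mem_filter, mem_range]
    constructor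
    · have h1 := Int.emod_lt_of_pos a hqz
      rw [← c2 a] at h1
      exact_mod_cast h1
    · rw [c2]
      have h2 : (q : ℤ) ∣ a - a % (q : ℤ) := Int.dvd_self_sub_emod
      have h3 := dvd_sub ha1 (hWqz.trans h2)
      have e : a - h - (a - a % (q : ℤ)) = a % (q : ℤ) - h := by ring
      rw [e] at h3
      exact h3

theorem p_U2 (h6 : SB_6P) : S_U2 := by
  refine ⟨12, ?_⟩
  intro δ N q H Na W₀ g h lam AA ξ hδ hδ2 hg hW hWq hq hHNa hNaN hqH hAA hAc hcor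
  obtain ⟨hg1, hg2⟩ := hg
  have hqr : (1 : ℝ) ≤ q := by exact_mod_cast hq
  have hqr0 : (0 : ℝ) < q := by linarith
  have hWr : (0 : ℝ) < W₀ := by exact_mod_cast hW
  -- sizes
  have hδi : (1 : ℝ) ≤ 1 / δ := by
    rw [le_div_iff₀ hδ]
    linarith
  have hqH' : (q : ℝ) ≤ H := by
    refine le_trans ?_ hqH
    have : (1 : ℝ) ≤ (1 / δ) ^ 12 := one_le_pow₀ hδi
    nlinarith
  have hqHn : q ≤ H := by exact_mod_cast hqH'
  have hH1 : 1 ≤ H := hq.trans hqHn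
  have hHr : (0 : ℝ) < H := by exact_mod_cast hH1
  have hHN : H ≤ N := hHNa.trans hNaN
  have hNr : (0 : ℝ) < N := by exact_mod_cast (hH1.trans hHN)
  have hNar : (0 : ℝ) < Na := by exact_mod_cast (hH1.trans hHNa)
  obtain ⟨PP, hPP⟩ : ∃ PP : ℕ → ℕ → Finset ℤ, ∀ j r, PP j r =
      pr q r ((j * H : ℕ) : ℤ) (((j + 1) * H : ℕ) : ℤ) := ⟨_, fun _ _ => rfl⟩
  -- the frequencies
  have hΞ : ∀ j r : ℕ, ∃ x₀ : ℝ, ∀ x : ℝ, ‖∑ y ∈ PP j r, g y * ee (x * y)‖ ≤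
      2 * ‖∑ y ∈ PP j r, g y * ee (x₀ * y)‖ := by
    intro j r
    refine U2_sup (fun x => ‖∑ y ∈ PP j r, g y * ee (x * y)‖) ((PP j r).card : ℝ)
      (fun _ => norm_nonneg _) (fun x => ?_)
    refine (norm_sum_le _ _).trans ?_
    calc ∑ y ∈ PP j r, ‖g y * ee (x * y)‖ ≤ ∑ y ∈ PP j r, (1 : ℝ) := by
          refine sum_le_sum fun y _ => ?_
          rw [norm_mul, norm_ee, mul_one]
          exact hg1 y
      _ = ((PP j r).card : ℝ) := by simp
  choose Ξ hΞ using hΞ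
  refine ⟨Ξ, ?_⟩
  have hgam : ∀ j r, gam q H Ξ g j r = ‖∑ y ∈ PP j r, g y * ee (Ξ j r * y)‖ := by
    intro j r
    rw [hPP]
    rfl
  -- the sum over pairs
  rw [← sum_product']
  obtain ⟨B, hB⟩ : ∃ B : Finset (ℕ × ℕ), B = range (N / H + 1) ×ˢ range q := ⟨_, rfl⟩
  rw [← hB]
  obtain ⟨S, hS⟩ : ∃ S : ℝ, S = ∑ p ∈ B, gam q H Ξ g p.1 p.2 ^ 2 := ⟨_, rfl⟩
  rw [← hS]
  have hBcard : (B.card : ℝ) ≤ 2 * N * q / H := by
    rw [hB, card_product, card_range, card_range]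
    push_cast
    have h1 : ((N / H : ℕ) : ℝ) ≤ N / H := Nat.cast_div_le
    have h2 : (1 : ℝ) ≤ N / H := by
      rw [le_div_iff₀ hHr, one_mul]
      exact_mod_cast hHN
    have h3 : 2 * (N : ℝ) * q / H = (2 * (N / H)) * q := by ring
    rw [h3]
    exact mul_le_mul_of_nonneg_right (by linarith) hqr0.le
  -- the correlations on the pieces
  obtain ⟨cc, hcc⟩ : ∃ cc : ℤ → ℕ × ℕ → ℂ, ∀ a p, cc a p =
      ∑ x ∈ PP p.1 p.2, (g x * ee (lam * x)) * (starRingEnd ℂ) (g (x + a)) := ⟨_, fun _ _ => rfl⟩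
  have hlow : ∀ a ∈ AA, δ ^ 2 * (N * H) / (8 * q) ≤ ∑ p ∈ B, ‖cc a p‖ ^ 2 := by
    intro a ha
    obtain ⟨h1, h2⟩ := hcor a ha
    have h3 : δ * N ≤ ∑ p ∈ B, ‖cc a p‖ + δ / 3 * N := by
      refine h1.trans ?_
      obtain ⟨f, hf⟩ : ∃ f : ℤ → ℂ, ∀ x, f x = (g x * ee (lam * x)) * (starRingEnd ℂ) (g (x + a)) :=
        ⟨_, fun _ => rfl⟩
      have hf0 : ∀ x, ¬ (1 ≤ x ∧ x ≤ (N : ℤ)) → f x = 0 := by
        intro x hx
        have : g x = 0 := by
          by_contra hne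
          exact hx (hg2 x hne)
        rw [hf, this]
        simp
      have hf1 : ∀ x, ‖f x‖ ≤ 1 := by
        intro x
        rw [hf, norm_mul, norm_mul, norm_ee, mul_one, RCLike.norm_conj]
        exact mul_le_one₀ (hg1 _) (norm_nonneg _) (hg1 _)
      have e1 : cor N g a (ξ a) = ∑ p ∈ B, ∑ x ∈ PP p.1 p.2, f x * ee ((ξ a - lam) * x) := by
        rw [cor, hB]
        have e2 : ∀ x ∈ Finset.Icc (1 : ℤ) N, g x * (starRingEnd ℂ) (g (x + a)) * ee (ξ a * x) =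
            f x * ee ((ξ a - lam) * x) := by
          intro x _
          have e3 : ξ a * x = lam * x + (ξ a - lam) * x := by ring
          rw [hf, e3, ee_add]
          ring
        rw [sum_congr rfl e2, U2_cover N H q hH1 hq (fun x => f x * ee ((ξ a - lam) * x))
          (fun x hx => by rw [hf0 x hx, zero_mul])]
        exact sum_congr rfl fun p _ => by rw [hPP]
      have e4 : ∑ x ∈ Finset.Icc (1 : ℤ) N, ‖f x‖ = ∑ p ∈ B, ∑ x ∈ PP p.1 p.2, ‖f x‖ := by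
        rw [hB, U2_cover N H q hH1 hq (fun x => ‖f x‖) (fun x hx => by rw [hf0 x hx, norm_zero])]
        exact sum_congr rfl fun p _ => by rw [hPP]
      have e5 : ∑ x ∈ Finset.Icc (1 : ℤ) N, ‖f x‖ ≤ N := by
        calc ∑ x ∈ Finset.Icc (1 : ℤ) N, ‖f x‖ ≤ ∑ x ∈ Finset.Icc (1 : ℤ) N, (1 : ℝ) :=
              sum_le_sum fun x _ => hf1 x
          _ = N := by simp
      rw [e1]
      refine (norm_sum_le _ _).trans ?_
      calc ∑ p ∈ B, ‖∑ x ∈ PP p.1 p.2, f x * ee ((ξ a - lam) * x)‖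
          ≤ ∑ p ∈ B, (‖∑ x ∈ PP p.1 p.2, f x‖ + δ / 3 * ∑ x ∈ PP p.1 p.2, ‖f x‖) := by
            refine sum_le_sum fun p _ => U2_phase _ f (ξ a - lam) δ hδ.le ?_
            intro x hx y hy
            rw [hPP, U2_mem] at hx hy
            obtain ⟨⟨hx1, hx2⟩, hx3⟩ := hx
            obtain ⟨⟨hy1, hy2⟩, hy3⟩ := hy
            obtain ⟨t, ht⟩ : (q : ℤ) ∣ x - y := by
              have := dvd_sub hx3 hy3
              have e : x - (p.2 : ℤ) - (y - p.2) = x - y := by ring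
              rwa [e] at this
            have ht' : (x : ℝ) - y = q * t := by exact_mod_cast ht
            have e6 : (ξ a - lam) * x - (ξ a - lam) * y = (t : ℝ) * (q * (ξ a - lam)) := by
              rw [← mul_sub, ht']
              ring
            rw [e6]
            refine (nn_int_mul_le t _).trans ?_
            have h4 : |(t : ℝ)| * q ≤ H := by
              have h5 : |(x : ℝ) - y| ≤ H := by
                have h6 : |x - y| ≤ (H : ℤ) := by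
                  rw [abs_le]
                  push_cast at hx1 hx2 hy1 hy2
                  constructor <;> nlinarith
                exact_mod_cast h6
              rw [ht', abs_mul, abs_of_pos hqr0] at h5
              linarith
            calc |(t : ℝ)| * nn (q * (ξ a - lam)) ≤ |(t : ℝ)| * (δ * q / (20 * H)) :=
                  mul_le_mul_of_nonneg_left h2 (abs_nonneg _)
              _ = (|(t : ℝ)| * q) * (δ / (20 * H)) := by ring
              _ ≤ H * (δ / (20 * H)) := mul_le_mul_of_nonneg_right h4 (by positivity)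
              _ = δ / 20 := by field_simp
        _ = ∑ p ∈ B, ‖cc a p‖ + δ / 3 * ∑ p ∈ B, ∑ x ∈ PP p.1 p.2, ‖f x‖ := by
            rw [sum_add_distrib, ← mul_sum]
            congr 1
            refine sum_congr rfl fun p _ => ?_
            rw [hcc]
            congr 1
            exact sum_congr rfl fun x _ => hf x
        _ ≤ ∑ p ∈ B, ‖cc a p‖ + δ / 3 * N := by
            rw [← e4]
            have := mul_le_mul_of_nonneg_left e5 (show (0 : ℝ) ≤ δ / 3 by positivity)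
            linarith
    have h4 : δ * N / 2 ≤ ∑ p ∈ B, ‖cc a p‖ := by
      have : 0 < δ * N := by positivity
      linarith
    have h5 : (∑ p ∈ B, ‖cc a p‖) ^ 2 ≤ (B.card : ℝ) * ∑ p ∈ B, ‖cc a p‖ ^ 2 :=
      sq_sum_le_card_mul_sum_sq
    have h6 : (δ * N / 2) ^ 2 ≤ 2 * N * q / H * ∑ p ∈ B, ‖cc a p‖ ^ 2 := by
      calc (δ * N / 2) ^ 2 ≤ (∑ p ∈ B, ‖cc a p‖) ^ 2 := pow_le_pow_left₀ (by positivity) h4 2
        _ ≤ (B.card : ℝ) * ∑ p ∈ B, ‖cc a p‖ ^ 2 := h5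
        _ ≤ _ := mul_le_mul_of_nonneg_right hBcard (sum_nonneg fun _ _ => by positivity)
    have h7 : (0 : ℝ) < 2 * N * q / H := by positivity
    have h8 : δ ^ 2 * (N * H) / (8 * q) = (δ * N / 2) ^ 2 / (2 * N * q / H) := by
      field_simp
      ring
    rw [h8, div_le_iff₀ h7]
    linarith
  -- the upper bound
  have hup : ∀ p ∈ B, ∑ a ∈ AA, ‖cc a p‖ ^ 2 ≤ 32 * (Na / W₀) * gam q H Ξ g p.1 p.2 ^ 2 := by
    intro p _
    have h1 := U2_one h6 q H Na W₀ hq hW hWq hqHn hHNa h AA hAA (fun x => g x * ee (lam * x))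
      (fun x => (starRingEnd ℂ) (g x)) (2 * gam q H Ξ g p.1 p.2)
      (fun x => by rw [RCLike.norm_conj]; exact hg1 x) p.1 p.2 (by
        intro x
        rw [← hPP]
        have h2 : ∑ y ∈ PP p.1 p.2, g y * ee (lam * y) * ee (x * y) =
            ∑ y ∈ PP p.1 p.2, g y * ee ((lam + x) * y) := by
          refine sum_congr rfl fun y _ => ?_
          rw [add_mul, ee_add]
          ring
        rw [h2, hgam]
        exact hΞ p.1 p.2 (lam + x))
    rw [← hPP] at h1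
    have h3 : ∑ a ∈ AA, ‖cc a p‖ ^ 2 =
        ∑ a ∈ AA, ‖∑ x ∈ PP p.1 p.2, g x * ee (lam * x) * (starRingEnd ℂ) (g (x + a))‖ ^ 2 :=
      sum_congr rfl fun a _ => by rw [hcc]
    rw [h3]
    refine h1.trans (le_of_eq ?_)
    ring
  have hfin : (AA.card : ℝ) * (δ ^ 2 * (N * H) / (8 * q)) ≤ 32 * (Na / W₀) * S := by
    calc (AA.card : ℝ) * (δ ^ 2 * (N * H) / (8 * q))
        = ∑ a ∈ AA, δ ^ 2 * (N * H) / (8 * q) := by rw [sum_const, nsmul_eq_mul]
      _ ≤ ∑ a ∈ AA, ∑ p ∈ B, ‖cc a p‖ ^ 2 := sum_le_sum hlow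
      _ = ∑ p ∈ B, ∑ a ∈ AA, ‖cc a p‖ ^ 2 := sum_comm
      _ ≤ ∑ p ∈ B, 32 * (Na / W₀) * gam q H Ξ g p.1 p.2 ^ 2 := sum_le_sum hup
      _ = 32 * (Na / W₀) * S := by rw [← mul_sum, hS]
  have hX : (0 : ℝ) < Na / W₀ := by positivity
  have h1 : δ * (Na / W₀) * (δ ^ 2 * (N * H) / (8 * q)) ≤ 32 * (Na / W₀) * S :=
    (mul_le_mul_of_nonneg_right hAc (by positivity)).trans hfin
  have h2 : (Na / W₀ : ℝ) * (δ ^ 3 * (N * H / q) / 8) ≤ (Na / W₀ : ℝ) * (32 * S) := by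
    refine le_trans (le_of_eq ?_) (h1.trans (le_of_eq ?_))
    · ring
    · ring
  have h3 := le_of_mul_le_mul_left h2 hX
  have h4 : δ ^ 9 ≤ (1 / 2) ^ 9 := pow_le_pow_left₀ hδ.le hδ2 9
  have h5 : (0 : ℝ) ≤ δ ^ 3 * (N * H / q) := by positivity
  have h7 : δ ^ 12 * (N * H / q) = δ ^ 9 * (δ ^ 3 * (N * H / q)) := by ring
  rw [h7]
  nlinarith

end Pool.Agent.APP.B
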