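import Pool.Agent.Lib.MP_8a4e59_co.B.CloseU
import Pool.Agent.Lib.MP_8a4e59_co.B.P6

set_option autoImplicit false

/-!
Part B: Theorem B.
-/

namespace Pool.Agent.APP.B

/-- Theorem B -/
theorem p_thmB : S_thmB := thmB_of_U2 (p_U2 (p_6P p_par))

end Pool.Agent.APP.B
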