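import Pool.Agent.Lib.MP_8a4e59_co.B.StmA

set_option autoImplicit false

/-!
Part B, step 0.
-/

namespace Pool.Agent.APP.B

open Finset

private lemma cor_le (N : ℕ) (g : ℤ → ℂ) (hg : Bd N g) (a : ℤ) (ξ : ℝ) : ‖cor N g a ξ‖ ≤ N := by
  unfold cor
  refine (norm_sum_le _ _).trans ?_
  have : ∀ x ∈ Finset.Icc (1 : ℤ) N, ‖g x * (starRingEnd ℂ) (g (x + a)) * ee (ξ * x)‖ ≤ 1 := by
    intro x _
    rw [norm_mul, norm_mul, norm_ee, mul_one, RCLike.norm_conj]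
    have h1 := hg.1 x
    have h2 := hg.1 (x + a)
    have h3 := norm_nonneg (g x)
    have h4 := norm_nonneg (g (x + a))
    nlinarith
  refine (Finset.sum_le_sum this).trans ?_
  simp

theorem p_0 (ha : SB_0a) (hb : SB_0b) : SB_0 := by
  intro δ N f₀ f₁ f₂ g hδ hN h0 h1 h2 hg hbig
  choose φ hφ1 hφ2 using fun h : ℤ => hb N f₀ f₂ g h hN h0 h2 hg
  set C : ℤ → ℝ := fun h => ‖cor N g h (φ h / (4 * N))‖ with hC
  have hN' : (1 : ℝ) ≤ N := by exact_mod_cast hN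
  have hNpos : (0 : ℝ) < N := by linarith
  refine ⟨(Finset.Ioo (-(N : ℤ)) N).filter (fun h => δ ^ 2 / 4 * N ≤ C h), φ, ?_, ?_, ?_⟩
  · intro h hh
    rw [Finset.mem_filter, Finset.mem_Ioo] at hh
    rw [abs_le]
    constructor
    · linarith [hh.1.1]
    · linarith [hh.1.2]
  · have hsq := ha N f₀ f₁ f₂ g hN h0 h1 h2 hg
    have h3 : (δ * (N : ℝ) ^ 2) ^ 2 ≤ N * ∑ h ∈ Finset.Ioo (-(N : ℤ)) N, ‖EE0 N f₀ f₂ g h‖ :=
      le_trans (pow_le_pow_left₀ (by positivity) hbig 2) hsq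
    have h4 : ∑ h ∈ Finset.Ioo (-(N : ℤ)) N, ‖EE0 N f₀ f₂ g h‖ ≤
        ∑ h ∈ Finset.Ioo (-(N : ℤ)) N, (N : ℝ) * C h :=
      Finset.sum_le_sum (fun h _ => hφ2 h)
    rw [← Finset.mul_sum] at h4
    have h5 : (N : ℝ) ^ 2 * (δ ^ 2 * (N : ℝ) ^ 2) ≤
        (N : ℝ) ^ 2 * ∑ h ∈ Finset.Ioo (-(N : ℤ)) N, C h := by
      calc (N : ℝ) ^ 2 * (δ ^ 2 * (N : ℝ) ^ 2) = (δ * (N : ℝ) ^ 2) ^ 2 := by ring
        _ ≤ N * ∑ h ∈ Finset.Ioo (-(N : ℤ)) N, ‖EE0 N f₀ f₂ g h‖ := h3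
        _ ≤ N * (N * ∑ h ∈ Finset.Ioo (-(N : ℤ)) N, C h) := by gcongr
        _ = _ := by ring
    have h6 : δ ^ 2 * (N : ℝ) ^ 2 ≤ ∑ h ∈ Finset.Ioo (-(N : ℤ)) N, C h :=
      le_of_mul_le_mul_left h5 (by positivity)
    rw [← Finset.sum_filter_add_sum_filter_not _ (fun h => δ ^ 2 / 4 * N ≤ C h)] at h6
    have h7 : ∑ h ∈ (Finset.Ioo (-(N : ℤ)) N).filter (fun h => δ ^ 2 / 4 * N ≤ C h), C h ≤
        ((Finset.Ioo (-(N : ℤ)) N).filter (fun h => δ ^ 2 / 4 * N ≤ C h)).card * (N : ℝ) := by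
      rw [← nsmul_eq_mul]
      exact Finset.sum_le_card_nsmul _ _ _ (fun h _ => cor_le N g hg h _)
    have h8 : ∑ h ∈ (Finset.Ioo (-(N : ℤ)) N).filter (fun h => ¬ δ ^ 2 / 4 * N ≤ C h), C h ≤
        ((Finset.Ioo (-(N : ℤ)) N).filter (fun h => ¬ δ ^ 2 / 4 * N ≤ C h)).card *
          (δ ^ 2 / 4 * N) := by
      rw [← nsmul_eq_mul]
      refine Finset.sum_le_card_nsmul _ _ _ (fun h hh => ?_)
      rw [Finset.mem_filter, not_le] at hh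
      exact hh.2.le
    have h9 : (((Finset.Ioo (-(N : ℤ)) N).filter (fun h => ¬ δ ^ 2 / 4 * N ≤ C h)).card : ℝ) ≤
        2 * N := by
      have h10 : ((Finset.Ioo (-(N : ℤ)) N).filter (fun h => ¬ δ ^ 2 / 4 * N ≤ C h)).card ≤
          2 * N := by
        refine (Finset.card_filter_le _ _).trans ?_
        rw [Int.card_Ioo]
        omega
      exact_mod_cast h10
    have h11 : (((Finset.Ioo (-(N : ℤ)) N).filter (fun h => ¬ δ ^ 2 / 4 * N ≤ C h)).card : ℝ) *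
          (δ ^ 2 / 4 * N) ≤ 2 * N * (δ ^ 2 / 4 * N) := by gcongr
    set c : ℝ := (((Finset.Ioo (-(N : ℤ)) N).filter (fun h => δ ^ 2 / 4 * N ≤ C h)).card : ℝ)
      with hc
    have h12 : (δ ^ 2 / 2 * N) * N ≤ c * N := by nlinarith
    have h13 : δ ^ 2 / 2 * N ≤ c := le_of_mul_le_mul_right h12 hNpos
    have h14 : 0 ≤ δ ^ 2 * N := by positivity
    linarith
  · intro h hh
    rw [Finset.mem_filter] at hh
    exact hh.2

end Pool.Agent.APP.B
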