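import Pool.Agent.Lib.MP_8a4e59_co.B.StmA

set_option autoImplicit false

namespace Pool.Agent.APP.B

open Finset

private lemma p0a_shift {N : ℕ} {F : ℤ → ℂ} (hF : ∀ m : ℤ, ¬ (1 ≤ m ∧ m ≤ N) → F m = 0) {n : ℤ}
    (hn : n ∈ Finset.Icc (1 : ℤ) N) :
    ∑ m ∈ Finset.Icc (1 : ℤ) N, F m = ∑ h ∈ Finset.Ioo (-(N : ℤ)) N, F (n + h) := by
  rw [Finset.mem_Icc] at hn
  have h1 : ∑ h ∈ Finset.Ioo (-(N : ℤ)) N, F (n + h)
      = ∑ m ∈ Finset.Ioo (n - N) (n + N), F m := by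
    apply Finset.sum_nbij' (fun h => n + h) (fun m => m - n)
    · intro h hh
      rw [Finset.mem_Ioo] at hh ⊢
      omega
    · intro m hm
      rw [Finset.mem_Ioo] at hm ⊢
      omega
    · intro h _
      ring
    · intro m _
      ring
    · intro h _
      rfl
  rw [h1]
  apply Finset.sum_subset
  · intro m hm
    rw [Finset.mem_Icc] at hm
    rw [Finset.mem_Ioo]
    omega
  · intro m _ hm
    rw [Finset.mem_Icc] at hm
    exact hF m hm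

theorem p_0a : SB_0a := by
  intro N f₀ f₁ f₂ g _ _ h1 _ hg
  set a : ℤ → ℤ → ℂ := fun y n => f₀ (y - n) * f₂ (y + n) * g n with ha
  set X : ℤ → ℂ := fun y => ∑ n ∈ Finset.Icc (1 : ℤ) N, a y n with hX
  have hgz : ∀ m : ℤ, ¬ (1 ≤ m ∧ m ≤ N) → g m = 0 := by
    intro m hm
    by_contra hne
    exact hm (hg.2 m hne)
  -- Cauchy-Schwarz
  have hS : ‖∑ y ∈ Finset.Icc (1 : ℤ) N, ∑ n ∈ Finset.Icc (1 : ℤ) N,
      f₀ (y - n) * f₁ y * f₂ (y + n) * g n‖ ≤ ∑ y ∈ Finset.Icc (1 : ℤ) N, ‖X y‖ := by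
    refine (norm_sum_le _ _).trans (Finset.sum_le_sum fun y _ => ?_)
    have e : ∑ n ∈ Finset.Icc (1 : ℤ) N, f₀ (y - n) * f₁ y * f₂ (y + n) * g n = f₁ y * X y := by
      rw [hX]
      simp only [Finset.mul_sum, ha]
      exact Finset.sum_congr rfl fun n _ => by ring
    rw [e, norm_mul]
    calc ‖f₁ y‖ * ‖X y‖ ≤ 1 * ‖X y‖ := mul_le_mul_of_nonneg_right (h1.1 y) (norm_nonneg _)
      _ = ‖X y‖ := one_mul _
  have hcs : (∑ y ∈ Finset.Icc (1 : ℤ) N, ‖X y‖) ^ 2 ≤ N * ∑ y ∈ Finset.Icc (1 : ℤ) N, ‖X y‖ ^ 2 := by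
    have h := sq_sum_le_card_mul_sum_sq (s := Finset.Icc (1 : ℤ) N) (f := fun y => ‖X y‖)
    have hc : ((Finset.Icc (1 : ℤ) N).card : ℝ) = N := by simp
    rwa [hc] at h
  have hsub : ∑ y ∈ Finset.Icc (1 : ℤ) N, ‖X y‖ ^ 2
      ≤ ∑ y ∈ Finset.Icc (1 : ℤ) (2 * N), ‖X y‖ ^ 2 := by
    apply Finset.sum_le_sum_of_subset_of_nonneg
    · intro y hy
      rw [Finset.mem_Icc] at hy ⊢
      omega
    · intro y _ _
      positivity
  -- the identity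
  have hK : ∑ y ∈ Finset.Icc (1 : ℤ) (2 * N), X y * (starRingEnd ℂ) (X y)
      = ∑ h ∈ Finset.Ioo (-(N : ℤ)) N, EE0 N f₀ f₂ g h := by
    have h3 : ∀ y : ℤ, X y * (starRingEnd ℂ) (X y)
        = ∑ h ∈ Finset.Ioo (-(N : ℤ)) N, ∑ n ∈ Finset.Icc (1 : ℤ) N,
          (f₀ (y - n) * (starRingEnd ℂ) (f₀ (y - n - h))) *
          (f₂ (y + n) * (starRingEnd ℂ) (f₂ (y + n + h))) *
          (g n * (starRingEnd ℂ) (g (n + h))) := by
      intro y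
      rw [Finset.sum_comm]
      have e1 : X y * (starRingEnd ℂ) (X y)
          = ∑ n ∈ Finset.Icc (1 : ℤ) N, a y n * (starRingEnd ℂ) (X y) := by
        rw [hX, Finset.sum_mul]
      rw [e1]
      refine Finset.sum_congr rfl fun n hn => ?_
      have e2 : (starRingEnd ℂ) (X y)
          = ∑ h ∈ Finset.Ioo (-(N : ℤ)) N, (starRingEnd ℂ) (a y (n + h)) := by
        rw [hX]
        simp only [map_sum]
        exact p0a_shift (F := fun m => (starRingEnd ℂ) (a y m))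
          (fun m hm => by simp [ha, hgz m hm]) hn
      rw [e2, Finset.mul_sum]
      refine Finset.sum_congr rfl fun h _ => ?_
      simp only [ha, map_mul]
      rw [show y - (n + h) = y - n - h by ring, show y + (n + h) = y + n + h by ring]
      ring
    simp only [h3, EE0]
    rw [Finset.sum_comm]
  have hre : ((∑ y ∈ Finset.Icc (1 : ℤ) (2 * N), ‖X y‖ ^ 2 : ℝ) : ℂ)
      = ∑ h ∈ Finset.Ioo (-(N : ℤ)) N, EE0 N f₀ f₂ g h := by
    rw [← hK]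
    push_cast
    exact Finset.sum_congr rfl fun y _ => (Complex.mul_conj' (X y)).symm
  have hfin : ∑ y ∈ Finset.Icc (1 : ℤ) (2 * N), ‖X y‖ ^ 2
      ≤ ∑ h ∈ Finset.Ioo (-(N : ℤ)) N, ‖EE0 N f₀ f₂ g h‖ := by
    have h4 := congrArg norm hre
    rw [Complex.norm_real, Real.norm_eq_abs, abs_of_nonneg (by positivity)] at h4
    rw [h4]
    exact norm_sum_le _ _
  calc ‖∑ y ∈ Finset.Icc (1 : ℤ) N, ∑ n ∈ Finset.Icc (1 : ℤ) N,
      f₀ (y - n) * f₁ y * f₂ (y + n) * g n‖ ^ 2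
      ≤ (∑ y ∈ Finset.Icc (1 : ℤ) N, ‖X y‖) ^ 2 := pow_le_pow_left₀ (norm_nonneg _) hS 2
    _ ≤ N * ∑ y ∈ Finset.Icc (1 : ℤ) N, ‖X y‖ ^ 2 := hcs
    _ ≤ N * ∑ h ∈ Finset.Ioo (-(N : ℤ)) N, ‖EE0 N f₀ f₂ g h‖ :=
        mul_le_mul_of_nonneg_left (hsub.trans hfin) (Nat.cast_nonneg _)

end Pool.Agent.APP.B
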