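import Pool.Agent.Lib.MP_8a4e59_co.B.StmA

set_option autoImplicit false

/-!
Part B, step 0b: Fourier transform on `ℤ/4N`.
-/

namespace Pool.Agent.APP.B

open Finset

private lemma p0b_orth (N : ℕ) (hN : 1 ≤ N) (m : ℤ) (h1 : -(4 * N : ℤ) < m) (h2 : m < 4 * N) :
    ∑ k ∈ range (4 * N), ee ((k : ℝ) * ((m : ℝ) / (4 * N))) = if m = 0 then ((4 * N : ℕ) : ℂ) else 0 := by
  have hN0 : (0 : ℝ) < 4 * N := by
    have : (1 : ℝ) ≤ N := by exact_mod_cast hN
    linarith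
  split_ifs with hm
  · subst hm
    simp [ee_zero]
  · have hne : ee ((m : ℝ) / (4 * N)) ≠ 1 := by
      intro he
      have h4 := four_nn_le ((m : ℝ) / (4 * N))
      rw [he, sub_self, norm_zero] at h4
      have h5 := nn_nonneg ((m : ℝ) / (4 * N))
      have h6 : nn ((m : ℝ) / (4 * N)) = 0 := by linarith
      obtain ⟨j, hj⟩ := (nn_eq_zero_iff _).1 h6
      rw [div_eq_iff hN0.ne'] at hj
      have hj' : m = j * (4 * N) := by exact_mod_cast hj
      have hj0 : j = 0 := by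
        by_contra hj0
        rcases lt_or_gt_of_ne hj0 with hlt | hgt
        · have : j ≤ -1 := by omega
          nlinarith
        · have : 1 ≤ j := by omega
          nlinarith
      rw [hj0] at hj'
      exact hm (by simpa using hj')
    have e1 : ∀ k ∈ range (4 * N), ee ((k : ℝ) * ((m : ℝ) / (4 * N))) =
        ee ((m : ℝ) / (4 * N)) ^ k := fun k _ => ee_nat_mul k _
    rw [Finset.sum_congr rfl e1, geom_sum_eq hne, ← ee_nat_mul]
    have e2 : ((4 * N : ℕ) : ℝ) * ((m : ℝ) / (4 * N)) = (m : ℝ) := by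
      push_cast
      field_simp
    rw [e2, ee_int, sub_self, zero_div]

private lemma p0b_conj (K : ℕ) (S : Finset ℤ) (F : ℤ → ℂ) (k : ℕ) :
    ‖∑ x ∈ S, F x * ee (-((k : ℝ) * x / K))‖ =
      ‖∑ x ∈ S, (starRingEnd ℂ) (F x) * ee ((k : ℝ) * x / K)‖ := by
  rw [← RCLike.norm_conj (K := ℂ), map_sum]
  congr 1
  apply Finset.sum_congr rfl
  intro x _
  rw [map_mul, ← ee_neg, neg_neg]

theorem p_0b (hp : SB_par) : SB_0b := by
  intro N f₀ f₂ g h hN hf₀ hf₂ hg
  classical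
  have hN0 : (0 : ℝ) < 4 * N := by
    have : (1 : ℝ) ≤ N := by exact_mod_cast hN
    linarith
  have hNc : ((4 * N : ℕ) : ℂ) ≠ 0 := by
    have : (4 * N : ℕ) ≠ 0 := by omega
    exact_mod_cast this
  obtain ⟨k₀, hk₀, hmax⟩ := Finset.exists_max_image (range (4 * N))
    (fun k : ℕ => ‖cor N g h ((k : ℝ) / (4 * N))‖) ⟨0, by rw [Finset.mem_range]; omega⟩
  refine ⟨k₀, Finset.mem_range.1 hk₀, ?_⟩
  set F : ℤ → ℂ := fun z => f₀ z * (starRingEnd ℂ) (f₀ (z - h)) with hF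
  set G : ℤ → ℂ := fun w => f₂ w * (starRingEnd ℂ) (f₂ (w + h)) with hG
  set D : ℤ → ℂ := fun n => g n * (starRingEnd ℂ) (g (n + h)) with hD
  have hF0 : ∀ z, ¬ (1 ≤ z ∧ z ≤ (N : ℤ)) → F z = 0 := by
    intro z hz
    have : f₀ z = 0 := by
      by_contra hne
      exact hz (hf₀.2 z hne)
    simp only [hF, this, zero_mul]
  have hG0 : ∀ z, ¬ (1 ≤ z ∧ z ≤ (N : ℤ)) → G z = 0 := by
    intro z hz
    have : f₂ z = 0 := by
      by_contra hne
      exact hz (hf₂.2 z hne)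
    simp only [hG, this, zero_mul]
  have hF1 : ∀ z, ‖F z‖ ≤ 1 := by
    intro z
    simp only [hF, norm_mul, RCLike.norm_conj]
    exact mul_le_one₀ (hf₀.1 _) (norm_nonneg _) (hf₀.1 _)
  have hG1 : ∀ z, ‖G z‖ ≤ 1 := by
    intro z
    simp only [hG, norm_mul, RCLike.norm_conj]
    exact mul_le_one₀ (hf₂.1 _) (norm_nonneg _) (hf₂.1 _)
  set A : ℕ → ℂ := fun k => ∑ z ∈ Finset.Icc (1 : ℤ) N, F z * ee (-((k : ℝ) * z / (4 * N : ℕ)))
    with hA
  set B : ℕ → ℂ := fun k => ∑ w ∈ Finset.Icc (1 : ℤ) N, G w * ee ((k : ℝ) * w / (4 * N : ℕ))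
    with hB
  set C : ℕ → ℂ := fun k => ∑ n ∈ Finset.Icc (1 : ℤ) N, D n * ee (-(2 * (k : ℝ) * n / (4 * N : ℕ)))
    with hC
  -- the expansion of `EE0`
  have step1 : EE0 N f₀ f₂ g h = ∑ n ∈ Finset.Icc (1 : ℤ) N, ∑ z ∈ Finset.Icc (1 : ℤ) N,
      F z * G (z + 2 * n) * D n := by
    unfold EE0
    rw [Finset.sum_comm]
    apply Finset.sum_congr rfl
    intro n hn
    rw [Finset.mem_Icc] at hn
    have e1 : ∑ z ∈ Finset.Icc (1 : ℤ) N, F z * G (z + 2 * n) * D n =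
        ∑ y ∈ Finset.Icc (1 + n) (N + n), F (y - n) * G (y + n) * D n := by
      apply Finset.sum_nbij' (fun z => z + n) (fun y => y - n)
      · intro z hz
        rw [Finset.mem_Icc] at hz ⊢
        omega
      · intro z hz
        rw [Finset.mem_Icc] at hz ⊢
        omega
      · intro z _; ring
      · intro z _; ring
      · intro z _
        have e1 : z + n - n = z := by ring
        have e2 : z + n + n = z + 2 * n := by ring
        rw [e1, e2]
    rw [e1]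
    symm
    apply Finset.sum_subset
    · intro y hy
      rw [Finset.mem_Icc] at hy ⊢
      omega
    · intro y _ hy
      have : F (y - n) = 0 := by
        apply hF0
        intro hh
        apply hy
        rw [Finset.mem_Icc]
        omega
      rw [this, zero_mul, zero_mul]
  have step2 : ∀ n ∈ Finset.Icc (1 : ℤ) N, ∀ z ∈ Finset.Icc (1 : ℤ) N,
      ((4 * N : ℕ) : ℂ) * G (z + 2 * n) = ∑ k ∈ range (4 * N), ∑ w ∈ Finset.Icc (1 : ℤ) N,
        G w * ee ((k : ℝ) * (((w - z - 2 * n : ℤ) : ℝ) / (4 * N))) := by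
    intro n hn z hz
    rw [Finset.mem_Icc] at hn hz
    rw [Finset.sum_comm]
    have e1 : ∀ w ∈ Finset.Icc (1 : ℤ) N, ∑ k ∈ range (4 * N),
        G w * ee ((k : ℝ) * (((w - z - 2 * n : ℤ) : ℝ) / (4 * N))) =
        if w = z + 2 * n then ((4 * N : ℕ) : ℂ) * G w else 0 := by
      intro w hw
      rw [Finset.mem_Icc] at hw
      rw [← Finset.mul_sum, p0b_orth N hN (w - z - 2 * n) (by omega) (by omega)]
      by_cases hwz : w = z + 2 * n
      · rw [if_pos (by omega), if_pos hwz, mul_comm]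
      · rw [if_neg (by omega), if_neg hwz, mul_zero]
    rw [Finset.sum_congr rfl e1, Finset.sum_ite_eq']
    by_cases hz2 : z + 2 * n ∈ Finset.Icc (1 : ℤ) N
    · rw [if_pos hz2]
    · rw [if_neg hz2, hG0 _ (by rwa [Finset.mem_Icc] at hz2), mul_zero]
  have key : ((4 * N : ℕ) : ℂ) * EE0 N f₀ f₂ g h = ∑ k ∈ range (4 * N), A k * B k * C k := by
    rw [step1, Finset.mul_sum]
    have e1 : ∀ n ∈ Finset.Icc (1 : ℤ) N, ((4 * N : ℕ) : ℂ) * ∑ z ∈ Finset.Icc (1 : ℤ) N,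
        F z * G (z + 2 * n) * D n = ∑ k ∈ range (4 * N), ∑ z ∈ Finset.Icc (1 : ℤ) N,
          ∑ w ∈ Finset.Icc (1 : ℤ) N, F z * ee (-((k : ℝ) * z / (4 * N : ℕ))) *
            (G w * ee ((k : ℝ) * w / (4 * N : ℕ))) * (D n * ee (-(2 * (k : ℝ) * n / (4 * N : ℕ)))) := by
      intro n hn
      rw [Finset.mul_sum]
      rw [Finset.sum_comm (s := range (4 * N))]
      apply Finset.sum_congr rfl
      intro z hz
      have e2 : ((4 * N : ℕ) : ℂ) * (F z * G (z + 2 * n) * D n) =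
          F z * (((4 * N : ℕ) : ℂ) * G (z + 2 * n)) * D n := by ring
      rw [e2, step2 n hn z hz, Finset.mul_sum, Finset.sum_mul]
      apply Finset.sum_congr rfl
      intro k _
      rw [Finset.mul_sum, Finset.sum_mul]
      apply Finset.sum_congr rfl
      intro w _
      have e3 : ee ((k : ℝ) * (((w - z - 2 * n : ℤ) : ℝ) / (4 * N))) =
          ee (-((k : ℝ) * z / (4 * N : ℕ))) * ee ((k : ℝ) * w / (4 * N : ℕ)) *
            ee (-(2 * (k : ℝ) * n / (4 * N : ℕ))) := by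
        rw [← ee_add, ← ee_add]
        congr 1
        push_cast
        ring
      rw [e3]
      ring
    rw [Finset.sum_congr rfl e1, Finset.sum_comm]
    apply Finset.sum_congr rfl
    intro k _
    simp only [hA, hB, hC]
    rw [Finset.mul_sum]
    apply Finset.sum_congr rfl
    intro n _
    rw [Finset.sum_mul_sum, Finset.sum_mul]
    apply Finset.sum_congr rfl
    intro z _
    rw [Finset.sum_mul]
  -- the bound for `C`
  have hCb : ∀ k ∈ range (4 * N), ‖C k‖ ≤ ‖cor N g h ((k₀ : ℝ) / (4 * N))‖ := by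
    intro k _
    set r : ℤ := (-(2 * (k : ℤ))) % ((4 * N : ℕ) : ℤ) with hr
    have hN4 : (0 : ℤ) < ((4 * N : ℕ) : ℤ) := by
      have : 0 < 4 * N := by omega
      exact_mod_cast this
    have hr0 : 0 ≤ r := Int.emod_nonneg _ hN4.ne'
    have hr1 : r < ((4 * N : ℕ) : ℤ) := Int.emod_lt_of_pos _ hN4
    set j : ℤ := (-(2 * (k : ℤ))) / ((4 * N : ℕ) : ℤ) with hj
    have hrj : -(2 * (k : ℤ)) = r + ((4 * N : ℕ) : ℤ) * j := by
      rw [hr, hj]
      exact (Int.emod_add_mul_ediv _ _).symm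
    have hm := hmax r.toNat (by rw [Finset.mem_range]; omega)
    refine le_trans (le_of_eq ?_) hm
    have hrt : ((r.toNat : ℕ) : ℝ) = (r : ℝ) := by
      have : ((r.toNat : ℕ) : ℤ) = r := Int.toNat_of_nonneg hr0
      exact_mod_cast this
    simp only [hC]
    congr 1
    unfold cor
    apply Finset.sum_congr rfl
    intro n _
    congr 1
    rw [hrt]
    have hrj' : -(2 * (k : ℝ)) = r + (4 * N : ℝ) * j := by exact_mod_cast hrj
    have e4 : -(2 * (k : ℝ) * n / (4 * N : ℕ)) = (r : ℝ) / (4 * N) * n + ((j * n : ℤ) : ℝ) := by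
      have : -(2 * (k : ℝ) * n / (4 * N : ℕ)) = (-(2 * (k : ℝ))) * n / (4 * N) := by
        push_cast; ring
      rw [this, hrj']
      push_cast
      field_simp
    rw [e4, ee_add_int]
  have hinj : ∀ x ∈ Finset.Icc (1 : ℤ) N, ∀ y ∈ Finset.Icc (1 : ℤ) N,
      ((4 * N : ℕ) : ℤ) ∣ x - y → x = y := by
    intro x hx y hy hxy
    rw [Finset.mem_Icc] at hx hy
    obtain ⟨c, hc⟩ := hxy
    have hN1 : (1 : ℤ) ≤ N := by exact_mod_cast hN
    have hc0 : c = 0 := by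
      by_contra hc0
      rcases lt_or_gt_of_ne hc0 with hlt | hgt
      · have : c ≤ -1 := by omega
        push_cast at hc
        nlinarith
      · have : 1 ≤ c := by omega
        push_cast at hc
        nlinarith
    rw [hc0, mul_zero] at hc
    omega
  have hcard : ∀ E : ℤ → ℂ, (∀ x, ‖E x‖ ≤ 1) → ∑ x ∈ Finset.Icc (1 : ℤ) N, ‖E x‖ ^ 2 ≤ N := by
    intro E hE
    calc ∑ x ∈ Finset.Icc (1 : ℤ) N, ‖E x‖ ^ 2 ≤ ∑ x ∈ Finset.Icc (1 : ℤ) N, (1 : ℝ) := by
          apply Finset.sum_le_sum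
          intro x _
          exact pow_le_one₀ (norm_nonneg _) (hE x)
      _ = N := by simp
  have hAs : ∑ k ∈ range (4 * N), ‖A k‖ ^ 2 ≤ ((4 * N : ℕ) : ℝ) * N := by
    have e5 : ∑ k ∈ range (4 * N), ‖A k‖ ^ 2 = ∑ k ∈ range (4 * N),
        ‖∑ x ∈ Finset.Icc (1 : ℤ) N, (starRingEnd ℂ) (F x) * ee ((k : ℝ) * x / (4 * N : ℕ))‖ ^ 2 := by
      apply Finset.sum_congr rfl
      intro k _
      simp only [hA]
      rw [p0b_conj]
    rw [e5, hp (4 * N) (Finset.Icc (1 : ℤ) N) (fun x => (starRingEnd ℂ) (F x)) (by omega) hinj]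
    apply mul_le_mul_of_nonneg_left _ (Nat.cast_nonneg _)
    apply hcard
    intro x
    rw [RCLike.norm_conj]
    exact hF1 x
  have hBs : ∑ k ∈ range (4 * N), ‖B k‖ ^ 2 ≤ ((4 * N : ℕ) : ℝ) * N := by
    simp only [hB]
    rw [hp (4 * N) (Finset.Icc (1 : ℤ) N) G (by omega) hinj]
    exact mul_le_mul_of_nonneg_left (hcard G hG1) (Nat.cast_nonneg _)
  have hfin : ((4 * N : ℕ) : ℝ) * ‖EE0 N f₀ f₂ g h‖ ≤
      ((4 * N : ℕ) : ℝ) * (N * ‖cor N g h ((k₀ : ℝ) / (4 * N))‖) := by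
    have e6 : ((4 * N : ℕ) : ℝ) * ‖EE0 N f₀ f₂ g h‖ = ‖((4 * N : ℕ) : ℂ) * EE0 N f₀ f₂ g h‖ := by
      rw [norm_mul, Complex.norm_natCast]
    rw [e6, key]
    set M := ‖cor N g h ((k₀ : ℝ) / (4 * N))‖ with hM
    have hM0 : 0 ≤ M := norm_nonneg _
    calc ‖∑ k ∈ range (4 * N), A k * B k * C k‖ ≤ ∑ k ∈ range (4 * N), ‖A k * B k * C k‖ :=
          norm_sum_le _ _
      _ ≤ ∑ k ∈ range (4 * N), (‖A k‖ ^ 2 + ‖B k‖ ^ 2) / 2 * M := by
          apply Finset.sum_le_sum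
          intro k hk
          rw [norm_mul, norm_mul]
          apply mul_le_mul _ (hCb k hk) (norm_nonneg _) (by positivity)
          nlinarith [sq_nonneg (‖A k‖ - ‖B k‖)]
      _ = (∑ k ∈ range (4 * N), ‖A k‖ ^ 2 + ∑ k ∈ range (4 * N), ‖B k‖ ^ 2) / 2 * M := by
          rw [← Finset.sum_mul, ← Finset.sum_div, Finset.sum_add_distrib]
      _ ≤ (((4 * N : ℕ) : ℝ) * N + ((4 * N : ℕ) : ℝ) * N) / 2 * M := by
          apply mul_le_mul_of_nonneg_right _ hM0
          linarith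
      _ = ((4 * N : ℕ) : ℝ) * (N * M) := by ring
  have hpos : (0 : ℝ) < ((4 * N : ℕ) : ℝ) := by push_cast; exact hN0
  exact le_of_mul_le_mul_left hfin hpos

end Pool.Agent.APP.B
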