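import Pool.Agent.Lib.MP_8a4e59_co.B.StmA

set_option autoImplicit false

/-! Part B, step 2: the relation (R) and a popular `h`. -/

namespace Pool.Agent.APP.B

open Finset

private lemma p2R_card {N : ℕ} {H0 : Finset ℤ} (hN : 1 ≤ N) (hH : ∀ h ∈ H0, |h| < (N : ℤ)) :
    (H0.card : ℝ) ≤ 2 * N := by
  have h1 : H0 ⊆ Finset.Ioo (-(N : ℤ)) N := by
    intro h hh
    rw [Finset.mem_Ioo]
    exact abs_lt.1 (hH h hh)
  have h2 := card_le_card h1
  rw [Int.card_Ioo] at h2
  have h3 : H0.card ≤ 2 * N := by omega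
  exact_mod_cast h3

theorem p_2R (h1 : SB_T1) : SB_2R := by
  intro d N M H0 ψ c s hd hM hMN hc hH hS
  have hN : 1 ≤ N := hM.trans hMN
  have hM0 : (0 : ℝ) < M := by exact_mod_cast hM
  have hN0 : (0 : ℝ) < N := by exact_mod_cast hN
  have hMN' : (M : ℝ) ≤ N := by exact_mod_cast hMN
  set T : Finset (ℕ × ℤ) := (Finset.Ico M (2 * M) ×ˢ H0).filter
    (fun p : ℕ × ℤ => p.2 - s * p.1 ∈ H0) with hT
  have hTcard : (T.card : ℝ) ≤ 2 * M * N := by
    have e1 : (T.card : ℝ) ≤ (Finset.Ico M (2 * M) ×ˢ H0).card := by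
      exact_mod_cast card_le_card (filter_subset _ _)
    rw [card_product, Nat.card_Ico] at e1
    have e2 : 2 * M - M = M := by omega
    rw [e2] at e1
    push_cast at e1
    have e3 := mul_le_mul_of_nonneg_left (p2R_card hN hH) hM0.le
    linarith
  have hJ1 : ((N / M + 1 : ℕ) : ℝ) ≤ 2 * (N / M) := by
    have e1 : ((N / M : ℕ) : ℝ) ≤ (N : ℝ) / M := Nat.cast_div_le
    have e2 : (1 : ℝ) ≤ (N : ℝ) / M := by rwa [le_div_iff₀ hM0, one_mul]
    push_cast
    linarith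
  have hJ2 : (N : ℝ) / M ≤ ((N / M + 1 : ℕ) : ℝ) := by
    rw [div_le_iff₀ hM0]
    have e1 : N < N / M * M + M := Nat.lt_div_mul_add (by omega)
    have e2 : N ≤ (N / M + 1) * M := by rw [Nat.add_mul, one_mul]; exact e1.le
    exact_mod_cast e2
  have hJ0 : (0 : ℝ) < ((N / M + 1 : ℕ) : ℝ) := by positivity
  obtain ⟨t', -, ht'⟩ := h1 (ℕ × ℤ) T
    (fun p => c p.2 * (starRingEnd ℂ) (c (p.2 - s * p.1)) *
      ee (-(s * p.1 * ψ (p.2 - s * p.1) : ℝ) / (4 * N)))
    (fun p => (p.1 : ℝ) * ((ψ p.2 : ℝ) - ψ (p.2 - s * p.1)) / (4 * N))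
    (d / 8) (2 * M * N) (N / M + 1) (by positivity) (Nat.le_add_left 1 _) (by positivity) hTcard
    (by
      intro p _
      rw [norm_mul, norm_mul, norm_ee, mul_one, RCLike.norm_conj]
      exact mul_le_one₀ (hc _) (norm_nonneg _) (hc _))
    (by
      refine le_trans ?_ hS
      calc d / 8 * ((N / M + 1 : ℕ) : ℝ) * (2 * M * N) ^ 2
          ≤ d / 8 * (2 * (N / M)) * (2 * M * N) ^ 2 := by gcongr
        _ = d * ((N : ℝ) ^ 3 * M) := by field_simp; ring)
  refine ⟨(t'.1 : ℝ) * ((ψ t'.2 : ℝ) - ψ (t'.2 - s * t'.1)) / (4 * N), ?_⟩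
  have e3 : d / 8 / 2 * (2 * M * N) = d / 8 * (M * N) := by ring
  rw [e3] at ht'
  refine ht'.trans ?_
  rw [hT, filter_filter]
  have e4 : 1 / (d / 8 * ((N / M + 1 : ℕ) : ℝ)) ≤ 8 * M / (d * N) := by
    rw [div_le_div_iff₀ (by positivity) (by positivity)]
    rw [div_le_iff₀ hM0] at hJ2
    nlinarith
  have e5 : ((Finset.Ico M (2 * M) ×ˢ H0).filter (fun p : ℕ × ℤ => p.2 - s * p.1 ∈ H0 ∧
      nn ((p.1 : ℝ) * ((ψ p.2 : ℝ) - ψ (p.2 - s * p.1)) / (4 * N) -
        (t'.1 : ℝ) * ((ψ t'.2 : ℝ) - ψ (t'.2 - s * t'.1)) / (4 * N)) ≤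
        1 / (d / 8 * ((N / M + 1 : ℕ) : ℝ)))).card ≤
      ((Finset.Ico M (2 * M) ×ˢ H0).filter (fun p : ℕ × ℤ => p.2 - s * p.1 ∈ H0 ∧
      nn ((p.1 : ℝ) * ((ψ p.2 : ℝ) - ψ (p.2 - s * p.1)) / (4 * N) -
        (t'.1 : ℝ) * ((ψ t'.2 : ℝ) - ψ (t'.2 - s * t'.1)) / (4 * N)) ≤
        8 * M / (d * N))).card := by
    refine card_le_card fun p hp => ?_
    rw [mem_filter] at hp ⊢
    exact ⟨hp.1, hp.2.1, hp.2.2.trans e4⟩
  exact_mod_cast e5

theorem p_2d : SB_2d := by
  intro e N M l H0 P he hl hlM hN hH hP hcard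
  have hM : 1 ≤ M := hl.trans hlM
  have hM0 : (0 : ℝ) < M := by exact_mod_cast hM
  have hN0 : (0 : ℝ) < N := by exact_mod_cast hN
  have hl0 : (0 : ℝ) < l := by exact_mod_cast hl
  have hne : H0.Nonempty := by
    have : 0 < (P.card : ℝ) := lt_of_lt_of_le (by positivity) hcard
    obtain ⟨p, hp⟩ := card_pos.1 (by exact_mod_cast this)
    exact ⟨p.2, (mem_product.1 (hP hp)).2⟩
  have hsum : P.card ≤ ∑ h ∈ H0, ((Finset.Ico M (2 * M)).filter (fun m => (m, h) ∈ P)).card := by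
    rw [card_eq_sum_card_fiberwise (f := Prod.snd) (s := P) (t := H0)
      (fun p hp => (mem_product.1 (hP hp)).2)]
    refine sum_le_sum fun h _ => ?_
    refine card_le_card_of_injOn Prod.fst ?_ ?_
    · intro p hp
      simp only [coe_filter, Set.mem_ofPred_eq] at hp ⊢
      refine ⟨(mem_product.1 (hP hp.1)).1, ?_⟩
      rw [← hp.2]
      exact hp.1
    · intro p hp p' hp' heq
      simp only [coe_filter, Set.mem_ofPred_eq] at hp hp'
      exact Prod.ext heq (hp.2.trans hp'.2.symm)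
  obtain ⟨h, hh, hh2⟩ := exists_le_of_sum_le (s := H0) (f := fun _ => e / 2 * (M : ℝ))
    (g := fun h => (((Finset.Ico M (2 * M)).filter (fun m => (m, h) ∈ P)).card : ℝ)) hne (by
      rw [sum_const, nsmul_eq_mul]
      calc (H0.card : ℝ) * (e / 2 * M) ≤ 2 * N * (e / 2 * M) :=
            mul_le_mul_of_nonneg_right (p2R_card hN hH) (by positivity)
        _ = e * (M * N) := by ring
        _ ≤ _ := hcard.trans (by exact_mod_cast hsum))
  refine ⟨h, hh, ?_⟩
  obtain ⟨i, -, hi2⟩ := exists_le_of_sum_le (s := range (M / l + 1)) (f := fun _ => e / 4 * (l : ℝ))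
    (g := fun i => (((Finset.Ico (M + i * l) (M + i * l + l)).filter
      (fun m => (m, h) ∈ P)).card : ℝ)) (nonempty_range_iff.2 (Nat.succ_ne_zero _)) (by
      rw [sum_const, nsmul_eq_mul, card_range]
      have e1 : ((M / l + 1 : ℕ) : ℝ) ≤ 2 * (M / l) := by
        have e1 : ((M / l : ℕ) : ℝ) ≤ (M : ℝ) / l := Nat.cast_div_le
        have e2 : (1 : ℝ) ≤ (M : ℝ) / l := by
          rw [le_div_iff₀ hl0, one_mul]; exact_mod_cast hlM
        push_cast
        linarith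
      have e2 : ((Finset.Ico M (2 * M)).filter (fun m => (m, h) ∈ P)).card ≤
          ∑ i ∈ range (M / l + 1), ((Finset.Ico (M + i * l) (M + i * l + l)).filter
            (fun m => (m, h) ∈ P)).card := by
        refine le_trans (card_le_card ?_) card_biUnion_le
        intro m hm
        rw [mem_filter, mem_Ico] at hm
        rw [mem_biUnion]
        have e3 : (m - M) / l * l ≤ m - M := Nat.div_mul_le_self _ _
        have e4 : m - M < (m - M) / l * l + l := Nat.lt_div_mul_add (by omega)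
        refine ⟨(m - M) / l, ?_, ?_⟩
        · rw [mem_range]
          have : (m - M) / l ≤ M / l := Nat.div_le_div_right (by omega)
          omega
        · rw [mem_filter, mem_Ico]
          refine ⟨⟨by omega, by omega⟩, hm.2⟩
      calc ((M / l + 1 : ℕ) : ℝ) * (e / 4 * l) ≤ 2 * (M / l) * (e / 4 * l) :=
            mul_le_mul_of_nonneg_right e1 (by positivity)
        _ = e / 2 * M := by field_simp; ring
        _ ≤ _ := hh2.trans (by exact_mod_cast e2))
  exact ⟨_, hi2⟩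

end Pool.Agent.APP.B
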