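import Pool.Agent.Lib.MP_8a4e59_co.B.StmA

set_option autoImplicit false

/-!
Part B, step 2a: removal of the cutoff.
-/

namespace Pool.Agent.APP.B

open Finset

private lemma typeII_sum (N M : ℕ) (hM : 1 ≤ M) (δ : ℝ) (a b : ℕ → ℂ) (K : ℤ → ℂ) :
    ∑ n ∈ Finset.Icc (1 : ℤ) N, (if δ * N ≤ (n : ℝ) then typeII M a b n else 0) * K n =
      ∑ m ∈ Finset.Ico M (2 * M), ∑ n ∈ Finset.Icc 1 (N / M),
        (if ⌈δ * N⌉ ≤ (m : ℤ) * n ∧ (m : ℤ) * n ≤ N then (1 : ℂ) else 0) *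
          (a m * b n * K ((m : ℤ) * n)) := by
  have h1 : ∀ n ∈ Finset.Icc (1 : ℤ) N, (if δ * N ≤ (n : ℝ) then typeII M a b n else 0) * K n =
      ∑ m ∈ Finset.Ico M (2 * M), if (⌈δ * N⌉ ≤ n ∧ (m : ℤ) ∣ n) then
        a m * b (n / m).toNat * K n else 0 := by
    intro n _
    by_cases h : δ * N ≤ (n : ℝ)
    · rw [if_pos h]
      unfold typeII
      rw [Finset.sum_mul]
      refine Finset.sum_congr rfl (fun m _ => ?_)
      have h' : ⌈δ * N⌉ ≤ n := Int.ceil_le.2 h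
      by_cases hd : (m : ℤ) ∣ n
      · rw [if_pos hd, if_pos ⟨h', hd⟩]
      · rw [if_neg hd, if_neg (fun hh => hd hh.2), zero_mul]
    · rw [if_neg h, zero_mul]
      symm
      refine Finset.sum_eq_zero (fun m _ => ?_)
      rw [if_neg]
      rintro ⟨hh, _⟩
      exact h (Int.ceil_le.1 hh)
  rw [Finset.sum_congr rfl h1, Finset.sum_comm]
  refine Finset.sum_congr rfl (fun m hm => ?_)
  rw [Finset.mem_Ico] at hm
  have hm0 : 0 < m := by omega
  rw [← Finset.sum_filter]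
  have h2 : ∀ n ∈ Finset.Icc 1 (N / M),
      (if ⌈δ * N⌉ ≤ (m : ℤ) * n ∧ (m : ℤ) * n ≤ N then (1 : ℂ) else 0) *
          (a m * b n * K ((m : ℤ) * n)) =
      if ⌈δ * N⌉ ≤ (m : ℤ) * n ∧ (m : ℤ) * n ≤ N then a m * b n * K ((m : ℤ) * n) else 0 := by
    intro n _
    split_ifs <;> simp
  rw [Finset.sum_congr rfl h2, ← Finset.sum_filter]
  symm
  refine Finset.sum_bij (fun (n : ℕ) _ => (m : ℤ) * n) ?_ ?_ ?_ ?_
  · intro n hn
    rw [Finset.mem_filter, Finset.mem_Icc] at hn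
    rw [Finset.mem_filter, Finset.mem_Icc]
    refine ⟨⟨?_, hn.2.2⟩, hn.2.1, Dvd.intro _ rfl⟩
    have : 1 ≤ m * n := Nat.one_le_iff_ne_zero.2 (Nat.mul_ne_zero (by omega) (by omega))
    exact_mod_cast this
  · intro n₁ _ n₂ _ h
    have hm' : (m : ℤ) ≠ 0 := by exact_mod_cast hm0.ne'
    exact_mod_cast mul_left_cancel₀ hm' h
  · intro n hn
    rw [Finset.mem_filter, Finset.mem_Icc] at hn
    obtain ⟨⟨hn1, hn2⟩, hn3, k, rfl⟩ := hn
    have hk0 : 0 < k := by
      by_contra hk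
      push Not at hk
      have : (m : ℤ) * k ≤ 0 := mul_nonpos_of_nonneg_of_nonpos (by positivity) hk
      omega
    refine ⟨k.toNat, ?_, ?_⟩
    · rw [Finset.mem_filter, Finset.mem_Icc]
      have hk : ((k.toNat : ℕ) : ℤ) = k := Int.toNat_of_nonneg hk0.le
      rw [hk]
      refine ⟨⟨by omega, ?_⟩, hn3, hn2⟩
      rw [Nat.le_div_iff_mul_le (by omega)]
      have h3 : ((k.toNat * M : ℕ) : ℤ) ≤ N := by
        push_cast
        rw [hk]
        have : (M : ℤ) ≤ m := by exact_mod_cast hm.1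
        nlinarith
      exact_mod_cast h3
    · have hk : ((k.toNat : ℕ) : ℤ) = k := Int.toNat_of_nonneg hk0.le
      simp only [hk]
  · intro n hn
    have hm' : (m : ℤ) ≠ 0 := by exact_mod_cast hm0.ne'
    rw [Int.mul_ediv_cancel_left _ hm', Int.toNat_natCast]

theorem p_2a (hF : SB_FI) : SB_2a := by
  intro δ d N M g H0 φ a b c hd hd1 hN hM hg hlog ha hb hT
  obtain ⟨hc, hbig⟩ := hT
  obtain ⟨c', hc1, hc2⟩ := hF N ⌈δ * N⌉ N hN
  have hN' : (1 : ℝ) ≤ N := by exact_mod_cast hN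
  have key : ∑ h ∈ H0, c h * ∑ n ∈ Finset.Icc (1 : ℤ) N,
      (if δ * N ≤ (n : ℝ) then typeII M a b n else 0) * (starRingEnd ℂ) (g (n + h)) *
        ee (φ h / (4 * N) * n) =
      ∑ k ∈ range (4 * N), c' k * BB N M g H0 (fun h => (φ h : ℤ) + k) a b c := by
    unfold BB
    simp_rw [Finset.mul_sum]
    rw [Finset.sum_comm' (t' := H0) (s' := fun _ => range (4 * N)) (by intro x y; tauto)]
    refine Finset.sum_congr rfl (fun h _ => ?_)
    rw [← Finset.mul_sum]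
    have e1 : ∑ n ∈ Finset.Icc (1 : ℤ) N,
        (if δ * N ≤ (n : ℝ) then typeII M a b n else 0) * (starRingEnd ℂ) (g (n + h)) *
          ee (φ h / (4 * N) * n) =
        ∑ n ∈ Finset.Icc (1 : ℤ) N, (if δ * N ≤ (n : ℝ) then typeII M a b n else 0) *
          ((fun n : ℤ => (starRingEnd ℂ) (g (n + h)) * ee (φ h / (4 * N) * n)) n) := by
      refine Finset.sum_congr rfl (fun n _ => ?_)
      simp only [mul_assoc]
    rw [e1, typeII_sum N M hM]
    have e2 : ∀ m ∈ Finset.Ico M (2 * M), ∀ n ∈ Finset.Icc 1 (N / M),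
        (if ⌈δ * N⌉ ≤ (m : ℤ) * n ∧ (m : ℤ) * n ≤ N then (1 : ℂ) else 0) =
          ∑ k ∈ range (4 * N), c' k * ee ((k : ℝ) / (4 * N) * ((m : ℝ) * n)) := by
      intro m hm n hn
      rw [Finset.mem_Ico] at hm
      rw [Finset.mem_Icc] at hn
      have h0 : (0 : ℤ) ≤ (m : ℤ) * n := by positivity
      have h4 : (m : ℤ) * n < 4 * N := by
        have h5 : m * n < 4 * N := by
          have h6 : M * (N / M) ≤ N := Nat.mul_div_le N M
          calc m * n ≤ (2 * M) * (N / M) := Nat.mul_le_mul hm.2.le hn.2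
            _ = 2 * (M * (N / M)) := by ring
            _ < 4 * N := by omega
        exact_mod_cast h5
      rw [hc2 _ h0 h4]
      refine Finset.sum_congr rfl (fun k _ => ?_)
      push_cast
      rfl
    rw [Finset.sum_congr rfl (fun m hm => Finset.sum_congr rfl (fun n hn => by
      rw [e2 m hm n hn]))]
    rw [Finset.mul_sum]
    simp_rw [Finset.mul_sum, Finset.sum_mul, Finset.mul_sum]
    rw [Finset.sum_comm' (s := range (4 * N)) (t' := Finset.Ico M (2 * M))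
      (s' := fun _ => range (4 * N)) (by intro x y; tauto)]
    refine Finset.sum_congr rfl (fun m _ => ?_)
    rw [Finset.sum_comm' (s := range (4 * N)) (t' := Finset.Icc 1 (N / M))
      (s' := fun _ => range (4 * N)) (by intro x y; tauto)]
    refine Finset.sum_congr rfl (fun n _ => ?_)
    refine Finset.sum_congr rfl (fun k _ => ?_)
    have e3 : ee ((((φ h : ℤ) + (k : ℤ) : ℤ) : ℝ) / (4 * N) * ((m : ℝ) * n)) =
        ee ((k : ℝ) / (4 * N) * ((m : ℝ) * n)) *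
          ee ((φ h : ℝ) / (4 * N) * (((m : ℤ) * (n : ℤ) : ℤ) : ℝ)) := by
      rw [← ee_add]
      congr 1
      push_cast
      ring
    rw [e3]
    ring
  rw [key] at hbig
  obtain ⟨k₀, hk₀, hmax⟩ := Finset.exists_max_image (range (4 * N))
    (fun k : ℕ => ‖BB N M g H0 (fun h => (φ h : ℤ) + k) a b c‖)
    ⟨0, by rw [Finset.mem_range]; omega⟩
  refine ⟨k₀, ?_⟩
  set B₀ := ‖BB N M g H0 (fun h => (φ h : ℤ) + k₀) a b c‖ with hB₀
  have hB₀0 : 0 ≤ B₀ := norm_nonneg _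
  have h1 : d * (N : ℝ) ^ 2 ≤ (4 + 4 * Real.log N) * B₀ := by
    calc d * (N : ℝ) ^ 2 ≤ ‖∑ k ∈ range (4 * N),
          c' k * BB N M g H0 (fun h => (φ h : ℤ) + k) a b c‖ := hbig
      _ ≤ ∑ k ∈ range (4 * N), ‖c' k * BB N M g H0 (fun h => (φ h : ℤ) + k) a b c‖ :=
        norm_sum_le _ _
      _ ≤ ∑ k ∈ range (4 * N), ‖c' k‖ * B₀ := by
        refine Finset.sum_le_sum (fun k hk => ?_)
        rw [norm_mul]
        exact mul_le_mul_of_nonneg_left (hmax k hk) (norm_nonneg _)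
      _ = (∑ k ∈ range (4 * N), ‖c' k‖) * B₀ := by rw [Finset.sum_mul]
      _ ≤ _ := mul_le_mul_of_nonneg_right hc1 hB₀0
  have h2 : (4 + 4 * Real.log N) ≤ 8 / d := by
    have h3 : 1 ≤ 1 / d := by rw [le_div_iff₀ hd]; linarith
    have h4 : 8 / d = 4 * (1 / d) + 4 * (1 / d) := by ring
    rw [h4]
    linarith
  have h3 : d * (N : ℝ) ^ 2 ≤ 8 / d * B₀ := h1.trans (mul_le_mul_of_nonneg_right h2 hB₀0)
  have h4 : d * (d * (N : ℝ) ^ 2) ≤ d * (8 / d * B₀) := mul_le_mul_of_nonneg_left h3 hd.le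
  have h5 : d * (8 / d * B₀) = 8 * B₀ := by field_simp
  rw [h5] at h4
  nlinarith

end Pool.Agent.APP.B
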