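import Pool.Agent.Lib.MP_8a4e59_co.B.StmA

/-!
Proof of `SB_2b` (MP_8a4e59_co): Cauchy-Schwarz over `(m, u)`.
-/

set_option autoImplicit false

namespace Pool.Agent.APP.B

open Finset

private lemma p2b_shift (W H0 : Finset ℤ) (t : ℤ) (hW : ∀ h ∈ H0, h + t ∈ W) (F : ℤ → ℂ) :
    ∑ u ∈ W, (if u - t ∈ H0 then F u else 0) = ∑ h ∈ H0, F (h + t) := by
  rw [← Finset.sum_filter]
  refine Finset.sum_nbij' (fun u => u - t) (fun h => h + t) ?_ ?_ ?_ ?_ ?_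
  · intro u hu; exact (Finset.mem_filter.mp hu).2
  · intro h hh
    rw [Finset.mem_filter]
    refine ⟨hW h hh, ?_⟩
    simpa using hh
  · intro u _; simp
  · intro h _; simp
  · intro u _; simp

private lemma p2b_shift_g (N : ℕ) (H0 : Finset ℤ) (t : ℤ) (g : ℤ → ℂ)
    (hg : ∀ n, g n ≠ 0 → 1 ≤ n ∧ n ≤ N) (f : ℤ → ℂ) :
    ∑ h ∈ H0, f h * (starRingEnd ℂ) (g (t + h)) =
      ∑ u ∈ Finset.Icc (1 : ℤ) N, (if u - t ∈ H0 then f (u - t) * (starRingEnd ℂ) (g u) else 0) := by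
  classical
  have h1 := p2b_shift (Finset.Icc (1 : ℤ) N ∪ H0.image (fun h => h + t)) H0 t
    (fun h hh => Finset.mem_union_right _ (Finset.mem_image_of_mem _ hh))
    (fun u => f (u - t) * (starRingEnd ℂ) (g u))
  have h2 : ∑ u ∈ Finset.Icc (1 : ℤ) N,
      (if u - t ∈ H0 then f (u - t) * (starRingEnd ℂ) (g u) else 0) =
      ∑ u ∈ Finset.Icc (1 : ℤ) N ∪ H0.image (fun h => h + t),
        (if u - t ∈ H0 then f (u - t) * (starRingEnd ℂ) (g u) else 0) := by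
    apply Finset.sum_subset Finset.subset_union_left
    intro u _ hu
    have : g u = 0 := by
      by_contra h
      exact hu (Finset.mem_Icc.mpr (hg u h))
    rw [this]; simp
  rw [h2, h1]
  refine Finset.sum_congr rfl fun h _ => ?_
  simp only [add_sub_cancel_right]
  rw [add_comm t h]

/-- the inner sum -/
private noncomputable def p2bX (N M : ℕ) (H0 : Finset ℤ) (ψ : ℤ → ℤ) (b : ℕ → ℂ) (c : ℤ → ℂ)
    (m : ℕ) (u : ℤ) : ℂ :=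
  ∑ n ∈ Finset.Icc 1 (N / M), if u - (m : ℤ) * n ∈ H0 then
    b n * (c (u - (m : ℤ) * n) * ee ((ψ (u - (m : ℤ) * n) : ℝ) / (4 * N) * (m * n))) else 0

private lemma p2b_BB (N M : ℕ) (g : ℤ → ℂ) (H0 : Finset ℤ) (ψ : ℤ → ℤ) (a b : ℕ → ℂ)
    (c : ℤ → ℂ) (hg : ∀ n, g n ≠ 0 → 1 ≤ n ∧ n ≤ N) :
    BB N M g H0 ψ a b c = ∑ p ∈ Finset.Ico M (2 * M) ×ˢ Finset.Icc (1 : ℤ) N,
      (a p.1 * (starRingEnd ℂ) (g p.2)) * p2bX N M H0 ψ b c p.1 p.2 := by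
  rw [Finset.sum_product]
  unfold BB
  simp only [Finset.mul_sum]
  rw [Finset.sum_comm]
  refine Finset.sum_congr rfl fun m _ => ?_
  rw [Finset.sum_comm]
  simp only [p2bX, Finset.mul_sum]
  rw [Finset.sum_comm (s := Finset.Icc (1 : ℤ) N)]
  refine Finset.sum_congr rfl fun n _ => ?_
  have h1 := p2b_shift_g N H0 ((m : ℤ) * n) g hg
    (fun h => c h * (a m * b n * ee ((ψ h : ℝ) / (4 * N) * (m * n))))
  have h2 : ∑ h ∈ H0, c h * (a m * b n * (starRingEnd ℂ) (g ((m : ℤ) * n + h)) *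
      ee ((ψ h : ℝ) / (4 * N) * (m * n))) =
      ∑ h ∈ H0, (c h * (a m * b n * ee ((ψ h : ℝ) / (4 * N) * (m * n)))) *
        (starRingEnd ℂ) (g ((m : ℤ) * n + h)) := by
    refine Finset.sum_congr rfl fun h _ => ?_
    ring
  rw [h2, h1]
  refine Finset.sum_congr rfl fun u _ => ?_
  split_ifs
  · ring
  · simp

private lemma p2b_cs {ι : Type} (s : Finset ι) (f X : ι → ℂ) (hf : ∀ p ∈ s, ‖f p‖ ≤ 1) :
    ‖∑ p ∈ s, f p * X p‖ ^ 2 ≤ s.card * ∑ p ∈ s, ‖X p‖ ^ 2 := by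
  have h1 : ‖∑ p ∈ s, f p * X p‖ ≤ ∑ p ∈ s, 1 * ‖X p‖ := by
    refine (norm_sum_le _ _).trans (Finset.sum_le_sum fun p hp => ?_)
    rw [norm_mul]
    exact mul_le_mul_of_nonneg_right (hf p hp) (norm_nonneg _)
  have h2 : (∑ p ∈ s, 1 * ‖X p‖) ^ 2 ≤ (∑ p ∈ s, (1 : ℝ) ^ 2) * ∑ p ∈ s, ‖X p‖ ^ 2 :=
    Finset.sum_mul_sq_le_sq_mul_sq _ _ _
  have h3 : ∑ p ∈ s, (1 : ℝ) ^ 2 = s.card := by simp
  rw [h3] at h2
  exact (pow_le_pow_left₀ (norm_nonneg _) h1 2).trans h2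

private lemma p2b_phase (N m n n' : ℕ) (x y : ℤ) :
    ee ((x : ℝ) / (4 * N) * (m * n)) * (starRingEnd ℂ) (ee ((y : ℝ) / (4 * N) * (m * n'))) =
      ee (-((((n' : ℤ) - n : ℤ) : ℝ) * m * y) / (4 * N)) *
        ee ((n : ℝ) * ((m : ℝ) * ((x : ℝ) - y) / (4 * N))) := by
  rw [← ee_sub, ← ee_add]
  congr 1
  push_cast
  ring

private lemma p2b_inner (N M : ℕ) (H0 : Finset ℤ) (ψ : ℤ → ℤ) (b : ℕ → ℂ) (c : ℤ → ℂ) (m : ℕ)
    (W : Finset ℤ) (hW : ∀ n ∈ Finset.Icc 1 (N / M), ∀ h ∈ H0, h + (m : ℤ) * n ∈ W) :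
    ∑ u ∈ W, p2bX N M H0 ψ b c m u * (starRingEnd ℂ) (p2bX N M H0 ψ b c m u) =
      ∑ n ∈ Finset.Icc 1 (N / M), ∑ n' ∈ Finset.Icc 1 (N / M), b n * (starRingEnd ℂ) (b n') *
        ∑ h ∈ H0.filter (fun h => h - ((n' : ℤ) - n) * m ∈ H0),
          (c h * (starRingEnd ℂ) (c (h - ((n' : ℤ) - n) * m)) *
            ee (-((((n' : ℤ) - n : ℤ) : ℝ) * m * ψ (h - ((n' : ℤ) - n) * m)) / (4 * N))) *
            ee ((n : ℝ) * ((m : ℝ) * ((ψ h : ℝ) - ψ (h - ((n' : ℤ) - n) * m)) / (4 * N))) := by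
  have h1 : ∀ u : ℤ, p2bX N M H0 ψ b c m u * (starRingEnd ℂ) (p2bX N M H0 ψ b c m u) =
      ∑ n ∈ Finset.Icc 1 (N / M), ∑ n' ∈ Finset.Icc 1 (N / M),
        (if u - (m : ℤ) * n ∈ H0 then
          (b n * (c (u - (m : ℤ) * n) * ee ((ψ (u - (m : ℤ) * n) : ℝ) / (4 * N) * (m * n)))) *
          (if u - (m : ℤ) * n' ∈ H0 then
            (starRingEnd ℂ) (b n' * (c (u - (m : ℤ) * n') *
              ee ((ψ (u - (m : ℤ) * n') : ℝ) / (4 * N) * (m * n')))) else 0) else 0) := by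
    intro u
    rw [p2bX, map_sum, Finset.sum_mul_sum]
    refine Finset.sum_congr rfl fun n _ => Finset.sum_congr rfl fun n' _ => ?_
    split_ifs <;> simp
  simp only [h1]
  rw [Finset.sum_comm]
  refine Finset.sum_congr rfl fun n hn => ?_
  rw [Finset.sum_comm]
  refine Finset.sum_congr rfl fun n' _ => ?_
  rw [p2b_shift W H0 ((m : ℤ) * n) (hW n hn) (fun u =>
    (b n * (c (u - (m : ℤ) * n) * ee ((ψ (u - (m : ℤ) * n) : ℝ) / (4 * N) * (m * n)))) *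
          (if u - (m : ℤ) * n' ∈ H0 then
            (starRingEnd ℂ) (b n' * (c (u - (m : ℤ) * n') *
              ee ((ψ (u - (m : ℤ) * n') : ℝ) / (4 * N) * (m * n')))) else 0))]
  rw [Finset.mul_sum, Finset.sum_filter]
  refine Finset.sum_congr rfl fun h _ => ?_
  have e1 : h + (m : ℤ) * n - (m : ℤ) * n = h := by ring
  have e2 : h + (m : ℤ) * n - (m : ℤ) * n' = h - ((n' : ℤ) - n) * m := by ring
  simp only [e1, e2]
  split_ifs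
  · have h3 := p2b_phase N m n n' (ψ h) (ψ (h - ((n' : ℤ) - n) * m))
    rw [map_mul, map_mul]
    calc _ = b n * (starRingEnd ℂ) (b n') * (c h * (starRingEnd ℂ) (c (h - ((n' : ℤ) - n) * m)) *
          (ee ((ψ h : ℝ) / (4 * N) * (m * n)) *
            (starRingEnd ℂ) (ee ((ψ (h - ((n' : ℤ) - n) * m) : ℝ) / (4 * N) * (m * n'))))) := by ring
      _ = _ := by rw [h3]; ring
  · simp

private lemma p2b_main (N M : ℕ) (H0 : Finset ℤ) (ψ : ℤ → ℤ) (b : ℕ → ℂ) (c : ℤ → ℂ)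
    (hb : ∀ k, ‖b k‖ ≤ 1) (W : Finset ℤ)
    (hW : ∀ m ∈ Finset.Ico M (2 * M), ∀ n ∈ Finset.Icc 1 (N / M), ∀ h ∈ H0, h + (m : ℤ) * n ∈ W) :
    ∑ m ∈ Finset.Ico M (2 * M), ∑ u ∈ W, ‖p2bX N M H0 ψ b c m u‖ ^ 2 ≤
      ∑ n ∈ Finset.Icc 1 (N / M), ∑ n' ∈ Finset.Icc 1 (N / M),
        ‖Ssn N M H0 ψ c ((n' : ℤ) - n) n‖ := by
  have h1 : ((∑ m ∈ Finset.Ico M (2 * M), ∑ u ∈ W, ‖p2bX N M H0 ψ b c m u‖ ^ 2 : ℝ) : ℂ) =
      ∑ n ∈ Finset.Icc 1 (N / M), ∑ n' ∈ Finset.Icc 1 (N / M), b n * (starRingEnd ℂ) (b n') *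
        Ssn N M H0 ψ c ((n' : ℤ) - n) n := by
    push_cast
    have h2 : ∀ m ∈ Finset.Ico M (2 * M), ∑ u ∈ W, ((‖p2bX N M H0 ψ b c m u‖ : ℂ)) ^ 2 =
        ∑ n ∈ Finset.Icc 1 (N / M), ∑ n' ∈ Finset.Icc 1 (N / M), b n * (starRingEnd ℂ) (b n') *
        ∑ h ∈ H0.filter (fun h => h - ((n' : ℤ) - n) * m ∈ H0),
          (c h * (starRingEnd ℂ) (c (h - ((n' : ℤ) - n) * m)) *
            ee (-((((n' : ℤ) - n : ℤ) : ℝ) * m * ψ (h - ((n' : ℤ) - n) * m)) / (4 * N))) *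
            ee ((n : ℝ) * ((m : ℝ) * ((ψ h : ℝ) - ψ (h - ((n' : ℤ) - n) * m)) / (4 * N))) := by
      intro m hm
      rw [← p2b_inner N M H0 ψ b c m W (hW m hm)]
      refine Finset.sum_congr rfl fun u _ => ?_
      rw [Complex.mul_conj']
    rw [Finset.sum_congr rfl h2, Finset.sum_comm]
    refine Finset.sum_congr rfl fun n _ => ?_
    rw [Finset.sum_comm]
    refine Finset.sum_congr rfl fun n' _ => ?_
    rw [← Finset.mul_sum]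
    congr 1
    unfold Ssn
    rw [Finset.sum_filter, Finset.sum_product]
    refine Finset.sum_congr rfl fun m _ => ?_
    rw [Finset.sum_filter]
  have h3 : (∑ m ∈ Finset.Ico M (2 * M), ∑ u ∈ W, ‖p2bX N M H0 ψ b c m u‖ ^ 2 : ℝ) ≤
      ‖((∑ m ∈ Finset.Ico M (2 * M), ∑ u ∈ W, ‖p2bX N M H0 ψ b c m u‖ ^ 2 : ℝ) : ℂ)‖ := by
    rw [Complex.norm_real]
    exact Real.le_norm_self _
  refine h3.trans ?_
  rw [h1]
  refine (norm_sum_le _ _).trans (Finset.sum_le_sum fun n _ => ?_)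
  refine (norm_sum_le _ _).trans (Finset.sum_le_sum fun n' _ => ?_)
  rw [norm_mul, norm_mul, RCLike.norm_conj]
  have h4 : ‖b n‖ * ‖b n'‖ ≤ 1 := mul_le_one₀ (hb n) (norm_nonneg _) (hb n')
  calc ‖b n‖ * ‖b n'‖ * ‖Ssn N M H0 ψ c ((n' : ℤ) - n) n‖ ≤
      1 * ‖Ssn N M H0 ψ c ((n' : ℤ) - n) n‖ := mul_le_mul_of_nonneg_right h4 (norm_nonneg _)
    _ = _ := one_mul _

private lemma p2b_reindex (R : ℕ) (F : ℤ → ℕ → ℝ) (hF : ∀ s n, 0 ≤ F s n) :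
    ∑ n ∈ Finset.Icc 1 R, ∑ n' ∈ Finset.Icc 1 R, F ((n' : ℤ) - n) n ≤
      ∑ s ∈ Finset.Icc (-(R : ℤ)) (R : ℤ), ∑ n ∈ Finset.Icc 1 R, F s n := by
  classical
  rw [Finset.sum_comm (s := Finset.Icc (-(R : ℤ)) (R : ℤ))]
  refine Finset.sum_le_sum fun n hn => ?_
  rw [Finset.mem_Icc] at hn
  have h1 : ∑ n' ∈ Finset.Icc 1 R, F ((n' : ℤ) - n) n =
      ∑ s ∈ (Finset.Icc 1 R).image (fun n' : ℕ => (n' : ℤ) - n), F s n := by
    rw [Finset.sum_image]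
    intro x _ y _ hxy
    simp only at hxy
    omega
  rw [h1]
  apply Finset.sum_le_sum_of_subset_of_nonneg
  · intro s hs
    rw [Finset.mem_image] at hs
    obtain ⟨n', hn', rfl⟩ := hs
    rw [Finset.mem_Icc] at hn' ⊢
    omega
  · intro s _ _
    exact hF s n

theorem p_2b : SB_2b := by
  intro d N M g H0 ψ a b c hd hN hM hg ha hb _ hBB
  classical
  have hN0 : (0 : ℝ) < N := by exact_mod_cast hN
  have hM0 : (0 : ℝ) < M := by exact_mod_cast hM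
  let W : Finset ℤ := Finset.Icc (1 : ℤ) N ∪
    ((Finset.Ico M (2 * M)) ×ˢ ((Finset.Icc 1 (N / M)) ×ˢ H0)).image
      (fun p : ℕ × (ℕ × ℤ) => p.2.2 + (p.1 : ℤ) * p.2.1)
  have hW : ∀ m ∈ Finset.Ico M (2 * M), ∀ n ∈ Finset.Icc 1 (N / M), ∀ h ∈ H0,
      h + (m : ℤ) * n ∈ W := by
    intro m hm n hn h hh
    apply Finset.mem_union_right
    rw [Finset.mem_image]
    exact ⟨(m, n, h), Finset.mem_product.mpr ⟨hm, Finset.mem_product.mpr ⟨hn, hh⟩⟩, rfl⟩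
  have h1 := p2b_main N M H0 ψ b c hb W hW
  have h2 := p2b_reindex (N / M) (fun s n => ‖Ssn N M H0 ψ c s n‖) (fun s n => norm_nonneg _)
  have h3 : ∑ p ∈ Finset.Ico M (2 * M) ×ˢ Finset.Icc (1 : ℤ) N,
      ‖p2bX N M H0 ψ b c p.1 p.2‖ ^ 2 ≤
      ∑ m ∈ Finset.Ico M (2 * M), ∑ u ∈ W, ‖p2bX N M H0 ψ b c m u‖ ^ 2 := by
    rw [Finset.sum_product]
    refine Finset.sum_le_sum fun m _ => ?_
    apply Finset.sum_le_sum_of_subset_of_nonneg Finset.subset_union_left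
    intro u _ _
    positivity
  have h4 := p2b_cs (Finset.Ico M (2 * M) ×ˢ Finset.Icc (1 : ℤ) N)
    (fun p => a p.1 * (starRingEnd ℂ) (g p.2)) (fun p => p2bX N M H0 ψ b c p.1 p.2) (by
      intro p _
      rw [norm_mul, RCLike.norm_conj]
      exact mul_le_one₀ (ha _) (norm_nonneg _) (hg.1 _))
  rw [← p2b_BB N M g H0 ψ a b c hg.2] at h4
  have h5 : ((Finset.Ico M (2 * M) ×ˢ Finset.Icc (1 : ℤ) N).card : ℝ) = M * N := by
    rw [Finset.card_product, Nat.card_Ico, Int.card_Icc]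
    have : ((N : ℤ) + 1 - 1).toNat = N := by omega
    rw [this]
    have : 2 * M - M = M := by omega
    rw [this]; push_cast; ring
  rw [h5] at h4
  have h6 : (d * (N : ℝ) ^ 2) ^ 2 ≤ M * N * ∑ s ∈ Finset.Icc (-((N / M : ℕ) : ℤ)) ((N / M : ℕ) : ℤ),
    ∑ n ∈ Finset.Icc 1 (N / M), ‖Ssn N M H0 ψ c s n‖ := by
    refine (pow_le_pow_left₀ (by positivity) hBB 2).trans (h4.trans ?_)
    apply mul_le_mul_of_nonneg_left _ (by positivity)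
    exact h3.trans (h1.trans h2)
  have h7 : d ^ 2 * ((N : ℝ) ^ 3 / M) = (d * (N : ℝ) ^ 2) ^ 2 / (M * N) := by
    field_simp
  rw [h7, div_le_iff₀ (by positivity)]
  linarith
end Pool.Agent.APP.B
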