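import Pool.Agent.Lib.MP_8a4e59_co.B.Defs

set_option autoImplicit false

/-!
Part B (correlations), statements of the tools and of steps 0-6.
-/

namespace Pool.Agent.APP.B

open Finset

/-! ### Tools -/

/-- Parseval on `ℤ/K`. -/
def SB_par : Prop := ∀ (K : ℕ) (S : Finset ℤ) (F : ℤ → ℂ), 1 ≤ K →
  (∀ x ∈ S, ∀ y ∈ S, (K : ℤ) ∣ x - y → x = y) →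
  ∑ k ∈ range K, ‖∑ x ∈ S, F x * ee ((k : ℝ) * x / K)‖ ^ 2 = K * ∑ x ∈ S, ‖F x‖ ^ 2

/-- (T1) concentration. -/
def SB_T1 : Prop := ∀ (ι : Type) (T : Finset ι) (z : ι → ℂ) (θ : ι → ℝ) (d Tm : ℝ) (J : ℕ),
  0 < d → 1 ≤ J → 0 < Tm → (T.card : ℝ) ≤ Tm → (∀ t ∈ T, ‖z t‖ ≤ 1) →
  d * J * Tm ^ 2 ≤ ∑ j ∈ range J, ‖∑ t ∈ T, z t * ee ((j : ℝ) * θ t)‖ ^ 2 →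
  ∃ t' ∈ T, d / 2 * Tm ≤ ((T.filter (fun t => nn (θ t - θ t') ≤ 1 / (d * J))).card : ℝ)

/-- (T2) number of large Fourier coefficients. -/
def SB_T2 : Prop := ∀ (N : ℕ) (F : ℤ → ℂ) (d : ℝ), 1 ≤ N → 0 < d → (∀ x, ‖F x‖ ≤ 1) →
  (((range (4 * N)).filter (fun k : ℕ => d * N ≤
    ‖∑ x ∈ Finset.Icc (1 : ℤ) N, F x * ee ((k : ℝ) / (4 * N) * x)‖)).card : ℝ) ≤ 4 / d ^ 2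

/-- (T3) Vinogradov's lemma. -/
def SB_T3 : Prop := ∀ (θ : ℝ) (L : ℕ) (d₀ d₁ : ℝ), 0 < d₀ → d₀ ≤ 1 → 0 ≤ d₁ → d₁ ≤ d₀ / 64 →
  32 / d₀ ^ 2 ≤ (L : ℝ) →
  d₀ * L ≤ (((Finset.Icc (-(L : ℤ)) L).filter (fun r : ℤ => nn (r * θ) ≤ d₁)).card : ℝ) →
  ∃ q : ℕ, 1 ≤ q ∧ (q : ℝ) ≤ 4 / d₀ ∧ nn (q * θ) ≤ 32 * d₁ / (d₀ ^ 2 * L)

/-- (T4) number of products. -/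
def SB_T4 : Prop := ∀ (X Y : ℕ) (Z : Finset (ℕ × ℕ)), 1 ≤ X → 1 ≤ Y →
  Z ⊆ Finset.Icc 1 X ×ˢ Finset.Icc 1 Y →
  (Z.card : ℝ) ^ 2 ≤ ((Z.image (fun p => p.1 * p.2)).card : ℝ) *
    (4 * X * Y * (1 + Real.log (X * Y)))

/-- (T5) differences. -/
def SB_T5 : Prop := ∀ (N : ℕ) (g : ℤ → ℂ) (V : Finset ℤ) (ξ : ℤ → ℝ) (s h : ℤ) (d : ℝ),
  1 ≤ N → Bd N g → 0 < d → (∀ v ∈ V, d * N ≤ ‖cor N g (h - s * v) (ξ v)‖) →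
  d ^ 2 / 2 * (V.card : ℝ) ^ 2 ≤ (((V ×ˢ V).filter (fun p : ℤ × ℤ =>
    d ^ 2 / 2 * N ≤ ‖cor N g (s * (p.2 - p.1)) (ξ p.1 - ξ p.2)‖)).card : ℝ)

/-- Fourier expansion of an interval mod `4N`. -/
def SB_FI : Prop := ∀ (N : ℕ) (A B : ℤ), 1 ≤ N → ∃ c : ℕ → ℂ,
  (∑ k ∈ range (4 * N), ‖c k‖ ≤ 4 + 4 * Real.log N) ∧
  ∀ n : ℤ, 0 ≤ n → n < 4 * N → (if A ≤ n ∧ n ≤ B then (1 : ℂ) else 0) =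
    ∑ k ∈ range (4 * N), c k * ee ((k : ℝ) / (4 * N) * n)

/-! ### Step 0 -/

/-- `∑_{y,n} F_h(y-n) G_h(y+n) D_h(n)` -/
noncomputable def EE0 (N : ℕ) (f₀ f₂ g : ℤ → ℂ) (h : ℤ) : ℂ :=
  ∑ y ∈ Finset.Icc (1 : ℤ) (2 * N), ∑ n ∈ Finset.Icc (1 : ℤ) N,
    (f₀ (y - n) * (starRingEnd ℂ) (f₀ (y - n - h))) *
      (f₂ (y + n) * (starRingEnd ℂ) (f₂ (y + n + h))) * (g n * (starRingEnd ℂ) (g (n + h)))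

/-- Cauchy-Schwarz. -/
def SB_0a : Prop := ∀ (N : ℕ) (f₀ f₁ f₂ g : ℤ → ℂ), 1 ≤ N → Bd N f₀ → Bd N f₁ → Bd N f₂ →
  Bd N g →
  ‖∑ y ∈ Finset.Icc (1 : ℤ) N, ∑ n ∈ Finset.Icc (1 : ℤ) N,
      f₀ (y - n) * f₁ y * f₂ (y + n) * g n‖ ^ 2 ≤
    N * ∑ h ∈ Finset.Ioo (-(N : ℤ)) N, ‖EE0 N f₀ f₂ g h‖

/-- Fourier transform on `ℤ/4N`. -/
def SB_0b : Prop := ∀ (N : ℕ) (f₀ f₂ g : ℤ → ℂ) (h : ℤ), 1 ≤ N → Bd N f₀ → Bd N f₂ → Bd N g →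
  ∃ k : ℕ, k < 4 * N ∧ ‖EE0 N f₀ f₂ g h‖ ≤ N * ‖cor N g h ((k : ℝ) / (4 * N))‖

/-- Step 0. -/
def SB_0 : Prop := ∀ (δ : ℝ) (N : ℕ) (f₀ f₁ f₂ g : ℤ → ℂ), 0 < δ → 1 ≤ N → Bd N f₀ → Bd N f₁ →
  Bd N f₂ → Bd N g →
  δ * (N : ℝ) ^ 2 ≤ ‖∑ y ∈ Finset.Icc (1 : ℤ) N, ∑ n ∈ Finset.Icc (1 : ℤ) N,
      f₀ (y - n) * f₁ y * f₂ (y + n) * g n‖ →
  ∃ (H0 : Finset ℤ) (φ : ℤ → ℕ), B0p (δ ^ 2 / 4) N g H0 φ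

/-! ### Step 1 -/

/-- Step 1: one of the pieces correlates. -/
def SB_1 : Prop := ∀ (δ d ε X V : ℝ) (N q₀ : ℕ) (g : ℤ → ℂ) (H0 : Finset ℤ) (φ : ℤ → ℕ),
  0 < δ → 0 < d → 1 ≤ N → Bd N g → B0p d N g H0 φ → Dec δ N q₀ X V ε g → ε ≤ d ^ 2 / 8 →
  (∃ (m : ℕ) (w c : ℤ → ℂ), 1 ≤ m ∧ (m : ℝ) ≤ X ∧ TI (δ * d ^ 2 / 4) δ N q₀ m g H0 φ w c) ∨
  (∃ (M : ℕ) (a b : ℕ → ℂ) (c : ℤ → ℂ), V ≤ M ∧ M ^ 2 ≤ 4 * N ∧ (∀ k, ‖a k‖ ≤ 1 / δ) ∧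
    (∀ k, ‖b k‖ ≤ 1 / δ) ∧ TII (δ * d ^ 2 / 4) δ N M g H0 φ a b c)

/-! ### Step 2 -/

/-- The bilinear sum without cutoff. -/
noncomputable def BB (N M : ℕ) (g : ℤ → ℂ) (H0 : Finset ℤ) (ψ : ℤ → ℤ) (a b : ℕ → ℂ)
    (c : ℤ → ℂ) : ℂ :=
  ∑ h ∈ H0, c h * ∑ m ∈ Finset.Ico M (2 * M), ∑ n ∈ Finset.Icc 1 (N / M),
    a m * b n * (starRingEnd ℂ) (g ((m : ℤ) * n + h)) * ee ((ψ h : ℝ) / (4 * N) * (m * n))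

/-- removal of the cutoff -/
def SB_2a : Prop := ∀ (δ d : ℝ) (N M : ℕ) (g : ℤ → ℂ) (H0 : Finset ℤ) (φ : ℤ → ℕ) (a b : ℕ → ℂ)
  (c : ℤ → ℂ), 0 < d → d ≤ 1 → 1 ≤ N → 1 ≤ M → Bd N g → Real.log N ≤ 1 / d → (∀ k, ‖a k‖ ≤ 1) →
  (∀ k, ‖b k‖ ≤ 1) → TII d δ N M g H0 φ a b c →
  ∃ k : ℕ, d ^ 2 / 8 * (N : ℝ) ^ 2 ≤ ‖BB N M g H0 (fun h => (φ h : ℤ) + k) a b c‖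

/-- `S_s(n)` -/
noncomputable def Ssn (N M : ℕ) (H0 : Finset ℤ) (ψ : ℤ → ℤ) (c : ℤ → ℂ) (s : ℤ) (n : ℕ) : ℂ :=
  ∑ p ∈ (Finset.Ico M (2 * M) ×ˢ H0).filter (fun p : ℕ × ℤ => p.2 - s * p.1 ∈ H0),
    (c p.2 * (starRingEnd ℂ) (c (p.2 - s * p.1)) *
      ee (-(s * p.1 * ψ (p.2 - s * p.1) : ℝ) / (4 * N))) *
      ee ((n : ℝ) * ((p.1 : ℝ) * ((ψ p.2 : ℝ) - ψ (p.2 - s * p.1)) / (4 * N)))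

/-- Cauchy-Schwarz over `(m,u)` -/
def SB_2b : Prop := ∀ (d : ℝ) (N M : ℕ) (g : ℤ → ℂ) (H0 : Finset ℤ) (ψ : ℤ → ℤ) (a b : ℕ → ℂ)
  (c : ℤ → ℂ), 0 < d → 1 ≤ N → 1 ≤ M → Bd N g → (∀ k, ‖a k‖ ≤ 1) →
  (∀ k, ‖b k‖ ≤ 1) → (∀ h, ‖c h‖ ≤ 1) → d * (N : ℝ) ^ 2 ≤ ‖BB N M g H0 ψ a b c‖ →
  d ^ 2 * ((N : ℝ) ^ 3 / M) ≤ ∑ s ∈ Finset.Icc (-((N / M : ℕ) : ℤ)) ((N / M : ℕ) : ℤ),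
    ∑ n ∈ Finset.Icc 1 (N / M), ‖Ssn N M H0 ψ c s n‖

/-- many good `s` -/
def SB_2c : Prop := ∀ (d : ℝ) (N M : ℕ) (H0 : Finset ℤ) (ψ : ℤ → ℤ) (c : ℤ → ℂ), 0 < d → 1 ≤ N →
  1 ≤ M → (∀ h, ‖c h‖ ≤ 1) → (∀ h ∈ H0, |h| < (N : ℤ)) → (M : ℝ) ≤ d * N / 8 →
  d * ((N : ℝ) ^ 3 / M) ≤ ∑ s ∈ Finset.Icc (-((N / M : ℕ) : ℤ)) ((N / M : ℕ) : ℤ),
    ∑ n ∈ Finset.Icc 1 (N / M), ‖Ssn N M H0 ψ c s n‖ →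
  ∃ S : Finset ℤ, (∀ s ∈ S, s ≠ 0 ∧ |s| ≤ ((N / M : ℕ) : ℤ)) ∧ d / 8 * ((N : ℝ) / M) ≤ S.card ∧
    ∀ s ∈ S, d ^ 2 / 16 * ((N : ℝ) ^ 3 * M) ≤ ∑ n ∈ range (N / M + 1), ‖Ssn N M H0 ψ c s n‖ ^ 2

/-- the relation (R) for one `s` -/
def SB_2R : Prop := ∀ (d : ℝ) (N M : ℕ) (H0 : Finset ℤ) (ψ : ℤ → ℤ) (c : ℤ → ℂ) (s : ℤ), 0 < d →
  1 ≤ M → M ≤ N → (∀ h, ‖c h‖ ≤ 1) → (∀ h ∈ H0, |h| < (N : ℤ)) →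
  d * ((N : ℝ) ^ 3 * M) ≤ ∑ n ∈ range (N / M + 1), ‖Ssn N M H0 ψ c s n‖ ^ 2 →
  ∃ c₀ : ℝ, d / 8 * (M * N) ≤ (((Finset.Ico M (2 * M) ×ˢ H0).filter (fun p : ℕ × ℤ =>
    p.2 - s * p.1 ∈ H0 ∧
      nn ((p.1 : ℝ) * ((ψ p.2 : ℝ) - ψ (p.2 - s * p.1)) / (4 * N) - c₀) ≤
        8 * M / (d * N))).card : ℝ)

/-- a popular `h` and a short interval -/
def SB_2d : Prop := ∀ (e : ℝ) (N M ℓ : ℕ) (H0 : Finset ℤ) (P : Finset (ℕ × ℤ)), 0 < e → 1 ≤ ℓ →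
  ℓ ≤ M → 1 ≤ N → (∀ h ∈ H0, |h| < (N : ℤ)) → P ⊆ Finset.Ico M (2 * M) ×ˢ H0 →
  e * (M * N) ≤ (P.card : ℝ) →
  ∃ h ∈ H0, ∃ u₀ : ℕ, e / 4 * ℓ ≤
    (((Finset.Ico u₀ (u₀ + ℓ)).filter (fun m => (m, h) ∈ P)).card : ℝ)

/-! ### Steps 3 and 4 -/

/-- Step 3: popular differences. -/
def SB_3 : Prop := ∀ (N : ℕ) (g : ℤ → ℂ) (d ρ : ℝ) (ℓ : ℕ) (u₀ h s : ℤ) (V : Finset ℤ)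
  (Φ : ℤ → ℤ), 1 ≤ N → Bd N g → 0 < d → d ≤ 1 → 0 < ρ → ρ ≤ 1 → 16 / (d ^ 2 * ρ ^ 2) ≤ (ℓ : ℝ) →
  V ⊆ Finset.Ico u₀ (u₀ + ℓ) → ρ * ℓ ≤ (V.card : ℝ) →
  (∀ v ∈ V, d * N ≤ ‖cor N g (h - s * v) ((Φ v : ℝ) / (4 * N))‖) →
  ∃ (U : Finset ℤ) (D : ℤ → ℤ), (∀ u ∈ U, u ≠ 0 ∧ |u| ≤ (ℓ : ℤ)) ∧
    d ^ 2 * ρ ^ 2 / 8 * ℓ ≤ (U.card : ℝ) ∧
    ∀ u ∈ U, d ^ 2 / 2 * N ≤ ‖cor N g (-(s * u)) ((D u : ℝ) / (4 * N))‖ ∧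
      d ^ 6 * ρ ^ 2 / 128 * ℓ ≤ ((V.filter (fun v => v - u ∈ V ∧
        ((4 * N : ℕ) : ℤ) ∣ Φ v - Φ (v - u) - D u)).card : ℝ)

/-- the relations at a vertex `v` of a parallelogram -/
def Rel (κ c β β' : ℝ) (u t : ℤ) (y : ℤ → ℝ) (v : ℤ) : Prop :=
  nn (v * y v - c) ≤ κ ∧ nn (((v - u : ℤ) : ℝ) * y (v - u) - c) ≤ κ ∧
  nn (((v - t : ℤ) : ℝ) * y (v - t) - c) ≤ κ ∧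
  nn (((v - t - u : ℤ) : ℝ) * y (v - t - u) - c) ≤ κ ∧
  nn (y (v - u) - y v - β) = 0 ∧ nn (y (v - t) - y v - β') = 0 ∧
  nn (y (v - t - u) - y (v - t) - β) = 0

/-- Step 4, algebra. -/
def SB_4a : Prop := ∀ (κ L c β β' : ℝ) (u t v₁ v₂ : ℤ) (y : ℤ → ℝ), 0 ≤ κ → |(u : ℝ)| ≤ L →
  |(t : ℝ)| ≤ L → |(v₁ : ℝ) - v₂| ≤ L → Rel κ c β β' u t y v₁ → Rel κ c β β' u t y v₂ →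
  nn (((v₁ - v₂ : ℤ) : ℝ) * (2 * t * β)) ≤ 14 * L * κ

/-- Step 4, first use of Vinogradov's lemma. -/
def SB_4b : Prop := ∀ (κ c β β' ρ : ℝ) (ℓ : ℕ) (u₀ u t : ℤ) (y : ℤ → ℝ) (W : Finset ℤ), 0 ≤ κ →
  0 < ρ → ρ ≤ 1 → |u| ≤ (ℓ : ℤ) → |t| ≤ (ℓ : ℤ) → W ⊆ Finset.Ico u₀ (u₀ + ℓ) →
  ρ * ℓ ≤ (W.card : ℝ) → (∀ v ∈ W, Rel κ c β β' u t y v) → 14 * ℓ * κ ≤ ρ / 64 →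
  32 / ρ ^ 2 ≤ (ℓ : ℝ) →
  ∃ q : ℕ, 1 ≤ q ∧ (q : ℝ) ≤ 4 / ρ ∧ nn (q * (2 * t * β)) ≤ 448 * κ / ρ ^ 2

/-- Steps 3 and 4 together. -/
def SB_34 : Prop := ∀ (N : ℕ) (g : ℤ → ℂ) (d κ c : ℝ) (ℓ : ℕ) (u₀ h s e₀ : ℤ) (V : Finset ℤ)
  (Φ : ℤ → ℤ), 1 ≤ N → Bd N g → 0 < d → d ≤ 1 / 2 → 0 ≤ κ → V ⊆ Finset.Ico u₀ (u₀ + ℓ) →
  d * ℓ ≤ (V.card : ℝ) → (∀ v ∈ V, d * N ≤ ‖cor N g (h - s * v) ((Φ v : ℝ) / (4 * N))‖) →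
  (∀ v ∈ V, nn ((v : ℝ) * ((e₀ : ℝ) - Φ v) / (4 * N) - c) ≤ κ) →
  (1 / d) ^ 165 ≤ (ℓ : ℝ) → ℓ * κ ≤ d ^ 53 → κ ≤ d ^ 181 →
  ∃ (U : Finset ℤ) (D : ℤ → ℤ) (q : ℤ → ℕ), (∀ u ∈ U, u ≠ 0 ∧ |u| ≤ (ℓ : ℤ)) ∧
    d ^ 7 * ℓ ≤ (U.card : ℝ) ∧
    ∀ u ∈ U, d ^ 3 * N ≤ ‖cor N g (-(s * u)) ((D u : ℝ) / (4 * N))‖ ∧ 1 ≤ q u ∧
      (q u : ℝ) ≤ (1 / d) ^ 128 ∧ nn (q u * ((D u : ℝ) / (4 * N))) ≤ κ * (1 / d) ^ 260 / ℓ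

/-! ### Steps 5 and 6 -/

/-- Step 5: many shifts with a common denominator. -/
def SB_5 : Prop := ∀ (N M ℓ Q : ℕ) (g : ℤ → ℂ) (d e η₀ : ℝ) (S : Finset ℤ) (U : ℤ → Finset ℤ)
  (D : ℤ → ℤ → ℤ) (q : ℤ → ℤ → ℕ), 1 ≤ ℓ → ℓ ≤ M → M ≤ N → 1 ≤ Q → 0 < d → d ≤ 1 →
  Real.log N ≤ 1 / d → (∀ s ∈ S, s ≠ 0 ∧ |s| ≤ ((N / M : ℕ) : ℤ)) →
  d * ((N : ℝ) / M) ≤ (S.card : ℝ) →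
  (∀ s ∈ S, (∀ u ∈ U s, u ≠ 0 ∧ |u| ≤ (ℓ : ℤ)) ∧ d * ℓ ≤ ((U s).card : ℝ) ∧
    ∀ u ∈ U s, e * N ≤ ‖cor N g (-(s * u)) ((D s u : ℝ) / (4 * N))‖ ∧ 1 ≤ q s u ∧ q s u ≤ Q ∧
      nn (q s u * ((D s u : ℝ) / (4 * N))) ≤ η₀) →
  ∃ (q' : ℕ) (AA : Finset ℤ) (ξ : ℤ → ℝ), 1 ≤ q' ∧ q' ≤ Q ∧ (∀ a ∈ AA, |a| ≤ (N : ℤ)) ∧
    d ^ 5 * ((ℓ : ℝ) / M) * N / (128 * (Q : ℝ) ^ 2) ≤ (AA.card : ℝ) ∧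
    ∀ a ∈ AA, e * N ≤ ‖cor N g a (ξ a)‖ ∧ nn (q' * ξ a) ≤ η₀

/-- Parseval inequality for correlations. -/
def SB_6P : Prop := ∀ (P W A : Finset ℤ) (G F : ℤ → ℂ) (Γ : ℝ), (∀ x, ‖F x‖ ≤ 1) →
  (∀ a ∈ A, ∀ x ∈ P, x + a ∈ W) → (∀ ξ : ℝ, ‖∑ x ∈ P, G x * ee (ξ * x)‖ ≤ Γ) →
  ∑ a ∈ A, ‖∑ x ∈ P, G x * F (x + a)‖ ^ 2 ≤ Γ ^ 2 * W.card

/-- Steps 2-6 together: type II pieces. -/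
def SB_II : Prop := ∃ K : ℕ, ∀ (d δ : ℝ) (N q₀ M : ℕ) (X₁ : ℝ) (g : ℤ → ℂ) (H0 : Finset ℤ)
  (φ : ℤ → ℕ) (a b : ℕ → ℂ) (c : ℤ → ℂ), 0 < d → d ≤ 1 / 2 → 1 ≤ q₀ → 1 ≤ X₁ → 1 ≤ N → Bd N g →
  Real.log N ≤ 1 / d → B0p d N g H0 φ → (∀ k, ‖a k‖ ≤ 1 / d) → (∀ k, ‖b k‖ ≤ 1 / d) →
  TII d δ N M g H0 φ a b c → (1 / d) ^ K ≤ (M : ℝ) → M ^ 2 ≤ 4 * N → B12 K d N q₀ X₁ g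

end Pool.Agent.APP.B
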