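/-
MP_8a4e59_co, part B, piece 2c (helper54).
-/
import Pool.Agent.Lib.MP_8a4e59_co.B.StmA

set_option autoImplicit false

namespace Pool.Agent.APP.B

open Finset

private lemma p2c_card {N : ℕ} (H0 : Finset ℤ) (hN : 1 ≤ N) (hH : ∀ h ∈ H0, |h| < (N : ℤ)) :
    H0.card ≤ 2 * N := by
  have hsub : H0 ⊆ Finset.Ioo (-(N : ℤ)) N := by
    intro h hh
    have := abs_lt.mp (hH h hh)
    rw [Finset.mem_Ioo]
    exact this
  calc H0.card ≤ (Finset.Ioo (-(N : ℤ)) N).card := Finset.card_le_card hsub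
    _ ≤ 2 * N := by
      rw [Int.card_Ioo]
      omega

private lemma p2c_norm {N M : ℕ} (H0 : Finset ℤ) (ψ : ℤ → ℤ) (c : ℤ → ℂ) (hN : 1 ≤ N)
    (hc : ∀ h, ‖c h‖ ≤ 1) (hH : ∀ h ∈ H0, |h| < (N : ℤ)) (s : ℤ) (n : ℕ) :
    ‖Ssn N M H0 ψ c s n‖ ≤ 2 * M * N := by
  unfold Ssn
  refine (norm_sum_le _ _).trans ?_
  have h1 : ∀ p ∈ (Finset.Ico M (2 * M) ×ˢ H0).filter (fun p : ℕ × ℤ => p.2 - s * p.1 ∈ H0),
      ‖(c p.2 * (starRingEnd ℂ) (c (p.2 - s * p.1)) *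
      ee (-(s * p.1 * ψ (p.2 - s * p.1) : ℝ) / (4 * N))) *
      ee ((n : ℝ) * ((p.1 : ℝ) * ((ψ p.2 : ℝ) - ψ (p.2 - s * p.1)) / (4 * N)))‖ ≤ 1 := by
    intro p _
    rw [norm_mul, norm_mul, norm_mul, norm_ee, norm_ee, mul_one, mul_one]
    have e1 : ‖(starRingEnd ℂ) (c (p.2 - s * p.1))‖ ≤ 1 := by
      rw [RCLike.norm_conj]
      exact hc _
    calc ‖c p.2‖ * ‖(starRingEnd ℂ) (c (p.2 - s * p.1))‖ ≤ 1 * 1 := by
          apply mul_le_mul (hc _) e1 (norm_nonneg _) zero_le_one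
      _ = 1 := one_mul 1
  refine (Finset.sum_le_card_nsmul _ _ 1 h1).trans ?_
  rw [nsmul_eq_mul, mul_one]
  have h2 : ((Finset.Ico M (2 * M) ×ˢ H0).filter (fun p : ℕ × ℤ => p.2 - s * p.1 ∈ H0)).card ≤
      M * (2 * N) := by
    refine (Finset.card_filter_le _ _).trans ?_
    rw [Finset.card_product, Nat.card_Ico]
    have h3 : 2 * M - M = M := by omega
    rw [h3]
    exact Nat.mul_le_mul_left _ (p2c_card H0 hN hH)
  calc ((((Finset.Ico M (2 * M) ×ˢ H0).filter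
        (fun p : ℕ × ℤ => p.2 - s * p.1 ∈ H0)).card : ℕ) : ℝ) ≤ ((M * (2 * N) : ℕ) : ℝ) := by
        exact_mod_cast h2
    _ = 2 * M * N := by push_cast; ring

theorem p_2c : SB_2c := by
  intro d N M H0 ψ c hd hN hM hc hH hMd hsum
  obtain ⟨K, hK⟩ : ∃ K : ℕ, K = N / M := ⟨_, rfl⟩
  rw [← hK] at hsum ⊢
  have hN0 : (0 : ℝ) < N := by exact_mod_cast hN
  have hM0 : (0 : ℝ) < M := by exact_mod_cast hM
  have hKM : (K : ℝ) * M ≤ N := by
    have : K * M ≤ N := by rw [hK]; exact Nat.div_mul_le_self N M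
    exact_mod_cast this
  have hKle : (K : ℝ) ≤ N / M := by
    rw [le_div_iff₀ hM0]
    exact hKM
  have hK0 : (0 : ℝ) ≤ K := Nat.cast_nonneg K
  set A : ℤ → ℝ := fun s => ∑ n ∈ Finset.Icc 1 K, ‖Ssn N M H0 ψ c s n‖ with hA
  have hA0 : ∀ s, 0 ≤ A s := fun s => Finset.sum_nonneg (fun n _ => norm_nonneg _)
  have hAle : ∀ s, A s ≤ 2 * (N : ℝ) ^ 2 := by
    intro s
    have h1 : A s ≤ ∑ n ∈ Finset.Icc 1 K, (2 * M * N : ℝ) :=
      Finset.sum_le_sum (fun n _ => p2c_norm H0 ψ c hN hc hH s n)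
    rw [Finset.sum_const, Nat.card_Icc, nsmul_eq_mul] at h1
    have h2 : K + 1 - 1 = K := by omega
    rw [h2] at h1
    calc A s ≤ K * (2 * M * N) := h1
      _ = 2 * N * (K * M) := by ring
      _ ≤ 2 * N * N := by gcongr
      _ = 2 * (N : ℝ) ^ 2 := by ring
  set T : Finset ℤ := Finset.Icc (-(K : ℤ)) (K : ℤ) with hT
  have h0T : (0 : ℤ) ∈ T := by
    rw [hT, Finset.mem_Icc]
    omega
  have hcardT : (T.erase 0).card = 2 * K := by
    rw [Finset.card_erase_of_mem h0T, hT, Int.card_Icc]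
    omega
  set P : ℤ → Prop := fun s => d / 4 * (N : ℝ) ^ 2 ≤ A s with hP
  classical
  set S : Finset ℤ := (T.erase 0).filter P with hS
  have hsum2 : ∑ s ∈ T, A s ≤ 2 * (N : ℝ) ^ 2 + ((2 * K : ℕ) : ℝ) * (d / 4 * (N : ℝ) ^ 2) +
      S.card * (2 * (N : ℝ) ^ 2) := by
    rw [← Finset.add_sum_erase T A h0T]
    have h1 : ∑ s ∈ T.erase 0, A s ≤
        ∑ s ∈ T.erase 0, (d / 4 * (N : ℝ) ^ 2 + if P s then 2 * (N : ℝ) ^ 2 else 0) := by
      apply Finset.sum_le_sum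
      intro s _
      by_cases hs : P s
      · rw [if_pos hs]
        have := hAle s
        have h3 : 0 ≤ d / 4 * (N : ℝ) ^ 2 := by positivity
        linarith
      · rw [if_neg hs, add_zero]
        exact (not_le.mp hs).le
    rw [Finset.sum_add_distrib, Finset.sum_const, ← Finset.sum_filter, Finset.sum_const, hcardT,
      nsmul_eq_mul, nsmul_eq_mul] at h1
    have h2 := hAle 0
    linarith
  refine ⟨S, ?_, ?_, ?_⟩
  · intro s hs
    rw [hS, Finset.mem_filter, Finset.mem_erase, hT, Finset.mem_Icc] at hs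
    refine ⟨hs.1.1, ?_⟩
    rw [abs_le]
    exact hs.1.2
  · have h1 : d * ((N : ℝ) ^ 3 / M) ≤ 2 * (N : ℝ) ^ 2 +
        ((2 * K : ℕ) : ℝ) * (d / 4 * (N : ℝ) ^ 2) + S.card * (2 * (N : ℝ) ^ 2) := hsum.trans hsum2
    push_cast at h1
    have h2 : 2 * (K : ℝ) * (d / 4 * (N : ℝ) ^ 2) ≤ d / 2 * ((N : ℝ) ^ 3 / M) := by
      calc 2 * (K : ℝ) * (d / 4 * (N : ℝ) ^ 2) = d / 2 * (N : ℝ) ^ 2 * K := by ring
        _ ≤ d / 2 * (N : ℝ) ^ 2 * (N / M) := by gcongr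
        _ = d / 2 * ((N : ℝ) ^ 3 / M) := by ring
    have h3 : 2 * (N : ℝ) ^ 2 ≤ d / 4 * ((N : ℝ) ^ 3 / M) := by
      rw [← mul_div_assoc, le_div_iff₀ hM0]
      have : 2 * (N : ℝ) ^ 2 * M ≤ 2 * (N : ℝ) ^ 2 * (d * N / 8) := by gcongr
      calc 2 * (N : ℝ) ^ 2 * M ≤ 2 * (N : ℝ) ^ 2 * (d * N / 8) := this
        _ = d / 4 * (N : ℝ) ^ 3 := by ring
    have h4 : d / 4 * ((N : ℝ) ^ 3 / M) ≤ S.card * (2 * (N : ℝ) ^ 2) := by linarith
    have h5 : d / 4 * ((N : ℝ) ^ 3 / M) = d / 8 * ((N : ℝ) / M) * (2 * (N : ℝ) ^ 2) := by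
      field_simp
      ring
    rw [h5] at h4
    exact le_of_mul_le_mul_right h4 (by positivity)
  · intro s hs
    rw [hS, Finset.mem_filter] at hs
    have hPs : d / 4 * (N : ℝ) ^ 2 ≤ A s := hs.2
    have hcs : A s ^ 2 ≤ K * ∑ n ∈ Finset.Icc 1 K, ‖Ssn N M H0 ψ c s n‖ ^ 2 := by
      have h1 := sq_sum_le_card_mul_sum_sq (s := Finset.Icc 1 K)
        (f := fun n => ‖Ssn N M H0 ψ c s n‖)
      rw [Nat.card_Icc] at h1
      have h2 : K + 1 - 1 = K := by omega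
      rw [h2] at h1
      exact h1
    have hsub : ∑ n ∈ Finset.Icc 1 K, ‖Ssn N M H0 ψ c s n‖ ^ 2 ≤
        ∑ n ∈ range (K + 1), ‖Ssn N M H0 ψ c s n‖ ^ 2 := by
      apply Finset.sum_le_sum_of_subset_of_nonneg
      · intro n hn
        rw [Finset.mem_Icc] at hn
        rw [Finset.mem_range]
        omega
      · intro n _ _
        positivity
    set Q := ∑ n ∈ range (K + 1), ‖Ssn N M H0 ψ c s n‖ ^ 2 with hQ
    have hQ0 : 0 ≤ Q := Finset.sum_nonneg (fun n _ => by positivity)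
    have h1 : (d / 4 * (N : ℝ) ^ 2) ^ 2 ≤ N / M * Q := by
      calc (d / 4 * (N : ℝ) ^ 2) ^ 2 ≤ A s ^ 2 := pow_le_pow_left₀ (by positivity) hPs 2
        _ ≤ K * ∑ n ∈ Finset.Icc 1 K, ‖Ssn N M H0 ψ c s n‖ ^ 2 := hcs
        _ ≤ K * Q := by gcongr
        _ ≤ N / M * Q := by gcongr
    have h2 : d ^ 2 / 16 * ((N : ℝ) ^ 3 * M) * (N / M) ≤ Q * (N / M) := by
      calc d ^ 2 / 16 * ((N : ℝ) ^ 3 * M) * (N / M) = (d / 4 * (N : ℝ) ^ 2) ^ 2 := by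
            field_simp
            ring
        _ ≤ N / M * Q := h1
        _ = Q * (N / M) := by ring
    exact le_of_mul_le_mul_right h2 (by positivity)

end Pool.Agent.APP.B
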