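import Pool.Agent.Lib.MP_8a4e59_co.B.StmA

set_option autoImplicit false

/-!
Part B, step 3: popular differences.
-/

namespace Pool.Agent.APP.B

open Finset

/-- the phase only depends on the class mod `4N` -/
private theorem P3_cor_congr (N : ℕ) (hN : 1 ≤ N) (g : ℤ → ℂ) (a : ℤ) (x y z : ℤ)
    (h : x - y = ((4 * N : ℕ) : ℤ) * z) :
    cor N g a ((x : ℝ) / (4 * N)) = cor N g a ((y : ℝ) / (4 * N)) := by
  unfold cor
  apply Finset.sum_congr rfl
  intro n _
  congr 1
  have hN' : (0 : ℝ) < N := by exact_mod_cast hN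
  have hx : (x : ℝ) = y + 4 * N * z := by
    have : (x : ℝ) - y = 4 * N * z := by exact_mod_cast h
    linarith
  have : (x : ℝ) / (4 * N) * n = (y : ℝ) / (4 * N) * n + ((z * n : ℤ) : ℝ) := by
    rw [hx]
    push_cast
    field_simp
  rw [this, ee_add_int]

/-- popular differences, counting -/
private theorem P3_count (V : Finset ℤ) (G : Finset (ℤ × ℤ)) (hG : G ⊆ V ×ˢ V) (ℓ : ℕ) (u₀ : ℤ)
    (hV : V ⊆ Finset.Ico u₀ (u₀ + ℓ)) (a t : ℝ) (ht : 0 ≤ t) (hl : 0 < ℓ)
    (hGc : a * (ℓ : ℝ) ≤ (G.card : ℝ)) :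
    a ≤ 1 + 2 * t + (((Finset.Icc (-(ℓ : ℤ)) ℓ).filter (fun u => u ≠ 0 ∧
      t ≤ ((V.filter (fun v => v - u ∈ V ∧ (v, v - u) ∈ G)).card : ℝ))).card : ℝ) := by
  classical
  set Pu : ℤ → Finset ℤ := fun u => V.filter (fun v => v - u ∈ V ∧ (v, v - u) ∈ G) with hPu
  set U := (Finset.Icc (-(ℓ : ℤ)) ℓ).filter (fun u => u ≠ 0 ∧ t ≤ ((Pu u).card : ℝ)) with hU
  have hVc : (V.card : ℝ) ≤ ℓ := by
    have := Finset.card_le_card hV
    rw [Int.card_Ico] at this
    have h2 : (u₀ + (ℓ : ℤ) - u₀).toNat = ℓ := by simp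
    rw [h2] at this
    exact_mod_cast this
  have hPc : ∀ u, ((Pu u).card : ℝ) ≤ ℓ := by
    intro u
    refine le_trans ?_ hVc
    exact_mod_cast Finset.card_le_card (Finset.filter_subset _ _)
  have h1 : (G.card : ℝ) ≤ ∑ u ∈ Finset.Icc (-(ℓ : ℤ)) ℓ, ((Pu u).card : ℝ) := by
    rw [Finset.card_eq_sum_card_fiberwise (f := fun p : ℤ × ℤ => p.1 - p.2)
      (t := Finset.Icc (-(ℓ : ℤ)) ℓ)]
    · push_cast
      apply Finset.sum_le_sum
      intro u _
      have : (G.filter (fun p : ℤ × ℤ => p.1 - p.2 = u)).card ≤ (Pu u).card := by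
        apply Finset.card_le_card_of_injOn (fun p => p.1)
        · intro p hp
          simp only [Finset.coe_filter, Set.mem_ofPred_eq] at hp
          have hm := hG hp.1
          rw [Finset.mem_product] at hm
          have he : p.1 - u = p.2 := by omega
          simp only [hPu, Finset.coe_filter, Set.mem_ofPred_eq, he]
          exact ⟨hm.1, hm.2, hp.1⟩
        · intro p hp q hq hpq
          simp only [Finset.coe_filter, Set.mem_ofPred_eq] at hp hq hpq
          ext
          · exact hpq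
          · omega
      exact_mod_cast this
    · intro p hp
      have hm := hG hp
      rw [Finset.mem_product] at hm
      have h1 := Finset.mem_Ico.1 (hV hm.1)
      have h2 := Finset.mem_Ico.1 (hV hm.2)
      simp only [Finset.coe_Icc, Set.mem_Icc]
      omega
  have h2 : ∑ u ∈ Finset.Icc (-(ℓ : ℤ)) ℓ, ((Pu u).card : ℝ) ≤
      ∑ u ∈ Finset.Icc (-(ℓ : ℤ)) ℓ, ((if u = 0 then (ℓ : ℝ) else 0) +
        (if u ∈ U then (ℓ : ℝ) else 0) + (if u = 0 then 0 else t)) := by
    apply Finset.sum_le_sum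
    intro u hu
    by_cases h0 : u = 0
    · simp only [h0, if_true]
      have := hPc 0
      have h3 : (0 : ℝ) ≤ (if (0 : ℤ) ∈ U then (ℓ : ℝ) else 0) := by
        split_ifs
        · positivity
        · exact le_refl _
      linarith
    · simp only [h0, if_false]
      by_cases h3 : u ∈ U
      · simp only [h3, if_true]
        have := hPc u
        linarith
      · simp only [h3, if_false]
        have : ¬ t ≤ ((Pu u).card : ℝ) := by
          intro hc
          exact h3 (by rw [hU, Finset.mem_filter]; exact ⟨hu, h0, hc⟩)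
        linarith
  have h3 : ∑ u ∈ Finset.Icc (-(ℓ : ℤ)) ℓ, ((if u = 0 then (ℓ : ℝ) else 0) +
        (if u ∈ U then (ℓ : ℝ) else 0) + (if u = 0 then 0 else t)) =
        ℓ + U.card * ℓ + 2 * ℓ * t := by
    rw [Finset.sum_add_distrib, Finset.sum_add_distrib]
    congr 1
    · congr 1
      · rw [Finset.sum_ite_eq']
        rw [if_pos]
        rw [Finset.mem_Icc]
        omega
      · rw [← Finset.sum_filter]
        have : (Finset.Icc (-(ℓ : ℤ)) ℓ).filter (fun u => u ∈ U) = U := by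
          ext u
          rw [Finset.mem_filter]
          constructor
          · exact fun h => h.2
          · intro h
            exact ⟨Finset.filter_subset _ _ h, h⟩
        rw [this]
        simp
    · have : ∑ u ∈ Finset.Icc (-(ℓ : ℤ)) ℓ, (if u = 0 then 0 else t) =
          ∑ u ∈ Finset.Icc (-(ℓ : ℤ)) ℓ, (t - (if u = 0 then t else 0)) := by
        apply Finset.sum_congr rfl
        intro u _
        split_ifs <;> ring
      rw [this, Finset.sum_sub_distrib, Finset.sum_ite_eq', if_pos]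
      · rw [Finset.sum_const, Int.card_Icc]
        have : ((ℓ : ℤ) + 1 - -(ℓ : ℤ)).toNat = 2 * ℓ + 1 := by omega
        rw [this]
        simp only [nsmul_eq_mul]
        push_cast
        ring
      · rw [Finset.mem_Icc]
        omega
  have hl' : (0 : ℝ) < ℓ := by exact_mod_cast hl
  have h4 : a * ℓ ≤ (1 + 2 * t + U.card) * ℓ := by
    calc a * ℓ ≤ (G.card : ℝ) := hGc
      _ ≤ _ := h1
      _ ≤ _ := h2
      _ = _ := h3
      _ = _ := by ring
  exact le_of_mul_le_mul_right h4 hl'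

theorem p_3 (h2 : SB_T2) (h5 : SB_T5) : SB_3 := by
  intro N g d ρ ℓ u₀ h s V Φ hN hg hd hd1 hρ hρ1 hℓ hV hVc hcor
  classical
  have hN' : (0 : ℝ) < N := by exact_mod_cast hN
  have hdr : 0 < d ^ 2 * ρ ^ 2 := by positivity
  have h16 : 16 ≤ d ^ 2 * ρ ^ 2 * ℓ := by
    rw [div_le_iff₀ hdr] at hℓ
    linarith
  have hl : 0 < ℓ := by
    rcases Nat.eq_zero_or_pos ℓ with h0 | h0
    · rw [h0] at h16
      norm_num at h16
    · exact h0
  have hl' : (0 : ℝ) < ℓ := by exact_mod_cast hl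
  have hT5 := h5 N g V (fun v => (Φ v : ℝ) / (4 * N)) s h d hN hg hd hcor
  set G := (V ×ˢ V).filter (fun p : ℤ × ℤ =>
    d ^ 2 / 2 * N ≤ ‖cor N g (s * (p.2 - p.1)) ((Φ p.1 : ℝ) / (4 * N) - (Φ p.2 : ℝ) / (4 * N))‖)
    with hG
  have hGc : d ^ 2 / 2 * ρ ^ 2 * ℓ * (ℓ : ℝ) ≤ (G.card : ℝ) := by
    have h1 : (ρ * ℓ) ^ 2 ≤ (V.card : ℝ) ^ 2 := by
      apply pow_le_pow_left₀ (by positivity) hVc
    calc d ^ 2 / 2 * ρ ^ 2 * ℓ * (ℓ : ℝ) = d ^ 2 / 2 * (ρ * ℓ) ^ 2 := by ring
      _ ≤ d ^ 2 / 2 * (V.card : ℝ) ^ 2 := by gcongr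
      _ ≤ _ := hT5
  set t : ℝ := d ^ 2 * ρ ^ 2 / 8 * ℓ with ht
  have ht0 : 0 < t := by positivity
  have hcount := P3_count V G (Finset.filter_subset _ _) ℓ u₀ hV (d ^ 2 / 2 * ρ ^ 2 * ℓ) t
    ht0.le hl hGc
  set Pu : ℤ → Finset ℤ := fun u => V.filter (fun v => v - u ∈ V ∧ (v, v - u) ∈ G) with hPu
  set U := (Finset.Icc (-(ℓ : ℤ)) ℓ).filter (fun u => u ≠ 0 ∧ t ≤ ((Pu u).card : ℝ)) with hU
  have hUc : t ≤ (U.card : ℝ) := by
    have : d ^ 2 / 2 * ρ ^ 2 * ℓ = 4 * t := by rw [ht]; ring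
    rw [this] at hcount
    have h3 : 2 ≤ t := by rw [ht]; linarith
    linarith
  -- the residues
  have key : ∀ u ∈ U, ∃ k : ℕ, d ^ 2 / 2 * N ≤ ‖cor N g (-(s * u)) ((k : ℝ) / (4 * N))‖ ∧
      d ^ 6 * ρ ^ 2 / 128 * ℓ ≤ ((V.filter (fun v => v - u ∈ V ∧
        ((4 * N : ℕ) : ℤ) ∣ Φ v - Φ (v - u) - k)).card : ℝ) := by
    intro u hu
    rw [hU, Finset.mem_filter] at hu
    obtain ⟨_, _, hu3⟩ := hu
    set F : ℤ → ℂ := fun x => g x * (starRingEnd ℂ) (g (x + -(s * u))) with hF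
    have hF1 : ∀ x, ‖F x‖ ≤ 1 := by
      intro x
      simp only [hF]
      rw [norm_mul, RCLike.norm_conj]
      calc ‖g x‖ * ‖g (x + -(s * u))‖ ≤ 1 * 1 := by
            gcongr
            · exact hg.1 _
            · exact hg.1 _
        _ = 1 := by norm_num
    have hT2 := h2 N F (d ^ 2 / 2) hN (by positivity) hF1
    set Ku := (range (4 * N)).filter (fun k : ℕ => d ^ 2 / 2 * N ≤
      ‖∑ x ∈ Finset.Icc (1 : ℤ) N, F x * ee ((k : ℝ) / (4 * N) * x)‖) with hKu
    have hKc : (Ku.card : ℝ) ≤ 16 / d ^ 4 := by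
      refine le_trans hT2 (le_of_eq ?_)
      field_simp
      ring
    set r : ℤ → ℕ := fun v => ((Φ v - Φ (v - u)) % ((4 * N : ℕ) : ℤ)).toNat with hr
    have h4N : (0 : ℤ) < ((4 * N : ℕ) : ℤ) := by
      have : 0 < 4 * N := by omega
      exact_mod_cast this
    have hrv : ∀ v, ((r v : ℕ) : ℤ) = (Φ v - Φ (v - u)) % ((4 * N : ℕ) : ℤ) := by
      intro v
      simp only [hr]
      exact Int.toNat_of_nonneg (Int.emod_nonneg _ (ne_of_gt h4N))
    have hmap : ∀ v ∈ Pu u, r v ∈ Ku := by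
      intro v hv
      simp only [hPu, Finset.mem_filter] at hv
      obtain ⟨_, _, hvG⟩ := hv
      rw [hG, Finset.mem_filter] at hvG
      have hvG2 := hvG.2
      simp only at hvG2
      rw [hKu, Finset.mem_filter]
      constructor
      · rw [Finset.mem_range]
        have := Int.emod_lt_of_pos (Φ v - Φ (v - u)) h4N
        rw [← hrv] at this
        exact_mod_cast this
      · have he1 : s * (v - u - v) = -(s * u) := by ring
        have he2 : (Φ v : ℝ) / (4 * N) - (Φ (v - u) : ℝ) / (4 * N) =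
            ((Φ v - Φ (v - u) : ℤ) : ℝ) / (4 * N) := by
          push_cast
          ring
        rw [he1, he2] at hvG2
        have he3 := P3_cor_congr N hN g (-(s * u)) (Φ v - Φ (v - u)) ((r v : ℕ) : ℤ)
          ((Φ v - Φ (v - u)) / ((4 * N : ℕ) : ℤ)) (by
            rw [hrv]
            have := Int.emod_add_mul_ediv (Φ v - Φ (v - u)) ((4 * N : ℕ) : ℤ)
            linarith)
        rw [he3] at hvG2
        unfold cor at hvG2
        simp only [hF]
        rw [Int.cast_natCast] at hvG2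
        exact hvG2
    -- pigeonhole
    have hsum : (Pu u).card = ∑ k ∈ Ku, ((Pu u).filter (fun v => r v = k)).card :=
      Finset.card_eq_sum_card_fiberwise hmap
    by_contra hcon
    push Not at hcon
    have hall : ∀ k ∈ Ku, (((Pu u).filter (fun v => r v = k)).card : ℝ) <
        d ^ 6 * ρ ^ 2 / 128 * ℓ := by
      intro k hk
      rw [hKu, Finset.mem_filter] at hk
      have hk2 : d ^ 2 / 2 * N ≤ ‖cor N g (-(s * u)) ((k : ℝ) / (4 * N))‖ := by
        unfold cor
        simp only [hF] at hk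
        exact hk.2
      refine lt_of_le_of_lt ?_ (hcon k hk2)
      have : ((Pu u).filter (fun v => r v = k)).card ≤ (V.filter (fun v => v - u ∈ V ∧
          ((4 * N : ℕ) : ℤ) ∣ Φ v - Φ (v - u) - k)).card := by
        apply Finset.card_le_card
        intro v hv
        simp only [hPu, Finset.mem_filter] at hv
        obtain ⟨⟨hv1, hv2, _⟩, hv4⟩ := hv
        rw [Finset.mem_filter]
        refine ⟨hv1, hv2, ?_⟩
        rw [← hv4, hrv]
        exact Int.dvd_self_sub_emod
      exact_mod_cast this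
    have hne : Ku.Nonempty := by
      rw [Finset.nonempty_iff_ne_empty]
      intro he
      rw [he, Finset.sum_empty] at hsum
      rw [hsum] at hu3
      push_cast at hu3
      linarith
    have hlt : ((Pu u).card : ℝ) < Ku.card * (d ^ 6 * ρ ^ 2 / 128 * ℓ) := by
      rw [hsum]
      push_cast
      calc ∑ k ∈ Ku, (((Pu u).filter (fun v => r v = k)).card : ℝ)
          < ∑ k ∈ Ku, (d ^ 6 * ρ ^ 2 / 128 * ℓ) := Finset.sum_lt_sum_of_nonempty hne hall
        _ = _ := by rw [Finset.sum_const, nsmul_eq_mul]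
    have h3 : (Ku.card : ℝ) * (d ^ 6 * ρ ^ 2 / 128 * ℓ) ≤ 16 / d ^ 4 * (d ^ 6 * ρ ^ 2 / 128 * ℓ) := by
      gcongr
    have h4 : 16 / d ^ 4 * (d ^ 6 * ρ ^ 2 / 128 * ℓ) = t := by
      rw [ht]
      field_simp
      ring
    linarith
  choose! D hD using key
  refine ⟨U, fun u => (D u : ℤ), ?_, hUc, ?_⟩
  · intro u hu
    rw [hU, Finset.mem_filter, Finset.mem_Icc] at hu
    refine ⟨hu.2.1, ?_⟩
    rw [abs_le]
    exact hu.1
  · intro u hu
    have := hD u hu
    simp only [Int.cast_natCast]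
    exact this

end Pool.Agent.APP.B
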