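import Pool.Agent.Lib.MP_8a4e59_co.B.StmA

set_option autoImplicit false

/-!
Part B, steps 3 and 4 together.
-/

namespace Pool.Agent.APP.B

open Finset

private theorem P34_pow (d : ℝ) (hd : 0 < d) (hd2 : d ≤ 1 / 2) (a k : ℕ) :
    d ^ (a + k) * 2 ^ k ≤ d ^ a := by
  rw [pow_add, mul_assoc, ← mul_pow]
  have h1 : (d * 2) ^ k ≤ 1 := pow_le_one₀ (by positivity) (by linarith)
  have h2 : 0 ≤ d ^ a := by positivity
  nlinarith

private theorem P34_ipow (d : ℝ) (hd : 0 < d) (hd2 : d ≤ 1 / 2) (a k : ℕ) :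
    2 ^ k * (1 / d) ^ a ≤ (1 / d) ^ (a + k) := by
  rw [pow_add, mul_comm]
  have h1 : (2 : ℝ) ^ k ≤ (1 / d) ^ k := by
    apply pow_le_pow_left₀ (by norm_num)
    rw [le_div_iff₀ hd]
    linarith
  gcongr

/-- pigeonhole for a natural number valued function with values in `[1, Q]` -/
private theorem P34_pig (T : Finset ℤ) (q : ℤ → ℕ) (Q : ℝ) (hQ : 0 < Q)
    (h1 : ∀ t ∈ T, 1 ≤ q t) (h2 : ∀ t ∈ T, (q t : ℝ) ≤ Q) (a : ℝ) (ha : 0 < a)
    (hT : a * Q ≤ (T.card : ℝ)) :
    ∃ k : ℕ, 1 ≤ k ∧ (k : ℝ) ≤ Q ∧ a ≤ ((T.filter (fun t => q t = k)).card : ℝ) := by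
  classical
  by_contra hcon
  push Not at hcon
  have hmap : ∀ t ∈ T, q t ∈ Finset.Icc 1 ⌊Q⌋₊ := by
    intro t ht
    rw [Finset.mem_Icc]
    exact ⟨h1 t ht, Nat.le_floor (h2 t ht)⟩
  have hsum := Finset.card_eq_sum_card_fiberwise hmap
  have hpos : 0 < T.card := by
    have : 0 < (T.card : ℝ) := lt_of_lt_of_le (by positivity) hT
    exact_mod_cast this
  obtain ⟨t0, ht0⟩ := Finset.card_pos.1 hpos
  have hne : (Finset.Icc 1 ⌊Q⌋₊).Nonempty := ⟨_, hmap t0 ht0⟩
  have hlt : (T.card : ℝ) < (⌊Q⌋₊ : ℝ) * a := by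
    rw [hsum]
    push_cast
    calc ∑ k ∈ Finset.Icc 1 ⌊Q⌋₊, ((T.filter (fun t => q t = k)).card : ℝ)
        < ∑ k ∈ Finset.Icc 1 ⌊Q⌋₊, a := by
          apply Finset.sum_lt_sum_of_nonempty hne
          intro k hk
          rw [Finset.mem_Icc] at hk
          exact hcon k hk.1 (le_trans (by exact_mod_cast hk.2) (Nat.floor_le hQ.le))
      _ = _ := by
        rw [Finset.sum_const, nsmul_eq_mul, Nat.card_Icc]
        simp
  have h3 : (⌊Q⌋₊ : ℝ) * a ≤ Q * a := by
    gcongr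
    exact Nat.floor_le hQ.le
  linarith

theorem p_34 (h3 : SB_T3) (h : SB_3) (hb : SB_4b) : SB_34 := by
  intro N g d κ c ℓ u₀ hh s e₀ V Φ hN hg hd hd2 hκ hV hVc hcor hnn hl1 hl2 hl3
  classical
  have hN' : (0 : ℝ) < N := by exact_mod_cast hN
  have hd1 : d ≤ 1 := by linarith
  have hr1 : 1 ≤ 1 / d := by rw [le_div_iff₀ hd]; linarith
  have hℓpow : ∀ a : ℕ, a ≤ 165 → (1 / d) ^ a ≤ (ℓ : ℝ) := by
    intro a ha
    exact le_trans (pow_le_pow_right₀ hr1 ha) hl1
  have hℓ0 : (0 : ℝ) < ℓ := lt_of_lt_of_le (by positivity) hl1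
  have hip : ∀ n : ℕ, (1 / d) ^ n = 1 / d ^ n := by
    intro n
    rw [one_div_pow]
  obtain ⟨U, D, hU1, hU2, hU3⟩ := h N g d d ℓ u₀ hh s V Φ hN hg hd hd1 hd hd1 (by
    have h1 := P34_ipow d hd hd2 4 4
    have h2 := hℓpow (4 + 4) (by norm_num)
    rw [hip] at h1
    have h3 : 16 / (d ^ 2 * d ^ 2) = 2 ^ 4 * (1 / d ^ 4) := by
      rw [← pow_add]; ring
    rw [h3]
    linarith) hV hVc hcor
  have key : ∀ u ∈ U, ∃ q : ℕ, 1 ≤ q ∧ (q : ℝ) ≤ (1 / d) ^ 128 ∧
      nn (q * ((D u : ℝ) / (4 * N))) ≤ κ * (1 / d) ^ 260 / ℓ := by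
    intro u hu
    obtain ⟨hu0, huℓ⟩ := hU1 u hu
    obtain ⟨_, huV⟩ := hU3 u hu
    set Vu := V.filter (fun v => v - u ∈ V ∧
        ((4 * N : ℕ) : ℤ) ∣ Φ v - Φ (v - u) - D u) with hVu
    have hVuV : Vu ⊆ V := Finset.filter_subset _ _
    have hVuc : d ^ 15 * ℓ ≤ (Vu.card : ℝ) := by
      refine le_trans ?_ huV
      have h1 := P34_pow d hd hd2 8 7
      have h2 : d ^ 15 ≤ d ^ 6 * d ^ 2 / 128 := by
        rw [← pow_add, le_div_iff₀ (by norm_num)]
        norm_num at h1 ⊢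
        exact h1
      gcongr
    obtain ⟨T, D', hT1, hT2, hT3⟩ := h N g d (d ^ 15) ℓ u₀ hh s Vu Φ hN hg hd hd1 (by positivity)
      (pow_le_one₀ hd.le hd1) (by
        have h1 := P34_ipow d hd hd2 32 4
        have h2 := hℓpow (32 + 4) (by norm_num)
        rw [hip] at h1
        have h3 : 16 / (d ^ 2 * (d ^ 15) ^ 2) = 2 ^ 4 * (1 / d ^ 32) := by
          rw [← pow_mul, ← pow_add]; ring
        rw [h3]
        linarith) (hVuV.trans hV) hVuc (fun v hv => hcor v (hVuV hv))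
    have hTc : d ^ 35 * ℓ ≤ (T.card : ℝ) := by
      refine le_trans ?_ hT2
      have h1 := P34_pow d hd hd2 32 3
      have h2 : d ^ 35 ≤ d ^ 2 * (d ^ 15) ^ 2 / 8 := by
        rw [← pow_mul, ← pow_add, le_div_iff₀ (by norm_num)]
        norm_num at h1 ⊢
        exact h1
      gcongr
    set β : ℝ := (D u : ℝ) / (4 * N) with hβ
    have key2 : ∀ t ∈ T, ∃ q : ℕ, 1 ≤ q ∧ (q : ℝ) ≤ (1 / d) ^ 45 ∧
        nn (q * (2 * t * β)) ≤ κ * (1 / d) ^ 95 := by
      intro t ht
      obtain ⟨_, htℓ⟩ := hT1 t ht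
      obtain ⟨_, htV⟩ := hT3 t ht
      set W := Vu.filter (fun v => v - t ∈ Vu ∧
        ((4 * N : ℕ) : ℤ) ∣ Φ v - Φ (v - t) - D' t) with hW
      have hWc : d ^ 43 * ℓ ≤ (W.card : ℝ) := by
        refine le_trans ?_ htV
        have h1 := P34_pow d hd hd2 36 7
        have h2 : d ^ 43 ≤ d ^ 6 * (d ^ 15) ^ 2 / 128 := by
          rw [← pow_mul, ← pow_add, le_div_iff₀ (by norm_num)]
          norm_num at h1 ⊢
          exact h1
        gcongr
      have hWV : W ⊆ Finset.Ico u₀ (u₀ + ℓ) :=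
        (Finset.filter_subset _ _).trans (hVuV.trans hV)
      have hRel : ∀ v ∈ W, Rel κ c β ((D' t : ℝ) / (4 * N)) u t
          (fun v => ((e₀ : ℝ) - Φ v) / (4 * N)) v := by
        intro v hv
        rw [hW, Finset.mem_filter] at hv
        obtain ⟨hv1, hv2, hv3⟩ := hv
        have hv1' := hv1
        have hv2' := hv2
        rw [hVu, Finset.mem_filter] at hv1' hv2'
        have hA : ∀ w ∈ V, nn ((w : ℝ) * (((e₀ : ℝ) - Φ w) / (4 * N)) - c) ≤ κ := by
          intro w hw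
          have := hnn w hw
          rw [mul_div_assoc] at this
          exact this
        have hB : ∀ (w z D₀ : ℤ), ((4 * N : ℕ) : ℤ) ∣ Φ w - Φ z - D₀ →
            nn (((e₀ : ℝ) - Φ z) / (4 * N) - ((e₀ : ℝ) - Φ w) / (4 * N) -
              (D₀ : ℝ) / (4 * N)) = 0 := by
          intro w z D₀ ⟨k, hk⟩
          rw [nn_eq_zero_iff]
          refine ⟨k, ?_⟩
          have hk' : (Φ w : ℝ) - Φ z - D₀ = 4 * N * k := by exact_mod_cast hk
          field_simp
          linarith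
        refine ⟨?_, ?_, ?_, ?_, ?_, ?_, ?_⟩
        · exact hA v hv1'.1
        · exact hA (v - u) hv1'.2.1
        · exact hA (v - t) hv2'.1
        · exact hA (v - t - u) hv2'.2.1
        · exact hB v (v - u) (D u) hv1'.2.2
        · exact hB v (v - t) (D' t) hv3
        · exact hB (v - t) (v - t - u) (D u) hv2'.2.2
      obtain ⟨q, hq1, hq2, hq3⟩ := hb κ c β ((D' t : ℝ) / (4 * N)) (d ^ 43) ℓ u₀ u t
        (fun v => ((e₀ : ℝ) - Φ v) / (4 * N)) W hκ (by positivity) (pow_le_one₀ hd.le hd1)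
        huℓ htℓ hWV hWc hRel (by
          have h1 := P34_pow d hd hd2 43 10
          norm_num at h1
          rw [le_div_iff₀ (by norm_num)]
          nlinarith) (by
          have h1 := P34_ipow d hd hd2 86 5
          have h2 := hℓpow (86 + 5) (by norm_num)
          rw [hip] at h1
          have h3 : 32 / (d ^ 43) ^ 2 = 2 ^ 5 * (1 / d ^ 86) := by
            rw [← pow_mul]; ring
          rw [h3]
          linarith)
      refine ⟨q, hq1, ?_, ?_⟩
      · refine le_trans hq2 ?_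
        have h1 := P34_ipow d hd hd2 43 2
        rw [hip 43] at h1
        have h3 : 4 / d ^ 43 = 2 ^ 2 * (1 / d ^ 43) := by ring
        rw [h3]
        exact h1
      · refine le_trans hq3 ?_
        have h1 := P34_ipow d hd hd2 86 9
        rw [hip 86] at h1
        have h3 : 448 * κ / (d ^ 43) ^ 2 = κ * (448 * (1 / d ^ 86)) := by
          rw [← pow_mul]; ring
        rw [h3]
        have h4 : 0 ≤ 1 / d ^ 86 := by positivity
        have h5 : 448 * (1 / d ^ 86) ≤ (1 / d) ^ 95 := by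
          have h6 : (448 : ℝ) ≤ 2 ^ 9 := by norm_num
          have h7 : (1 / d : ℝ) ^ (86 + 9) = (1 / d) ^ 95 := by norm_num
          rw [h7] at h1
          nlinarith
        gcongr
    choose! qt hqt1 hqt2 hqt3 using key2
    obtain ⟨q, hq1, hq2, hq3⟩ := P34_pig T qt ((1 / d) ^ 45) (by positivity) hqt1 hqt2
      (d ^ 80 * ℓ) (by positivity) (by
        refine le_trans (le_of_eq ?_) hTc
        rw [hip]
        have : d ^ 80 = d ^ 35 * d ^ 45 := by rw [← pow_add]
        rw [this]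
        field_simp)
    obtain ⟨q', hq'1, hq'2, hq'3⟩ := h3 (2 * q * β) ℓ (d ^ 80) (κ * (1 / d) ^ 95) (by positivity)
      (pow_le_one₀ hd.le hd1) (by positivity) (by
        have h1 : κ * (1 / d) ^ 95 ≤ d ^ 181 * (1 / d) ^ 95 := by gcongr
        have h2 : d ^ 181 * (1 / d) ^ 95 = d ^ (80 + 6) := by
          rw [hip]
          have : d ^ 181 = d ^ (80 + 6) * d ^ 95 := by rw [← pow_add]
          rw [this]
          field_simp
        have h3 := P34_pow d hd hd2 80 6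
        rw [h2] at h1
        rw [le_div_iff₀ (by norm_num)]
        norm_num at h3 h1 ⊢
        linarith) (by
        have h1 := P34_ipow d hd hd2 160 5
        have h2 := hℓpow (160 + 5) (by norm_num)
        rw [hip] at h1
        have h3 : 32 / (d ^ 80) ^ 2 = 2 ^ 5 * (1 / d ^ 160) := by
          rw [← pow_mul]; ring
        rw [h3]
        linarith) (by
        refine le_trans hq3 ?_
        have : (T.filter (fun t => qt t = q)).card ≤ ((Finset.Icc (-(ℓ : ℤ)) ℓ).filter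
            (fun r : ℤ => nn (r * (2 * q * β)) ≤ κ * (1 / d) ^ 95)).card := by
          apply Finset.card_le_card
          intro t ht
          rw [Finset.mem_filter] at ht ⊢
          obtain ⟨ht1, ht2⟩ := ht
          refine ⟨?_, ?_⟩
          · rw [Finset.mem_Icc]
            exact abs_le.1 (hT1 t ht1).2
          · have h1 := hqt3 t ht1
            rw [ht2] at h1
            have h2 : (t : ℝ) * (2 * q * β) = q * (2 * t * β) := by ring
            rw [h2]
            exact h1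
        exact_mod_cast this)
    refine ⟨2 * q * q', ?_, ?_, ?_⟩
    · have h1 : 1 ≤ q * q' := Nat.mul_pos hq1 hq'1
      nlinarith
    · have h1 := P34_ipow d hd hd2 80 2
      rw [hip 80] at h1
      have h2 : 4 / d ^ 80 = 2 ^ 2 * (1 / d ^ 80) := by ring
      rw [h2] at hq'2
      have h4 : (q' : ℝ) ≤ (1 / d) ^ 82 := le_trans hq'2 h1
      have h5 := P34_ipow d hd hd2 (45 + 82) 1
      push_cast
      calc (2 : ℝ) * q * q' ≤ 2 * (1 / d) ^ 45 * (1 / d) ^ 82 := by gcongr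
        _ = 2 ^ 1 * (1 / d) ^ (45 + 82) := by rw [pow_add]; ring
        _ ≤ (1 / d) ^ (45 + 82 + 1) := h5
        _ = (1 / d) ^ 128 := by norm_num
    · have h1 : ((2 * q * q' : ℕ) : ℝ) * β = q' * (2 * q * β) := by push_cast; ring
      rw [h1]
      refine le_trans hq'3 ?_
      have h2 := P34_ipow d hd hd2 255 5
      have h4 : 32 * (κ * (1 / d) ^ 95) / ((d ^ 80) ^ 2 * ℓ) = κ * (2 ^ 5 * (1 / d) ^ 255) / ℓ := by
        have h5 : (1 / d : ℝ) ^ 255 = (1 / d) ^ 95 * (1 / d) ^ 160 := by rw [← pow_add]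
        rw [h5, hip 160, ← pow_mul]
        field_simp
        ring
      rw [h4]
      have h6 : (1 / d : ℝ) ^ (255 + 5) = (1 / d) ^ 260 := by norm_num
      rw [h6] at h2
      gcongr
  choose! q hq1 hq2 hq3 using key
  refine ⟨U, D, q, hU1, ?_, ?_⟩
  · refine le_trans ?_ hU2
    have h1 := P34_pow d hd hd2 4 3
    have h2 : d ^ 7 ≤ d ^ 2 * d ^ 2 / 8 := by
      rw [← pow_add, le_div_iff₀ (by norm_num)]
      norm_num at h1 ⊢
      exact h1
    gcongr
  · intro u hu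
    refine ⟨?_, hq1 u hu, hq2 u hu, hq3 u hu⟩
    refine le_trans ?_ (hU3 u hu).1
    have h1 := P34_pow d hd hd2 2 1
    have h2 : d ^ 3 ≤ d ^ 2 / 2 := by
      rw [le_div_iff₀ (by norm_num)]
      norm_num at h1 ⊢
      exact h1
    gcongr

end Pool.Agent.APP.B
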