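import Pool.Agent.Lib.MP_8a4e59_co.B.StmA

set_option autoImplicit false

/-!
MP_8a4e59_co, part B, step 4 (helper30): the algebra and the first use of Vinogradov's lemma.
-/

namespace Pool.Agent.APP.B

open Finset

private theorem p4_int {x : ℝ} (y : ℝ) (k : ℤ) (h : x = y + k) : nn x = nn y := by
  rw [h, nn_add_int]

/-- the two relations at one vertex -/
private theorem p4_vertex {κ L c β β' : ℝ} {u t v : ℤ} {y : ℤ → ℝ} (hκ : 0 ≤ κ)
    (hu : |(u : ℝ)| ≤ L) (ht : |(t : ℝ)| ≤ L) (h : Rel κ c β β' u t y v) :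
    nn (t * β + u * β') ≤ 6 * κ ∧
    nn (v * (t * β - u * β') - t * u * (β - β')) ≤ 4 * L * κ := by
  obtain ⟨h1, h2, h3, h4, h5, h6, h7⟩ := h
  obtain ⟨a, ha⟩ := (nn_eq_zero_iff _).1 h5
  obtain ⟨b, hb⟩ := (nn_eq_zero_iff _).1 h6
  obtain ⟨e, he⟩ := (nn_eq_zero_iff _).1 h7
  have hya : y (v - u) = y v + β + a := by linarith
  have hyb : y (v - t) = y v + β' + b := by linarith
  have hyc : y (v - t - u) = y v + β' + β + b + e := by linarith
  have A : nn ((v - u) * β - u * y v) ≤ 2 * κ := by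
    have e1 : (((v - u : ℤ) : ℝ) * y (v - u) - c) - (v * y v - c) =
        ((v - u) * β - u * y v) + (((v - u) * a : ℤ) : ℝ) := by
      rw [hya]
      push_cast
      ring
    have e2 := p4_int _ _ e1
    rw [← e2]
    refine (nn_sub_le _ _).trans ?_
    linarith
  have B : nn ((v - t) * β' - t * y v) ≤ 2 * κ := by
    have e1 : (((v - t : ℤ) : ℝ) * y (v - t) - c) - (v * y v - c) =
        ((v - t) * β' - t * y v) + (((v - t) * b : ℤ) : ℝ) := by
      rw [hyb]
      push_cast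
      ring
    have e2 := p4_int _ _ e1
    rw [← e2]
    refine (nn_sub_le _ _).trans ?_
    linarith
  have D : nn ((v - t - u) * (β + β') - (t + u) * y v) ≤ 2 * κ := by
    have e1 : (((v - t - u : ℤ) : ℝ) * y (v - t - u) - c) - (v * y v - c) =
        ((v - t - u) * (β + β') - (t + u) * y v) + (((v - t - u) * (b + e) : ℤ) : ℝ) := by
      rw [hyc]
      push_cast
      ring
    have e2 := p4_int _ _ e1
    rw [← e2]
    refine (nn_sub_le _ _).trans ?_
    linarith
  constructor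
  · have e1 : -((t : ℝ) * β + u * β') = (((v - t - u) * (β + β') - (t + u) * y v) -
        ((v - u) * β - u * y v)) - ((v - t) * β' - t * y v) := by ring
    rw [← nn_neg, e1]
    refine (nn_sub_le _ _).trans ?_
    have := nn_sub_le (((v : ℝ) - t - u) * (β + β') - (t + u) * y v) (((v : ℝ) - u) * β - u * y v)
    linarith
  · have e1 : (v : ℝ) * (t * β - u * β') - t * u * (β - β') =
        (t : ℝ) * (((v : ℝ) - u) * β - u * y v) - (u : ℝ) * (((v : ℝ) - t) * β' - t * y v) := by ring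
    rw [e1]
    refine (nn_sub_le _ _).trans ?_
    have h8 := nn_int_mul_le t (((v : ℝ) - u) * β - u * y v)
    have h9 := nn_int_mul_le u (((v : ℝ) - t) * β' - t * y v)
    have h10 : |(t : ℝ)| * nn (((v : ℝ) - u) * β - u * y v) ≤ L * (2 * κ) :=
      mul_le_mul ht A (nn_nonneg _) ((abs_nonneg _).trans ht)
    have h11 : |(u : ℝ)| * nn (((v : ℝ) - t) * β' - t * y v) ≤ L * (2 * κ) :=
      mul_le_mul hu B (nn_nonneg _) ((abs_nonneg _).trans hu)
    linarith

theorem p_4a : SB_4a := by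
  intro κ L c β β' u t v₁ v₂ y hκ hu ht hv h1 h2
  obtain ⟨a1, b1⟩ := p4_vertex hκ hu ht h1
  obtain ⟨-, b2⟩ := p4_vertex hκ hu ht h2
  have e1 : ((v₁ - v₂ : ℤ) : ℝ) * (2 * t * β) =
      ((v₁ - v₂ : ℤ) : ℝ) * (t * β + u * β') + ((v₁ * (t * β - u * β') - t * u * (β - β')) -
        (v₂ * (t * β - u * β') - t * u * (β - β'))) := by
    push_cast
    ring
  rw [e1]
  refine (nn_add_le _ _).trans ?_
  have h3 := nn_int_mul_le (v₁ - v₂) (t * β + u * β')
  have h4 := nn_sub_le (v₁ * (t * β - u * β') - t * u * (β - β'))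
    (v₂ * (t * β - u * β') - t * u * (β - β'))
  have h5 : |((v₁ - v₂ : ℤ) : ℝ)| * nn (t * β + u * β') ≤ L * (6 * κ) := by
    apply mul_le_mul _ a1 (nn_nonneg _) ((abs_nonneg _).trans hv)
    push_cast
    exact hv
  linarith

theorem p_4b (h3 : SB_T3) (ha : SB_4a) : SB_4b := by
  intro κ c β β' ρ ℓ u₀ u t y W hκ hρ hρ1 hu ht hW hcard hrel hsmall hbig
  have hρ2 : 0 < 32 / ρ ^ 2 := by positivity
  have hℓ : (0 : ℝ) < ℓ := by linarith
  have hWne : W.Nonempty := by
    rw [← Finset.card_pos]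
    have h1 : 0 < ρ * ℓ := by positivity
    have h2 : (0 : ℝ) < W.card := by linarith
    exact_mod_cast h2
  obtain ⟨v₂, hv₂⟩ := hWne
  have hu' : |(u : ℝ)| ≤ ℓ := by exact_mod_cast hu
  have ht' : |(t : ℝ)| ≤ ℓ := by exact_mod_cast ht
  have hdist : ∀ v ∈ W, |v - v₂| ≤ (ℓ : ℤ) := by
    intro v hv
    have h1 := Finset.mem_Ico.1 (hW hv)
    have h2 := Finset.mem_Ico.1 (hW hv₂)
    rw [abs_le]
    constructor <;> omega
  obtain ⟨q, hq1, hq2, hq3⟩ := h3 (2 * t * β) ℓ ρ (14 * ℓ * κ) hρ hρ1 (by positivity) hsmall hbig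
    (by
      refine hcard.trans ?_
      have : W.card ≤ ((Finset.Icc (-(ℓ : ℤ)) ℓ).filter
          (fun r : ℤ => nn (r * (2 * t * β)) ≤ 14 * ℓ * κ)).card := by
        apply Finset.card_le_card_of_injOn (fun v => v - v₂)
        · intro v hv
          have h1 := hdist v hv
          rw [abs_le] at h1
          simp only [Finset.coe_filter, Finset.mem_Icc, Set.mem_ofPred_eq]
          refine ⟨h1, ?_⟩
          refine ha κ ℓ c β β' u t v v₂ y hκ hu' ht' ?_ (hrel v hv) (hrel v₂ hv₂)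
          have h2 := hdist v hv
          have h3 : |((v - v₂ : ℤ) : ℝ)| ≤ ((ℓ : ℤ) : ℝ) := by exact_mod_cast h2
          push_cast at h3
          exact h3
        · intro v _ v' _ hvv
          simpa using hvv
      exact_mod_cast this)
  refine ⟨q, hq1, hq2, hq3.trans (le_of_eq ?_)⟩
  field_simp
  ring

end Pool.Agent.APP.B
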