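import Pool.Agent.Lib.MP_8a4e59_co.B.StmA

set_option autoImplicit false

/-!
Part B, step 5: many shifts with a common denominator.
-/

namespace Pool.Agent.APP.B

open Finset

theorem p_5 (h4 : SB_T4) : SB_5 := by
  intro N M ℓ Q g d e η₀ S U D q hℓ hℓM hMN hQ hd hd1 hlog hS hSc hU
  classical
  have hM : 1 ≤ M := le_trans hℓ hℓM
  have hN : 1 ≤ N := le_trans hM hMN
  have hN' : (0 : ℝ) < N := by exact_mod_cast hN
  have hM' : (0 : ℝ) < M := by exact_mod_cast hM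
  have hℓ' : (0 : ℝ) < ℓ := by exact_mod_cast hℓ
  have hQ' : (0 : ℝ) < Q := by exact_mod_cast hQ
  set Z : Finset (Σ _ : ℤ, ℤ) := S.sigma U with hZ
  have hZc : d * ((N : ℝ) / M) * (d * ℓ) ≤ (Z.card : ℝ) := by
    rw [hZ, Finset.card_sigma]
    push_cast
    calc d * ((N : ℝ) / M) * (d * ℓ) ≤ S.card * (d * ℓ) := by gcongr
      _ = ∑ s ∈ S, (d * ℓ) := by rw [Finset.sum_const, nsmul_eq_mul]
      _ ≤ ∑ s ∈ S, ((U s).card : ℝ) := Finset.sum_le_sum (fun s hs => (hU s hs).2.1)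
  -- pigeonhole
  have hmap : ∀ z ∈ Z, q z.1 z.2 ∈ Finset.Icc 1 Q := by
    intro z hz
    rw [hZ, Finset.mem_sigma] at hz
    rw [Finset.mem_Icc]
    have := ((hU z.1 hz.1).2.2 z.2 hz.2)
    exact ⟨this.2.1, this.2.2.1⟩
  have hsum := Finset.card_eq_sum_card_fiberwise hmap
  obtain ⟨q', hq', hq'c⟩ : ∃ q' ∈ Finset.Icc 1 Q, (Z.card : ℝ) / Q ≤
      ((Z.filter (fun z => q z.1 z.2 = q')).card : ℝ) := by
    by_contra hcon
    push Not at hcon
    have : (Z.card : ℝ) < Q * ((Z.card : ℝ) / Q) := by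
      rw [hsum]
      push_cast
      calc ∑ k ∈ Finset.Icc 1 Q, ((Z.filter (fun z => q z.1 z.2 = k)).card : ℝ)
          < ∑ k ∈ Finset.Icc 1 Q, (Z.card : ℝ) / Q :=
            Finset.sum_lt_sum_of_nonempty ⟨1, by rw [Finset.mem_Icc]; omega⟩ hcon
        _ = Q * ((Z.card : ℝ) / Q) := by
          rw [Finset.sum_const, nsmul_eq_mul, Nat.card_Icc]
          simp
        _ = _ := by
          rw [hsum]
          push_cast
          rfl
    rw [mul_div_cancel₀ _ hQ'.ne'] at this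
    exact lt_irrefl _ this
  rw [Finset.mem_Icc] at hq'
  set Z1 := Z.filter (fun z => q z.1 z.2 = q') with hZ1
  have hZ1m : ∀ z ∈ Z1, z.1 ∈ S ∧ z.2 ∈ U z.1 ∧ q z.1 z.2 = q' := by
    intro z hz
    rw [hZ1, Finset.mem_filter, hZ, Finset.mem_sigma] at hz
    exact ⟨hz.1.1, hz.1.2, hz.2⟩
  set f : (Σ _ : ℤ, ℤ) → ℕ × ℕ := fun z => (z.1.natAbs, z.2.natAbs) with hf
  set Z' := Z1.image f with hZ'
  have hZ1c : Z1.card ≤ 4 * Z'.card := by
    apply Finset.card_le_mul_card_image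
    intro b _
    have : (Z1.filter (fun a => f a = b)) ⊆
        ({⟨(b.1 : ℤ), (b.2 : ℤ)⟩, ⟨(b.1 : ℤ), -(b.2 : ℤ)⟩, ⟨-(b.1 : ℤ), (b.2 : ℤ)⟩,
          ⟨-(b.1 : ℤ), -(b.2 : ℤ)⟩} : Finset (Σ _ : ℤ, ℤ)) := by
      intro z hz
      rw [Finset.mem_filter] at hz
      obtain ⟨_, hz2⟩ := hz
      obtain ⟨z1, z2⟩ := z
      simp only [hf] at hz2
      subst hz2
      simp only [Finset.mem_insert, Finset.mem_singleton]
      rcases Int.natAbs_eq z1 with h1 | h1 <;> rcases Int.natAbs_eq z2 with h2 | h2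
      · left
        congr
      · right; left
        congr
      · right; right; left
        congr
      · right; right; right
        congr
    exact le_trans (Finset.card_le_card this) Finset.card_le_four
  have hZ'sub : Z' ⊆ Finset.Icc 1 (N / M) ×ˢ Finset.Icc 1 ℓ := by
    intro p hp
    rw [hZ', Finset.mem_image] at hp
    obtain ⟨z, hz, rfl⟩ := hp
    obtain ⟨hz1, hz2, _⟩ := hZ1m z hz
    obtain ⟨h1, h2⟩ := hS z.1 hz1
    obtain ⟨h3, h4⟩ := (hU z.1 hz1).1 z.2 hz2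
    rw [Int.abs_eq_natAbs] at h2 h4
    have h1' : z.1.natAbs ≠ 0 := Int.natAbs_ne_zero.2 h1
    have h3' : z.2.natAbs ≠ 0 := Int.natAbs_ne_zero.2 h3
    rw [Finset.mem_product, Finset.mem_Icc, Finset.mem_Icc]
    simp only [hf]
    have h2' : z.1.natAbs ≤ N / M := by exact_mod_cast h2
    have h4' : z.2.natAbs ≤ ℓ := by exact_mod_cast h4
    exact ⟨⟨Nat.pos_of_ne_zero h1', h2'⟩, ⟨Nat.pos_of_ne_zero h3', h4'⟩⟩
  have hX : 1 ≤ N / M := Nat.div_pos hMN hM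
  have hT4 := h4 (N / M) ℓ Z' hX hℓ hZ'sub
  set PP := Z'.image (fun p => p.1 * p.2) with hPP
  set AA := Z1.image (fun z => -(z.1 * z.2)) with hAA
  have hPA : PP.card ≤ AA.card := by
    have : PP = AA.image Int.natAbs := by
      rw [hPP, hAA, hZ', Finset.image_image, Finset.image_image]
      apply Finset.image_congr
      intro z _
      simp only [Function.comp, hf]
      rw [Int.natAbs_neg, Int.natAbs_mul]
    rw [this]
    exact Finset.card_image_le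
  have hXr : ((N / M : ℕ) : ℝ) ≤ (N : ℝ) / M := Nat.cast_div_le
  have hXY : N / M * ℓ ≤ N := by
    calc N / M * ℓ ≤ N / M * M := Nat.mul_le_mul_left _ hℓM
      _ ≤ N := Nat.div_mul_le_self _ _
  have hlogXY : Real.log ((N / M : ℕ) * ℓ) ≤ 1 / d := by
    refine le_trans ?_ hlog
    apply Real.log_le_log
    · have : (0 : ℝ) < ((N / M : ℕ) : ℝ) := by exact_mod_cast hX
      positivity
    · exact_mod_cast hXY
  have hd1' : 1 ≤ 1 / d := by rw [le_div_iff₀ hd]; linarith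
  have hPPc : d ^ 5 * ((ℓ : ℝ) / M) * N / (128 * (Q : ℝ) ^ 2) ≤ (PP.card : ℝ) := by
    have h5 : (Z'.card : ℝ) ^ 2 ≤ (PP.card : ℝ) * (4 * ((N : ℝ) / M) * ℓ * (2 / d)) := by
      refine le_trans hT4 ?_
      have hlogn : 0 ≤ Real.log ((N / M : ℕ) * ℓ) := by
        apply Real.log_nonneg
        have : 1 ≤ N / M * ℓ := Nat.mul_pos hX hℓ
        exact_mod_cast this
      have h6 : 1 + Real.log ((N / M : ℕ) * ℓ) ≤ 2 / d := by
        have : 2 / d = 1 / d + 1 / d := by ring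
        linarith
      gcongr
    have h6 : d ^ 2 * ((N : ℝ) / M) * ℓ / (4 * Q) ≤ (Z'.card : ℝ) := by
      have h7 : (Z1.card : ℝ) ≤ 4 * Z'.card := by exact_mod_cast hZ1c
      have h8 : d * ((N : ℝ) / M) * (d * ℓ) / Q ≤ Z1.card := by
        refine le_trans ?_ hq'c
        gcongr
      have h9 : d ^ 2 * ((N : ℝ) / M) * ℓ / (4 * Q) = (d * ((N : ℝ) / M) * (d * ℓ) / Q) / 4 := by
        field_simp
      rw [h9]
      linarith
    have h7 : (d ^ 2 * ((N : ℝ) / M) * ℓ / (4 * Q)) ^ 2 ≤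
        (PP.card : ℝ) * (4 * ((N : ℝ) / M) * ℓ * (2 / d)) := by
      refine le_trans ?_ h5
      apply pow_le_pow_left₀ (by positivity) h6
    have h8 : (0 : ℝ) < 4 * ((N : ℝ) / M) * ℓ * (2 / d) := by positivity
    rw [← div_le_iff₀ h8] at h7
    refine le_trans (le_of_eq ?_) h7
    field_simp
    ring
  -- the phases
  have hch : ∀ a ∈ AA, ∃ x : ℝ, e * N ≤ ‖cor N g a x‖ ∧ nn (q' * x) ≤ η₀ := by
    intro a ha
    rw [hAA, Finset.mem_image] at ha
    obtain ⟨z, hz, rfl⟩ := ha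
    obtain ⟨hz1, hz2, hz3⟩ := hZ1m z hz
    have h5 := (hU z.1 hz1).2.2 z.2 hz2
    refine ⟨(D z.1 z.2 : ℝ) / (4 * N), h5.1, ?_⟩
    have := h5.2.2.2
    rw [hz3] at this
    exact this
  choose! ξ hξ using hch
  refine ⟨q', AA, ξ, hq'.1, hq'.2, ?_, ?_, hξ⟩
  · intro a ha
    rw [hAA, Finset.mem_image] at ha
    obtain ⟨z, hz, rfl⟩ := ha
    obtain ⟨hz1, hz2, hz3⟩ := hZ1m z hz
    obtain ⟨_, h6⟩ := hS z.1 hz1
    obtain ⟨_, h7⟩ := (hU z.1 hz1).1 z.2 hz2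
    rw [abs_neg, abs_mul]
    calc |z.1| * |z.2| ≤ ((N / M : ℕ) : ℤ) * (ℓ : ℤ) := by gcongr
      _ ≤ N := by exact_mod_cast hXY
  · refine le_trans hPPc ?_
    exact_mod_cast hPA

end Pool.Agent.APP.B
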