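import Pool.Agent.Lib.MP_8a4e59_co.B.StmA

/-!
MP_8a4e59_co, part B: Fourier expansion of an interval modulo `4N`.
-/

set_option autoImplicit false

namespace Pool.Agent.APP.B

open Finset

private lemma pFI_orth (M : ℕ) (hM : 1 ≤ M) (d : ℤ) (hd : |d| < M) :
    ∑ k ∈ range M, ee ((k : ℝ) * ((d : ℝ) / M)) = if d = 0 then (M : ℂ) else 0 := by
  have hM0 : (M : ℝ) ≠ 0 := by
    have : (0 : ℝ) < M := by exact_mod_cast hM
    exact this.ne'
  have h1 : ∀ k ∈ range M, ee ((k : ℝ) * ((d : ℝ) / M)) = ee ((d : ℝ) / M) ^ k :=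
    fun k _ => ee_nat_mul k _
  rw [Finset.sum_congr rfl h1]
  split_ifs with h0
  · rw [h0]
    simp [ee_zero]
  · have hne : ee ((d : ℝ) / M) ≠ 1 := by
      intro he
      have h2 := four_nn_le ((d : ℝ) / M)
      rw [he, sub_self, norm_zero] at h2
      have h3 : nn ((d : ℝ) / M) = 0 := le_antisymm (by linarith) (nn_nonneg _)
      obtain ⟨j, hj⟩ := (nn_eq_zero_iff _).mp h3
      rw [div_eq_iff hM0] at hj
      have h4 : d = j * M := by exact_mod_cast hj
      have h5 : j ≠ 0 := by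
        rintro rfl
        exact h0 (by rw [h4]; ring)
      have h6 : 1 ≤ |j| := Int.one_le_abs h5
      rw [h4, abs_mul, Nat.abs_cast] at hd
      have h7 : (M : ℤ) ≤ |j| * M := by nlinarith
      linarith
    rw [geom_sum_eq hne]
    have h2 : ee ((d : ℝ) / M) ^ M = 1 := by
      rw [← ee_nat_mul, mul_div_cancel₀ _ hM0, ee_int]
    rw [h2, sub_self, zero_div]

private lemma pFI_nn (x : ℝ) (h0 : 0 ≤ x) (h1 : x ≤ 1) : min x (1 - x) ≤ nn x := by
  unfold nn
  rcases le_or_gt (round x) 0 with h | h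
  · refine (min_le_left _ _).trans ?_
    have h2 : ((round x : ℤ) : ℝ) ≤ 0 := by exact_mod_cast h
    rw [le_abs]
    left
    linarith
  · refine (min_le_right _ _).trans ?_
    have h2 : (1 : ℝ) ≤ ((round x : ℤ) : ℝ) := by exact_mod_cast h
    rw [le_abs]
    right
    linarith

private noncomputable def pFI_c (M : ℕ) (a b : ℤ) (k : ℕ) : ℂ :=
  (1 / (M : ℂ)) * ∑ m ∈ Finset.Ico a b, ee ((m : ℝ) * (-((k : ℝ) / M)))

private lemma pFI_c_zero (M : ℕ) (hM : 1 ≤ M) (a b : ℤ) (ha : 0 ≤ a) (hb : b ≤ M) :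
    ‖pFI_c M a b 0‖ ≤ 1 := by
  have hM0 : (0 : ℝ) < M := by exact_mod_cast hM
  unfold pFI_c
  rw [norm_mul, norm_div, norm_one, Complex.norm_natCast]
  have h1 : ‖∑ m ∈ Finset.Ico a b, ee ((m : ℝ) * (-(((0 : ℕ) : ℝ) / M)))‖ ≤ M := by
    refine (norm_sum_le _ _).trans ?_
    simp only [norm_ee, Finset.sum_const, nsmul_eq_mul, mul_one, Int.card_Ico]
    have : (b - a).toNat ≤ M := by omega
    exact_mod_cast this
  rw [one_div, inv_mul_le_iff₀ hM0, mul_one]
  exact h1

private lemma pFI_c_le (M : ℕ) (a b : ℤ) (k : ℕ) (hk : 1 ≤ k) (hkM : k < M) :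
    ‖pFI_c M a b k‖ ≤ 1 / 2 * (1 / (k : ℝ) + 1 / ((M : ℝ) - k)) := by
  have hk0 : (0 : ℝ) < k := by exact_mod_cast hk
  have hkM' : (k : ℝ) < M := by exact_mod_cast hkM
  have hM0 : (0 : ℝ) < M := hk0.trans hkM'
  have hMk : (0 : ℝ) < (M : ℝ) - k := by linarith
  unfold pFI_c
  rw [norm_mul, norm_div, norm_one, Complex.norm_natCast]
  set G := ‖∑ m ∈ Finset.Ico a b, ee ((m : ℝ) * (-((k : ℝ) / M)))‖ with hG
  have hG0 : 0 ≤ G := norm_nonneg _
  have h1 : G * (2 * nn (-((k : ℝ) / M))) ≤ 1 := norm_geom_Ico_mul_le a b _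
  rw [nn_neg] at h1
  have h2 := pFI_nn ((k : ℝ) / M) (by positivity) (by rw [div_le_one hM0]; exact hkM'.le)
  have e1 : 0 < 1 / (k : ℝ) := by positivity
  have e2 : 0 < 1 / ((M : ℝ) - k) := by positivity
  rcases le_total ((k : ℝ) / M) (1 - (k : ℝ) / M) with h3 | h3
  · rw [min_eq_left h3] at h2
    have h4 : G * (2 * ((k : ℝ) / M)) ≤ 1 := by
      refine le_trans ?_ h1
      gcongr
    have h5 : 1 / (M : ℝ) * G ≤ 1 / 2 * (1 / (k : ℝ)) := by
      have h6 : 1 / (M : ℝ) * G = (G * (2 * ((k : ℝ) / M))) * (1 / 2 * (1 / (k : ℝ))) := by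
        field_simp
      rw [h6]
      calc _ ≤ 1 * (1 / 2 * (1 / (k : ℝ))) := by gcongr
        _ = _ := one_mul _
    nlinarith
  · rw [min_eq_right h3] at h2
    have h4 : G * (2 * (1 - (k : ℝ) / M)) ≤ 1 := by
      refine le_trans ?_ h1
      gcongr
    have h5 : 1 / (M : ℝ) * G ≤ 1 / 2 * (1 / ((M : ℝ) - k)) := by
      have h6 : 1 / (M : ℝ) * G = (G * (2 * (1 - (k : ℝ) / M))) * (1 / 2 * (1 / ((M : ℝ) - k))) := by
        field_simp
      rw [h6]
      calc _ ≤ 1 * (1 / 2 * (1 / ((M : ℝ) - k))) := by gcongr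
        _ = _ := one_mul _
    nlinarith

private lemma pFI_sum (M : ℕ) (hM : 2 ≤ M) (a b : ℤ) (ha : 0 ≤ a) (hb : b ≤ M) :
    ∑ k ∈ range M, ‖pFI_c M a b k‖ ≤ 2 + Real.log M := by
  obtain ⟨K, rfl⟩ : ∃ K, M = K + 1 := ⟨M - 1, by omega⟩
  rw [Finset.sum_range_succ']
  have h0 := pFI_c_zero (K + 1) (by omega) a b ha hb
  have h1 : ∑ k ∈ range K, ‖pFI_c (K + 1) a b (k + 1)‖ ≤
      ∑ k ∈ range K, (1 / 2 * (1 / ((k : ℝ) + 1)) + 1 / 2 * (1 / ((K : ℝ) - k))) := by
    refine Finset.sum_le_sum fun k hk => ?_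
    rw [Finset.mem_range] at hk
    refine (pFI_c_le (K + 1) a b (k + 1) (by omega) (by omega)).trans_eq ?_
    push_cast
    have e : (K : ℝ) + 1 - (k + 1) = K - k := by ring
    rw [e]
    ring
  have h2 : ∑ k ∈ range K, (1 / 2 * (1 / ((K : ℝ) - k))) =
      ∑ k ∈ range K, (1 / 2 * (1 / ((k : ℝ) + 1))) := by
    rw [← Finset.sum_range_reflect]
    refine Finset.sum_congr rfl fun k hk => ?_
    rw [Finset.mem_range] at hk
    have e : ((K - 1 - k : ℕ) : ℝ) = (K : ℝ) - 1 - k := by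
      rw [Nat.cast_sub (by omega), Nat.cast_sub (by omega), Nat.cast_one]
    rw [e]
    congr 2
    ring
  have h3 : ∑ k ∈ range K, (1 / ((k : ℝ) + 1)) ≤ 1 + Real.log K := by
    have h4 := harmonic_le_one_add_log K
    refine le_trans (le_of_eq ?_) h4
    rw [harmonic]
    push_cast
    refine Finset.sum_congr rfl fun k _ => ?_
    rw [one_div]
  have h4 : Real.log K ≤ Real.log ((K + 1 : ℕ) : ℝ) := by
    apply Real.log_le_log
    · have : 0 < K := by omega
      exact_mod_cast this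
    · push_cast
      linarith
  rw [Finset.sum_add_distrib, h2, ← Finset.mul_sum] at h1
  linarith

theorem p_FI : SB_FI := by
  intro N A B hN
  set M : ℕ := 4 * N with hM
  have hM1 : 1 ≤ M := by omega
  have hM0 : (0 : ℝ) < M := by exact_mod_cast hM1
  have hMr : (M : ℝ) = 4 * N := by rw [hM]; push_cast; ring
  set a : ℤ := max A 0 with ha
  set b : ℤ := min (B + 1) M with hb
  refine ⟨pFI_c M a b, ?_, ?_⟩
  · refine (pFI_sum M (by omega) a b (le_max_right _ _) (min_le_right _ _)).trans ?_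
    have hNr : (1 : ℝ) ≤ N := by exact_mod_cast hN
    have h1 : Real.log M = Real.log 4 + Real.log N := by
      rw [hMr, Real.log_mul (by norm_num) (by linarith)]
    have h2 : Real.log 4 ≤ 2 := by
      have h3 : Real.log 4 = 2 * Real.log 2 := by
        rw [show (4 : ℝ) = 2 ^ 2 by norm_num, Real.log_pow]
        norm_num
      have h4 := Real.log_two_lt_d9
      rw [h3]
      linarith
    have h3 : 0 ≤ Real.log N := Real.log_nonneg hNr
    rw [h1]
    linarith
  · intro n hn0 hn1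
    have hn1' : n < M := by rw [hM]; push_cast; exact hn1
    have hterm : ∀ k ∈ range M, pFI_c M a b k * ee ((k : ℝ) / (4 * N) * n) =
        (1 / (M : ℂ)) * ∑ m ∈ Finset.Ico a b, ee ((k : ℝ) * (((n - m : ℤ) : ℝ) / M)) := by
      intro k _
      unfold pFI_c
      rw [mul_assoc, Finset.sum_mul]
      congr 1
      refine Finset.sum_congr rfl fun m _ => ?_
      rw [← ee_add, ← hMr]
      congr 1
      push_cast
      ring
    rw [Finset.sum_congr rfl hterm, ← Finset.mul_sum, Finset.sum_comm]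
    have hin : ∀ m ∈ Finset.Ico a b, ∑ k ∈ range M, ee ((k : ℝ) * (((n - m : ℤ) : ℝ) / M)) =
        if n = m then (M : ℂ) else 0 := by
      intro m hm
      rw [Finset.mem_Ico] at hm
      have hm0 : 0 ≤ m := (le_max_right _ _).trans hm.1
      have hm1 : m < M := lt_of_lt_of_le hm.2 (min_le_right _ _)
      rw [pFI_orth M hM1 (n - m) (by rw [abs_lt]; omega)]
      by_cases h : n = m
      · rw [if_pos h, if_pos (by omega)]
      · rw [if_neg h, if_neg (by omega)]
    rw [Finset.sum_congr rfl hin, Finset.sum_ite_eq]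
    have hMc : (M : ℂ) ≠ 0 := by
      have : M ≠ 0 := by omega
      exact_mod_cast this
    have hiff : n ∈ Finset.Ico a b ↔ A ≤ n ∧ n ≤ B := by
      rw [Finset.mem_Ico]
      constructor
      · rintro ⟨h1, h2⟩
        refine ⟨(le_max_left _ _).trans h1, ?_⟩
        have := lt_of_lt_of_le h2 (min_le_left _ _)
        omega
      · rintro ⟨h1, h2⟩
        exact ⟨max_le h1 hn0, lt_min (by omega) hn1'⟩
    by_cases h : A ≤ n ∧ n ≤ B
    · rw [if_pos h, if_pos (hiff.mpr h)]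
      field_simp
    · rw [if_neg h, if_neg (fun h' => h (hiff.mp h')), mul_zero]

end Pool.Agent.APP.B
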