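import Pool.Agent.Lib.MP_8a4e59_co.B.StmA

set_option autoImplicit false

/-!
Part B, steps 2-6 together: type II pieces.
-/

namespace Pool.Agent.APP.B

open Finset

private lemma ii_dp {d : ℝ} (hd : 0 < d) (hd2 : d ≤ 1 / 2) {a b n : ℕ} (h : b + n ≤ a) {c : ℝ}
    (hc : c ≤ 2 ^ n) : c * d ^ a ≤ d ^ b := by
  obtain ⟨k, rfl⟩ := Nat.exists_eq_add_of_le h
  have h1 : d ^ n * 2 ^ n ≤ 1 := by
    rw [← mul_pow]
    exact pow_le_one₀ (by positivity) (by linarith)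
  have h2 : d ^ k ≤ 1 := pow_le_one₀ hd.le (by linarith)
  have hb : 0 < d ^ b := by positivity
  have hn : 0 < d ^ n := by positivity
  have hk : 0 < d ^ k := by positivity
  have h3 : c * d ^ n ≤ 1 := by
    calc c * d ^ n ≤ 2 ^ n * d ^ n := mul_le_mul_of_nonneg_right hc hn.le
      _ = d ^ n * 2 ^ n := by ring
      _ ≤ 1 := h1
  calc c * d ^ (b + n + k) = d ^ b * ((c * d ^ n) * d ^ k) := by rw [pow_add, pow_add]; ring
    _ ≤ d ^ b * (1 * d ^ k) := by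
        apply mul_le_mul_of_nonneg_left _ hb.le
        exact mul_le_mul_of_nonneg_right h3 hk.le
    _ ≤ d ^ b * 1 := by
        apply mul_le_mul_of_nonneg_left _ hb.le
        linarith
    _ = d ^ b := mul_one _

/-- normalisation of the coefficients -/
private lemma ii_norm {d δ : ℝ} {N M : ℕ} {g : ℤ → ℂ} {H0 : Finset ℤ} {φ : ℤ → ℕ} {a b : ℕ → ℂ}
    {c : ℤ → ℂ} (hd : 0 < d) (h : TII d δ N M g H0 φ a b c) :
    TII (d ^ 3) δ N M g H0 φ (fun k => d * a k) (fun k => d * b k) c := by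
  obtain ⟨h1, h2⟩ := h
  refine ⟨h1, ?_⟩
  have e1 : ∀ n : ℤ, typeII M (fun k => (d : ℂ) * a k) (fun k => (d : ℂ) * b k) n =
      (d : ℂ) ^ 2 * typeII M a b n := by
    intro n
    unfold typeII
    rw [Finset.mul_sum]
    refine Finset.sum_congr rfl (fun m _ => ?_)
    split_ifs
    · ring
    · simp
  have e2 : (∑ h ∈ H0, c h * ∑ n ∈ Finset.Icc (1 : ℤ) N,
      (if δ * N ≤ (n : ℝ) then typeII M (fun k => (d : ℂ) * a k) (fun k => (d : ℂ) * b k) n else 0) *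
        (starRingEnd ℂ) (g (n + h)) * ee (φ h / (4 * N) * n)) =
      (d : ℂ) ^ 2 * ∑ h ∈ H0, c h * ∑ n ∈ Finset.Icc (1 : ℤ) N,
      (if δ * N ≤ (n : ℝ) then typeII M a b n else 0) *
        (starRingEnd ℂ) (g (n + h)) * ee (φ h / (4 * N) * n) := by
    rw [Finset.mul_sum]
    refine Finset.sum_congr rfl (fun h _ => ?_)
    rw [Finset.mul_sum, Finset.mul_sum, Finset.mul_sum]
    refine Finset.sum_congr rfl (fun n _ => ?_)
    split_ifs
    · rw [e1]; ring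
    · simp
  rw [e2, norm_mul, norm_pow, Complex.norm_real, Real.norm_of_nonneg hd.le]
  calc d ^ 3 * (N : ℝ) ^ 2 = d ^ 2 * (d * (N : ℝ) ^ 2) := by ring
    _ ≤ _ := mul_le_mul_of_nonneg_left h2 (by positivity)

/-- `H0 ⊆ (-N, N)` -/
private lemma ii_lt {d : ℝ} {N : ℕ} {g : ℤ → ℂ} {H0 : Finset ℤ} {φ : ℤ → ℕ} (hd : 0 < d)
    (hN : 1 ≤ N) (hg : Bd N g) (h : B0p d N g H0 φ) : ∀ h ∈ H0, |h| < (N : ℤ) := by
  intro a ha
  by_contra hcon
  have h3 := h.2.2 a ha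
  have h4 : cor N g a (φ a / (4 * N)) = 0 := by
    unfold cor
    apply Finset.sum_eq_zero
    intro x hx
    rw [Finset.mem_Icc] at hx
    have : g (x + a) = 0 := by
      by_contra hne
      have := hg.2 _ hne
      rw [not_lt, le_abs] at hcon
      omega
    rw [this]
    simp
  rw [h4, norm_zero] at h3
  have : (0 : ℝ) < N := by exact_mod_cast hN
  have := mul_pos hd this
  linarith

/-- steps 2a - 2d -/
private lemma ii_two (ha : SB_2a) (hb : SB_2b) (hc : SB_2c) (hR : SB_2R) (hd : SB_2d)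
    {d δ : ℝ} {N M : ℕ} {g : ℤ → ℂ} {H0 : Finset ℤ} {φ : ℤ → ℕ} {a b : ℕ → ℂ}
    {c : ℤ → ℂ} (h0 : 0 < d) (h1 : d ≤ 1 / 2) (hN : 1 ≤ N) (hg : Bd N g)
    (hlog : Real.log N ≤ 1 / d) (hB : B0p d N g H0 φ) (haa : ∀ k, ‖a k‖ ≤ 1 / d)
    (hbb : ∀ k, ‖b k‖ ≤ 1 / d) (hT : TII d δ N M g H0 φ a b c) (hM1 : 1 ≤ M) (hMN : M ≤ N)
    (hM : (M : ℝ) ≤ d ^ 18 * N / 8) :
    ∃ S : Finset ℤ, (∀ s ∈ S, s ≠ 0 ∧ |s| ≤ ((N / M : ℕ) : ℤ)) ∧
      d ^ 21 * ((N : ℝ) / M) ≤ (S.card : ℝ) ∧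
      ∀ s ∈ S, ∀ ℓ : ℕ, 1 ≤ ℓ → ℓ ≤ M → ∃ (h : ℤ) (u₀ : ℕ) (c₀ : ℝ) (V : Finset ℤ),
        V ⊆ Finset.Ico (u₀ : ℤ) ((u₀ : ℤ) + ℓ) ∧ d ^ 45 * ℓ ≤ (V.card : ℝ) ∧
        (∀ v ∈ V, h - s * v ∈ H0) ∧
        ∀ v ∈ V, nn ((v : ℝ) * ((φ h : ℝ) - φ (h - s * v)) / (4 * N) - c₀) ≤
          8 * M / (d ^ 40 * N) := by
  have hN0 : (0 : ℝ) < N := by exact_mod_cast hN
  have hM0 : (0 : ℝ) < M := by exact_mod_cast hM1
  have hlt := ii_lt h0 hN hg hB
  have hc1 := hT.1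
  have hb1 : ∀ (f : ℕ → ℂ), (∀ k, ‖f k‖ ≤ 1 / d) → ∀ k, ‖(d : ℂ) * f k‖ ≤ 1 := by
    intro f hf k
    rw [norm_mul, Complex.norm_real, Real.norm_of_nonneg h0.le]
    calc d * ‖f k‖ ≤ d * (1 / d) := mul_le_mul_of_nonneg_left (hf k) h0.le
      _ = 1 := by field_simp
  have hd3 : 0 < d ^ 3 := by positivity
  have hlog3 : Real.log N ≤ 1 / d ^ 3 := by
    refine hlog.trans ?_
    apply one_div_le_one_div_of_le hd3
    calc d ^ 3 ≤ d ^ 1 := pow_le_pow_of_le_one h0.le (by linarith) (by norm_num)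
      _ = d := pow_one d
  obtain ⟨k, hk⟩ := ha δ (d ^ 3) N M g H0 φ (fun k => d * a k) (fun k => d * b k) c hd3
    (pow_le_one₀ h0.le (by linarith)) hN hM1 hg hlog3 (hb1 a haa) (hb1 b hbb) (ii_norm h0 hT)
  have hk2 : d ^ 9 * (N : ℝ) ^ 2 ≤
      ‖BB N M g H0 (fun h => (φ h : ℤ) + k) (fun k => d * a k) (fun k => d * b k) c‖ := by
    refine le_trans ?_ hk
    apply mul_le_mul_of_nonneg_right _ (by positivity)
    have := ii_dp h0 h1 (a := 9) (b := 6) (n := 3) (by norm_num) (c := 8) (by norm_num)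
    rw [← pow_mul]
    norm_num
    linarith
  have h2 := hb (d ^ 9) N M g H0 (fun h => (φ h : ℤ) + k) (fun k => d * a k) (fun k => d * b k) c
    (by positivity) hN hM1 hg (hb1 a haa) (hb1 b hbb) hc1 hk2
  rw [← pow_mul] at h2
  obtain ⟨S, hS1, hS2, hS3⟩ := hc (d ^ 18) N M H0 (fun h => (φ h : ℤ) + k) c (by positivity) hN
    hM1 hc1 hlt hM h2
  refine ⟨S, hS1, le_trans ?_ hS2, ?_⟩
  · apply mul_le_mul_of_nonneg_right _ (by positivity)
    have := ii_dp h0 h1 (a := 21) (b := 18) (n := 3) (by norm_num) (c := 8) (by norm_num)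
    linarith
  · intro s hs ℓ hℓ1 hℓM
    have h3 := hS3 s hs
    have h4 : d ^ 40 * ((N : ℝ) ^ 3 * M) ≤
        ∑ n ∈ range (N / M + 1), ‖Ssn N M H0 (fun h => (φ h : ℤ) + k) c s n‖ ^ 2 := by
      refine le_trans ?_ h3
      apply mul_le_mul_of_nonneg_right _ (by positivity)
      have := ii_dp h0 h1 (a := 40) (b := 36) (n := 4) (by norm_num) (c := 16) (by norm_num)
      rw [← pow_mul]
      norm_num
      linarith
    obtain ⟨c₀, hc₀⟩ := hR (d ^ 40) N M H0 (fun h => (φ h : ℤ) + k) c s (by positivity) hM1 hMN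
      hc1 hlt h4
    obtain ⟨h, hh, u₀, hu⟩ := hd (d ^ 43) N M ℓ H0 _ (by positivity) hℓ1 hℓM hN hlt
      (Finset.filter_subset _ _) (le_trans (by
        apply mul_le_mul_of_nonneg_right _ (by positivity)
        have := ii_dp h0 h1 (a := 43) (b := 40) (n := 3) (by norm_num) (c := 8) (by norm_num)
        linarith) hc₀)
    refine ⟨h, u₀, c₀, ((Finset.Ico u₀ (u₀ + ℓ)).filter (fun m => (m, h) ∈
      (Finset.Ico M (2 * M) ×ˢ H0).filter (fun p : ℕ × ℤ => p.2 - s * p.1 ∈ H0 ∧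
      nn ((p.1 : ℝ) * ((((φ p.2 : ℤ) + k : ℤ) : ℝ) - (((φ (p.2 - s * p.1) : ℤ) + k : ℤ) : ℝ)) /
        (4 * N) - c₀) ≤ 8 * M / (d ^ 40 * N)))).image (fun m : ℕ => (m : ℤ)), ?_, ?_, ?_, ?_⟩
    · intro v hv
      rw [Finset.mem_image] at hv
      obtain ⟨m, hm, rfl⟩ := hv
      have := (Finset.mem_filter.1 hm).1
      rw [Finset.mem_Ico] at this ⊢
      omega
    · rw [Finset.card_image_of_injective _ Nat.cast_injective]
      refine le_trans ?_ hu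
      apply mul_le_mul_of_nonneg_right _ (by positivity)
      have := ii_dp h0 h1 (a := 45) (b := 43) (n := 2) (by norm_num) (c := 4) (by norm_num)
      linarith
    · intro v hv
      rw [Finset.mem_image] at hv
      obtain ⟨m, hm, rfl⟩ := hv
      have := (Finset.mem_filter.1 (Finset.mem_filter.1 hm).2).2
      exact this.1
    · intro v hv
      rw [Finset.mem_image] at hv
      obtain ⟨m, hm, rfl⟩ := hv
      have := (Finset.mem_filter.1 (Finset.mem_filter.1 hm).2).2.2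
      refine le_trans (le_of_eq ?_) this
      congr 1
      push_cast
      ring

/-- steps 2-5 -/
private lemma ii_five (ha : SB_2a) (hb : SB_2b) (hc : SB_2c) (hR : SB_2R) (hd : SB_2d)
    (h34 : SB_34) (h5 : SB_5)
    {d δ : ℝ} {N M : ℕ} {g : ℤ → ℂ} {H0 : Finset ℤ} {φ : ℤ → ℕ} {a b : ℕ → ℂ}
    {c : ℤ → ℂ} (h0 : 0 < d) (h1 : d ≤ 1 / 2) (hN : 1 ≤ N) (hg : Bd N g)
    (hlog : Real.log N ≤ 1 / d) (hB : B0p d N g H0 φ) (haa : ∀ k, ‖a k‖ ≤ 1 / d)
    (hbb : ∀ k, ‖b k‖ ≤ 1 / d) (hT : TII d δ N M g H0 φ a b c) (hM1 : (1 / d) ^ 10000 ≤ (M : ℝ))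
    (hM2 : M ^ 2 ≤ 4 * N) :
    ∃ (q : ℕ) (AA : Finset ℤ) (ξ : ℤ → ℝ), 1 ≤ q ∧ (q : ℝ) ≤ (1 / d) ^ 5760 ∧
      (∀ a ∈ AA, |a| ≤ (N : ℤ)) ∧ d ^ 15533 * N ≤ (AA.card : ℝ) ∧
      ∀ a ∈ AA, d ^ 15533 * N ≤ ‖cor N g a (ξ a)‖ ∧ nn (q * ξ a) ≤ (1 / d) ^ 14174 / N := by
  have hz2 : (2 : ℝ) ≤ 1 / d := by rw [le_div_iff₀ h0]; linarith
  have hz0 : (0 : ℝ) < 1 / d := by positivity
  have hN0 : (0 : ℝ) < N := by exact_mod_cast hN
  have hM0 : (0 : ℝ) < M := lt_of_lt_of_le (by positivity) hM1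
  have hM1' : 1 ≤ M := by
    have : (0 : ℝ) < M := hM0
    exact_mod_cast this
  have hM2' : (M : ℝ) ^ 2 ≤ 4 * N := by exact_mod_cast hM2
  -- `1 ≤ d ^ a * M` for `a ≤ 10000`
  have hdM : ∀ n : ℕ, n ≤ 10000 → ∀ (c : ℝ), 0 ≤ c → ∀ m : ℕ, c ≤ 2 ^ m → n + m ≤ 10000 →
      c ≤ d ^ n * M := by
    intro n hn c hc0 m hcm hnm
    have e1 : c * d ^ (10000 - n) ≤ 1 := by
      have := ii_dp h0 h1 (a := 10000 - n) (b := 0) (n := m) (by omega) (c := c) hcm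
      simpa using this
    have e2 : d ^ 10000 * (1 / d) ^ 10000 = 1 := by
      rw [← mul_pow]
      have : d * (1 / d) = 1 := by field_simp
      rw [this, one_pow]
    have e3 : d ^ 10000 = d ^ (10000 - n) * d ^ n := by
      rw [← pow_add]; congr 1; omega
    have e4 : 1 ≤ d ^ 10000 * M := by
      rw [← e2]
      exact mul_le_mul_of_nonneg_left hM1 (by positivity)
    have e5 : 0 < d ^ (10000 - n) := by positivity
    have e6 : c * d ^ (10000 - n) ≤ d ^ (10000 - n) * (d ^ n * M) := by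
      calc c * d ^ (10000 - n) ≤ 1 := e1
        _ ≤ d ^ 10000 * M := e4
        _ = d ^ (10000 - n) * (d ^ n * M) := by rw [e3]; ring
    rw [mul_comm c] at e6
    exact le_of_mul_le_mul_left e6 e5
  have hMN : (M : ℝ) * M ≤ 4 * N := by nlinarith
  have hM4 : (4 : ℝ) ≤ M := by
    have := hdM 0 (by norm_num) 4 (by norm_num) 2 (by norm_num) (by norm_num)
    simpa using this
  have hMleN : (M : ℝ) ≤ N := by nlinarith
  have hMleN' : M ≤ N := by exact_mod_cast hMleN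
  have hM18 : (M : ℝ) ≤ d ^ 18 * N / 8 := by
    have h := hdM 18 (by norm_num) 32 (by norm_num) 5 (by norm_num) (by norm_num)
    have h' : 32 * (M : ℝ) ≤ d ^ 18 * M * M := mul_le_mul_of_nonneg_right h hM0.le
    have h'' : d ^ 18 * (M * M) ≤ d ^ 18 * (4 * N) := mul_le_mul_of_nonneg_left hMN (by positivity)
    nlinarith
  obtain ⟨S, hS1, hS2, hS3⟩ := ii_two ha hb hc hR hd h0 h1 hN hg hlog hB haa hbb hT hM1' hMleN'
    hM18
  -- the length `ℓ`
  obtain ⟨ℓ, hℓdef⟩ : ∃ ℓ : ℕ, ℓ = ⌊d ^ 2430 * (M : ℝ)⌋₊ := ⟨_, rfl⟩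
  have hx2 := hdM 2430 (by norm_num) 2 (by norm_num) 1 (by norm_num) (by norm_num)
  have hℓ1 : (ℓ : ℝ) ≤ d ^ 2430 * M := by
    rw [hℓdef]; exact Nat.floor_le (by positivity)
  have hℓ2 : d ^ 2430 * (M : ℝ) < ℓ + 1 := by
    rw [hℓdef]; exact Nat.lt_floor_add_one _
  have hℓ3 : (1 : ℝ) < ℓ := by linarith
  have hℓ4 : 1 ≤ ℓ := by
    have : (1 : ℝ) ≤ ℓ := hℓ3.le
    exact_mod_cast this
  have hℓ0 : (0 : ℝ) < ℓ := by linarith
  have hℓ5 : d ^ 2431 * (M : ℝ) ≤ ℓ := by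
    have : d ^ 2431 * (M : ℝ) ≤ (d ^ 2430 * M) / 2 := by
      rw [pow_succ]
      have : 0 < d ^ 2430 * (M : ℝ) := by positivity
      nlinarith
    linarith
  have hℓM : ℓ ≤ M := by
    have : (ℓ : ℝ) ≤ M := by
      refine hℓ1.trans ?_
      have : d ^ 2430 ≤ 1 := pow_le_one₀ h0.le (by linarith)
      nlinarith
    exact_mod_cast this
  -- `κ`
  obtain ⟨κ, hκ⟩ : ∃ κ : ℝ, κ = 8 * M / (d ^ 40 * N) := ⟨_, rfl⟩
  have hκ0 : 0 < κ := by rw [hκ]; positivity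
  have hκ1 : κ * (d ^ 40 * N) = 8 * M := by
    rw [hκ]; field_simp
  -- `κ M ≤ 32 d^{-40}`
  have hκM : κ * M * d ^ 40 ≤ 32 := by
    have : κ * (d ^ 40 * N) * M = 8 * (M * M) := by rw [hκ1]; ring
    have h2 : κ * M * d ^ 40 * N ≤ 32 * N := by nlinarith
    exact le_of_mul_le_mul_right h2 hN0
  have hD0 : 0 < d ^ 45 := by positivity
  have hD1 : d ^ 45 ≤ 1 / 2 := by
    have := ii_dp h0 h1 (a := 45) (b := 0) (n := 1) (by norm_num) (c := 2) (by norm_num)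
    simp at this
    linarith
  have hcond1 : (1 / d ^ 45) ^ 165 ≤ (ℓ : ℝ) := by
    have h := hdM 9856 (by norm_num) 1 (by norm_num) 0 (by norm_num) (by norm_num)
    have e1 : (1 / d ^ 45) ^ 165 = 1 / d ^ 7425 := by
      rw [div_pow, one_pow, ← pow_mul]
    rw [e1, div_le_iff₀ (by positivity)]
    calc (1 : ℝ) ≤ d ^ 9856 * M := h
      _ = d ^ 2431 * M * d ^ 7425 := by
          have : d ^ 9856 = d ^ 2431 * d ^ 7425 := by rw [← pow_add]
          rw [this]; ring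
      _ ≤ ℓ * d ^ 7425 := mul_le_mul_of_nonneg_right hℓ5 (by positivity)
  have hcond2 : (ℓ : ℝ) * κ ≤ (d ^ 45) ^ 53 := by
    have e1 : (d ^ 45) ^ 53 = d ^ 2385 := by rw [← pow_mul]
    have e2 : d ^ 2430 = d ^ 2390 * d ^ 40 := by rw [← pow_add]
    rw [e1]
    calc (ℓ : ℝ) * κ ≤ d ^ 2430 * M * κ := mul_le_mul_of_nonneg_right hℓ1 hκ0.le
      _ = d ^ 2390 * (κ * M * d ^ 40) := by rw [e2]; ring
      _ ≤ d ^ 2390 * 32 := mul_le_mul_of_nonneg_left hκM (by positivity)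
      _ = 32 * d ^ 2390 := by ring
      _ ≤ d ^ 2385 := ii_dp h0 h1 (a := 2390) (b := 2385) (n := 5) (by norm_num) (by norm_num)
  have hcond3 : κ ≤ (d ^ 45) ^ 181 := by
    have e1 : (d ^ 45) ^ 181 = d ^ 8145 := by rw [← pow_mul]
    have h := hdM 8185 (by norm_num) 32 (by norm_num) 5 (by norm_num) (by norm_num)
    have e2 : d ^ 8185 = d ^ 8145 * d ^ 40 := by rw [← pow_add]
    rw [e1]
    have h2 : κ * (M * d ^ 40) ≤ d ^ 8145 * (M * d ^ 40) := by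
      calc κ * (M * d ^ 40) = κ * M * d ^ 40 := by ring
        _ ≤ 32 := hκM
        _ ≤ d ^ 8185 * M := h
        _ = d ^ 8145 * (M * d ^ 40) := by rw [e2]; ring
    exact le_of_mul_le_mul_right h2 (by positivity)
  -- step 3, 4 for every `s`
  have h6 : ∀ s ∈ S, ∃ (U : Finset ℤ) (D : ℤ → ℤ) (q : ℤ → ℕ),
      (∀ u ∈ U, u ≠ 0 ∧ |u| ≤ (ℓ : ℤ)) ∧ (d ^ 45) ^ 7 * ℓ ≤ (U.card : ℝ) ∧
      ∀ u ∈ U, (d ^ 45) ^ 3 * N ≤ ‖cor N g (-(s * u)) ((D u : ℝ) / (4 * N))‖ ∧ 1 ≤ q u ∧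
      (q u : ℝ) ≤ (1 / d ^ 45) ^ 128 ∧
      nn (q u * ((D u : ℝ) / (4 * N))) ≤ κ * (1 / d ^ 45) ^ 260 / ℓ := by
    intro s hs
    obtain ⟨h, u₀, c₀, V, hV1, hV2, hV3, hV4⟩ := hS3 s hs ℓ hℓ4 hℓM
    refine h34 N g (d ^ 45) κ c₀ ℓ u₀ h s (φ h) V (fun v => (φ (h - s * v) : ℤ)) hN hg hD0 hD1
      hκ0.le hV1 hV2 ?_ ?_ hcond1 hcond2 hcond3
    · intro v hv
      have := hB.2.2 _ (hV3 v hv)
      refine le_trans ?_ (le_trans this (le_of_eq ?_))
      · apply mul_le_mul_of_nonneg_right _ hN0.le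
        calc d ^ 45 ≤ d ^ 1 := pow_le_pow_of_le_one h0.le (by linarith) (by norm_num)
          _ = d := pow_one d
      · simp
    · intro v hv
      have := hV4 v hv
      rw [← hκ] at this
      simpa using this
  choose! U D q hU1 hU2 hU3 using h6
  -- step 5
  obtain ⟨Q, hQdef⟩ : ∃ Q : ℕ, Q = ⌊(1 / d) ^ 5760⌋₊ := ⟨_, rfl⟩
  have hQ1 : (Q : ℝ) ≤ (1 / d) ^ 5760 := by
    rw [hQdef]; exact Nat.floor_le (by positivity)
  have hQ2 : 1 ≤ Q := by
    rw [hQdef]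
    apply Nat.le_floor
    push_cast
    exact one_le_pow₀ (by linarith)
  have hQ0 : (0 : ℝ) < Q := by
    have : (1 : ℝ) ≤ Q := by exact_mod_cast hQ2
    linarith
  have hlog5 : Real.log N ≤ 1 / d ^ 315 := by
    refine hlog.trans ?_
    apply one_div_le_one_div_of_le (by positivity)
    calc d ^ 315 ≤ d ^ 1 := pow_le_pow_of_le_one h0.le (by linarith) (by norm_num)
      _ = d := pow_one d
  have e315 : (d ^ 45) ^ 7 = d ^ 315 := by rw [← pow_mul]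
  have e135 : (d ^ 45) ^ 3 = d ^ 135 := by rw [← pow_mul]
  have e5760 : (1 / d ^ 45) ^ 128 = (1 / d) ^ 5760 := by
    rw [div_pow, div_pow, one_pow, one_pow, ← pow_mul]
  obtain ⟨q', AA, ξ, hq1, hq2, hA1, hA2, hA3⟩ := h5 N M ℓ Q g (d ^ 315) (d ^ 135)
    (κ * (1 / d ^ 45) ^ 260 / ℓ) S U D q hℓ4 hℓM hMleN' hQ2 (by positivity)
    (pow_le_one₀ h0.le (by linarith)) hlog5 hS1 (le_trans (by
      apply mul_le_mul_of_nonneg_right _ (by positivity)
      exact pow_le_pow_of_le_one h0.le (by linarith) (by norm_num)) hS2) (by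
    intro s hs
    refine ⟨hU1 s hs, ?_, ?_⟩
    · have := hU2 s hs
      rwa [e315] at this
    · intro u hu
      obtain ⟨t1, t2, t3, t4⟩ := hU3 s hs u hu
      rw [e135] at t1
      refine ⟨t1, t2, ?_, t4⟩
      rw [hQdef]
      apply Nat.le_floor
      rw [e5760] at t3
      exact t3)
  have hq2' : (q' : ℝ) ≤ (1 / d) ^ 5760 := by
    have : (q' : ℝ) ≤ Q := by exact_mod_cast hq2
    linarith
  refine ⟨q', AA, ξ, hq1, hq2', hA1, ?_, ?_⟩
  · refine le_trans ?_ hA2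
    -- `d^15533 N ≤ d^1575 (ℓ/M) N / (128 Q^2)`
    have e1 : (Q : ℝ) ^ 2 ≤ (1 / d) ^ 11520 := by
      calc (Q : ℝ) ^ 2 ≤ ((1 / d) ^ 5760) ^ 2 := by
            apply pow_le_pow_left₀ hQ0.le hQ1
        _ = (1 / d) ^ 11520 := by rw [← pow_mul]
    have e2 : d ^ 11520 * (1 / d) ^ 11520 = 1 := by
      rw [← mul_pow]
      have : d * (1 / d) = 1 := by field_simp
      rw [this, one_pow]
    have e3 : d ^ 11520 * (Q : ℝ) ^ 2 ≤ 1 := by
      rw [← e2]; exact mul_le_mul_of_nonneg_left e1 (by positivity)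
    have e4 : d ^ 2431 ≤ (ℓ : ℝ) / M := by
      rw [le_div_iff₀ hM0]; exact hℓ5
    rw [le_div_iff₀ (by positivity)]
    have e5 : (d ^ 315) ^ 5 = d ^ 1575 := by rw [← pow_mul]
    have e6 : d ^ 15533 = d ^ 1575 * d ^ 2431 * (d ^ 7) * d ^ 11520 := by
      rw [← pow_add, ← pow_add, ← pow_add]
    have e7 : 128 * d ^ 7 ≤ 1 := by
      have := ii_dp h0 h1 (a := 7) (b := 0) (n := 7) (by norm_num) (c := 128) (by norm_num)
      simpa using this
    rw [e5, e6]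
    calc d ^ 1575 * d ^ 2431 * (d ^ 7) * d ^ 11520 * N * (128 * (Q : ℝ) ^ 2)
        = (d ^ 1575 * d ^ 2431 * N) * ((128 * d ^ 7) * (d ^ 11520 * (Q : ℝ) ^ 2)) := by ring
      _ ≤ (d ^ 1575 * d ^ 2431 * N) * (1 * 1) := by
          apply mul_le_mul_of_nonneg_left _ (by positivity)
          exact mul_le_mul e7 e3 (by positivity) (by norm_num)
      _ = d ^ 1575 * d ^ 2431 * N := by ring
      _ ≤ d ^ 1575 * (ℓ / M) * N := by
          apply mul_le_mul_of_nonneg_right _ hN0.le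
          exact mul_le_mul_of_nonneg_left e4 (by positivity)
  · intro x hx
    obtain ⟨t1, t2⟩ := hA3 x hx
    refine ⟨le_trans ?_ t1, t2.trans ?_⟩
    · apply mul_le_mul_of_nonneg_right _ hN0.le
      exact pow_le_pow_of_le_one h0.le (by linarith) (by norm_num)
    · have e1 : (1 / d ^ 45) ^ 260 = (1 / d) ^ 11700 := by
        rw [div_pow, div_pow, one_pow, one_pow, ← pow_mul]
      rw [e1, div_le_div_iff₀ hℓ0 hN0]
      -- κ N ≤ 8 M / d^40 ; 
      have e2 : κ * N * d ^ 40 = 8 * M := by rw [← hκ1]; ring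
      have e3 : (1 / d) ^ 14174 = (1 / d) ^ 11700 * (1 / d) ^ 2431 * (1 / d) ^ 40 * (1 / d) ^ 3 := by
        rw [← pow_add, ← pow_add, ← pow_add]
      have hp : ∀ n : ℕ, d ^ n * (1 / d) ^ n = 1 := by
        intro n
        rw [← mul_pow]
        have : d * (1 / d) = 1 := by field_simp
        rw [this, one_pow]
      have e4 : κ * N = 8 * M * (1 / d) ^ 40 := by
        calc κ * N = κ * N * (d ^ 40 * (1 / d) ^ 40) := by rw [hp]; ring
          _ = (κ * N * d ^ 40) * (1 / d) ^ 40 := by ring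
          _ = _ := by rw [e2]
      have e5 : (8 : ℝ) ≤ (1 / d) ^ 3 := by
        calc (8 : ℝ) = 2 ^ 3 := by norm_num
          _ ≤ (1 / d) ^ 3 := pow_le_pow_left₀ (by norm_num) hz2 3
      have e6 : (M : ℝ) ≤ (1 / d) ^ 2431 * ℓ := by
        calc (M : ℝ) = (d ^ 2431 * (1 / d) ^ 2431) * M := by rw [hp]; ring
          _ = (1 / d) ^ 2431 * (d ^ 2431 * M) := by ring
          _ ≤ (1 / d) ^ 2431 * ℓ := mul_le_mul_of_nonneg_left hℓ5 (by positivity)
      calc κ * (1 / d) ^ 11700 * N = (κ * N) * (1 / d) ^ 11700 := by ring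
        _ = 8 * (M * ((1 / d) ^ 40 * (1 / d) ^ 11700)) := by rw [e4]; ring
        _ ≤ (1 / d) ^ 3 * (((1 / d) ^ 2431 * ℓ) * ((1 / d) ^ 40 * (1 / d) ^ 11700)) := by
            apply mul_le_mul e5 _ (by positivity) (by positivity)
            exact mul_le_mul_of_nonneg_right e6 (by positivity)
        _ = (1 / d) ^ 14174 * ℓ := by rw [e3]; ring

theorem p_II (ha : SB_2a) (hb : SB_2b) (hc : SB_2c) (hR : SB_2R) (hd : SB_2d)
    (h34 : SB_34) (h5 : SB_5) (h6 : S_U2) : SB_II := by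
  obtain ⟨K6, h6⟩ := h6
  refine ⟨15533 * K6 + 40000, ?_⟩
  intro d δ N q₀ M X₁ g H0 φ a b c h0 h1 hq₀ hX₁ hN hg hlog hB haa hbb hT hM1 hM2
  have hz2 : (2 : ℝ) ≤ 1 / d := by rw [le_div_iff₀ h0]; linarith
  have hz1 : (1 : ℝ) ≤ 1 / d := by linarith
  have hN0 : (0 : ℝ) < N := by exact_mod_cast hN
  have hp : ∀ n : ℕ, d ^ n * (1 / d) ^ n = 1 := by
    intro n
    rw [← mul_pow]
    have : d * (1 / d) = 1 := by field_simp
    rw [this, one_pow]
  have hM10000 : (1 / d) ^ 10000 ≤ (M : ℝ) :=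
    le_trans (pow_le_pow_right₀ hz1 (by omega)) hM1
  obtain ⟨q, AA, ξ, hq1, hq2, hA1, hA2, hA3⟩ := ii_five ha hb hc hR hd h34 h5 h0 h1 hN hg hlog hB
    haa hbb hT hM10000 hM2
  have hM0 : (0 : ℝ) < M := lt_of_lt_of_le (by positivity) hM1
  have hM2' : (M : ℝ) ^ 2 ≤ 4 * N := by exact_mod_cast hM2
  have hM4 : (4 : ℝ) ≤ M := by
    calc (4 : ℝ) = 2 ^ 2 := by norm_num
      _ ≤ (1 / d) ^ 2 := pow_le_pow_left₀ (by norm_num) hz2 2
      _ ≤ (1 / d) ^ 10000 := pow_le_pow_right₀ hz1 (by norm_num)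
      _ ≤ M := hM10000
  have hNbig : (1 / d) ^ (15533 * K6 + 40000) ≤ (N : ℝ) := by
    refine hM1.trans ?_
    nlinarith
  have hq0 : (0 : ℝ) < q := by exact_mod_cast hq1
  have hq1' : (1 : ℝ) ≤ q := by exact_mod_cast hq1
  -- the length `H`
  obtain ⟨H, hHdef⟩ : ∃ H : ℕ, H = ⌊d ^ 29712 * (N : ℝ)⌋₊ := ⟨_, rfl⟩
  have hbigN : ∀ n m : ℕ, n + m ≤ 15533 * K6 + 40000 → (1 / d) ^ m ≤ d ^ n * N := by
    intro n m hnm
    have : (1 / d) ^ (n + m) ≤ (N : ℝ) := le_trans (pow_le_pow_right₀ hz1 hnm) hNbig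
    calc (1 / d) ^ m = d ^ n * (1 / d) ^ n * (1 / d) ^ m := by rw [hp]; ring
      _ = d ^ n * (1 / d) ^ (n + m) := by rw [pow_add]; ring
      _ ≤ d ^ n * N := mul_le_mul_of_nonneg_left this (by positivity)
  have hx2 : (2 : ℝ) ≤ d ^ 29712 * N := by
    have := hbigN 29712 1 (by omega)
    rw [pow_one] at this
    linarith
  have hH1 : (H : ℝ) ≤ d ^ 29712 * N := by
    rw [hHdef]; exact Nat.floor_le (by positivity)
  have hH2 : d ^ 29712 * (N : ℝ) < H + 1 := by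
    rw [hHdef]; exact Nat.lt_floor_add_one _
  have hH3 : (1 : ℝ) < H := by linarith
  have hH0 : (0 : ℝ) < H := by linarith
  have hH5 : d ^ 29713 * (N : ℝ) ≤ H := by
    have : d ^ 29713 * (N : ℝ) ≤ (d ^ 29712 * N) / 2 := by
      rw [pow_succ]
      have : 0 < d ^ 29712 * (N : ℝ) := by positivity
      nlinarith
    linarith
  have hHN : H ≤ N := by
    have : (H : ℝ) ≤ N := by
      refine hH1.trans ?_
      have : d ^ 29712 ≤ 1 := pow_le_one₀ h0.le (by linarith)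
      nlinarith
    exact_mod_cast this
  have hE0 : 0 < d ^ 15533 := by positivity
  have hE1 : d ^ 15533 ≤ 1 / 2 := by
    have := ii_dp h0 h1 (a := 15533) (b := 0) (n := 1) (by norm_num) (c := 2) (by norm_num)
    simp at this
    linarith
  obtain ⟨Ξ, hΞ⟩ := h6 (d ^ 15533) N q H N 1 g 0 0 AA ξ hE0 hE1 hg le_rfl (one_dvd _) hq1 hHN
    le_rfl (by
      have e1 : (1 / d ^ 15533) ^ K6 = (1 / d) ^ (15533 * K6) := by
        rw [div_pow, div_pow, one_pow, one_pow, ← pow_mul]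
      rw [e1]
      calc (1 / d) ^ (15533 * K6) * q ≤ (1 / d) ^ (15533 * K6) * (1 / d) ^ 5760 :=
            mul_le_mul_of_nonneg_left hq2 (by positivity)
        _ = (1 / d) ^ (15533 * K6 + 5760) := by rw [pow_add]
        _ ≤ d ^ 29713 * N := hbigN 29713 (15533 * K6 + 5760) (by omega)
        _ ≤ H := hH5) (by
      intro x hx
      refine ⟨by simp, ?_⟩
      simpa using hA1 x hx) (by simpa using hA2) (by
      intro x hx
      obtain ⟨t1, t2⟩ := hA3 x hx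
      refine ⟨t1, ?_⟩
      rw [sub_zero]
      refine t2.trans ?_
      rw [div_le_div_iff₀ hN0 (by positivity)]
      have e1 : (32 : ℝ) ≤ (1 / d) ^ 5 := by
        calc (32 : ℝ) = 2 ^ 5 := by norm_num
          _ ≤ (1 / d) ^ 5 := pow_le_pow_left₀ (by norm_num) hz2 5
      have e2 : d ^ 29712 = d ^ 15533 * d ^ 14174 * d ^ 5 := by
        rw [← pow_add, ← pow_add]
      calc (1 / d) ^ 14174 * (20 * H) ≤ (1 / d) ^ 14174 * ((1 / d) ^ 5 * (d ^ 29712 * N)) := by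
            apply mul_le_mul_of_nonneg_left _ (by positivity)
            exact mul_le_mul (by linarith) hH1 hH0.le (by positivity)
        _ = d ^ 15533 * (d ^ 14174 * (1 / d) ^ 14174) * (d ^ 5 * (1 / d) ^ 5) * N := by
            rw [e2]; ring
        _ = d ^ 15533 * 1 * N := by rw [hp, hp]; ring
        _ ≤ d ^ 15533 * q * N := by
            apply mul_le_mul_of_nonneg_right _ hN0.le
            exact mul_le_mul_of_nonneg_left hq1' hE0.le)
  refine ⟨q, H, Ξ, hq1, ?_, ?_, hHN, ?_⟩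
  · have hq₀' : (1 : ℝ) ≤ q₀ := by exact_mod_cast hq₀
    calc (q : ℝ) ≤ (1 / d) ^ 5760 := hq2
      _ ≤ (1 / d) ^ (15533 * K6 + 40000) := pow_le_pow_right₀ hz1 (by omega)
      _ = (1 / d) ^ (15533 * K6 + 40000) * 1 := by ring
      _ ≤ (1 / d) ^ (15533 * K6 + 40000) * (q₀ * X₁) := by
          apply mul_le_mul_of_nonneg_left _ (by positivity)
          nlinarith
  · refine le_trans ?_ hH5
    apply mul_le_mul_of_nonneg_right _ hN0.le
    exact pow_le_pow_of_le_one h0.le (by linarith) (by omega)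
  · refine le_trans ?_ hΞ
    apply mul_le_mul_of_nonneg_right _ (by positivity)
    rw [← pow_mul]
    exact pow_le_pow_of_le_one h0.le (by linarith) (by omega)

end Pool.Agent.APP.B
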