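import Pool.Agent.Lib.MP_8a4e59_co.B.StmA

set_option autoImplicit false

namespace Pool.Agent.APP.B

open Finset

private lemma T1_expand {ι : Type} (T : Finset ι) (z : ι → ℂ) (θ : ι → ℝ) (J : ℕ)
    (hz : ∀ t ∈ T, ‖z t‖ ≤ 1) :
    ∑ j ∈ range J, ‖∑ t ∈ T, z t * ee ((j : ℝ) * θ t)‖ ^ 2 ≤
      ∑ t' ∈ T, ∑ t ∈ T, ‖∑ j ∈ range J, ee (j * (θ t - θ t'))‖ := by
  have h1 : ((∑ j ∈ range J, ‖∑ t ∈ T, z t * ee ((j : ℝ) * θ t)‖ ^ 2 : ℝ) : ℂ) =
      ∑ t' ∈ T, ∑ t ∈ T, (starRingEnd ℂ) (z t') * z t * ∑ j ∈ range J, ee (j * (θ t - θ t')) := by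
    push_cast
    have h2 : ∀ j ∈ range J, ((‖∑ t ∈ T, z t * ee ((j : ℝ) * θ t)‖ : ℝ) : ℂ) ^ 2 =
        ∑ t' ∈ T, ∑ t ∈ T, (starRingEnd ℂ) (z t') * z t * ee (j * (θ t - θ t')) := by
      intro j _
      rw [← Complex.conj_mul', map_sum, Finset.sum_mul_sum]
      refine Finset.sum_congr rfl (fun t' _ => Finset.sum_congr rfl (fun t _ => ?_))
      rw [map_mul, mul_sub, ee_sub]
      ring
    rw [Finset.sum_congr rfl h2, Finset.sum_comm]
    refine Finset.sum_congr rfl (fun t' _ => ?_)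
    rw [Finset.sum_comm]
    refine Finset.sum_congr rfl (fun t _ => ?_)
    rw [Finset.mul_sum]
  have h3 : ∑ j ∈ range J, ‖∑ t ∈ T, z t * ee ((j : ℝ) * θ t)‖ ^ 2 =
      ‖((∑ j ∈ range J, ‖∑ t ∈ T, z t * ee ((j : ℝ) * θ t)‖ ^ 2 : ℝ) : ℂ)‖ := by
    rw [Complex.norm_real, Real.norm_of_nonneg (Finset.sum_nonneg (fun _ _ => by positivity))]
  rw [h3, h1]
  refine (norm_sum_le _ _).trans (Finset.sum_le_sum (fun t' ht' => ?_))
  refine (norm_sum_le _ _).trans (Finset.sum_le_sum (fun t ht => ?_))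
  rw [norm_mul, norm_mul, RCLike.norm_conj]
  have ha := hz t' ht'
  have hb := hz t ht
  have hab : ‖z t'‖ * ‖z t‖ ≤ 1 := by
    calc ‖z t'‖ * ‖z t‖ ≤ 1 * 1 := mul_le_mul ha hb (norm_nonneg _) zero_le_one
      _ = 1 := mul_one _
  calc ‖z t'‖ * ‖z t‖ * ‖∑ j ∈ range J, ee (j * (θ t - θ t'))‖
      ≤ 1 * ‖∑ j ∈ range J, ee (j * (θ t - θ t'))‖ :=
        mul_le_mul_of_nonneg_right hab (norm_nonneg _)
    _ = _ := one_mul _

theorem p_T1 : SB_T1 := by
  intro ι T z θ d Tm J hd hJ hTm hT hz hmain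
  classical
  by_contra hcon
  push Not at hcon
  have hJ0 : (0 : ℝ) < J := by exact_mod_cast hJ
  have hle := hmain.trans (T1_expand T z θ J hz)
  have hTne : T.Nonempty := by
    rw [Finset.nonempty_iff_ne_empty]
    rintro rfl
    rw [Finset.sum_empty] at hle
    have : 0 < d * J * Tm ^ 2 := by positivity
    linarith
  have hinner : ∀ t' ∈ T, ∑ t ∈ T, ‖∑ j ∈ range J, ee (j * (θ t - θ t'))‖ <
      d / 2 * Tm * J + Tm * (d * J / 2) := by
    intro t' ht'
    have hnear := hcon t' ht'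
    have hpt : ∀ t ∈ T, ‖∑ j ∈ range J, ee (j * (θ t - θ t'))‖ ≤
        (if nn (θ t - θ t') ≤ 1 / (d * J) then (J : ℝ) else 0) + d * J / 2 := by
      intro t _
      split_ifs with h
      · have := norm_geom_le_card J (θ t - θ t')
        have h2 : 0 < d * J / 2 := by positivity
        linarith
      · push Not at h
        have h1 := norm_geom_mul_le J (θ t - θ t')
        rw [zero_add]
        by_contra h3
        push Not at h3
        have h4 : 0 < 1 / (d * J) := by positivity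
        have h5 : d * J / 2 * (2 * (1 / (d * J))) = 1 := by field_simp
        have h6 : d * J / 2 * (2 * (1 / (d * J))) <
            ‖∑ j ∈ range J, ee (j * (θ t - θ t'))‖ * (2 * nn (θ t - θ t')) := by
          apply mul_lt_mul'' h3 (by linarith) (by positivity) (by positivity)
        linarith
    have hs := Finset.sum_le_sum hpt
    rw [Finset.sum_add_distrib, ← Finset.sum_filter, Finset.sum_const, Finset.sum_const,
      nsmul_eq_mul, nsmul_eq_mul] at hs
    have h2 : 0 < d * J / 2 := by positivity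
    have h7 := mul_lt_mul_of_pos_right hnear hJ0
    have h8 := mul_le_mul_of_nonneg_right hT h2.le
    linarith
  have hsum := Finset.sum_lt_sum_of_nonempty hTne hinner
  rw [Finset.sum_const, nsmul_eq_mul] at hsum
  have h9 : (T.card : ℝ) * (d / 2 * Tm * J + Tm * (d * J / 2)) ≤
      Tm * (d / 2 * Tm * J + Tm * (d * J / 2)) :=
    mul_le_mul_of_nonneg_right hT (by positivity)
  have h10 : Tm * (d / 2 * Tm * J + Tm * (d * J / 2)) = d * J * Tm ^ 2 := by ring
  linarith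

end Pool.Agent.APP.B
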