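import Pool.Agent.Lib.MP_8a4e59_co.B.StmA
import Pool.Agent.Lib.MP_8a4e59_co.Basic

set_option autoImplicit false

/-!
(T3) Vinogradov's lemma.
-/

namespace Pool.Agent.APP.B

open Finset

/-- number of integers in a real interval -/
private lemma PT3_cnt (S : Finset ℤ) (c ρ : ℝ) (hρ : 0 ≤ ρ) (h : ∀ k ∈ S, |(k : ℝ) - c| ≤ ρ) :
    (S.card : ℝ) ≤ 2 * ρ + 1 := by
  have hsub : S ⊆ Finset.Icc ⌈c - ρ⌉ ⌊c + ρ⌋ := by
    intro k hk
    have h1 := abs_le.1 (h k hk)
    rw [Finset.mem_Icc, Int.ceil_le, Int.le_floor]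
    constructor <;> linarith
  have h2 := Finset.card_le_card hsub
  rw [Int.card_Icc] at h2
  have h3 : (S.card : ℝ) ≤ ((⌊c + ρ⌋ + 1 - ⌈c - ρ⌉).toNat : ℝ) := by exact_mod_cast h2
  refine h3.trans ?_
  rcases le_total 0 (⌊c + ρ⌋ + 1 - ⌈c - ρ⌉) with h4 | h4
  · have h5 : ((⌊c + ρ⌋ + 1 - ⌈c - ρ⌉).toNat : ℝ) = ((⌊c + ρ⌋ + 1 - ⌈c - ρ⌉ : ℤ) : ℝ) := by
      exact_mod_cast Int.toNat_of_nonneg h4
    rw [h5]
    push_cast
    have h6 := Int.floor_le (c + ρ)
    have h7 := Int.le_ceil (c - ρ)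
    linarith
  · rw [Int.toNat_of_nonpos h4]
    push_cast
    linarith

/-- two hits at a small distance -/
private lemma PT3_close (L : ℕ) (d₀ : ℝ) (h0 : 0 < d₀) (h1 : d₀ ≤ 1) (hL : 32 / d₀ ^ 2 ≤ (L : ℝ))
    (R : Finset ℤ) (hR : R ⊆ Finset.Icc (-(L : ℤ)) L) (hc : d₀ * L ≤ (R.card : ℝ)) :
    ∃ x ∈ R, ∃ y ∈ R, x < y ∧ ((y - x : ℤ) : ℝ) ≤ 4 / d₀ := by
  set B : ℕ := ⌊4 / d₀⌋₊ with hB
  have hB1 : (B : ℝ) ≤ 4 / d₀ := Nat.floor_le (by positivity)
  have hB2 : 4 / d₀ < B + 1 := Nat.lt_floor_add_one _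
  have hdL : 32 / d₀ ≤ d₀ * L := by
    have := mul_le_mul_of_nonneg_left hL h0.le
    calc 32 / d₀ = d₀ * (32 / d₀ ^ 2) := by field_simp
      _ ≤ d₀ * L := this
  have hdL' : 32 ≤ d₀ * L := by
    refine le_trans ?_ hdL
    rw [le_div_iff₀ h0]
    nlinarith
  -- pigeonhole
  have hcard : (Finset.Icc (0 : ℤ) (2 * L / (B + 1))).card < R.card := by
    rw [Int.card_Icc]
    have e1 : (((2 * L / (B + 1) + 1 - 0 : ℤ).toNat : ℕ) : ℤ) = 2 * L / (B + 1) + 1 := by
      have e0 : (0 : ℤ) ≤ 2 * L / (B + 1) := Int.ediv_nonneg (by positivity) (by positivity)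
      rw [Int.toNat_of_nonneg (by linarith)]
      ring
    have e2 : ((2 * L / (B + 1) : ℤ) : ℝ) ≤ 2 * L / (B + 1) := by
      have h3 : ((2 * L / (B + 1) : ℤ)) * (B + 1) ≤ 2 * (L : ℤ) := Int.ediv_mul_le _ (by positivity)
      have h4 : (((2 * L / (B + 1) : ℤ)) : ℝ) * (B + 1) ≤ 2 * (L : ℝ) := by exact_mod_cast h3
      rw [le_div_iff₀ (by positivity)]
      exact h4
    have e3 : (2 * L / (B + 1) : ℝ) ≤ d₀ * L / 2 := by
      rw [div_le_iff₀ (by positivity)]
      have h5 : 4 < d₀ * (B + 1) := by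
        rw [div_lt_iff₀ h0] at hB2
        linarith
      have h6 : (0 : ℝ) ≤ L := Nat.cast_nonneg _
      nlinarith
    have e4 : ((((2 * L / (B + 1) + 1 - 0 : ℤ).toNat : ℕ) : ℤ) : ℝ) < (R.card : ℝ) := by
      rw [e1]
      push_cast
      push_cast at e2
      linarith
    exact_mod_cast e4
  obtain ⟨x, hx, y, hy, hxy, hf⟩ := Finset.exists_ne_map_eq_of_card_lt_of_maps_to hcard
    (f := fun r : ℤ => (r + L) / (B + 1)) (by
      intro r hr
      have h3 := Finset.mem_Icc.1 (hR hr)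
      rw [Finset.mem_coe, Finset.mem_Icc]
      constructor
      · apply Int.ediv_nonneg
        · linarith [h3.1]
        · positivity
      · apply Int.ediv_le_ediv (by positivity)
        linarith [h3.2])
  have key : ∀ x y : ℤ, (x + L) / (B + 1) = (y + L) / (B + 1) → ((y - x : ℤ) : ℝ) ≤ 4 / d₀ := by
    intro x y hf
    have h3 := Int.emod_add_mul_ediv (x + L) (B + 1)
    have h4 := Int.emod_add_mul_ediv (y + L) (B + 1)
    have h5 := Int.emod_nonneg (x + L) (show ((B : ℤ) + 1) ≠ 0 by positivity)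
    have h6 := Int.emod_lt_of_pos (y + L) (show (0 : ℤ) < (B : ℤ) + 1 by positivity)
    have h7 : y - x ≤ B := by
      rw [hf] at h3
      linarith
    have h8 : ((y - x : ℤ) : ℝ) ≤ (B : ℝ) := by exact_mod_cast h7
    exact h8.trans hB1
  rcases lt_or_gt_of_ne hxy with h | h
  · exact ⟨x, hx, y, hy, h, key x y hf⟩
  · exact ⟨y, hy, x, hx, h, key y x hf.symm⟩

/-- counting the hits in residue classes mod `q` -/
private lemma PT3_count (θ : ℝ) (L : ℕ) (d₁ : ℝ) (h1 : 0 ≤ d₁) (q : ℤ) (hq : 1 ≤ q)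
    (hτ : 0 < nn (q * θ)) :
    (((Finset.Icc (-(L : ℤ)) L).filter (fun r : ℤ => nn (r * θ) ≤ d₁)).card : ℝ) ≤
      (2 * (d₁ / nn (q * θ)) + 1) *
        (q * (2 * (((L : ℝ) / q + 1) * nn (q * θ) + d₁) + 1)) := by
  classical
  set τ := nn (q * θ) with hτd
  set a : ℤ := round (q * θ) with ha
  set σ : ℝ := q * θ - a with hσ
  have hστ : |σ| = τ := rfl
  have hσ0 : σ ≠ 0 := by
    intro h0
    rw [h0, abs_zero] at hστ
    linarith
  have hq0 : (0 : ℝ) < q := by exact_mod_cast hq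
  set R := (Finset.Icc (-(L : ℤ)) L).filter (fun r : ℤ => nn (r * θ) ≤ d₁) with hR
  let F : ℤ → ℤ × ℤ := fun r => (r % q, round (r * θ) - (r / q) * a)
  -- the basic relation
  have rel : ∀ x ∈ R, |((x / q : ℤ) : ℝ) * σ + ((x % q : ℤ) : ℝ) * θ -
      ((round (x * θ) - (x / q) * a : ℤ) : ℝ)| ≤ d₁ := by
    intro x hx
    have h2 := (Finset.mem_filter.1 hx).2
    have h3 : (x : ℝ) = ((x % q : ℤ) : ℝ) + q * ((x / q : ℤ) : ℝ) := by
      exact_mod_cast (Int.emod_add_mul_ediv x q).symm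
    have h4 : ((x / q : ℤ) : ℝ) * σ + ((x % q : ℤ) : ℝ) * θ -
      ((round (x * θ) - (x / q) * a : ℤ) : ℝ) = x * θ - round (x * θ) := by
      push_cast
      rw [hσ]
      linear_combination (-θ) * h3
    rw [h4]
    exact h2
  -- fibres
  have hfib : ∀ p ∈ R.image F, (R.filter (fun x => F x = p)).card ≤ ⌊2 * (d₁ / τ) + 1⌋₊ := by
    intro p _
    apply Nat.le_floor
    have hinj : Set.InjOn (fun x : ℤ => x / q) ((R.filter (fun x => F x = p) : Finset ℤ) : Set ℤ) := by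
      intro x hx y hy hxy
      rw [Finset.mem_coe, Finset.mem_filter] at hx hy
      have h2 : x % q = y % q := by
        have := (congrArg Prod.fst hx.2).trans (congrArg Prod.fst hy.2).symm
        exact this
      rw [← Int.emod_add_mul_ediv x q, ← Int.emod_add_mul_ediv y q, h2]
      simp only at hxy
      rw [hxy]
    rw [← Finset.card_image_of_injOn hinj]
    refine PT3_cnt _ ((p.2 - p.1 * θ) / σ) (d₁ / τ) (by positivity) ?_
    intro k hk
    obtain ⟨x, hx, rfl⟩ := Finset.mem_image.1 hk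
    rw [Finset.mem_filter] at hx
    have h2 := rel x hx.1
    have h3 : x % q = p.1 := congrArg Prod.fst hx.2
    have h4 : round (x * θ) - (x / q) * a = p.2 := congrArg Prod.snd hx.2
    rw [h3, h4] at h2
    have h5 : ((x / q : ℤ) : ℝ) - (p.2 - p.1 * θ) / σ =
        (((x / q : ℤ) : ℝ) * σ + (p.1 : ℝ) * θ - p.2) / σ := by
      field_simp
      ring
    rw [h5, abs_div, hστ]
    exact div_le_div_of_nonneg_right h2 hτ.le
  have hmain := Finset.card_le_mul_card_image R _ hfib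
  -- the image
  have himg : ((R.image F).card : ℝ) ≤ q * (2 * (((L : ℝ) / q + 1) * τ + d₁) + 1) := by
    have hmaps : ∀ p ∈ R.image F, p.1 ∈ Finset.Ico (0 : ℤ) q := by
      intro p hp
      obtain ⟨x, hx, rfl⟩ := Finset.mem_image.1 hp
      rw [Finset.mem_Ico]
      exact ⟨Int.emod_nonneg _ (by omega), Int.emod_lt_of_pos _ (by omega)⟩
    rw [Finset.card_eq_sum_card_fiberwise hmaps]
    push_cast
    have h2 : ∀ i ∈ Finset.Ico (0 : ℤ) q,
        (((R.image F).filter (fun p => p.1 = i)).card : ℝ) ≤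
          2 * (((L : ℝ) / q + 1) * τ + d₁) + 1 := by
      intro i hi
      have hinj : Set.InjOn (fun p : ℤ × ℤ => p.2)
          (((R.image F).filter (fun p => p.1 = i) : Finset (ℤ × ℤ)) : Set (ℤ × ℤ)) := by
        intro p hp p' hp' hpp
        rw [Finset.mem_coe, Finset.mem_filter] at hp hp'
        exact Prod.ext (hp.2.trans hp'.2.symm) hpp
      rw [← Finset.card_image_of_injOn hinj]
      refine PT3_cnt _ (i * θ) _ (by positivity) ?_
      intro j hj
      obtain ⟨p, hp, rfl⟩ := Finset.mem_image.1 hj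
      rw [Finset.mem_filter] at hp
      obtain ⟨x, hx, hxp⟩ := Finset.mem_image.1 hp.1
      have h3 := rel x hx
      have h4 : x % q = i := (congrArg Prod.fst hxp).trans hp.2
      have h5 : round (x * θ) - (x / q) * a = p.2 := congrArg Prod.snd hxp
      rw [h4, h5] at h3
      have h6 : |((x / q : ℤ) : ℝ)| ≤ (L : ℝ) / q + 1 := by
        have hxL := Finset.mem_Icc.1 (Finset.mem_filter.1 hx).1
        have h7 := Int.emod_add_mul_ediv x q
        have h8 := Int.emod_nonneg x (show q ≠ 0 by omega)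
        have h9 := Int.emod_lt_of_pos x (show 0 < q by omega)
        have h10 : q * (x / q) ≤ L := by linarith [hxL.2]
        have h11 : -(L : ℤ) - q ≤ q * (x / q) := by linarith [hxL.1]
        have h12 : (q : ℝ) * ((x / q : ℤ) : ℝ) ≤ L := by exact_mod_cast h10
        have h13 : -(L : ℝ) - q ≤ (q : ℝ) * ((x / q : ℤ) : ℝ) := by exact_mod_cast h11
        have h14 : (L : ℝ) / q * q = L := div_mul_cancel₀ _ hq0.ne'
        rw [abs_le]
        constructor
        · by_contra hcon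
          push Not at hcon
          nlinarith
        · by_contra hcon
          push Not at hcon
          nlinarith
      have h15 : |((x / q : ℤ) : ℝ) * σ| ≤ ((L : ℝ) / q + 1) * τ := by
        rw [abs_mul, hστ]
        exact mul_le_mul_of_nonneg_right h6 hτ.le
      have h16 := abs_le.1 h15
      have h17 := abs_le.1 h3
      rw [abs_le]
      constructor <;> linarith [h16.1, h16.2, h17.1, h17.2]
    refine (Finset.sum_le_sum h2).trans ?_
    rw [Finset.sum_const, Int.card_Ico, nsmul_eq_mul]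
    have h3 : (((q - 0).toNat : ℕ) : ℝ) = q := by
      have : (((q - 0).toNat : ℕ) : ℤ) = q := by
        rw [Int.toNat_of_nonneg (by omega)]; ring
      exact_mod_cast this
    rw [h3]
  have h2 : (R.card : ℝ) ≤ (⌊2 * (d₁ / τ) + 1⌋₊ : ℝ) * ((R.image F).card : ℝ) := by
    exact_mod_cast hmain
  refine h2.trans (mul_le_mul (Nat.floor_le (by positivity)) himg (Nat.cast_nonneg _)
    (by positivity))

theorem p_T3 : SB_T3 := by
  intro θ L d₀ d₁ h0 h1 h2 h3 hL hc
  obtain ⟨x, hx, y, hy, hxy, hd⟩ := PT3_close L d₀ h0 h1 hL _ (Finset.filter_subset _ _) hc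
  have hx' := (Finset.mem_filter.1 hx).2
  have hy' := (Finset.mem_filter.1 hy).2
  obtain ⟨q, hq⟩ : ∃ q : ℤ, q = y - x := ⟨_, rfl⟩
  rw [← hq] at hd
  have hq1 : 1 ≤ q := by omega
  have hτ : nn (q * θ) ≤ 2 * d₁ := by
    have : (q : ℝ) * θ = y * θ - x * θ := by rw [hq]; push_cast; ring
    rw [this]
    refine (nn_sub_le _ _).trans ?_
    linarith
  refine ⟨q.toNat, by omega, ?_, ?_⟩
  · have : ((q.toNat : ℕ) : ℝ) = q := by
      have : ((q.toNat : ℕ) : ℤ) = q := Int.toNat_of_nonneg (by omega)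
      exact_mod_cast this
    rw [this]
    exact hd
  have hqn : ((q.toNat : ℕ) : ℝ) = q := by
    have : ((q.toNat : ℕ) : ℤ) = q := Int.toNat_of_nonneg (by omega)
    exact_mod_cast this
  rw [hqn]
  have hLpos : (0 : ℝ) < L := lt_of_lt_of_le (by positivity) hL
  rcases (nn_nonneg (q * θ)).eq_or_lt with h4 | h4
  · rw [← h4]
    positivity
  have hcount := PT3_count θ L d₁ h2 q hq1 h4
  set τ := nn (q * θ) with hτd
  have hq0 : (0 : ℝ) < q := by exact_mod_cast hq1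
  have h5 : d₀ * L ≤ (2 * (d₁ / τ) + 1) * (q * (2 * (((L : ℝ) / q + 1) * τ + d₁) + 1)) :=
    hc.trans hcount
  have h6 : d₀ * L * τ ≤ (2 * d₁ + τ) * (2 * L * τ + q * (2 * τ + 2 * d₁ + 1)) := by
    have h7 := mul_le_mul_of_nonneg_right h5 h4.le
    refine h7.trans (le_of_eq ?_)
    field_simp
    ring
  have h8 : (q : ℝ) * d₀ ≤ 4 := by
    rw [le_div_iff₀ h0] at hd
    exact hd
  have h9 : 32 ≤ d₀ ^ 2 * L := by
    rw [div_le_iff₀ (by positivity)] at hL
    linarith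
  rw [le_div_iff₀ (by positivity)]
  -- the numbers
  have h10 : 2 * τ + 2 * d₁ + 1 ≤ 9 / 8 := by linarith
  have h11 : d₀ * (d₀ * L * τ) ≤ (2 * d₁ + τ) * (2 * L * τ * d₀ + 4 * (9 / 8)) := by
    calc d₀ * (d₀ * L * τ) ≤ d₀ * ((2 * d₁ + τ) * (2 * L * τ + q * (2 * τ + 2 * d₁ + 1))) :=
          mul_le_mul_of_nonneg_left h6 h0.le
      _ = (2 * d₁ + τ) * (2 * L * τ * d₀ + (q * d₀) * (2 * τ + 2 * d₁ + 1)) := by ring
      _ ≤ (2 * d₁ + τ) * (2 * L * τ * d₀ + 4 * (9 / 8)) := by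
          refine mul_le_mul_of_nonneg_left ?_ (by positivity)
          have : (q : ℝ) * d₀ * (2 * τ + 2 * d₁ + 1) ≤ 4 * (9 / 8) :=
            mul_le_mul h8 h10 (by positivity) (by norm_num)
          linarith
  have h12 : (2 * d₁ + τ) * (2 * L * τ * d₀) ≤ d₀ / 16 * (2 * L * τ * d₀) :=
    mul_le_mul_of_nonneg_right (by linarith) (by positivity)
  have h13 : 32 * τ ≤ d₀ ^ 2 * L * τ := mul_le_mul_of_nonneg_right h9 h4.le
  nlinarith

end Pool.Agent.APP.B
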