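import Pool.Agent.Lib.MP_8a4e59_co.B.StmA
import Pool.Agent.Lib.MP_8a4e59_co.Basic

set_option autoImplicit false

/-!
(T4) the number of products.
-/

namespace Pool.Agent.APP.B

open Finset

/-- Cauchy-Schwarz for the fibres of the multiplication. -/
private lemma PT4_cs (Z : Finset (ℕ × ℕ)) :
    Z.card ^ 2 ≤ (Z.image (fun p => p.1 * p.2)).card *
      ((Z ×ˢ Z).filter (fun q => q.1.1 * q.1.2 = q.2.1 * q.2.2)).card := by
  set f : ℕ × ℕ → ℕ := fun p => p.1 * p.2 with hf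
  have e1 : ((Z ×ˢ Z).filter (fun q => f q.1 = f q.2)).card =
      ∑ p ∈ Z.image f, (Z.filter (fun z => f z = p)).card ^ 2 := by
    rw [Finset.card_eq_sum_card_fiberwise (f := fun q : (ℕ × ℕ) × (ℕ × ℕ) => f q.1)
      (t := Z.image f)]
    · refine Finset.sum_congr rfl fun p _ => ?_
      rw [sq, ← Finset.card_product]
      congr 1
      ext ⟨z, z'⟩
      simp only [Finset.mem_filter, Finset.mem_product]
      constructor
      · rintro ⟨⟨⟨h1, h2⟩, h3⟩, h4⟩
        exact ⟨⟨h1, h4⟩, h2, h3 ▸ h4⟩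
      · rintro ⟨⟨h1, h2⟩, h3, h4⟩
        exact ⟨⟨⟨h1, h3⟩, h2.trans h4.symm⟩, h2⟩
    · intro q hq
      rw [Finset.mem_coe, Finset.mem_filter, Finset.mem_product] at hq
      exact Finset.mem_coe.2 (Finset.mem_image_of_mem f hq.1.1)
  have e2 : Z.card = ∑ p ∈ Z.image f, (Z.filter (fun z => f z = p)).card :=
    Finset.card_eq_sum_card_image f Z
  have e3 : ((Z ×ˢ Z).filter (fun q => q.1.1 * q.1.2 = q.2.1 * q.2.2)).card =
      ((Z ×ˢ Z).filter (fun q => f q.1 = f q.2)).card := rfl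
  rw [e3, e1]
  conv_lhs => rw [e2]
  exact sq_sum_le_card_mul_sum_sq

/-- the pairs with `a b = c e`, for fixed `a`, `c` -/
private lemma PT4_pairs (Y a c : ℕ) (ha : 1 ≤ a) (hc : 1 ≤ c) :
    ((Finset.Icc 1 Y ×ˢ Finset.Icc 1 Y).filter (fun p => a * p.1 = c * p.2)).card * a ≤
      Y * Nat.gcd a c := by
  set E := (Finset.Icc 1 Y ×ˢ Finset.Icc 1 Y).filter (fun p => a * p.1 = c * p.2) with hE
  obtain ⟨k, hk⟩ := Nat.gcd_dvd_left a c
  obtain ⟨l, hl⟩ := Nat.gcd_dvd_right a c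
  set g := Nat.gcd a c with hg
  have hg0 : 0 < g := Nat.gcd_pos_of_pos_left _ ha
  have hcop : Nat.Coprime k l := by
    have h1 := Nat.coprime_div_gcd_div_gcd (m := a) (n := c) hg0
    rw [← hg, hk, hl, Nat.mul_div_cancel_left _ hg0, Nat.mul_div_cancel_left _ hg0] at h1
    exact h1
  -- the second coordinate is a multiple of `k`
  have hmul : ∀ p ∈ E, k ∣ p.2 := by
    intro p hp
    have h1 := (Finset.mem_filter.1 hp).2
    rw [hk, hl, mul_assoc, mul_assoc] at h1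
    have h2 : k * p.1 = l * p.2 := Nat.eq_of_mul_eq_mul_left hg0 h1
    exact hcop.dvd_of_dvd_mul_left (Dvd.intro _ h2)
  have hk0 : 0 < k := by
    rcases Nat.eq_zero_or_pos k with h | h
    · rw [h, mul_zero] at hk; omega
    · exact h
  have hinj : Set.InjOn (fun p : ℕ × ℕ => p.2) (E : Set (ℕ × ℕ)) := by
    intro p hp p' hp' h
    rw [Finset.mem_coe] at hp hp'
    have h1 := (Finset.mem_filter.1 hp).2
    have h2 := (Finset.mem_filter.1 hp').2
    simp only at h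
    rw [h, ← h2] at h1
    exact Prod.ext (Nat.eq_of_mul_eq_mul_left ha h1) h
  have h3 : E.card ≤ Y / k := by
    rw [← Nat.Ioc_filter_dvd_card_eq_div Y k, ← Finset.card_image_of_injOn hinj]
    refine Finset.card_le_card ?_
    intro e he
    obtain ⟨p, hp, rfl⟩ := Finset.mem_image.1 he
    have h1 := (Finset.mem_product.1 (Finset.mem_filter.1 hp).1).2
    rw [Finset.mem_Icc] at h1
    rw [Finset.mem_filter, Finset.mem_Ioc]
    exact ⟨⟨by omega, h1.2⟩, hmul p hp⟩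
  have h4 : E.card * k ≤ Y := (Nat.mul_le_mul_right _ h3).trans (Nat.div_mul_le_self _ _)
  calc E.card * a = E.card * k * g := by rw [hk]; ring
    _ ≤ Y * g := Nat.mul_le_mul_right _ h4

/-- `∑_{c ≤ a} gcd(a,c) ≤ a τ(a)` -/
private lemma PT4_gcd (a : ℕ) (ha : 1 ≤ a) :
    ∑ c ∈ Finset.Icc 1 a, Nat.gcd a c ≤ a * a.divisors.card := by
  have h1 : ∀ c ∈ Finset.Icc 1 a, Nat.gcd a c ≤
      ∑ d ∈ a.divisors, if d ∣ c then d else 0 := by
    intro c _
    have h2 : Nat.gcd a c ∈ a.divisors :=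
      Nat.mem_divisors.2 ⟨Nat.gcd_dvd_left _ _, by omega⟩
    have h3 := Finset.single_le_sum (f := fun d => if d ∣ c then d else 0)
      (fun i _ => Nat.zero_le _) h2
    simp only [Nat.gcd_dvd_right, if_true] at h3
    exact h3
  refine (Finset.sum_le_sum h1).trans ?_
  rw [Finset.sum_comm]
  have h4 : ∀ d ∈ a.divisors, ∑ c ∈ Finset.Icc 1 a, (if d ∣ c then d else 0) ≤ a := by
    intro d hd
    rw [← Finset.sum_filter, Finset.sum_const, smul_eq_mul]
    have h5 : ((Finset.Icc 1 a).filter (fun c => d ∣ c)).card = a / d := by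
      rw [← Nat.Ioc_filter_dvd_card_eq_div a d]
      rfl
    rw [h5]
    exact Nat.div_mul_le_self _ _
  refine (Finset.sum_le_sum h4).trans ?_
  rw [Finset.sum_const, smul_eq_mul, mul_comm]

/-- `∑_{a ≤ X} τ(a) ≤ X (1 + log X)` -/
private lemma PT4_tau (X : ℕ) (hX : 1 ≤ X) :
    ∑ a ∈ Finset.Icc 1 X, (a.divisors.card : ℝ) ≤ X * (1 + Real.log X) := by
  have h1 : ∑ a ∈ Finset.Icc 1 X, a.divisors.card = ∑ d ∈ Finset.Icc 1 X, X / d := by
    have h2 : ∀ a ∈ Finset.Icc 1 X, a.divisors.card =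
        ∑ d ∈ Finset.Icc 1 X, if d ∣ a then 1 else 0 := by
      intro a ha
      rw [Finset.mem_Icc] at ha
      rw [← Finset.sum_filter, Finset.sum_const, smul_eq_mul, mul_one]
      congr 1
      ext d
      rw [Nat.mem_divisors, Finset.mem_filter, Finset.mem_Icc]
      constructor
      · rintro ⟨h3, h4⟩
        have h5 := Nat.le_of_dvd (by omega) h3
        have h6 := Nat.pos_of_dvd_of_pos h3 (by omega)
        exact ⟨⟨by omega, by omega⟩, h3⟩
      · rintro ⟨_, h3⟩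
        exact ⟨h3, by omega⟩
    rw [Finset.sum_congr rfl h2, Finset.sum_comm]
    refine Finset.sum_congr rfl fun d _ => ?_
    rw [← Finset.sum_filter, Finset.sum_const, smul_eq_mul, mul_one,
      ← Nat.Ioc_filter_dvd_card_eq_div X d]
    rfl
  have h2 : ∑ a ∈ Finset.Icc 1 X, (a.divisors.card : ℝ) = ((∑ d ∈ Finset.Icc 1 X, X / d : ℕ) : ℝ) := by
    rw [← h1]; push_cast; rfl
  rw [h2]
  have h3 := harmonic_le_one_add_log X
  rw [harmonic_eq_sum_Icc] at h3
  push_cast at h3 ⊢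
  calc ∑ d ∈ Finset.Icc 1 X, ((X / d : ℕ) : ℝ) ≤ ∑ d ∈ Finset.Icc 1 X, (X : ℝ) * (d : ℝ)⁻¹ := by
        refine Finset.sum_le_sum fun d _ => ?_
        rw [← div_eq_mul_inv]
        exact Nat.cast_div_le
    _ = X * ∑ d ∈ Finset.Icc 1 X, (d : ℝ)⁻¹ := by rw [Finset.mul_sum]
    _ ≤ X * (1 + Real.log X) := mul_le_mul_of_nonneg_left h3 (Nat.cast_nonneg _)

/-- half of the energy -/
private lemma PT4_half (X Y : ℕ) (hX : 1 ≤ X) :
    ∑ a ∈ Finset.Icc 1 X, ∑ c ∈ Finset.Icc 1 a,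
      ((((Finset.Icc 1 Y ×ˢ Finset.Icc 1 Y).filter (fun p => a * p.1 = c * p.2)).card : ℕ) : ℝ) ≤
      X * Y * (1 + Real.log X) := by
  calc _ ≤ ∑ a ∈ Finset.Icc 1 X, (Y : ℝ) * (a.divisors.card : ℝ) := by
        refine Finset.sum_le_sum fun a ha => ?_
        have ha' : 1 ≤ a := (Finset.mem_Icc.1 ha).1
        have ha0 : (0 : ℝ) < a := by exact_mod_cast ha'
        have h1 : ∀ c ∈ Finset.Icc 1 a,
            ((((Finset.Icc 1 Y ×ˢ Finset.Icc 1 Y).filter
              (fun p => a * p.1 = c * p.2)).card : ℕ) : ℝ) ≤ Y * (Nat.gcd a c : ℝ) / a := by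
          intro c hc
          rw [le_div_iff₀ ha0]
          exact_mod_cast PT4_pairs Y a c ha' (Finset.mem_Icc.1 hc).1
        refine (Finset.sum_le_sum h1).trans ?_
        rw [← Finset.sum_div, ← Finset.mul_sum, div_le_iff₀ ha0]
        have h2 : (∑ c ∈ Finset.Icc 1 a, (Nat.gcd a c : ℝ)) ≤ a * (a.divisors.card : ℝ) := by
          exact_mod_cast PT4_gcd a ha'
        calc (Y : ℝ) * ∑ c ∈ Finset.Icc 1 a, (Nat.gcd a c : ℝ)
            ≤ Y * (a * (a.divisors.card : ℝ)) := mul_le_mul_of_nonneg_left h2 (Nat.cast_nonneg _)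
          _ = Y * (a.divisors.card : ℝ) * a := by ring
    _ = Y * ∑ a ∈ Finset.Icc 1 X, (a.divisors.card : ℝ) := by rw [Finset.mul_sum]
    _ ≤ Y * (X * (1 + Real.log X)) :=
        mul_le_mul_of_nonneg_left (PT4_tau X hX) (Nat.cast_nonneg _)
    _ = _ := by ring

/-- the multiplicative energy -/
private lemma PT4_energy (X Y : ℕ) (hX : 1 ≤ X) (Z : Finset (ℕ × ℕ))
    (hZ : Z ⊆ Finset.Icc 1 X ×ˢ Finset.Icc 1 Y) :
    (((Z ×ˢ Z).filter (fun q => q.1.1 * q.1.2 = q.2.1 * q.2.2)).card : ℝ) ≤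
      2 * (X * Y * (1 + Real.log X)) := by
  set E := (Z ×ˢ Z).filter (fun q => q.1.1 * q.1.2 = q.2.1 * q.2.2) with hE
  let n : ℕ → ℕ → ℕ := fun a c =>
    ((Finset.Icc 1 Y ×ˢ Finset.Icc 1 Y).filter (fun p => a * p.1 = c * p.2)).card
  have hn : ∀ a c, n a c = n c a := by
    intro a c
    refine Finset.card_bij (fun p _ => (p.2, p.1)) ?_ ?_ ?_
    · intro p hp
      rw [Finset.mem_filter, Finset.mem_product] at hp ⊢
      exact ⟨⟨hp.1.2, hp.1.1⟩, hp.2.symm⟩
    · intro p _ p' _ h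
      exact Prod.ext (congrArg Prod.snd h) (congrArg Prod.fst h)
    · intro p hp
      rw [Finset.mem_filter, Finset.mem_product] at hp
      refine ⟨(p.2, p.1), ?_, rfl⟩
      rw [Finset.mem_filter, Finset.mem_product]
      exact ⟨⟨hp.1.2, hp.1.1⟩, hp.2.symm⟩
  have h1 : E.card ≤ ∑ a ∈ Finset.Icc 1 X, ∑ c ∈ Finset.Icc 1 X, n a c := by
    rw [← Finset.sum_product' (f := fun a c => n a c)]
    rw [Finset.card_eq_sum_card_fiberwise (f := fun q : (ℕ × ℕ) × (ℕ × ℕ) => (q.1.1, q.2.1))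
      (t := Finset.Icc 1 X ×ˢ Finset.Icc 1 X)]
    · refine Finset.sum_le_sum fun ac _ => ?_
      refine Finset.card_le_card_of_injOn (fun q => (q.1.2, q.2.2)) ?_ ?_
      · intro q hq
        rw [Finset.mem_coe, Finset.mem_filter, hE, Finset.mem_filter, Finset.mem_product] at hq
        obtain ⟨⟨⟨h2, h3⟩, h4⟩, h5⟩ := hq
        have h6 := (Finset.mem_product.1 (hZ h2)).2
        have h7 := (Finset.mem_product.1 (hZ h3)).2
        rw [Finset.mem_coe, Finset.mem_filter, Finset.mem_product]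
        refine ⟨⟨h6, h7⟩, ?_⟩
        rw [← h5]
        exact h4
      · intro q hq q' hq' h
        rw [Finset.mem_coe, Finset.mem_filter] at hq hq'
        have h2 := hq.2.trans hq'.2.symm
        simp only [Prod.mk.injEq] at h h2
        exact Prod.ext (Prod.ext h2.1 h.1) (Prod.ext h2.2 h.2)
    · intro q hq
      rw [Finset.mem_coe, hE, Finset.mem_filter, Finset.mem_product] at hq
      have h6 := (Finset.mem_product.1 (hZ hq.1.1)).1
      have h7 := (Finset.mem_product.1 (hZ hq.1.2)).1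
      rw [Finset.mem_coe, Finset.mem_product]
      exact ⟨h6, h7⟩
  -- symmetry
  have h2 : ∑ a ∈ Finset.Icc 1 X, ∑ c ∈ Finset.Icc 1 X, n a c ≤
      2 * ∑ a ∈ Finset.Icc 1 X, ∑ c ∈ Finset.Icc 1 a, n a c := by
    have h3 : ∀ a ∈ Finset.Icc 1 X, ∑ c ∈ Finset.Icc 1 X, (if c ≤ a then n a c else 0) =
        ∑ c ∈ Finset.Icc 1 a, n a c := by
      intro a ha
      rw [← Finset.sum_filter]
      refine Finset.sum_congr ?_ fun _ _ => rfl
      ext c
      rw [Finset.mem_Icc] at ha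
      rw [Finset.mem_filter, Finset.mem_Icc, Finset.mem_Icc]
      omega
    have h4 : ∑ a ∈ Finset.Icc 1 X, ∑ c ∈ Finset.Icc 1 X, n a c ≤
        ∑ a ∈ Finset.Icc 1 X, ∑ c ∈ Finset.Icc 1 X, ((if c ≤ a then n a c else 0) +
          (if a ≤ c then n c a else 0)) := by
      refine Finset.sum_le_sum fun a _ => Finset.sum_le_sum fun c _ => ?_
      rcases le_total c a with h | h
      · rw [if_pos h]; omega
      · rw [if_pos h, hn c a]; omega
    refine h4.trans (le_of_eq ?_)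
    simp only [Finset.sum_add_distrib]
    rw [two_mul]
    congr 1
    · exact Finset.sum_congr rfl h3
    · rw [Finset.sum_comm]
      exact Finset.sum_congr rfl h3
  have h5 : (E.card : ℝ) ≤ ((2 * ∑ a ∈ Finset.Icc 1 X, ∑ c ∈ Finset.Icc 1 a, n a c : ℕ) : ℝ) := by
    exact_mod_cast h1.trans h2
  refine h5.trans ?_
  push_cast
  exact mul_le_mul_of_nonneg_left (PT4_half X Y hX) (by norm_num)

theorem p_T4 : SB_T4 := by
  intro X Y Z hX hY hZ
  have h1 := PT4_cs Z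
  have h2 : (Z.card : ℝ) ^ 2 ≤ ((Z.image (fun p => p.1 * p.2)).card : ℝ) *
      (((Z ×ˢ Z).filter (fun q => q.1.1 * q.1.2 = q.2.1 * q.2.2)).card : ℝ) := by
    exact_mod_cast h1
  refine h2.trans (mul_le_mul_of_nonneg_left ?_ (Nat.cast_nonneg _))
  refine (PT4_energy X Y hX Z hZ).trans ?_
  have hX' : (1 : ℝ) ≤ X := by exact_mod_cast hX
  have hY' : (1 : ℝ) ≤ Y := by exact_mod_cast hY
  have h3 : Real.log X ≤ Real.log (X * Y) :=
    Real.log_le_log (by linarith) (by nlinarith)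
  have h4 : 0 ≤ Real.log X := Real.log_nonneg hX'
  have h5 : 0 ≤ (X : ℝ) * Y := by positivity
  nlinarith [mul_le_mul_of_nonneg_left h3 h5, mul_nonneg h5 h4]

end Pool.Agent.APP.B
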