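import Pool.Agent.Lib.MP_8a4e59_co.B.StmA

set_option autoImplicit false

/-! (T5) differences. (helper39) -/

namespace Pool.Agent.APP.B

open Finset

/-- substitution in a sum over `[1, N]` -/
private lemma T5_shift (N : ℕ) (F : ℤ → ℂ) (a : ℤ)
    (h : ∀ x, F x ≠ 0 → 1 ≤ x ∧ x ≤ N ∧ 1 ≤ x + a ∧ x + a ≤ N) :
    ∑ x ∈ Finset.Icc (1 : ℤ) N, F x = ∑ u ∈ Finset.Icc (1 : ℤ) N, F (u - a) := by
  refine Finset.sum_bij_ne_zero (fun x _ _ => x + a) ?_ ?_ ?_ ?_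
  · intro x _ h2
    obtain ⟨_, _, h3, h4⟩ := h x h2
    rw [Finset.mem_Icc]
    exact ⟨h3, h4⟩
  · intro x _ _ y _ _ hxy
    exact add_right_cancel hxy
  · intro u _ h2
    obtain ⟨h3, h4, _, _⟩ := h _ h2
    refine ⟨u - a, Finset.mem_Icc.2 ⟨h3, h4⟩, h2, by ring⟩
  · intro x _ _
    rw [add_sub_cancel_right]

private lemma T5_cor_le (N : ℕ) (g : ℤ → ℂ) (hg : Bd N g) (a : ℤ) (ξ : ℝ) : ‖cor N g a ξ‖ ≤ N := by
  unfold cor
  refine (norm_sum_le _ _).trans ?_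
  have h1 : ∀ x ∈ Finset.Icc (1 : ℤ) N, ‖g x * (starRingEnd ℂ) (g (x + a)) * ee (ξ * x)‖ ≤ 1 := by
    intro x _
    rw [norm_mul, norm_mul, norm_ee, mul_one, Complex.norm_conj]
    exact mul_le_one₀ (hg.1 _) (norm_nonneg _) (hg.1 _)
  refine (Finset.sum_le_sum h1).trans ?_
  simp

/-- unimodular factor -/
private lemma T5_uni (z : ℂ) : ∃ c : ℂ, ‖c‖ ≤ 1 ∧ c * z = (‖z‖ : ℂ) := by
  by_cases hz : z = 0
  · exact ⟨0, by simp, by simp [hz]⟩
  · have hn : ‖z‖ ≠ 0 := norm_ne_zero_iff.2 hz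
    refine ⟨(starRingEnd ℂ) z / (‖z‖ : ℂ), ?_, ?_⟩
    · rw [norm_div, Complex.norm_conj, Complex.norm_real, norm_norm, div_self hn]
    · have hn' : (‖z‖ : ℂ) ≠ 0 := by exact_mod_cast hn
      rw [div_mul_eq_mul_div, mul_comm, Complex.mul_conj', sq, mul_div_assoc, div_self hn', mul_one]

/-- expansion of the square -/
private lemma T5_sq {ι κ : Type*} (J : Finset ι) (V : Finset κ) (a : κ → ι → ℂ) :
    ∑ u ∈ J, ‖∑ v ∈ V, a v u‖ ^ 2 ≤
      ∑ v ∈ V, ∑ v' ∈ V, ‖∑ u ∈ J, a v u * (starRingEnd ℂ) (a v' u)‖ := by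
  have h1 : ((∑ u ∈ J, ‖∑ v ∈ V, a v u‖ ^ 2 : ℝ) : ℂ) =
      ∑ v ∈ V, ∑ v' ∈ V, ∑ u ∈ J, a v u * (starRingEnd ℂ) (a v' u) := by
    push_cast
    have h2 : ∀ u ∈ J, (‖∑ v ∈ V, a v u‖ : ℂ) ^ 2 = ∑ v ∈ V, ∑ v' ∈ V, a v u * (starRingEnd ℂ) (a v' u) := by
      intro u _
      rw [← Complex.mul_conj', map_sum, Finset.sum_mul_sum]
    rw [Finset.sum_congr rfl h2, Finset.sum_comm]
    refine Finset.sum_congr rfl fun v _ => ?_
    rw [Finset.sum_comm]
  have h3 : ∑ u ∈ J, ‖∑ v ∈ V, a v u‖ ^ 2 = ‖((∑ u ∈ J, ‖∑ v ∈ V, a v u‖ ^ 2 : ℝ) : ℂ)‖ := by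
    rw [Complex.norm_real, Real.norm_of_nonneg]
    exact Finset.sum_nonneg fun u _ => by positivity
  rw [h3, h1]
  refine (norm_sum_le _ _).trans (Finset.sum_le_sum fun v _ => ?_)
  exact norm_sum_le _ _

/-- (T5) -/
theorem p_T5 : SB_T5 := by
  classical
  intro N g V ξ s h d hN hg hd hV
  have hNpos : (0 : ℝ) < N := by exact_mod_cast hN
  choose c hc1 hc2 using fun v : ℤ => T5_uni (cor N g (h - s * v) (ξ v))
  set a : ℤ → ℤ → ℂ := fun v u => c v * (g (u - (h - s * v)) * ee (ξ v * ((u - (h - s * v) : ℤ) : ℝ))) with ha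
  set I : Finset ℤ := Finset.Icc (1 : ℤ) N with hI
  set J : Finset ℤ := I ∪ V.biUnion (fun v => I.image (fun y => y + (h - s * v))) with hJ
  -- step 1
  have h1 : ∀ v, cor N g (h - s * v) (ξ v) =
      ∑ u ∈ I, (starRingEnd ℂ) (g u) * (g (u - (h - s * v)) * ee (ξ v * ((u - (h - s * v) : ℤ) : ℝ))) := by
    intro v
    unfold cor
    rw [T5_shift N (fun x => g x * (starRingEnd ℂ) (g (x + (h - s * v))) * ee (ξ v * x)) (h - s * v)]
    · refine Finset.sum_congr rfl fun u _ => ?_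
      rw [sub_add_cancel]
      ring
    · intro x hx
      have hx1 : g x ≠ 0 := by
        intro h0
        apply hx
        simp [h0]
      have hx2 : g (x + (h - s * v)) ≠ 0 := by
        intro h0
        apply hx
        simp [h0]
      exact ⟨(hg.2 _ hx1).1, (hg.2 _ hx1).2, (hg.2 _ hx2).1, (hg.2 _ hx2).2⟩
  have h2 : ∑ v ∈ V, (‖cor N g (h - s * v) (ξ v)‖ : ℂ) = ∑ u ∈ I, (starRingEnd ℂ) (g u) * ∑ v ∈ V, a v u := by
    have : ∀ v ∈ V, (‖cor N g (h - s * v) (ξ v)‖ : ℂ) = ∑ u ∈ I, (starRingEnd ℂ) (g u) * a v u := by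
      intro v _
      rw [← hc2 v, h1 v, Finset.mul_sum]
      refine Finset.sum_congr rfl fun u _ => ?_
      simp only [ha]
      ring
    rw [Finset.sum_congr rfl this, Finset.sum_comm]
    refine Finset.sum_congr rfl fun u _ => ?_
    rw [Finset.mul_sum]
  have h3 : (V.card : ℝ) * (d * N) ≤ ∑ u ∈ I, ‖∑ v ∈ V, a v u‖ := by
    calc (V.card : ℝ) * (d * N) = ∑ v ∈ V, d * N := by rw [Finset.sum_const, nsmul_eq_mul]
      _ ≤ ∑ v ∈ V, ‖cor N g (h - s * v) (ξ v)‖ := Finset.sum_le_sum hV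
      _ = ‖∑ v ∈ V, (‖cor N g (h - s * v) (ξ v)‖ : ℂ)‖ := by
          rw [← Complex.ofReal_sum, Complex.norm_real, Real.norm_of_nonneg]
          exact Finset.sum_nonneg fun v _ => norm_nonneg _
      _ = ‖∑ u ∈ I, (starRingEnd ℂ) (g u) * ∑ v ∈ V, a v u‖ := by rw [h2]
      _ ≤ ∑ u ∈ I, ‖(starRingEnd ℂ) (g u) * ∑ v ∈ V, a v u‖ := norm_sum_le _ _
      _ ≤ ∑ u ∈ I, ‖∑ v ∈ V, a v u‖ := by
          refine Finset.sum_le_sum fun u _ => ?_
          rw [norm_mul, Complex.norm_conj]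
          exact mul_le_of_le_one_left (norm_nonneg _) (hg.1 u)
  have hcardI : (I.card : ℝ) = N := by simp [hI]
  have h4 : ((V.card : ℝ) * (d * N)) ^ 2 ≤ N * ∑ u ∈ J, ‖∑ v ∈ V, a v u‖ ^ 2 := by
    have h5 : ((V.card : ℝ) * (d * N)) ^ 2 ≤ (∑ u ∈ I, ‖∑ v ∈ V, a v u‖) ^ 2 :=
      pow_le_pow_left₀ (by positivity) h3 2
    refine h5.trans (sq_sum_le_card_mul_sum_sq.trans ?_)
    rw [hcardI]
    refine mul_le_mul_of_nonneg_left ?_ hNpos.le
    exact Finset.sum_le_sum_of_subset_of_nonneg Finset.subset_union_left (fun u _ _ => by positivity)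
  -- step 2
  have h6 : ∀ v ∈ V, ∀ v' ∈ V, ‖∑ u ∈ J, a v u * (starRingEnd ℂ) (a v' u)‖ ≤
      ‖cor N g (s * (v' - v)) (ξ v - ξ v')‖ := by
    intro v hv v' hv'
    have h7 : ∑ u ∈ J, a v u * (starRingEnd ℂ) (a v' u) =
        (c v * (starRingEnd ℂ) (c v') * (starRingEnd ℂ) (ee (ξ v' * (s * (v' - v) : ℤ)))) *
          cor N g (s * (v' - v)) (ξ v - ξ v') := by
      have h8 : ∑ u ∈ J, a v u * (starRingEnd ℂ) (a v' u) =
          ∑ y ∈ I, a v (y + (h - s * v)) * (starRingEnd ℂ) (a v' (y + (h - s * v))) := by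
        refine Finset.sum_bij_ne_zero (fun u _ _ => u - (h - s * v)) ?_ ?_ ?_ ?_
        · intro u _ hu2
          have h9 : g (u - (h - s * v)) ≠ 0 := by
            intro h0
            apply hu2
            simp [ha, h0]
          rw [hI, Finset.mem_Icc]
          exact hg.2 _ h9
        · intro x _ _ y _ _ hxy
          exact sub_left_injective hxy
        · intro y hy hy2
          refine ⟨y + (h - s * v), ?_, hy2, by ring⟩
          rw [hJ]
          refine Finset.mem_union_right _ (Finset.mem_biUnion.2 ⟨v, hv, ?_⟩)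
          exact Finset.mem_image_of_mem (fun y => y + (h - s * v)) hy
        · intro u _ _
          rw [sub_add_cancel]
      rw [h8]
      unfold cor
      rw [Finset.mul_sum]
      refine Finset.sum_congr rfl fun y _ => ?_
      simp only [ha]
      have e1 : y + (h - s * v) - (h - s * v) = y := by ring
      have e2 : y + (h - s * v) - (h - s * v') = y + s * (v' - v) := by ring
      rw [e1, e2]
      have e3 : ee (ξ v * (y : ℝ)) * (starRingEnd ℂ) (ee (ξ v' * ((y + s * (v' - v) : ℤ) : ℝ))) =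
          (starRingEnd ℂ) (ee (ξ v' * ((s * (v' - v) : ℤ) : ℝ))) * ee ((ξ v - ξ v') * (y : ℝ)) := by
        rw [← ee_neg, ← ee_neg, ← ee_add, ← ee_add]
        congr 1
        push_cast
        ring
      simp only [map_mul]
      linear_combination (c v * (starRingEnd ℂ) (c v') * g y * (starRingEnd ℂ) (g (y + s * (v' - v)))) * e3
    rw [h7, norm_mul]
    refine mul_le_of_le_one_left (norm_nonneg _) ?_
    rw [norm_mul, norm_mul, Complex.norm_conj, Complex.norm_conj, norm_ee, mul_one]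
    exact mul_le_one₀ (hc1 v) (norm_nonneg _) (hc1 v')
  -- step 3
  set L : Finset (ℤ × ℤ) := (V ×ˢ V).filter (fun p : ℤ × ℤ =>
    d ^ 2 / 2 * N ≤ ‖cor N g (s * (p.2 - p.1)) (ξ p.1 - ξ p.2)‖) with hL
  have h10 : ∑ v ∈ V, ∑ v' ∈ V, ‖cor N g (s * (v' - v)) (ξ v - ξ v')‖ ≤
      L.card * N + (V.card : ℝ) ^ 2 * (d ^ 2 / 2 * N) := by
    rw [← Finset.sum_product' V V (fun v v' => ‖cor N g (s * (v' - v)) (ξ v - ξ v')‖)]
    rw [← Finset.sum_filter_add_sum_filter_not (V ×ˢ V) (fun p : ℤ × ℤ =>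
      d ^ 2 / 2 * N ≤ ‖cor N g (s * (p.2 - p.1)) (ξ p.1 - ξ p.2)‖)]
    refine add_le_add ?_ ?_
    · calc ∑ p ∈ L, ‖cor N g (s * (p.2 - p.1)) (ξ p.1 - ξ p.2)‖ ≤ ∑ p ∈ L, (N : ℝ) :=
            Finset.sum_le_sum fun p _ => T5_cor_le N g hg _ _
        _ = L.card * N := by rw [Finset.sum_const, nsmul_eq_mul]
    · calc ∑ p ∈ (V ×ˢ V).filter (fun p : ℤ × ℤ =>
            ¬ d ^ 2 / 2 * N ≤ ‖cor N g (s * (p.2 - p.1)) (ξ p.1 - ξ p.2)‖),
              ‖cor N g (s * (p.2 - p.1)) (ξ p.1 - ξ p.2)‖ ≤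
            ∑ p ∈ (V ×ˢ V).filter (fun p : ℤ × ℤ =>
            ¬ d ^ 2 / 2 * N ≤ ‖cor N g (s * (p.2 - p.1)) (ξ p.1 - ξ p.2)‖), (d ^ 2 / 2 * N) := by
            refine Finset.sum_le_sum fun p hp => ?_
            have := (Finset.mem_filter.1 hp).2
            push Not at this
            exact this.le
        _ ≤ ∑ p ∈ V ×ˢ V, (d ^ 2 / 2 * N) :=
            Finset.sum_le_sum_of_subset_of_nonneg (Finset.filter_subset _ _) (fun p _ _ => by positivity)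
        _ = (V.card : ℝ) ^ 2 * (d ^ 2 / 2 * N) := by
            rw [Finset.sum_const, nsmul_eq_mul, Finset.card_product]
            push_cast
            ring
  have h11 : ((V.card : ℝ) * (d * N)) ^ 2 ≤ N * (L.card * N + (V.card : ℝ) ^ 2 * (d ^ 2 / 2 * N)) := by
    refine h4.trans (mul_le_mul_of_nonneg_left ?_ hNpos.le)
    refine (T5_sq J V a).trans (le_trans ?_ h10)
    exact Finset.sum_le_sum fun v hv => Finset.sum_le_sum fun v' hv' => h6 v hv v' hv'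
  have h12 : (N : ℝ) ^ 2 * (d ^ 2 / 2 * (V.card : ℝ) ^ 2) ≤ (N : ℝ) ^ 2 * L.card := by
    nlinarith
  exact le_of_mul_le_mul_left h12 (by positivity)

end Pool.Agent.APP.B
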