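import Pool.Agent.Lib.MP_8a4e59_co.B.AsB2
import Pool.Agent.Lib.MP_8a4e59_co.B.Ppar
import Pool.Agent.Lib.MP_8a4e59_co.B.PT1
import Pool.Agent.Lib.MP_8a4e59_co.B.PT3
import Pool.Agent.Lib.MP_8a4e59_co.B.PT4
import Pool.Agent.Lib.MP_8a4e59_co.B.PT5
import Pool.Agent.Lib.MP_8a4e59_co.B.PFI
import Pool.Agent.Lib.MP_8a4e59_co.B.P0a
import Pool.Agent.Lib.MP_8a4e59_co.B.P0b
import Pool.Agent.Lib.MP_8a4e59_co.B.P0
import Pool.Agent.Lib.MP_8a4e59_co.B.P1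
import Pool.Agent.Lib.MP_8a4e59_co.B.P2a
import Pool.Agent.Lib.MP_8a4e59_co.B.P2b
import Pool.Agent.Lib.MP_8a4e59_co.B.P2c
import Pool.Agent.Lib.MP_8a4e59_co.B.P2R
import Pool.Agent.Lib.MP_8a4e59_co.B.P3
import Pool.Agent.Lib.MP_8a4e59_co.B.P34
import Pool.Agent.Lib.MP_8a4e59_co.B.P4
import Pool.Agent.Lib.MP_8a4e59_co.B.P5
import Pool.Agent.Lib.MP_8a4e59_co.B.PII

set_option autoImplicit false

/-!
Part B: Theorem B from the `U²` lemma (everything else is proved).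
-/

namespace Pool.Agent.APP.B

theorem p_II' (hU2 : S_U2) : SB_II :=
  p_II (p_2a p_FI) p_2b p_2c (p_2R p_T1) p_2d
    (p_34 p_T3 (p_3 p_T2 p_T5) (p_4b p_T3 p_4a)) (p_5 p_T4) hU2

theorem thmB_of_U2 (hU2 : S_U2) : S_thmB :=
  thmB_of (p_0 p_0a (p_0b p_par)) p_1 (p_II' hU2) hU2 p_T3

end Pool.Agent.APP.B
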