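import Pool.Agent.Lib.MP_8a4e59_co.Basic
import Pool.Agent.Lib.MP_8a4e59_co.IfaceB

set_option autoImplicit false

/-!
MP_8a4e59_co, part B (Theorem B): common definitions.
-/

namespace Pool.Agent.APP.B

open Finset

/-- the progression `{x ∈ (u, v] : x ≡ a mod q}` -/
noncomputable def pr (q : ℕ) (a u v : ℤ) : Finset ℤ :=
  (Finset.Ioc u v).filter (fun x => (q : ℤ) ∣ x - a)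

/-- modulus of the exponential sum of `g` over the `j`-th interval of length `H` and the class `a`
modulo `q`, with the phase `ξ j a` -/
noncomputable def gam (q H : ℕ) (ξ : ℕ → ℕ → ℝ) (g : ℤ → ℂ) (j a : ℕ) : ℝ :=
  ‖∑ x ∈ pr q a ((j * H : ℕ) : ℤ) (((j + 1) * H : ℕ) : ℤ), g x * ee (ξ j a * x)‖

/-- large local linear correlations of `g` on progressions -/
def B12 (K : ℕ) (δ : ℝ) (N q₀ : ℕ) (X₁ : ℝ) (g : ℤ → ℂ) : Prop :=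
  ∃ (q H : ℕ) (ξ : ℕ → ℕ → ℝ), 1 ≤ q ∧ (q : ℝ) ≤ (1 / δ) ^ K * (q₀ * X₁) ∧ δ ^ K * N ≤ H ∧ H ≤ N ∧
    δ ^ K * (N * H / q) ≤ ∑ j ∈ range (N / H + 1), ∑ a ∈ range q, gam q H ξ g j a ^ 2

/-- `g` is bounded by `1` and supported in `[1, N]` -/
def Bd (N : ℕ) (g : ℤ → ℂ) : Prop := (∀ n, ‖g n‖ ≤ 1) ∧ ∀ n, g n ≠ 0 → 1 ≤ n ∧ n ≤ N

/-- correlation of `g` with its shift by `a`, with the phase `ξ` -/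
noncomputable def cor (N : ℕ) (g : ℤ → ℂ) (a : ℤ) (ξ : ℝ) : ℂ :=
  ∑ x ∈ Finset.Icc (1 : ℤ) N, g x * (starRingEnd ℂ) (g (x + a)) * ee (ξ * x)

/-- many `h` for which `n ↦ g n * conj (g (n+h))` correlates with `e(φ h n / (4N))` -/
def B0p (d : ℝ) (N : ℕ) (g : ℤ → ℂ) (H₀ : Finset ℤ) (φ : ℤ → ℕ) : Prop :=
  (∀ h ∈ H₀, |h| ≤ N) ∧ d * N ≤ H₀.card ∧ ∀ h ∈ H₀, d * N ≤ ‖cor N g h (φ h / (4 * N))‖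

/-- a type I piece in the role of the first `g` -/
def TI (d δ : ℝ) (N q₀ m : ℕ) (g : ℤ → ℂ) (H₀ : Finset ℤ) (φ : ℤ → ℕ) (w c : ℤ → ℂ) : Prop :=
  TypeI δ N q₀ m w ∧ (∀ h, ‖c h‖ ≤ 1) ∧
    d * (N ^ 2 / m) ≤ ‖∑ h ∈ H₀, c h * ∑ n ∈ Finset.Icc (1 : ℤ) N,
      w n * (starRingEnd ℂ) (g (n + h)) * ee (φ h / (4 * N) * n)‖

/-- a type II piece in the role of the first `g` -/
def TII (d δ : ℝ) (N M : ℕ) (g : ℤ → ℂ) (H₀ : Finset ℤ) (φ : ℤ → ℕ) (a b : ℕ → ℂ) (c : ℤ → ℂ) :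
    Prop :=
  (∀ h, ‖c h‖ ≤ 1) ∧
    d * (N : ℝ) ^ 2 ≤ ‖∑ h ∈ H₀, c h * ∑ n ∈ Finset.Icc (1 : ℤ) N,
      (if δ * N ≤ (n : ℝ) then typeII M a b n else 0) * (starRingEnd ℂ) (g (n + h)) *
        ee (φ h / (4 * N) * n)‖

/-- a large linear correlation of `g` on one progression with a class coprime to the modulus -/
def One (K : ℕ) (δ : ℝ) (N q₀ : ℕ) (X₁ : ℝ) (g : ℤ → ℂ) : Prop :=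
  ∃ (q H : ℕ) (a u : ℤ) (ξ : ℝ), 1 ≤ q ∧ (q : ℝ) ≤ (1 / δ) ^ K * (q₀ * X₁) ∧ δ ^ K * N ≤ H ∧
    0 ≤ u ∧ u + H ≤ N ∧ Int.gcd a q = 1 ∧
    δ ^ K * (H / q) ≤ ‖∑ x ∈ pr q a u (u + H), g x * ee (ξ * x)‖

/-- the conclusion of Theorem B -/
def Concl (K : ℕ) (δ : ℝ) (N : ℕ) (Y : ℝ) (g : ℤ → ℂ) : Prop :=
  ∃ (q H : ℕ) (a u : ℤ), 1 ≤ q ∧ (q : ℝ) ≤ Y ∧ (N : ℝ) / Y ≤ H ∧ 0 ≤ u ∧ u + H ≤ N ∧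
    Int.gcd a q = 1 ∧
    δ ^ K * (H / q) ≤ ‖∑ x ∈ (Finset.Ioc u (u + H)).filter (fun x => (q : ℤ) ∣ x - a), g x‖

/-- [8a U2] step 6, the `U²` lemma (helper29). -/
def S_U2 : Prop := ∃ K : ℕ, ∀ (δ : ℝ) (N q H Na W₀ : ℕ) (g : ℤ → ℂ) (h : ℤ) (lam : ℝ)
    (AA : Finset ℤ) (ξ : ℤ → ℝ), 0 < δ → δ ≤ 1 / 2 → Bd N g → 1 ≤ W₀ → W₀ ∣ q → 1 ≤ q → H ≤ Na →
    Na ≤ N → (1 / δ) ^ K * q ≤ H → (∀ a ∈ AA, (W₀ : ℤ) ∣ a - h ∧ |a - h| ≤ Na) →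
    δ * (Na / W₀) ≤ AA.card →
    (∀ a ∈ AA, δ * N ≤ ‖cor N g a (ξ a)‖ ∧ nn (q * (ξ a - lam)) ≤ δ * q / (20 * H)) →
    ∃ Ξ : ℕ → ℕ → ℝ, δ ^ K * (N * H / q) ≤
      ∑ j ∈ range (N / H + 1), ∑ a ∈ range q, gam q H Ξ g j a ^ 2

/-- [8a B7] step 7: type I pieces. -/
def S_7 : Prop := ∃ K : ℕ, ∀ (d δ : ℝ) (N q₀ m : ℕ) (X₁ : ℝ) (g : ℤ → ℂ) (H₀ : Finset ℤ)
    (φ : ℤ → ℕ) (w c : ℤ → ℂ), 0 < d → d ≤ δ → δ ≤ 1 / 2 → 1 ≤ q₀ → 1 ≤ m → (m : ℝ) ≤ X₁ → Bd N g →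
    B0p d N g H₀ φ → TI d δ N q₀ m g H₀ φ w c → (q₀ * X₁ / d) ^ K ≤ N → B12 K d N q₀ X₁ g

/-- [8a B8] step 8: one progression with a coprime class. -/
def S_8 : Prop := ∀ K₁ : ℕ, ∃ K : ℕ, ∀ (δ : ℝ) (N q₀ : ℕ) (X₁ Y : ℝ) (g : ℤ → ℂ), 0 < δ → δ ≤ 1 / 2 →
    1 ≤ q₀ → 1 ≤ X₁ → Bd N g → B12 K₁ δ N q₀ X₁ g → ZZ (δ ^ K) Y N g → (q₀ * X₁ / δ) ^ K ≤ Y →
    Y ≤ N → One K δ N q₀ X₁ g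

/-- [8a B9] step 9: from a linear phase to no phase, with the second decomposition. -/
def S_9 : Prop := ∀ K₁ : ℕ, ∃ K : ℕ, ∀ (δ : ℝ) (N q₀ : ℕ) (X₁ X₂ V₂ Y : ℝ) (g : ℤ → ℂ), 0 < δ →
    δ ≤ 1 / 2 → 1 ≤ q₀ → 1 ≤ X₁ → 1 ≤ X₂ → Bd N g → One K₁ δ N q₀ X₁ g →
    Dec δ N q₀ X₂ V₂ ((δ / (q₀ * X₁)) ^ K) g → ZZ (δ ^ K) Y N g → (q₀ * X₁ / δ) ^ K ≤ V₂ →
    (q₀ * X₁ * X₂ * V₂ / δ) ^ K ≤ Y → Y ^ K ≤ N → Concl K δ N Y g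

end Pool.Agent.APP.B
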