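import Pool.Agent.Lib.MP_8a4e59_co.B.StmA

set_option autoImplicit false

/-!
MP_8a4e59_co, part B, step 1: one of the pieces correlates.
-/

namespace Pool.Agent.APP.B

open Finset

private lemma p1_unit (z : ℂ) : ∃ c : ℂ, ‖c‖ ≤ 1 ∧ c * z = (‖z‖ : ℂ) := by
  rcases eq_or_ne z 0 with h | h
  · exact ⟨0, by simp, by simp [h]⟩
  · have hz : (‖z‖ : ℂ) ≠ 0 := by
      have := norm_pos_iff.2 h
      exact_mod_cast this.ne'
    refine ⟨(starRingEnd ℂ) z / ‖z‖, ?_, ?_⟩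
    · rw [norm_div, RCLike.norm_conj, Complex.norm_real, norm_norm]
      exact div_self_le_one _
    · rw [div_mul_eq_mul_div, div_eq_iff hz, mul_comm, Complex.mul_conj, Complex.normSq_eq_norm_sq]
      push_cast
      ring

/-- the dual function -/
private noncomputable def p1K (N : ℕ) (g : ℤ → ℂ) (H0 : Finset ℤ) (φ : ℤ → ℕ) (c : ℤ → ℂ) (n : ℤ) :
    ℂ := ∑ h ∈ H0, c h * ((starRingEnd ℂ) (g (n + h)) * ee (φ h / (4 * N) * n))

private lemma p1_eq (N : ℕ) (g : ℤ → ℂ) (H0 : Finset ℤ) (φ : ℤ → ℕ) (c F : ℤ → ℂ) :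
    ∑ h ∈ H0, c h * ∑ n ∈ Finset.Icc (1 : ℤ) N,
      F n * (starRingEnd ℂ) (g (n + h)) * ee (φ h / (4 * N) * n) =
    ∑ n ∈ Finset.Icc (1 : ℤ) N, F n * p1K N g H0 φ c n := by
  unfold p1K
  simp only [Finset.mul_sum]
  rw [Finset.sum_comm]
  refine Finset.sum_congr rfl (fun n _ => Finset.sum_congr rfl (fun h _ => ?_))
  ring

theorem p_1 : SB_1 := by
  intro δ d ε X V N q₀ g H0 φ hδ hd hN hg hB hDec hε
  obtain ⟨hB1, hB2, hB3⟩ := hB
  obtain ⟨n₁, n₂, m, lam, w, M, mu, a, b, err, hI, hlam, hmu, hmus, hII, herr, hdec⟩ := hDec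
  have hNr : (0 : ℝ) < N := by exact_mod_cast hN
  have hNr1 : (1 : ℝ) ≤ N := by exact_mod_cast hN
  choose c hc1 hc2 using fun h : ℤ => p1_unit (cor N g h (φ h / (4 * N)))
  -- cardinality
  have hcard : (H0.card : ℝ) ≤ 3 * N := by
    have h1 : H0 ⊆ Finset.Icc (-(N : ℤ)) N := by
      intro h hh
      rw [Finset.mem_Icc]
      exact abs_le.1 (hB1 h hh)
    have h2 := Finset.card_le_card h1
    rw [Int.card_Icc] at h2
    have h3 : H0.card ≤ 3 * N := by omega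
    exact_mod_cast h3
  have hK : ∀ n, ‖p1K N g H0 φ c n‖ ≤ 3 * N := by
    intro n
    unfold p1K
    refine (norm_sum_le _ _).trans ?_
    refine le_trans ?_ hcard
    have h1 : ∀ h ∈ H0, ‖c h * ((starRingEnd ℂ) (g (n + h)) * ee (φ h / (4 * N) * n))‖ ≤ 1 := by
      intro h _
      rw [norm_mul, norm_mul, norm_ee, mul_one, RCLike.norm_conj]
      exact mul_le_one₀ (hc1 h) (norm_nonneg _) (hg.1 _)
    refine (Finset.sum_le_sum h1).trans ?_
    simp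
  -- lower bound
  have hlow : d ^ 2 * (N : ℝ) ^ 2 ≤ ‖∑ n ∈ Finset.Icc (1 : ℤ) N, g n * p1K N g H0 φ c n‖ := by
    rw [← p1_eq]
    have h1 : ∑ h ∈ H0, c h * ∑ n ∈ Finset.Icc (1 : ℤ) N,
        g n * (starRingEnd ℂ) (g (n + h)) * ee (φ h / (4 * N) * n) =
        ((∑ h ∈ H0, ‖cor N g h (φ h / (4 * N))‖ : ℝ) : ℂ) := by
      rw [Complex.ofReal_sum]
      refine Finset.sum_congr rfl (fun h _ => ?_)
      rw [← hc2 h]
      rfl
    rw [h1, Complex.norm_real, Real.norm_eq_abs,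
      abs_of_nonneg (Finset.sum_nonneg (fun _ _ => norm_nonneg _))]
    have h2 := Finset.card_nsmul_le_sum H0 _ _ hB3
    rw [nsmul_eq_mul] at h2
    have h3 : d * N * (d * N) ≤ H0.card * (d * N) :=
      mul_le_mul_of_nonneg_right hB2 (by positivity)
    calc d ^ 2 * (N : ℝ) ^ 2 = d * N * (d * N) := by ring
      _ ≤ _ := h3.trans h2
  -- decomposition
  have hsum : ∑ n ∈ Finset.Icc (1 : ℤ) N, g n * p1K N g H0 φ c n =
      ∑ i, (lam i : ℂ) * ∑ n ∈ Finset.Icc (1 : ℤ) N, w i n * p1K N g H0 φ c n +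
      ∑ j, (mu j : ℂ) * ∑ n ∈ Finset.Icc (1 : ℤ) N,
        (if δ * N ≤ (n : ℝ) then typeII (M j) (a j) (b j) n else 0) * p1K N g H0 φ c n +
      ∑ n ∈ Finset.Icc (1 : ℤ) N, err n * p1K N g H0 φ c n := by
    have h1 : ∀ n ∈ Finset.Icc (1 : ℤ) N, g n * p1K N g H0 φ c n =
        ∑ i, (lam i : ℂ) * (w i n * p1K N g H0 φ c n) +
        ∑ j, (mu j : ℂ) * ((if δ * N ≤ (n : ℝ) then typeII (M j) (a j) (b j) n else 0) *
          p1K N g H0 φ c n) + err n * p1K N g H0 φ c n := by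
      intro n hn
      rw [hdec n hn, add_mul, add_mul, Finset.sum_mul]
      congr 1
      congr 1
      · exact Finset.sum_congr rfl (fun i _ => by ring)
      · split_ifs
        · rw [Finset.sum_mul]
          exact Finset.sum_congr rfl (fun i _ => by ring)
        · simp
    rw [Finset.sum_congr rfl h1, Finset.sum_add_distrib, Finset.sum_add_distrib]
    simp only [Finset.mul_sum]
    rw [Finset.sum_comm, Finset.sum_comm (s := Finset.Icc (1 : ℤ) N) (t := Finset.univ)]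
  have herrb : ‖∑ n ∈ Finset.Icc (1 : ℤ) N, err n * p1K N g H0 φ c n‖ ≤
      3 / 8 * (d ^ 2 * (N : ℝ) ^ 2) := by
    calc ‖∑ n ∈ Finset.Icc (1 : ℤ) N, err n * p1K N g H0 φ c n‖
        ≤ ∑ n ∈ Finset.Icc (1 : ℤ) N, ‖err n‖ * (3 * N) := by
          refine (norm_sum_le _ _).trans (Finset.sum_le_sum (fun n _ => ?_))
          rw [norm_mul]
          exact mul_le_mul_of_nonneg_left (hK n) (norm_nonneg _)
      _ = (∑ n ∈ Finset.Icc (1 : ℤ) N, ‖err n‖) * (3 * N) := by rw [Finset.sum_mul]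
      _ ≤ (ε * N) * (3 * N) := mul_le_mul_of_nonneg_right herr (by positivity)
      _ ≤ (d ^ 2 / 8 * N) * (3 * N) := by
          apply mul_le_mul_of_nonneg_right _ (by positivity)
          exact mul_le_mul_of_nonneg_right hε hNr.le
      _ = 3 / 8 * (d ^ 2 * (N : ℝ) ^ 2) := by ring
  by_contra hcon
  rw [not_or] at hcon
  obtain ⟨hc₁, hc₂⟩ := hcon
  have hT1 : ∀ i, ‖∑ n ∈ Finset.Icc (1 : ℤ) N, w i n * p1K N g H0 φ c n‖ ≤
      δ * d ^ 2 / 4 * (N ^ 2 / m i) := by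
    intro i
    by_contra h1
    apply hc₁
    refine ⟨m i, w i, c, (hI i).1, (hI i).2.1, (hI i).2.2.2, hc1, ?_⟩
    rw [p1_eq]
    exact (not_le.1 h1).le
  have hT2 : ∀ j, ‖∑ n ∈ Finset.Icc (1 : ℤ) N,
      (if δ * N ≤ (n : ℝ) then typeII (M j) (a j) (b j) n else 0) * p1K N g H0 φ c n‖ ≤
      δ * d ^ 2 / 4 * (N : ℝ) ^ 2 := by
    intro j
    by_contra h1
    apply hc₂
    refine ⟨M j, a j, b j, c, (hII j).1, (hII j).2.1, (hII j).2.2.1, (hII j).2.2.2, hc1, ?_⟩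
    rw [p1_eq N g H0 φ c (fun n => if δ * N ≤ (n : ℝ) then typeII (M j) (a j) (b j) n else 0)]
    exact (not_le.1 h1).le
  have hS1 : ‖∑ i, (lam i : ℂ) * ∑ n ∈ Finset.Icc (1 : ℤ) N, w i n * p1K N g H0 φ c n‖ ≤
      1 / 4 * (d ^ 2 * (N : ℝ) ^ 2) := by
    calc ‖∑ i, (lam i : ℂ) * ∑ n ∈ Finset.Icc (1 : ℤ) N, w i n * p1K N g H0 φ c n‖
        ≤ ∑ i, lam i / m i * (δ * d ^ 2 / 4 * (N : ℝ) ^ 2) := by
          refine (norm_sum_le _ _).trans (Finset.sum_le_sum (fun i _ => ?_))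
          rw [norm_mul, Complex.norm_real, Real.norm_eq_abs, abs_of_nonneg (hI i).2.2.1]
          refine (mul_le_mul_of_nonneg_left (hT1 i) (hI i).2.2.1).trans_eq ?_
          ring
      _ = (∑ i, lam i / m i) * (δ * d ^ 2 / 4 * (N : ℝ) ^ 2) := by rw [Finset.sum_mul]
      _ ≤ 1 / δ * (δ * d ^ 2 / 4 * (N : ℝ) ^ 2) :=
          mul_le_mul_of_nonneg_right hlam (by positivity)
      _ = 1 / 4 * (d ^ 2 * (N : ℝ) ^ 2) := by field_simp
  have hS2 : ‖∑ j, (mu j : ℂ) * ∑ n ∈ Finset.Icc (1 : ℤ) N,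
        (if δ * N ≤ (n : ℝ) then typeII (M j) (a j) (b j) n else 0) * p1K N g H0 φ c n‖ ≤
      1 / 4 * (d ^ 2 * (N : ℝ) ^ 2) := by
    calc ‖∑ j, (mu j : ℂ) * ∑ n ∈ Finset.Icc (1 : ℤ) N,
        (if δ * N ≤ (n : ℝ) then typeII (M j) (a j) (b j) n else 0) * p1K N g H0 φ c n‖
        ≤ ∑ j, mu j * (δ * d ^ 2 / 4 * (N : ℝ) ^ 2) := by
          refine (norm_sum_le _ _).trans (Finset.sum_le_sum (fun j _ => ?_))
          rw [norm_mul, Complex.norm_real, Real.norm_eq_abs, abs_of_nonneg (hmu j)]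
          exact mul_le_mul_of_nonneg_left (hT2 j) (hmu j)
      _ = (∑ j, mu j) * (δ * d ^ 2 / 4 * (N : ℝ) ^ 2) := by rw [Finset.sum_mul]
      _ ≤ 1 / δ * (δ * d ^ 2 / 4 * (N : ℝ) ^ 2) :=
          mul_le_mul_of_nonneg_right hmus (by positivity)
      _ = 1 / 4 * (d ^ 2 * (N : ℝ) ^ 2) := by field_simp
  rw [hsum] at hlow
  have h5 := norm_add₃_le (a := ∑ i, (lam i : ℂ) * ∑ n ∈ Finset.Icc (1 : ℤ) N,
      w i n * p1K N g H0 φ c n)
    (b := ∑ j, (mu j : ℂ) * ∑ n ∈ Finset.Icc (1 : ℤ) N,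
        (if δ * N ≤ (n : ℝ) then typeII (M j) (a j) (b j) n else 0) * p1K N g H0 φ c n)
    (c := ∑ n ∈ Finset.Icc (1 : ℤ) N, err n * p1K N g H0 φ c n)
  have hpos : 0 < d ^ 2 * (N : ℝ) ^ 2 := by positivity
  linarith

end Pool.Agent.APP.B
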