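/-
MP_8a4e59_co, part B, piece S7 (helper81): type II, expanding the square.
-/
import Pool.Agent.Lib.MP_8a4e59_co.B.StmS

set_option autoImplicit false

namespace Pool.Agent.APP.B

open Finset

private noncomputable def t2 (δ ξ : ℝ) (N q H M : ℕ) (a u n n' : ℤ) : ℝ :=
  ‖∑ m ∈ (Finset.Ico (M : ℤ) (2 * M)).filter (fun m => m * n ∈ prc δ N q a u (u + H) ∧
     m * n' ∈ prc δ N q a u (u + H)), ee (ξ * (m * ((n : ℝ) - n')))‖

private lemma t2_near {δ : ℝ} {N q H M : ℕ} {a u n n' m : ℤ} (hq : 1 ≤ q) (hM : 1 ≤ M)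
    (ha : Int.gcd a q = 1) (hm : (M : ℤ) ≤ m) (h1 : m * n ∈ prc δ N q a u (u + H))
    (h2 : m * n' ∈ prc δ N q a u (u + H)) :
    ∃ s ∈ Finset.Icc (-((H / (q * M) : ℕ) : ℤ)) ((H / (q * M) : ℕ) : ℤ), n' = n + q * s := by
  unfold prc pr at h1 h2
  rw [Finset.mem_filter, Finset.mem_filter, Finset.mem_Ioc] at h1 h2
  obtain ⟨⟨⟨h3, h4⟩, h5⟩, -⟩ := h1
  obtain ⟨⟨⟨h6, h7⟩, h8⟩, -⟩ := h2
  have hco : IsCoprime (q : ℤ) m := by
    obtain ⟨x, y, hxy⟩ := Int.isCoprime_iff_gcd_eq_one.2 ha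
    obtain ⟨c, hc⟩ := h5
    refine ⟨y - x * c, x * n, ?_⟩
    have : a = m * n - q * c := by linarith
    rw [this] at hxy
    linear_combination hxy
  have hdvd : (q : ℤ) ∣ m * (n' - n) := by
    have := dvd_sub h8 h5
    have e : m * n' - a - (m * n - a) = m * (n' - n) := by ring
    rwa [e] at this
  obtain ⟨s, hs⟩ := hco.dvd_of_dvd_mul_left hdvd
  have hs' : n' = n + q * s := by linarith
  refine ⟨s, ?_, hs'⟩
  have hM' : (1 : ℤ) ≤ M := by exact_mod_cast hM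
  have hq' : (1 : ℤ) ≤ q := by exact_mod_cast hq
  have habs : |s| * (q * M) ≤ H := by
    have e1 : |m * n' - m * n| ≤ H := by
      rw [abs_le]; constructor <;> linarith
    have e2 : m * n' - m * n = m * (q * s) := by rw [hs']; ring
    rw [e2, abs_mul, abs_mul, abs_of_nonneg (by linarith : 0 ≤ m),
      abs_of_nonneg (by linarith : (0 : ℤ) ≤ q)] at e1
    have e3 : 0 ≤ (q : ℤ) * |s| := by positivity
    nlinarith
  have hnat : s.natAbs ≤ H / (q * M) := by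
    rw [Nat.le_div_iff_mul_le (by positivity)]
    have e4 : ((s.natAbs * (q * M) : ℕ) : ℤ) ≤ (H : ℤ) := by
      push_cast
      exact habs
    exact_mod_cast e4
  rw [Finset.mem_Icc]
  have e5 : |s| ≤ ((H / (q * M) : ℕ) : ℤ) := by
    rw [← Int.natCast_natAbs]
    exact_mod_cast hnat
  rw [abs_le] at e5
  exact e5

private lemma t2_eq (δ ξ : ℝ) (N q H M : ℕ) (a u n s : ℤ) :
    t2 δ ξ N q H M a u n (n + q * s) = inn δ ξ N q H M a u n s := by
  unfold t2 inn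
  rw [← Complex.norm_conj, map_sum]
  congr 1
  refine Finset.sum_congr rfl fun m _ => ?_
  rw [← ee_neg]
  congr 1
  push_cast
  ring

private lemma inn_nonneg (δ ξ : ℝ) (N q H M : ℕ) (a u n s : ℤ) :
    0 ≤ inn δ ξ N q H M a u n s := norm_nonneg _

private lemma t2_row {δ ξ : ℝ} {N q H M : ℕ} {a u : ℤ} (hq : 1 ≤ q) (hM : 1 ≤ M)
    (ha : Int.gcd a q = 1) (n : ℤ) (I : Finset ℤ) :
    ∑ n' ∈ I, t2 δ ξ N q H M a u n n' ≤
      ∑ s ∈ Finset.Icc (-((H / (q * M) : ℕ) : ℤ)) ((H / (q * M) : ℕ) : ℤ),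
        inn δ ξ N q H M a u n s := by
  classical
  have hq' : (1 : ℤ) ≤ q := by exact_mod_cast hq
  have hkey : ∀ n', t2 δ ξ N q H M a u n n' ≠ 0 →
      ∃ s ∈ Finset.Icc (-((H / (q * M) : ℕ) : ℤ)) ((H / (q * M) : ℕ) : ℤ), n' = n + q * s := by
    intro n' hne
    by_contra hcon
    apply hne
    unfold t2
    have hempty : (Finset.Ico (M : ℤ) (2 * M)).filter (fun m => m * n ∈ prc δ N q a u (u + H) ∧
        m * n' ∈ prc δ N q a u (u + H)) = ∅ := by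
      rw [Finset.filter_eq_empty_iff]
      intro m hm h
      exact hcon (t2_near hq hM ha (Finset.mem_Ico.1 hm).1 h.1 h.2)
    rw [hempty]
    simp
  have h1 : ∑ n' ∈ I, t2 δ ξ N q H M a u n n' =
      ∑ n' ∈ I.filter (fun n' => t2 δ ξ N q H M a u n n' ≠ 0), t2 δ ξ N q H M a u n n' := by
    rw [Finset.sum_filter_ne_zero]
  have hval : ∀ n' ∈ I.filter (fun n' => t2 δ ξ N q H M a u n n' ≠ 0),
      (n' - n) / q ∈ Finset.Icc (-((H / (q * M) : ℕ) : ℤ)) ((H / (q * M) : ℕ) : ℤ) ∧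
      n' = n + q * ((n' - n) / q) := by
    intro n' hn'
    obtain ⟨s, hs, e⟩ := hkey n' (Finset.mem_filter.1 hn').2
    have e2 : (n' - n) / q = s := by
      rw [e, add_sub_cancel_left]
      exact Int.mul_ediv_cancel_left s (by omega)
    rw [e2]
    exact ⟨hs, e⟩
  have hinj : Set.InjOn (fun n' : ℤ => (n' - n) / (q : ℤ))
      (I.filter (fun n' => t2 δ ξ N q H M a u n n' ≠ 0) : Finset ℤ) := by
    intro x hx y hy hxy
    have e1 := (hval x hx).2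
    have e2 := (hval y hy).2
    have e3 : (x - n) / (q : ℤ) = (y - n) / q := hxy
    rw [e1, e2, e3]
  calc ∑ n' ∈ I, t2 δ ξ N q H M a u n n'
      = ∑ n' ∈ I.filter (fun n' => t2 δ ξ N q H M a u n n' ≠ 0),
          inn δ ξ N q H M a u n ((n' - n) / q) := by
        rw [h1]
        refine Finset.sum_congr rfl fun n' hn' => ?_
        rw [← t2_eq, ← (hval n' hn').2]
    _ = ∑ s ∈ (I.filter (fun n' => t2 δ ξ N q H M a u n n' ≠ 0)).image
          (fun n' : ℤ => (n' - n) / (q : ℤ)), inn δ ξ N q H M a u n s := by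
        rw [Finset.sum_image hinj]
    _ ≤ _ := by
        refine Finset.sum_le_sum_of_subset_of_nonneg ?_ fun s _ _ => inn_nonneg _ _ _ _ _ _ _ _ _ _
        intro s hs
        rw [Finset.mem_image] at hs
        obtain ⟨n', hn', rfl⟩ := hs
        exact (hval n' hn').1

private lemma t2_pair {δ ξ : ℝ} {N q H M : ℕ} {a u : ℤ} {β : ℕ → ℂ} (hδ : 0 < δ)
    (hβ : ∀ k, ‖β k‖ ≤ 1 / δ) (n n' : ℤ) :
    ‖∑ m ∈ Finset.Ico (M : ℤ) (2 * M),
      (if m * n ∈ prc δ N q a u (u + H) then β n.toNat * ee (ξ * (m * n)) else 0) *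
      (starRingEnd ℂ) (if m * n' ∈ prc δ N q a u (u + H) then β n'.toNat * ee (ξ * (m * n'))
        else 0)‖ ≤ (1 / δ) ^ 2 * t2 δ ξ N q H M a u n n' := by
  classical
  have e1 : ∑ m ∈ Finset.Ico (M : ℤ) (2 * M),
      (if m * n ∈ prc δ N q a u (u + H) then β n.toNat * ee (ξ * (m * n)) else 0) *
      (starRingEnd ℂ) (if m * n' ∈ prc δ N q a u (u + H) then β n'.toNat * ee (ξ * (m * n'))
        else 0) = β n.toNat * (starRingEnd ℂ) (β n'.toNat) *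
      ∑ m ∈ (Finset.Ico (M : ℤ) (2 * M)).filter (fun m => m * n ∈ prc δ N q a u (u + H) ∧
        m * n' ∈ prc δ N q a u (u + H)), ee (ξ * (m * ((n : ℝ) - n'))) := by
    rw [Finset.mul_sum, Finset.sum_filter]
    refine Finset.sum_congr rfl fun m _ => ?_
    by_cases h1 : m * n ∈ prc δ N q a u (u + H)
    · by_cases h2 : m * n' ∈ prc δ N q a u (u + H)
      · rw [if_pos h1, if_pos h2, if_pos ⟨h1, h2⟩]
        have e2 : ξ * ((m : ℝ) * ((n : ℝ) - n')) = ξ * (m * n) - ξ * (m * n') := by ring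
        rw [e2, ee_sub, map_mul]
        ring
      · simp [h2]
    · simp [h1]
  rw [e1, norm_mul, norm_mul, Complex.norm_conj]
  refine mul_le_mul_of_nonneg_right ?_ (norm_nonneg _)
  rw [pow_two]
  exact mul_le_mul (hβ _) (hβ _) (norm_nonneg _) (by positivity)

theorem p_9a2 : S_9a2 := by
  intro δ ξ N q H M a u β hδ hq hM ha hβ
  set f : ℤ → ℤ → ℂ := fun m n =>
    if m * n ∈ prc δ N q a u (u + H) then β n.toNat * ee (ξ * (m * n)) else 0 with hf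
  set I := Finset.Icc (1 : ℤ) ((N / M : ℕ) : ℤ) with hI
  have hsq : ∀ m, ((‖∑ n ∈ I, f m n‖ ^ 2 : ℝ) : ℂ) =
      ∑ n ∈ I, ∑ n' ∈ I, f m n * (starRingEnd ℂ) (f m n') := by
    intro m
    rw [← Complex.normSq_eq_norm_sq, ← Complex.mul_conj, map_sum, Finset.sum_mul_sum]
  have htot : ((∑ m ∈ Finset.Ico (M : ℤ) (2 * M), ‖∑ n ∈ I, f m n‖ ^ 2 : ℝ) : ℂ) =
      ∑ n ∈ I, ∑ n' ∈ I, ∑ m ∈ Finset.Ico (M : ℤ) (2 * M),
        f m n * (starRingEnd ℂ) (f m n') := by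
    push_cast
    calc ∑ m ∈ Finset.Ico (M : ℤ) (2 * M), ((‖∑ n ∈ I, f m n‖ : ℝ) : ℂ) ^ 2
        = ∑ m ∈ Finset.Ico (M : ℤ) (2 * M), ∑ n ∈ I, ∑ n' ∈ I,
            f m n * (starRingEnd ℂ) (f m n') := by
          refine Finset.sum_congr rfl fun m _ => ?_
          rw [← hsq m]; push_cast; rfl
      _ = _ := by
          rw [Finset.sum_comm]
          refine Finset.sum_congr rfl fun n _ => ?_
          rw [Finset.sum_comm]
  have hnn : 0 ≤ ∑ m ∈ Finset.Ico (M : ℤ) (2 * M), ‖∑ n ∈ I, f m n‖ ^ 2 :=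
    Finset.sum_nonneg fun _ _ => by positivity
  calc ∑ m ∈ Finset.Ico (M : ℤ) (2 * M), ‖∑ n ∈ I, f m n‖ ^ 2
      = ‖((∑ m ∈ Finset.Ico (M : ℤ) (2 * M), ‖∑ n ∈ I, f m n‖ ^ 2 : ℝ) : ℂ)‖ := by
        rw [Complex.norm_real, Real.norm_eq_abs, abs_of_nonneg hnn]
    _ = ‖∑ n ∈ I, ∑ n' ∈ I, ∑ m ∈ Finset.Ico (M : ℤ) (2 * M),
        f m n * (starRingEnd ℂ) (f m n')‖ := by rw [htot]
    _ ≤ ∑ n ∈ I, ∑ n' ∈ I, ‖∑ m ∈ Finset.Ico (M : ℤ) (2 * M),
        f m n * (starRingEnd ℂ) (f m n')‖ :=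
        (norm_sum_le _ _).trans (Finset.sum_le_sum fun n _ => norm_sum_le _ _)
    _ ≤ ∑ n ∈ I, ∑ n' ∈ I, (1 / δ) ^ 2 * t2 δ ξ N q H M a u n n' :=
        Finset.sum_le_sum fun n _ => Finset.sum_le_sum fun n' _ => t2_pair hδ hβ n n'
    _ = (1 / δ) ^ 2 * ∑ n ∈ I, ∑ n' ∈ I, t2 δ ξ N q H M a u n n' := by
        simp only [Finset.mul_sum]
    _ ≤ (1 / δ) ^ 2 * ∑ n ∈ I, ∑ s ∈ Finset.Icc (-((H / (q * M) : ℕ) : ℤ))
          ((H / (q * M) : ℕ) : ℤ), inn δ ξ N q H M a u n s :=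
        mul_le_mul_of_nonneg_left (Finset.sum_le_sum fun n _ => t2_row hq hM ha n I)
          (by positivity)

end Pool.Agent.APP.B
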